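import Mathlib

/-! Partitions as multisets of contents, standard tableaux as content sequences. -/

namespace Pool.Agent.P.MP_e72dc0_lc.Sn

open Finset
open scoped Classical

/-- `+1` on addable contents, `-1` on removable contents, `0` otherwise (for valid states). -/
def hh (μ : Multiset ℤ) (c : ℤ) : ℤ :=
  (if c = 0 then 1 else 0) + (μ.count (c - 1) : ℤ) + (μ.count (c + 1) : ℤ) - 2 * (μ.count c : ℤ)

/-- Occupation number of site `a` in the Maya diagram. -/
def eta (μ : Multiset ℤ) (a : ℤ) : ℤ :=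
  (if a < 0 then 1 else 0) + (μ.count a : ℤ) - (μ.count (a + 1) : ℤ)

/-- The multiset is the content multiset of a partition. -/
def Valid (μ : Multiset ℤ) : Prop := ∀ a, eta μ a = 0 ∨ eta μ a = 1

/-- A finite set containing the support of `hh μ`. -/
def supp3 (μ : Multiset ℤ) : Finset ℤ :=
  insert 0 (μ.toFinset.biUnion fun b => {b - 1, b, b + 1})

/-- Addable contents. -/
def add (μ : Multiset ℤ) : Finset ℤ := (supp3 μ).filter fun c => hh μ c = 1

/-- Removable contents. -/
def rem (μ : Multiset ℤ) : Finset ℤ := μ.toFinset.filter fun c => hh μ c = -1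

/-- State after `k` steps. -/
def st (t : ℕ → ℤ) (k : ℕ) : Multiset ℤ := (Multiset.range k).map t

/-- Standard tableaux with `n` boxes, as content sequences padded by zeros. -/
noncomputable def Std : ℕ → Finset (ℕ → ℤ)
  | 0 => {0}
  | n + 1 => (Std n).biUnion fun t => (add (st t n)).image fun c => Function.update t n c

/-- Pairs of standard tableaux of the same shape. -/
noncomputable def pairs (n : ℕ) : Finset ((ℕ → ℤ) × (ℕ → ℤ)) :=
  (Std n ×ˢ Std n).filter fun p => st p.1 n = st p.2 n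

/-- The pairing of `hh μ` with a test function. -/
def Lam (μ : Multiset ℤ) (f : ℤ → ℤ) : ℤ :=
  f 0 + (μ.map fun b => f (b - 1) + f (b + 1) - 2 * f b).sum

/-- Signed count: same parity, below minus above. -/
def eps (μ : Multiset ℤ) (c : ℤ) : ℤ :=
  Lam μ fun x => if x % 2 = c % 2 then Int.sign (c - x) else 0

/-- Signed count: same parity, below. -/
def degStep (μ : Multiset ℤ) (c : ℤ) : ℤ :=
  Lam μ fun x => if x % 2 = c % 2 ∧ x < c then 1 else 0

/-- Signed count: same parity, different from `c`. -/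
def wStep (μ : Multiset ℤ) (c : ℤ) : ℤ :=
  Lam μ fun x => if x % 2 = c % 2 ∧ x ≠ c then 1 else 0

def ee (t : ℕ → ℤ) (n : ℕ) : ℤ := ∑ k ∈ range n, eps (st t k) (t k)
def dg (t : ℕ → ℤ) (n : ℕ) : ℤ := ∑ k ∈ range n, degStep (st t k) (t k)
def ww (t : ℕ → ℤ) (n : ℕ) : ℤ := ∑ k ∈ range n, wStep (st t k) (t k)

/-- Charge: number of even contents minus number of odd contents. -/
def dd (μ : Multiset ℤ) : ℤ := (μ.map fun c => if c % 2 = 0 then (1 : ℤ) else -1).sum

/-- Six times the normalised degree of the basis element attached to a pair. -/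
def D6 (n : ℕ) (p : (ℕ → ℤ) × (ℕ → ℤ)) : ℤ := 3 * (dg p.1 n + dg p.2 n) - 2 * ww p.1 n

lemma hh_eq_eta (μ : Multiset ℤ) (c : ℤ) : hh μ c = eta μ (c - 1) - eta μ c := by
  unfold hh eta
  rw [sub_add_cancel]
  split_ifs <;> omega

lemma hh_cons (μ : Multiset ℤ) (b c : ℤ) :
    hh (b ::ₘ μ) c = hh μ c + (if c = b + 1 then 1 else 0) + (if c = b - 1 then 1 else 0)
      - (if c = b then 2 else 0) := by
  unfold hh
  simp only [Multiset.count_cons]
  push_cast
  split_ifs <;> omega

lemma eta_cons (μ : Multiset ℤ) (b a : ℤ) :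
    eta (b ::ₘ μ) a = eta μ a + (if a = b then 1 else 0) - (if a = b - 1 then 1 else 0) := by
  unfold eta
  simp only [Multiset.count_cons]
  push_cast
  split_ifs <;> omega

lemma hh_zero (c : ℤ) : hh 0 c = if c = 0 then 1 else 0 := by simp [hh]

lemma valid_zero : Valid 0 := by
  intro a; unfold eta; split_ifs <;> simp

lemma Valid.hh_cases {μ : Multiset ℤ} (h : Valid μ) (c : ℤ) :
    hh μ c = 1 ∨ hh μ c = 0 ∨ hh μ c = -1 := by
  rw [hh_eq_eta]; rcases h (c - 1) with h1 | h1 <;> rcases h c with h2 | h2 <;> omega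

lemma Valid.hh_eq_one {μ : Multiset ℤ} (h : Valid μ) {c : ℤ} :
    hh μ c = 1 ↔ eta μ (c - 1) = 1 ∧ eta μ c = 0 := by
  rw [hh_eq_eta]; rcases h (c - 1) with h1 | h1 <;> rcases h c with h2 | h2 <;> omega

lemma Valid.hh_eq_neg_one {μ : Multiset ℤ} (h : Valid μ) {c : ℤ} :
    hh μ c = -1 ↔ eta μ (c - 1) = 0 ∧ eta μ c = 1 := by
  rw [hh_eq_eta]; rcases h (c - 1) with h1 | h1 <;> rcases h c with h2 | h2 <;> omega

lemma Valid.cons {μ : Multiset ℤ} (h : Valid μ) {c : ℤ} (hc : hh μ c = 1) : Valid (c ::ₘ μ) := by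
  intro a
  have h1 := h.hh_eq_one.1 hc
  rw [eta_cons]
  rcases h a with h2 | h2 <;> split_ifs <;> subst_vars <;> omega

lemma Valid.of_cons {μ : Multiset ℤ} {c : ℤ} (h : Valid (c ::ₘ μ)) (hc : hh (c ::ₘ μ) c = -1) :
    Valid μ ∧ hh μ c = 1 := by
  have h1 := h.hh_eq_neg_one.1 hc
  rw [eta_cons, eta_cons] at h1
  refine ⟨fun a => ?_, ?_⟩
  · have h2 := h a
    rw [eta_cons] at h2
    split_ifs at h1 h2 <;> subst_vars <;> omega
  · rw [hh_cons] at hc
    split_ifs at hc <;> omega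

lemma mem_supp3_of_ne {μ : Multiset ℤ} {c : ℤ} (h : hh μ c ≠ 0) : c ∈ supp3 μ := by
  by_contra hn
  apply h
  simp only [supp3, mem_insert, mem_biUnion, Multiset.mem_toFinset, mem_singleton, not_or,
    not_exists, not_and] at hn
  obtain ⟨h0, hb⟩ := hn
  have e1 : μ.count (c - 1) = 0 := Multiset.count_eq_zero.2 fun hm => (hb _ hm).2.2 (by ring)
  have e2 : μ.count (c + 1) = 0 := Multiset.count_eq_zero.2 fun hm => (hb _ hm).1 (by ring)
  have e3 : μ.count c = 0 := Multiset.count_eq_zero.2 fun hm => (hb _ hm).2.1 rfl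
  simp [hh, h0, e1, e2, e3]

lemma mem_add {μ : Multiset ℤ} {c : ℤ} : c ∈ add μ ↔ hh μ c = 1 := by
  unfold add
  rw [mem_filter]
  exact ⟨fun h => h.2, fun h => ⟨mem_supp3_of_ne (by omega), h⟩⟩

lemma mem_of_hh_neg {μ : Multiset ℤ} {c : ℤ} (h : hh μ c < 0) : c ∈ μ := by
  by_contra hn
  have e3 : μ.count c = 0 := Multiset.count_eq_zero.2 hn
  unfold hh at h
  split_ifs at h <;> omega

lemma mem_rem {μ : Multiset ℤ} {c : ℤ} : c ∈ rem μ ↔ hh μ c = -1 := by
  unfold rem
  rw [mem_filter, Multiset.mem_toFinset]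
  exact ⟨fun h => h.2, fun h => ⟨mem_of_hh_neg (by omega), h⟩⟩

@[simp] lemma st_zero (t : ℕ → ℤ) : st t 0 = 0 := by simp [st]

lemma st_succ (t : ℕ → ℤ) (k : ℕ) : st t (k + 1) = t k ::ₘ st t k := by
  simp [st, Multiset.range_succ]

@[simp] lemma card_st (t : ℕ → ℤ) (k : ℕ) : Multiset.card (st t k) = k := by simp [st]

lemma st_congr {s t : ℕ → ℤ} {k : ℕ} (h : ∀ j < k, s j = t j) : st s k = st t k := by
  unfold st
  exact Multiset.map_congr rfl fun j hj => h j (Multiset.mem_range.1 hj)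

lemma st_update (t : ℕ → ℤ) {n k : ℕ} (c : ℤ) (h : k ≤ n) :
    st (Function.update t n c) k = st t k :=
  st_congr fun j hj => Function.update_of_ne (by omega) _ _

lemma mem_st {t : ℕ → ℤ} {k : ℕ} {b : ℤ} : b ∈ st t k ↔ ∃ j < k, t j = b := by
  simp [st]

lemma mem_Std {n : ℕ} {t : ℕ → ℤ} :
    t ∈ Std n ↔ (∀ k < n, hh (st t k) (t k) = 1) ∧ ∀ k, n ≤ k → t k = 0 := by
  induction n generalizing t with
  | zero =>
    simp only [Std, mem_singleton, Nat.not_lt_zero, false_imp_iff, implies_true, true_and,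
      Nat.zero_le, forall_const]
    exact ⟨fun h k => by simp [h], fun h => funext h⟩
  | succ n ih =>
    simp only [Std, mem_biUnion, mem_image, mem_add]
    constructor
    · rintro ⟨s, hs, c, hc, rfl⟩
      obtain ⟨h1, h2⟩ := ih.1 hs
      refine ⟨fun k hk => ?_, fun k hk => ?_⟩
      · rw [st_update _ _ (by omega)]
        by_cases hkn : k = n
        · subst hkn; simpa using hc
        · rw [Function.update_of_ne hkn]; exact h1 k (by omega)
      · rw [Function.update_of_ne (by omega)]; exact h2 k (by omega)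
    · rintro ⟨h1, h2⟩
      refine ⟨Function.update t n 0, ih.2 ⟨fun k hk => ?_, fun k hk => ?_⟩, t n, ?_, ?_⟩
      · rw [st_update _ _ (by omega), Function.update_of_ne (by omega)]; exact h1 k (by omega)
      · by_cases hkn : k = n
        · subst hkn; simp
        · rw [Function.update_of_ne hkn]; exact h2 k (by omega)
      · rw [st_update _ _ le_rfl]; exact h1 n (by omega)
      · simp

lemma valid_st {n : ℕ} {t : ℕ → ℤ} (ht : t ∈ Std n) {k : ℕ} (hk : k ≤ n) : Valid (st t k) := by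
  induction k with
  | zero => simpa using valid_zero
  | succ k ih => rw [st_succ]; exact (ih (by omega)).cons ((mem_Std.1 ht).1 k (by omega))

lemma sum_Std_succ {M : Type*} [AddCommMonoid M] (n : ℕ) (f : (ℕ → ℤ) → M) :
    ∑ t ∈ Std (n + 1), f t = ∑ t ∈ Std n, ∑ c ∈ add (st t n), f (Function.update t n c) := by
  rw [Std, sum_biUnion]
  · refine sum_congr rfl fun t _ => sum_image fun a _ b _ h => ?_
    simpa using congrFun h n
  · intro s hs t ht hst
    rw [Function.onFun, disjoint_left]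
    intro u hu hv
    obtain ⟨a, -, rfl⟩ := mem_image.1 hu
    obtain ⟨b, -, hb⟩ := mem_image.1 hv
    apply hst
    funext k
    by_cases hkn : k = n
    · subst hkn
      rw [(mem_Std.1 (mem_coe.1 hs)).2 k le_rfl, (mem_Std.1 (mem_coe.1 ht)).2 k le_rfl]
    · have := congrFun hb k
      rw [Function.update_of_ne hkn, Function.update_of_ne hkn] at this
      exact this.symm

@[simp] lemma Lam_zero (f : ℤ → ℤ) : Lam 0 f = f 0 := by simp [Lam]

lemma Lam_cons (μ : Multiset ℤ) (b : ℤ) (f : ℤ → ℤ) :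
    Lam (b ::ₘ μ) f = Lam μ f + (f (b - 1) + f (b + 1) - 2 * f b) := by
  simp only [Lam, Multiset.map_cons, Multiset.sum_cons]; ring

lemma supp3_cons_subset (μ : Multiset ℤ) (b : ℤ) : supp3 μ ⊆ supp3 (b ::ₘ μ) := by
  intro c hc
  simp only [supp3, mem_insert, mem_biUnion, Multiset.mem_toFinset, Multiset.mem_cons] at hc ⊢
  rcases hc with h | ⟨a, ha, h⟩
  · exact Or.inl h
  · exact Or.inr ⟨a, Or.inr ha, h⟩

lemma mem_supp3_cons (μ : Multiset ℤ) (b : ℤ) :
    b - 1 ∈ supp3 (b ::ₘ μ) ∧ b ∈ supp3 (b ::ₘ μ) ∧ b + 1 ∈ supp3 (b ::ₘ μ) := by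
  simp only [supp3, mem_insert, mem_biUnion, Multiset.mem_toFinset, Multiset.mem_cons]
  exact ⟨Or.inr ⟨b, Or.inl rfl, by simp⟩, Or.inr ⟨b, Or.inl rfl, by simp⟩,
    Or.inr ⟨b, Or.inl rfl, by simp⟩⟩

lemma zero_mem_supp3 (μ : Multiset ℤ) : 0 ∈ supp3 μ := by simp [supp3]

/-- `Lam μ f` is the pairing of `hh μ` with `f`. -/
lemma Lam_eq_sum (μ : Multiset ℤ) (f : ℤ → ℤ) (W : Finset ℤ) (hW : supp3 μ ⊆ W) :
    Lam μ f = ∑ c ∈ W, hh μ c * f c := by
  induction μ using Multiset.induction_on with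
  | empty =>
    simp only [Lam_zero, hh_zero, ite_mul, one_mul, zero_mul]
    rw [sum_ite_eq' W 0, if_pos (hW (zero_mem_supp3 _))]
  | cons b μ ih =>
    obtain ⟨h1, h2, h3⟩ := mem_supp3_cons μ b
    rw [Lam_cons, ih ((supp3_cons_subset μ b).trans hW)]
    simp only [hh_cons, add_mul, sub_mul, ite_mul, one_mul, zero_mul, sum_add_distrib,
      sum_sub_distrib, sum_ite_eq', if_pos (hW h1), if_pos (hW h2), if_pos (hW h3)]
    ring

lemma Lam_add (μ : Multiset ℤ) (f g : ℤ → ℤ) :
    Lam μ (fun x => f x + g x) = Lam μ f + Lam μ g := by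
  induction μ using Multiset.induction_on with
  | empty => simp
  | cons b μ ih => simp only [Lam_cons, ih]; ring

lemma Lam_sub (μ : Multiset ℤ) (f g : ℤ → ℤ) :
    Lam μ (fun x => f x - g x) = Lam μ f - Lam μ g := by
  induction μ using Multiset.induction_on with
  | empty => simp
  | cons b μ ih => simp only [Lam_cons, ih]; ring

lemma Lam_single (μ : Multiset ℤ) (c : ℤ) :
    Lam μ (fun x => if x = c then 1 else 0) = hh μ c := by
  induction μ using Multiset.induction_on with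
  | empty => simp only [Lam_zero, hh_zero]; split_ifs <;> omega
  | cons b μ ih => rw [Lam_cons, ih, hh_cons]; split_ifs <;> omega

lemma two_degStep (μ : Multiset ℤ) (c : ℤ) : 2 * degStep μ c = wStep μ c + eps μ c := by
  unfold degStep wStep eps
  rw [← Lam_add, two_mul, ← Lam_add]
  congr 1
  funext x
  rcases lt_trichotomy x c with h | h | h
  · have : Int.sign (c - x) = 1 := Int.sign_eq_one_of_pos (by omega)
    rw [this]; split_ifs <;> omega
  · subst h; simp
  · have : Int.sign (c - x) = -1 := Int.sign_eq_neg_one_of_neg (by omega)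
    rw [this]; split_ifs <;> omega

lemma two_dg (t : ℕ → ℤ) (n : ℕ) : 2 * dg t n = ww t n + ee t n := by
  unfold dg ww ee
  rw [mul_sum, ← sum_add_distrib]
  exact sum_congr rfl fun k _ => two_degStep _ _

@[simp] lemma dd_zero : dd 0 = 0 := by simp [dd]

lemma dd_cons (μ : Multiset ℤ) (c : ℤ) :
    dd (c ::ₘ μ) = dd μ + if c % 2 = 0 then 1 else -1 := by
  simp only [dd, Multiset.map_cons, Multiset.sum_cons]; ring

lemma Lam_parity (μ : Multiset ℤ) (c : ℤ) :
    Lam μ (fun x => if x % 2 = c % 2 then 1 else 0)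
      = if c % 2 = 0 then 1 - 2 * dd μ else 2 * dd μ := by
  induction μ using Multiset.induction_on with
  | empty => simp only [Lam_zero, dd_zero]; split_ifs <;> omega
  | cons b μ ih => rw [Lam_cons, ih, dd_cons]; split_ifs <;> omega

lemma wStep_eq (μ : Multiset ℤ) (c : ℤ) :
    wStep μ c = (if c % 2 = 0 then 1 - 2 * dd μ else 2 * dd μ) - hh μ c := by
  rw [← Lam_parity, ← Lam_single, ← Lam_sub]
  unfold wStep
  congr 1
  funext x
  split_ifs <;> subst_vars <;> simp_all

/-- The weight only depends on the charge of the shape. -/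
lemma two_ww {n : ℕ} {t : ℕ → ℤ} (ht : t ∈ Std n) {k : ℕ} (hk : k ≤ n) :
    2 * ww t k = k - 2 * dd (st t k) ^ 2 + dd (st t k) := by
  induction k with
  | zero => simp [ww]
  | succ k ih =>
    have h1 := ih (by omega)
    have h2 := (mem_Std.1 ht).1 k (by omega)
    unfold ww at h1 ⊢
    rw [sum_range_succ, mul_add, h1, wStep_eq, h2, st_succ, dd_cons]
    push_cast
    split_ifs <;> ring

lemma mem_pairs {n : ℕ} {p : (ℕ → ℤ) × (ℕ → ℤ)} :
    p ∈ pairs n ↔ p.1 ∈ Std n ∧ p.2 ∈ Std n ∧ st p.1 n = st p.2 n := by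
  simp [pairs, and_assoc]

end Pool.Agent.P.MP_e72dc0_lc.Sn
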