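import Pool.Agent.P.MP_e72dc0_lc.Sn.Expo

/-! Module E2: the bootstrap and the bound on the graded dimension. -/

namespace Pool.Agent.P.MP_e72dc0_lc.Sn

open Finset
open scoped Classical

namespace Bt

/-- Unnormalised moment generating function of the energy. -/
noncomputable def MM (φ : ℝ) (k : ℕ) : ℝ :=
  ∑ p ∈ pairs k, Real.exp (φ * (ee p.1 k + ee p.2 k))

lemma cosh_le (y : ℝ) (h : y ^ 2 ≤ 1) : Real.cosh y ≤ 1 + y ^ 2 := by
  have h0 : 0 ≤ y ^ 2 / 2 := by positivity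
  have h1 := Real.abs_exp_sub_one_le (x := y ^ 2 / 2) (by rw [abs_of_nonneg h0]; linarith)
  have h2 := (abs_le.1 h1).2
  rw [abs_of_nonneg h0] at h2
  have h3 := Real.cosh_le_exp_half_sq y
  linarith

lemma Hq_le (φ f : ℝ) (d : ℤ) (hφ : φ ^ 2 ≤ f) (h : (32 * (d : ℝ) ^ 2 + 2) * f ≤ 1) :
    Hq φ d ≤ 1 + (32 * (d : ℝ) ^ 2 + 2) * f := by
  have h1 : ((4 * (d : ℝ) - 1) * φ) ^ 2 ≤ (32 * (d : ℝ) ^ 2 + 2) * f := by
    rw [mul_pow]
    refine mul_le_mul ?_ hφ (by positivity) (by positivity)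
    nlinarith [sq_nonneg (4 * (d : ℝ) + 1)]
  have h2 := cosh_le _ (h1.trans h)
  have h3 := Real.one_le_cosh φ
  unfold Hq
  refine (div_le_self (Real.cosh_pos _).le h3).trans ?_
  linarith

lemma dd_sq_st {n : ℕ} {t : ℕ → ℤ} (ht : t ∈ Std n) {j : ℕ} (hj : j ≤ n) :
    (dd (st t j) : ℝ) ^ 2 ≤ j := by
  have := dd_sq_le (valid_st ht hj)
  rw [card_st] at this
  exact_mod_cast this

lemma step (N k : ℕ) (hk : k < N) (φ f A B : ℝ) (hφ : φ ^ 2 ≤ f) (ha : 128 * f * N ≤ 1 / 2)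
    (hA0 : 0 ≤ A) (hA : MM (φ / (1 - 128 * f)) k ≤ k.factorial * Real.exp A)
    (hB : ∑ p ∈ pairs k, Real.exp (1 / (4 * ((k : ℝ) + 1))
        * ∑ j ∈ range (k + 1), (dd (st p.2 j) : ℝ) ^ 2) ≤ k.factorial * Real.exp B) :
    MM φ (k + 1) ≤ (k + 1).factorial * Real.exp (A + (128 * f * B + 2 * f)) := by
  have hf : 0 ≤ f := (sq_nonneg φ).trans hφ
  have hN : (1 : ℝ) ≤ N := by exact_mod_cast (show 1 ≤ N by omega)
  have hkN : (k : ℝ) ≤ N := by exact_mod_cast hk.le
  set a : ℝ := 128 * f with hadef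
  have ha0 : 0 ≤ a := by positivity
  have ha1 : a ≤ 1 / 2 := by nlinarith
  have ha2 : 0 < 1 - a := by linarith
  set E : ℝ := Real.exp ((1 - a) * A + a * B + 2 * f) with hE
  have hE0 : 0 < E := Real.exp_pos _
  unfold MM
  rw [fock_rec]
  have key : ∀ p ∈ pairs k, Real.exp (φ * (ee p.1 k + ee p.2 k))
      * ∑ j ∈ range (k + 1), Hq φ (dd (st p.2 j))
      ≤ ((k : ℝ) + 1) * E * ((1 - a) * Real.exp (-A)
          * Real.exp (φ / (1 - a) * (ee p.1 k + ee p.2 k))
        + a * Real.exp (-B) * Real.exp (1 / (4 * ((k : ℝ) + 1))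
          * ∑ j ∈ range (k + 1), (dd (st p.2 j) : ℝ) ^ 2)) := by
    intro p hp
    have hp2 := (mem_pairs.1 hp).2.1
    set X : ℝ := (ee p.1 k : ℝ) + ee p.2 k with hX
    set S : ℝ := ∑ j ∈ range (k + 1), (dd (st p.2 j) : ℝ) ^ 2 with hS
    set Z : ℝ := 1 / (4 * ((k : ℝ) + 1)) * S with hZ
    have h1 : ∑ j ∈ range (k + 1), Hq φ (dd (st p.2 j))
        ≤ ∑ j ∈ range (k + 1), (1 + (32 * (dd (st p.2 j) : ℝ) ^ 2 + 2) * f) := by
      refine sum_le_sum fun j hj => Hq_le φ f _ hφ ?_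
      have hj' : j ≤ k := Nat.lt_succ_iff.1 (mem_range.1 hj)
      have b1 := dd_sq_st hp2 hj'
      have b2 : (j : ℝ) ≤ k := by exact_mod_cast hj'
      have b3 : 32 * (dd (st p.2 j) : ℝ) ^ 2 + 2 ≤ 128 * N := by linarith
      have b4 := mul_le_mul_of_nonneg_right b3 hf
      nlinarith
    have h2 : ∑ j ∈ range (k + 1), (1 + (32 * (dd (st p.2 j) : ℝ) ^ 2 + 2) * f)
        = ((k : ℝ) + 1) * (a * Z + 2 * f + 1) := by
      have e : ∀ j, 1 + (32 * (dd (st p.2 j) : ℝ) ^ 2 + 2) * f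
          = (1 + 2 * f) + 32 * f * (dd (st p.2 j) : ℝ) ^ 2 := fun j => by ring
      simp only [e]
      rw [sum_add_distrib, ← mul_sum, ← hS, hZ, hadef]
      simp only [sum_const, card_range, nsmul_eq_mul]
      push_cast
      field_simp
      ring
    have h3 : a * Z + 2 * f + 1 ≤ Real.exp (a * Z + 2 * f) := Real.add_one_le_exp _
    have h4 := convexOn_exp.2 (Set.mem_univ (φ / (1 - a) * X - A)) (Set.mem_univ (Z - B))
      ha2.le ha0 (by ring)
    simp only [smul_eq_mul] at h4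
    have h5 : Real.exp (φ * X) * Real.exp (a * Z + 2 * f)
        = E * Real.exp ((1 - a) * (φ / (1 - a) * X - A) + a * (Z - B)) := by
      rw [hE, ← Real.exp_add, ← Real.exp_add]
      congr 1
      field_simp
      ring
    have h6 : Real.exp (φ / (1 - a) * X - A) = Real.exp (-A) * Real.exp (φ / (1 - a) * X) := by
      rw [← Real.exp_add]; congr 1; ring
    have h7 : Real.exp (Z - B) = Real.exp (-B) * Real.exp Z := by
      rw [← Real.exp_add]; congr 1; ring
    rw [h6, h7] at h4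
    have hk1 : (0 : ℝ) ≤ (k : ℝ) + 1 := by positivity
    calc Real.exp (φ * X) * ∑ j ∈ range (k + 1), Hq φ (dd (st p.2 j))
        ≤ Real.exp (φ * X) * (((k : ℝ) + 1) * Real.exp (a * Z + 2 * f)) := by
          refine mul_le_mul_of_nonneg_left (h1.trans ?_) (Real.exp_pos _).le
          rw [h2]
          exact mul_le_mul_of_nonneg_left h3 hk1
      _ = ((k : ℝ) + 1) * E * Real.exp ((1 - a) * (φ / (1 - a) * X - A) + a * (Z - B)) := by
          rw [mul_assoc ((k : ℝ) + 1) E, ← h5]; ring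
      _ ≤ _ := by
          refine mul_le_mul_of_nonneg_left (h4.trans (le_of_eq ?_)) (by positivity)
          ring
  refine (sum_le_sum key).trans ?_
  rw [← mul_sum, sum_add_distrib, ← mul_sum, ← mul_sum]
  have c1 : (1 - a) * Real.exp (-A)
      * ∑ p ∈ pairs k, Real.exp (φ / (1 - a) * (ee p.1 k + ee p.2 k))
      ≤ (1 - a) * k.factorial := by
    refine (mul_le_mul_of_nonneg_left hA (by positivity)).trans (le_of_eq ?_)
    rw [Real.exp_neg]; field_simp
  have c2 : a * Real.exp (-B) * ∑ p ∈ pairs k, Real.exp (1 / (4 * ((k : ℝ) + 1))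
      * ∑ j ∈ range (k + 1), (dd (st p.2 j) : ℝ) ^ 2) ≤ a * k.factorial := by
    refine (mul_le_mul_of_nonneg_left hB (by positivity)).trans (le_of_eq ?_)
    rw [Real.exp_neg]; field_simp
  have c3 : E ≤ Real.exp (A + (a * B + 2 * f)) := by
    rw [hE]
    refine Real.exp_le_exp.2 ?_
    nlinarith
  calc _ ≤ ((k : ℝ) + 1) * E * ((1 - a) * k.factorial + a * k.factorial) :=
        mul_le_mul_of_nonneg_left (add_le_add c1 c2) (by positivity)
    _ = (((k : ℝ) + 1) * k.factorial) * E := by ring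
    _ ≤ _ := by
        rw [Nat.factorial_succ]
        push_cast
        exact mul_le_mul_of_nonneg_left c3 (by positivity)

lemma boot (C : ℝ) (hC0 : 0 ≤ C)
    (hC : ∀ n : ℕ, ∑ p ∈ pairs n, Real.exp (1 / (4 * ((n : ℝ) + 1))
        * ∑ j ∈ range (n + 1), (dd (st p.2 j) : ℝ) ^ 2)
      ≤ n.factorial * Real.exp (C * Real.sqrt (n + 1)))
    (N : ℕ) (f : ℝ) (hf : 0 ≤ f) (ha : 128 * f * N ≤ 1 / 2) (k : ℕ) :
    k ≤ N → ∀ φ : ℝ, φ ^ 2 ≤ f * ((1 - 128 * f) ^ k) ^ 2 →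
      MM φ k ≤ k.factorial * Real.exp (k * (128 * f * (C * Real.sqrt N) + 2 * f)) := by
  induction k with
  | zero =>
    intro _ φ _
    have h := card_pairs 0
    simp only [MM, ee, range_zero, sum_empty, Int.cast_zero, add_zero, mul_zero, Real.exp_zero,
      sum_const, h]
    simp
  | succ k ih =>
    intro hk φ hφ
    have hN : (1 : ℝ) ≤ N := by exact_mod_cast (show 1 ≤ N by omega)
    have ha1 : 128 * f ≤ 1 / 2 := by nlinarith
    have ha2 : 0 < 1 - 128 * f := by linarith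
    have h1 : (φ / (1 - 128 * f)) ^ 2 ≤ f * ((1 - 128 * f) ^ k) ^ 2 := by
      rw [div_pow, div_le_iff₀ (by positivity)]
      refine hφ.trans (le_of_eq ?_)
      ring
    have h2 : φ ^ 2 ≤ f := by
      refine hφ.trans (mul_le_of_le_one_right hf ?_)
      exact pow_le_one₀ (by positivity) (pow_le_one₀ ha2.le (by linarith))
    have h3 := ih (by omega) _ h1
    have h4 : ∑ p ∈ pairs k, Real.exp (1 / (4 * ((k : ℝ) + 1))
        * ∑ j ∈ range (k + 1), (dd (st p.2 j) : ℝ) ^ 2)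
        ≤ k.factorial * Real.exp (C * Real.sqrt N) := by
      refine (hC k).trans (mul_le_mul_of_nonneg_left (Real.exp_le_exp.2 ?_) (by positivity))
      refine mul_le_mul_of_nonneg_left (Real.sqrt_le_sqrt ?_) hC0
      exact_mod_cast hk
    refine (step N k (by omega) φ f _ _ h2 ha (by positivity) h3 h4).trans (le_of_eq ?_)
    push_cast
    congr 2
    ring

lemma dd_lip (t : ℕ → ℤ) (k j : ℕ) : |dd (st t (k + j)) - dd (st t k)| ≤ j := by
  induction j with
  | zero => simp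
  | succ j ih =>
    rw [← add_assoc, st_succ, dd_cons]
    rw [abs_le] at ih ⊢
    push_cast
    split_ifs <;> constructor <;> linarith [ih.1, ih.2]

lemma dd_last (t : ℕ → ℤ) (n m : ℕ) (hm : m ≤ n) :
    (m : ℝ) * (dd (st t n) : ℝ) ^ 2
      ≤ 2 * ∑ j ∈ range m, (dd (st t (n - j)) : ℝ) ^ 2 + 2 * (m : ℝ) ^ 3 := by
  have h : ∀ j ∈ range m, (dd (st t n) : ℝ) ^ 2
      ≤ 2 * (dd (st t (n - j)) : ℝ) ^ 2 + 2 * (m : ℝ) ^ 2 := by
    intro j hj
    have hj' := mem_range.1 hj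
    have h1 := dd_lip t (n - j) j
    rw [show n - j + j = n by omega] at h1
    have h2 : |(dd (st t n) : ℝ) - dd (st t (n - j))| ≤ m := by
      have : |dd (st t n) - dd (st t (n - j))| ≤ (m : ℤ) := h1.trans (by exact_mod_cast hj'.le)
      exact_mod_cast this
    have h3 : ((dd (st t n) : ℝ) - dd (st t (n - j))) ^ 2 ≤ (m : ℝ) ^ 2 := by
      rw [← sq_abs]
      exact pow_le_pow_left₀ (abs_nonneg _) h2 2
    nlinarith [sq_nonneg ((dd (st t n) : ℝ) - 2 * dd (st t (n - j)))]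
  have h2 := sum_le_sum h
  rw [sum_add_distrib, ← mul_sum] at h2
  simp only [sum_const, card_range, nsmul_eq_mul] at h2
  nlinarith

lemma D6_ge {n : ℕ} {p : (ℕ → ℤ) × (ℕ → ℤ)} (hp : p ∈ pairs n) :
    (n : ℝ) - 3 * (dd (st p.2 n) : ℝ) ^ 2 + 3 * ((ee p.1 n : ℝ) + ee p.2 n) ≤ 2 * D6 n p := by
  obtain ⟨h1, h2, h3⟩ := mem_pairs.1 hp
  have a1 := two_ww h1 le_rfl
  have a2 := two_ww h2 le_rfl
  have a3 := two_dg p.1 n
  have a4 := two_dg p.2 n
  rw [h3] at a1
  have a5 : 0 ≤ dd (st p.2 n) ^ 2 + dd (st p.2 n) := by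
    rcases le_or_gt 0 (dd (st p.2 n)) with h | h
    · positivity
    · nlinarith
  have : (n : ℤ) - 3 * dd (st p.2 n) ^ 2 + 3 * (ee p.1 n + ee p.2 n) ≤ 2 * D6 n p := by
    unfold D6; linarith
  exact_mod_cast this

end Bt

theorem analytic : ∃ c : ℝ, 0 < c ∧ ∃ n₀ : ℕ, ∀ n : ℕ, n₀ ≤ n → ∃ θ : ℝ, 0 < θ ∧
    ∑ p ∈ pairs n, Real.exp (-(θ * D6 n p))
      ≤ n.factorial * Real.exp (-(c * Real.sqrt n)) := by
  obtain ⟨C, hC0, hC⟩ := expo_all
  obtain ⟨C', hC0', hC'⟩ := expo_last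
  set α : ℝ := 1 / (6144 * (C + 1)) with hα
  have hα0 : 0 < α := by positivity
  have hα1 : 6144 * (C + 1) * α = 1 := by rw [hα]; field_simp
  have hα2 : α ≤ 1 / 6144 := by nlinarith
  have hα3 : 128 * C * α ≤ 1 / 48 := by nlinarith
  obtain ⟨n₁, hn₁⟩ := exists_nat_ge ((48 * C' / α + 14) ^ 2)
  refine ⟨α / 24, by positivity, n₁, fun n hn => ?_⟩
  set s : ℝ := Real.sqrt n with hs
  have hs1 : 48 * C' / α + 14 ≤ s := by
    apply Real.le_sqrt_of_sq_le
    exact hn₁.trans (by exact_mod_cast hn)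
  have hq : 0 ≤ 48 * C' / α := by positivity
  have hs2 : 14 ≤ s := by linarith
  have hs0 : 0 < s := by linarith
  have hss : s * s = n := Real.mul_self_sqrt (by positivity)
  have hs3 : C' ≤ α * s / 48 := by
    have h1 : 48 * C' / α ≤ s := by linarith
    rw [div_le_iff₀ hα0] at h1
    linarith
  set θ : ℝ := α / (6 * s) with hθ
  have hθ0 : 0 < θ := by positivity
  refine ⟨θ, hθ0, ?_⟩
  -- first average
  have hαα : α * α ≤ 1 / 6144 * (1 / 6144) := mul_le_mul hα2 hα2 hα0.le (by norm_num)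
  have m1 : Bt.MM (-(3 * θ)) n ≤ n.factorial * Real.exp (α * s / 24) := by
    set f : ℝ := (α / s) ^ 2 with hf
    have hf0 : 0 ≤ f := by positivity
    have hfn : f * n = α * α := by rw [hf, ← hss]; field_simp
    have ha : 128 * f * n ≤ 1 / 2 := by nlinarith
    have hn1 : (1 : ℝ) ≤ n := by nlinarith
    have ha' : 128 * f ≤ 1 / 2 := by nlinarith
    have hb : 1 / 2 ≤ (1 - 128 * f) ^ n := by
      have := one_add_mul_le_pow (a := -(128 * f)) (by linarith) n
      rw [← sub_eq_add_neg] at this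
      nlinarith
    have hφ : (-(3 * θ)) ^ 2 ≤ f * ((1 - 128 * f) ^ n) ^ 2 := by
      have e : (-(3 * θ)) ^ 2 = f * (1 / 2) ^ 2 := by rw [hθ, hf]; field_simp; ring
      rw [e]
      exact mul_le_mul_of_nonneg_left (pow_le_pow_left₀ (by norm_num) hb 2) hf0
    refine (Bt.boot C hC0 hC n f hf0 ha n le_rfl _ hφ).trans
      (mul_le_mul_of_nonneg_left (Real.exp_le_exp.2 ?_) (by positivity))
    have e : (n : ℝ) * (128 * f * (C * Real.sqrt n) + 2 * f)
        = (128 * C * α) * (α * s) + 2 * α * α := by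
      rw [← hs]
      calc (n : ℝ) * (128 * f * (C * s) + 2 * f) = (f * n) * (128 * C * s + 2) := by ring
        _ = _ := by rw [hfn]; ring
    rw [e]
    have b1 : (128 * C * α) * (α * s) ≤ 1 / 48 * (α * s) :=
      mul_le_mul_of_nonneg_right hα3 (by positivity)
    have b2 : 2 * α * α ≤ α * s / 48 := by nlinarith
    linarith
  -- second average
  have m2 : ∑ p ∈ pairs n, Real.exp (3 * θ * (dd (st p.2 n) : ℝ) ^ 2)
      ≤ n.factorial * Real.exp (α * s / 24) := by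
    set m : ℕ := ⌈8 * α * s⌉₊ with hm
    have hm1 : 8 * α * s ≤ m := Nat.le_ceil _
    have hm2 : (m : ℝ) < 8 * α * s + 1 := Nat.ceil_lt_add_one (by positivity)
    have hm0 : (0 : ℝ) < m := lt_of_lt_of_le (by positivity) hm1
    have hm3 : (m : ℝ) ^ 2 ≤ 128 * (α * α) * (s * s) + 2 := by
      have b1 : (m : ℝ) ^ 2 ≤ (8 * α * s + 1) ^ 2 := pow_le_pow_left₀ hm0.le hm2.le 2
      nlinarith [sq_nonneg (8 * α * s - 1)]
    have hs4 : 196 ≤ s * s := by nlinarith
    have hm4 : m * m ≤ n := by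
      have b1 : 128 * (α * α) * (s * s) ≤ 1 / 2 * (s * s) :=
        mul_le_mul_of_nonneg_right (by linarith) (by positivity)
      have : (m : ℝ) * m ≤ n := by nlinarith
      exact_mod_cast this
    have hm5 : m ≤ n := by nlinarith
    have hw : 6 * θ / m ≤ 1 / (4 * ((n : ℝ) + 1)) := by
      rw [div_le_div_iff₀ hm0 (by positivity), one_mul]
      refine le_trans ?_ hm1
      have e : 6 * θ * (4 * ((n : ℝ) + 1)) = 4 * α * (s * s + 1) / s := by
        rw [hθ, ← hss]; field_simp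
      rw [e, div_le_iff₀ hs0]
      nlinarith
    have hr : 6 * θ * (m : ℝ) ^ 2 ≤ α * s / 48 := by
      have e : 6 * θ * (m : ℝ) ^ 2 = α * (m : ℝ) ^ 2 / s := by rw [hθ]; field_simp
      rw [e, div_le_iff₀ hs0]
      have b1 : 128 * (α * α) * (s * s) ≤ 1 / 96 * (s * s) :=
        mul_le_mul_of_nonneg_right (by linarith) (by positivity)
      have b2 : (m : ℝ) ^ 2 ≤ s * s / 48 := by linarith
      have b3 := mul_le_mul_of_nonneg_left b2 hα0.le
      nlinarith
    have key : ∀ p ∈ pairs n, Real.exp (3 * θ * (dd (st p.2 n) : ℝ) ^ 2)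
        ≤ Real.exp (α * s / 48) * Real.exp (1 / (4 * ((n : ℝ) + 1))
          * ∑ j ∈ range m, (dd (st p.2 (n - j)) : ℝ) ^ 2) := by
      intro p _
      rw [← Real.exp_add]
      refine Real.exp_le_exp.2 ?_
      have b1 := Bt.dd_last p.2 n m hm5
      set S := ∑ j ∈ range m, (dd (st p.2 (n - j)) : ℝ) ^ 2 with hS
      have b0 : 0 ≤ S := sum_nonneg fun _ _ => by positivity
      have b2 : 3 * θ * (dd (st p.2 n) : ℝ) ^ 2 ≤ 6 * θ / m * S + 6 * θ * (m : ℝ) ^ 2 := by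
        have b3 := mul_le_mul_of_nonneg_left b1 (show 0 ≤ 3 * θ / m by positivity)
        have e1 : 3 * θ / m * ((m : ℝ) * (dd (st p.2 n) : ℝ) ^ 2)
            = 3 * θ * (dd (st p.2 n) : ℝ) ^ 2 := by field_simp
        have e2 : 3 * θ / m * (2 * S + 2 * (m : ℝ) ^ 3)
            = 6 * θ / m * S + 6 * θ * (m : ℝ) ^ 2 := by field_simp; ring
        rw [e1, e2] at b3
        exact b3
      have b4 := mul_le_mul_of_nonneg_right hw b0
      linarith
    refine (sum_le_sum key).trans ?_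
    rw [← mul_sum]
    refine (mul_le_mul_of_nonneg_left (hC' n m hm4) (Real.exp_pos _).le).trans ?_
    rw [mul_left_comm, ← Real.exp_add]
    refine mul_le_mul_of_nonneg_left (Real.exp_le_exp.2 ?_) (by positivity)
    linarith
  have key : ∀ p ∈ pairs n, Real.exp (-(θ * D6 n p))
      ≤ Real.exp (-(α * s / 12)) / 2 * (Real.exp (-(3 * θ) * (ee p.1 n + ee p.2 n))
        + Real.exp (3 * θ * (dd (st p.2 n) : ℝ) ^ 2)) := by
    intro p hp
    have b1 := Bt.D6_ge hp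
    set X : ℝ := (ee p.1 n : ℝ) + ee p.2 n with hX
    set Y : ℝ := (dd (st p.2 n) : ℝ) ^ 2 with hY
    have h4 := convexOn_exp.2 (Set.mem_univ (-(3 * θ) * X)) (Set.mem_univ (3 * θ * Y))
      (show (0 : ℝ) ≤ 1 / 2 by norm_num) (show (0 : ℝ) ≤ 1 / 2 by norm_num) (by norm_num)
    simp only [smul_eq_mul] at h4
    have e : θ * n = α * s / 6 := by rw [hθ, ← hss]; field_simp
    have b2 : -(θ * D6 n p) ≤ -(α * s / 12) + (1 / 2 * (-(3 * θ) * X) + 1 / 2 * (3 * θ * Y)) := by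
      have := mul_le_mul_of_nonneg_left b1 hθ0.le
      nlinarith
    refine (Real.exp_le_exp.2 b2).trans ?_
    rw [Real.exp_add]
    refine (mul_le_mul_of_nonneg_left h4 (Real.exp_pos _).le).trans (le_of_eq ?_)
    ring
  refine (sum_le_sum key).trans ?_
  rw [← mul_sum, sum_add_distrib]
  refine (mul_le_mul_of_nonneg_left (add_le_add m1 m2) (by positivity)).trans (le_of_eq ?_)
  have e : Real.exp (-(α / 24 * s)) = Real.exp (-(α * s / 12)) * Real.exp (α * s / 24) := by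
    rw [← Real.exp_add]; congr 1; ring
  rw [e]
  ring

end Pool.Agent.P.MP_e72dc0_lc.Sn
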