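import Mathlib

/-! Module F: counting conjugacy classes and character degrees. -/

namespace Pool.Agent.P.MP_e72dc0_lc.Sn

open Finset
open scoped Classical

/-- Exponent bounding the `k`-th factor of the generating function. -/
noncomputable def pfA (s k : ℕ) : ℝ :=
  if k ≤ s then 2 * Real.sqrt s / Real.sqrt k else 2 * (s : ℝ) ^ 2 / (k : ℝ) ^ 2

noncomputable def pfG (s k : ℕ) : ℝ :=
  if k ≤ s then 4 * Real.sqrt s * Real.sqrt k else 6 * s - 2 * (s : ℝ) ^ 2 / k

lemma pfG_large {s k : ℕ} (hs : 0 < s) (h : s ≤ k) : pfG s k = 6 * s - 2 * (s : ℝ) ^ 2 / k := by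
  unfold pfG
  split_ifs with h1
  · have : k = s := le_antisymm h1 h
    subst this
    have hk : (0 : ℝ) < k := by exact_mod_cast hs
    rw [mul_assoc, Real.mul_self_sqrt hk.le]
    field_simp
    ring
  · rfl

lemma pfA_step {s : ℕ} (hs : 0 < s) (k : ℕ) : pfG s k + pfA s (k + 1) ≤ pfG s (k + 1) := by
  by_cases h : k + 1 ≤ s
  · have h' : k ≤ s := by omega
    simp only [pfG, pfA, h, h', if_true]
    push_cast
    have hk : (0 : ℝ) ≤ k := Nat.cast_nonneg k
    have ha : 0 < Real.sqrt ((k : ℝ) + 1) := Real.sqrt_pos.2 (by linarith)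
    have hb : 0 ≤ Real.sqrt (k : ℝ) := Real.sqrt_nonneg _
    have ha2 : Real.sqrt ((k : ℝ) + 1) ^ 2 = k + 1 := Real.sq_sqrt (by linarith)
    have hb2 : Real.sqrt (k : ℝ) ^ 2 = k := Real.sq_sqrt hk
    have hs0 : 0 ≤ Real.sqrt (s : ℝ) := Real.sqrt_nonneg _
    have key : 1 / Real.sqrt ((k : ℝ) + 1)
        ≤ 2 * (Real.sqrt ((k : ℝ) + 1) - Real.sqrt (k : ℝ)) := by
      rw [div_le_iff₀ ha]
      nlinarith [sq_nonneg (Real.sqrt ((k : ℝ) + 1) - Real.sqrt (k : ℝ))]
    have := mul_le_mul_of_nonneg_left key (by positivity : 0 ≤ 2 * Real.sqrt (s : ℝ))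
    rw [mul_one_div] at this
    linarith
  · have h' : s ≤ k := by omega
    rw [pfG_large hs h', pfG_large hs (by omega : s ≤ k + 1)]
    simp only [pfA, h, if_false]
    push_cast
    have hk : (0 : ℝ) < k := by exact_mod_cast (lt_of_lt_of_le hs h')
    have key : 1 / ((k : ℝ) + 1) ^ 2 ≤ 1 / k - 1 / (k + 1) := by
      rw [div_sub_div _ _ hk.ne' (by positivity), div_le_div_iff₀ (by positivity) (by positivity)]
      nlinarith
    have := mul_le_mul_of_nonneg_left key (by positivity : 0 ≤ 2 * (s : ℝ) ^ 2)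
    rw [mul_sub, mul_one_div, mul_one_div, mul_one_div] at this
    linarith

lemma sum_pfA_le {s : ℕ} (hs : 0 < s) (N : ℕ) : ∑ k ∈ range N, pfA s (k + 1) ≤ 6 * s := by
  have h1 : ∀ N, ∑ k ∈ range N, pfA s (k + 1) ≤ pfG s N := by
    intro N
    induction N with
    | zero => simp [pfG]
    | succ N ih =>
      rw [sum_range_succ]
      linarith [pfA_step hs N]
  refine (h1 N).trans ?_
  unfold pfG
  split_ifs with h
  · have h2 : Real.sqrt (N : ℝ) ≤ Real.sqrt s := Real.sqrt_le_sqrt (by exact_mod_cast h)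
    have h3 : Real.sqrt (s : ℝ) * Real.sqrt s = s := Real.mul_self_sqrt (Nat.cast_nonneg s)
    have h4 : 0 ≤ Real.sqrt (s : ℝ) := Real.sqrt_nonneg _
    have h5 : (0 : ℝ) ≤ s := Nat.cast_nonneg s
    nlinarith
  · have : 0 ≤ 2 * (s : ℝ) ^ 2 / N := by positivity
    linarith

lemma geom_factor_le {s : ℕ} (hs : 0 < s) (k n : ℕ) :
    ∑ j ∈ range n, Real.exp (-(((k + 1 : ℕ) : ℝ) / s)) ^ j ≤ Real.exp (pfA s (k + 1)) := by
  set y : ℝ := ((k + 1 : ℕ) : ℝ) / s with hy
  have hs' : (0 : ℝ) < s := by exact_mod_cast hs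
  have hk' : (0 : ℝ) < ((k + 1 : ℕ) : ℝ) := by positivity
  have hy0 : 0 < y := div_pos hk' hs'
  have hx0 : 0 ≤ Real.exp (-y) := (Real.exp_pos _).le
  have hx1 : Real.exp (-y) < 1 := by
    rw [← Real.exp_zero]; exact Real.exp_lt_exp.2 (by linarith)
  have h1 : ∑ j ∈ range n, Real.exp (-y) ^ j ≤ (1 - Real.exp (-y))⁻¹ := by
    rw [← tsum_geometric_of_lt_one hx0 hx1]
    exact (summable_geometric_of_lt_one hx0 hx1).sum_le_tsum _ (fun j _ => pow_nonneg hx0 j)
  have hE : 1 + y + y ^ 2 / 2 ≤ Real.exp y := Real.quadratic_le_exp_of_nonneg hy0.le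
  have hE1 : 0 < Real.exp y - 1 := by nlinarith
  have h2 : (1 - Real.exp (-y))⁻¹ = 1 + (Real.exp y - 1)⁻¹ := by
    rw [Real.exp_neg]
    have := (Real.exp_pos y).ne'
    field_simp
    ring
  refine h1.trans ?_
  rw [h2]
  unfold pfA
  split_ifs with h
  · have h3 : (Real.exp y - 1)⁻¹ ≤ y⁻¹ := inv_anti₀ hy0 (by nlinarith)
    set u : ℝ := Real.sqrt s / Real.sqrt ((k + 1 : ℕ) : ℝ) with hu
    have hu0 : 0 ≤ u := by positivity
    have hu2 : u ^ 2 = y⁻¹ := by
      rw [hu, div_pow, Real.sq_sqrt hs'.le, Real.sq_sqrt hk'.le, hy, inv_div]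
    have h4 : 1 + u ≤ Real.exp u := by linarith [Real.add_one_le_exp u]
    have h5 : Real.exp (2 * Real.sqrt s / Real.sqrt ((k + 1 : ℕ) : ℝ)) = Real.exp u ^ 2 := by
      rw [← Real.exp_nat_mul, hu]; congr 1; push_cast; ring
    rw [h5]
    nlinarith
  · have h3 : (Real.exp y - 1)⁻¹ ≤ (y ^ 2 / 2)⁻¹ := inv_anti₀ (by positivity) (by nlinarith)
    have h4 : (y ^ 2 / 2)⁻¹ = 2 * (s : ℝ) ^ 2 / ((k + 1 : ℕ) : ℝ) ^ 2 := by
      rw [hy]; field_simp
    rw [← h4]
    linarith [Real.add_one_le_exp (y ^ 2 / 2)⁻¹]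

lemma parts_sum_count {n : ℕ} (p : Nat.Partition n) :
    ∑ k : Fin n, ((k : ℕ) + 1) * p.parts.count ((k : ℕ) + 1) = n := by
  rw [Fin.sum_univ_eq_sum_range (fun k => (k + 1) * p.parts.count (k + 1)) n]
  have h := Finset.sum_multiset_count_of_subset p.parts (range (n + 1)) (by
    intro a ha
    rw [Multiset.mem_toFinset] at ha
    rw [mem_range]
    exact Nat.lt_succ_of_le (Nat.Partition.le_of_mem_parts ha))
  rw [p.parts_sum, sum_range_succ'] at h
  simp only [smul_eq_mul, mul_zero, add_zero] at h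
  refine Eq.trans ?_ h.symm
  exact sum_congr rfl fun k _ => mul_comm _ _

lemma card_partition_le (n : ℕ) :
    (Fintype.card (Nat.Partition n) : ℝ) ≤ Real.exp (10 * Real.sqrt n) := by
  rcases Nat.eq_zero_or_pos n with rfl | hn
  · simp
  set s := Nat.sqrt n with hsdef
  have hs : 0 < s := Nat.sqrt_pos.2 hn
  have hs' : (0 : ℝ) < s := by exact_mod_cast hs
  let f : Fin n → ℕ → ℝ := fun k j => Real.exp (-((((k : ℕ) + 1 : ℕ) : ℝ) / s)) ^ j
  let c : Nat.Partition n → (Fin n → ℕ) := fun p k => p.parts.count ((k : ℕ) + 1)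
  have hc : Function.Injective c := by
    intro p q h
    ext1
    ext a
    by_cases h0 : a = 0
    · subst h0
      rw [Multiset.count_eq_zero.2 (fun h => lt_irrefl _ (p.parts_pos h)),
        Multiset.count_eq_zero.2 (fun h => lt_irrefl _ (q.parts_pos h))]
    by_cases h1 : a ≤ n
    · have := congrFun h ⟨a - 1, by omega⟩
      simp only [c] at this
      rwa [show a - 1 + 1 = a by omega] at this
    · rw [Multiset.count_eq_zero.2 (fun h => h1 (Nat.Partition.le_of_mem_parts h)),
        Multiset.count_eq_zero.2 (fun h => h1 (Nat.Partition.le_of_mem_parts h))]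
  have hprod : ∀ p, ∏ k, f k (c p k) = Real.exp (-((n : ℝ) / s)) := by
    intro p
    simp only [f, c, ← Real.exp_nat_mul, ← Real.exp_sum]
    congr 1
    have h := congrArg (fun x : ℕ => (x : ℝ)) (parts_sum_count p)
    simp only [Nat.cast_sum, Nat.cast_mul] at h
    rw [← h, sum_div, ← sum_neg_distrib]
    exact sum_congr rfl fun k _ => by ring
  have hmem : ∀ p, c p ∈ Fintype.piFinset fun _ : Fin n => range (n + 1) := by
    intro p
    rw [Fintype.mem_piFinset]
    intro k
    rw [mem_range, Nat.lt_succ_iff]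
    have h := parts_sum_count p
    have h2 := single_le_sum (f := fun k : Fin n => ((k : ℕ) + 1) * p.parts.count ((k : ℕ) + 1))
      (fun _ _ => Nat.zero_le _) (mem_univ k)
    simp only [h] at h2
    simp only [c]
    nlinarith
  have h1 : (Fintype.card (Nat.Partition n) : ℝ) * Real.exp (-((n : ℝ) / s))
      ≤ ∏ k : Fin n, ∑ j ∈ range (n + 1), f k j := by
    rw [prod_univ_sum]
    calc (Fintype.card (Nat.Partition n) : ℝ) * Real.exp (-((n : ℝ) / s))
        = ∑ p : Nat.Partition n, ∏ k, f k (c p k) := by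
          simp [hprod]
      _ = ∑ x ∈ univ.image c, ∏ k, f k (x k) := by
          rw [sum_image (fun a _ b _ h => hc h)]
      _ ≤ _ := by
          refine sum_le_sum_of_subset_of_nonneg ?_ ?_
          · intro x hx
            obtain ⟨p, -, rfl⟩ := mem_image.1 hx
            exact hmem p
          · intro x _ _
            exact prod_nonneg fun k _ => by positivity
  have h2 : ∏ k : Fin n, ∑ j ∈ range (n + 1), f k j ≤ Real.exp (6 * s) := by
    calc ∏ k : Fin n, ∑ j ∈ range (n + 1), f k j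
        ≤ ∏ k : Fin n, Real.exp (pfA s ((k : ℕ) + 1)) :=
          prod_le_prod (fun k _ => sum_nonneg fun j _ => by positivity)
            (fun k _ => geom_factor_le hs k (n + 1))
      _ = Real.exp (∑ k ∈ range n, pfA s (k + 1)) := by
          rw [← Real.exp_sum, Fin.sum_univ_eq_sum_range (fun k => pfA s (k + 1)) n]
      _ ≤ _ := Real.exp_le_exp.2 (sum_pfA_le hs n)
  have h3 : (Fintype.card (Nat.Partition n) : ℝ) ≤ Real.exp (6 * s + (n : ℝ) / s) := by
    have := mul_le_mul_of_nonneg_right (h1.trans h2) (Real.exp_pos ((n : ℝ) / s)).le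
    rwa [mul_assoc, ← Real.exp_add, neg_add_cancel, Real.exp_zero, mul_one, ← Real.exp_add] at this
  refine h3.trans (Real.exp_le_exp.2 ?_)
  have h4 : (s : ℝ) ≤ Real.sqrt n := Real.nat_sqrt_le_real_sqrt
  have h5 : Real.sqrt n ≤ s + 1 := Real.real_sqrt_le_nat_sqrt_succ
  have h6 : (1 : ℝ) ≤ s := by exact_mod_cast hs
  have h7 : Real.sqrt n * Real.sqrt n = n := Real.mul_self_sqrt (Nat.cast_nonneg n)
  have h8 : (n : ℝ) / s ≤ 2 * Real.sqrt n := by
    rw [div_le_iff₀ hs']
    nlinarith [Real.sqrt_nonneg (n : ℝ)]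
  nlinarith [Real.sqrt_nonneg (n : ℝ)]

theorem card_conjClasses_perm (n : ℕ) :
    (Nat.card (ConjClasses (Equiv.Perm (Fin n))) : ℝ) ≤ Real.exp (10 * Real.sqrt n) := by
  let f : ConjClasses (Equiv.Perm (Fin n)) → Nat.Partition (Fintype.card (Fin n)) :=
    Quotient.lift (fun σ => Equiv.Perm.partition σ)
      (fun a b h => Equiv.Perm.partition_eq_of_isConj.1 h)
  have hf : Function.Injective f := by
    intro a b
    induction a using Quotient.inductionOn with | _ a => ?_
    induction b using Quotient.inductionOn with | _ b => ?_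
    intro h
    exact Quotient.sound (Equiv.Perm.partition_eq_of_isConj.2 h)
  have h := Nat.card_le_card_of_injective f hf
  rw [Nat.card_eq_fintype_card (α := Nat.Partition _)] at h
  have h2 := card_partition_le (Fintype.card (Fin n))
  have h3 : (Nat.card (ConjClasses (Equiv.Perm (Fin n))) : ℝ)
      ≤ Fintype.card (Nat.Partition (Fintype.card (Fin n))) := by exact_mod_cast h
  refine h3.trans (h2.trans ?_)
  rw [Fintype.card_fin]

theorem card_conjClasses_pi {m : ℕ} (G : Fin m → Type) [∀ i, Group (G i)] [∀ i, Finite (G i)] :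
    Nat.card (ConjClasses (∀ i, G i)) ≤ ∏ i, Nat.card (ConjClasses (G i)) := by
  rw [← Nat.card_pi]
  let f : ConjClasses (∀ i, G i) → ∀ i, ConjClasses (G i) :=
    fun x i => ConjClasses.map (Pi.evalMonoidHom G i) x
  have : ∀ i, Finite (ConjClasses (G i)) := fun i => Quotient.finite _
  refine Nat.card_le_card_of_injective f ?_
  intro a b
  obtain ⟨a, rfl⟩ := ConjClasses.mk_surjective a
  obtain ⟨b, rfl⟩ := ConjClasses.mk_surjective b
  intro h
  have h1 : ∀ i, ∃ c : G i, c * a i * c⁻¹ = b i := by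
    intro i
    have h2 : ConjClasses.mk (a i) = ConjClasses.mk (b i) := congrFun h i
    exact isConj_iff.1 (ConjClasses.mk_eq_mk_iff_isConj.1 h2)
  choose c hc using h1
  exact ConjClasses.mk_eq_mk_iff_isConj.2 (isConj_iff.2 ⟨c, funext hc⟩)

theorem card_conjClasses_subgroup {G : Type} [Group G] [Finite G] (H : Subgroup G) :
    Nat.card (ConjClasses H) ≤ H.index * Nat.card (ConjClasses G) := by
  have h1 := card_comm_eq_card_conjClasses_mul_card G
  have h2 := card_comm_eq_card_conjClasses_mul_card H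
  let f : { p : H × H // Commute p.1 p.2 } → { p : G × G // Commute p.1 p.2 } :=
    fun p => ⟨(p.1.1, p.1.2), p.2.map H.subtype⟩
  have hf : Function.Injective f := by
    intro p q h
    have h' := congrArg Subtype.val h
    exact Subtype.ext (Prod.ext (Subtype.ext (congrArg Prod.fst h'))
      (Subtype.ext (congrArg Prod.snd h')))
  have h3 := Nat.card_le_card_of_injective f hf
  rw [h1, h2, ← H.card_mul_index] at h3
  have h4 : 0 < Nat.card H := Nat.card_pos
  refine Nat.le_of_mul_le_mul_right ?_ h4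
  calc _ ≤ _ := h3
    _ = _ := by ring

lemma sum_sq_degrees {H : Type} [Group H] [Finite H] {κ : Type} [Fintype κ] (d : κ → ℕ)
    (e : MonoidAlgebra ℂ H ≃ₐ[ℂ] ∀ k, Matrix (Fin (d k)) (Fin (d k)) ℂ) :
    Nat.card H = ∑ k, d k ^ 2 := by
  have := Fintype.ofFinite H
  have h := e.toLinearEquiv.finrank_eq
  rw [Module.finrank_eq_card_basis (MonoidAlgebra.basis H ℂ), Module.finrank_pi_fintype] at h
  rw [Nat.card_eq_fintype_card, h]
  refine sum_congr rfl fun k _ => ?_
  simp [Module.finrank_matrix, sq]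

lemma card_degrees_le {H : Type} [Group H] [Finite H] {κ : Type} [Fintype κ] (d : κ → ℕ)
    (e : MonoidAlgebra ℂ H ≃ₐ[ℂ] ∀ k, Matrix (Fin (d k)) (Fin (d k)) ℂ) :
    (univ.filter fun k => 0 < d k).card ≤ Nat.card (ConjClasses H) := by
  have := Fintype.ofFinite H
  have : Fintype (ConjClasses H) := @Fintype.ofFinite _ (Quotient.finite _)
  let one : κ → ∀ k, Matrix (Fin (d k)) (Fin (d k)) ℂ := fun k => Pi.single k 1
  have hcen : ∀ k (x : MonoidAlgebra ℂ H), x * e.symm (one k) = e.symm (one k) * x := by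
    intro k x
    apply e.injective
    simp only [map_mul, AlgEquiv.apply_symm_apply]
    funext j
    by_cases hj : j = k
    · subst hj; simp [one]
    · simp [one, Pi.single_eq_of_ne hj]
  have hcl : ∀ k (a b : H), IsConj a b →
      (e.symm (one k)).coeff a = (e.symm (one k)).coeff b := by
    intro k a b hab
    obtain ⟨c, rfl⟩ := isConj_iff.1 hab
    have h := congrArg (fun x : MonoidAlgebra ℂ H => x.coeff (c * a))
      (hcen k (MonoidAlgebra.single c 1))
    simpa using h
  let φ : {k // 0 < d k} → ConjClasses H → ℂ := fun k =>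
    Quotient.lift (fun a => (e.symm (one k)).coeff a) (hcl k)
  have hφ : LinearIndependent ℂ φ := by
    rw [Fintype.linearIndependent_iff]
    intro g hg k
    have h1 : ∑ j : {k // 0 < d k}, g j • e.symm (one j) = 0 := by
      ext a
      have := congrFun hg (ConjClasses.mk a)
      rw [Finset.sum_apply] at this
      have h2 := map_sum (MonoidAlgebra.coeffLinearEquiv ℂ (S := ℂ) (M := H))
        (fun j : {k // 0 < d k} => g j • e.symm (one j)) univ
      simp only [map_smul, MonoidAlgebra.coeffLinearEquiv_apply] at h2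
      rw [h2, Finsupp.finsetSum_apply]
      exact this
    have h2 : ∑ j : {k // 0 < d k}, g j • one j = 0 := by
      have := congrArg e h1
      simpa [map_sum] using this
    have h3 := congrFun h2 k
    rw [Finset.sum_apply, sum_eq_single k] at h3
    · have h4 := congrFun (congrFun h3 ⟨0, k.2⟩) ⟨0, k.2⟩
      simpa [one] using h4
    · intro j _ hj
      have : (k : κ) ≠ j := fun h => hj (Subtype.ext h.symm)
      simp [one, Pi.single_eq_of_ne this]
    · simp
  have h := hφ.fintype_card_le_finrank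
  rw [Module.finrank_fintype_fun_eq_card, Fintype.card_subtype] at h
  rw [Nat.card_eq_fintype_card]
  convert h

/-- Power mean inequality for the degrees of a Wedderburn decomposition. -/
theorem degrees_lower {H : Type} [Group H] [Finite H] {κ : Type} [Fintype κ] (d : κ → ℕ)
    (e : MonoidAlgebra ℂ H ≃ₐ[ℂ] ∀ k, Matrix (Fin (d k)) (Fin (d k)) ℂ) (w : ℝ) (hw : 2 ≤ w) :
    (Nat.card H : ℝ) ^ (w / 2)
      ≤ (Nat.card (ConjClasses H) : ℝ) ^ ((w - 2) / 2) * ∑ k, (d k : ℝ) ^ w := by
  set s := univ.filter fun k => 0 < d k with hs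
  have h1 : (Nat.card H : ℝ) = ∑ k ∈ s, (d k : ℝ) ^ 2 := by
    rw [sum_sq_degrees d e]
    push_cast
    rw [hs, sum_filter]
    refine sum_congr rfl fun k _ => ?_
    split_ifs with h
    · rfl
    · have : d k = 0 := by omega
      simp [this]
  have h2 := Real.rpow_sum_le_const_mul_sum_rpow_of_nonneg s (p := w / 2)
    (f := fun k => (d k : ℝ) ^ 2) (by linarith) (fun k _ => by positivity)
  rw [h1]
  refine h2.trans ?_
  have h3 : (s.card : ℝ) ≤ Nat.card (ConjClasses H) := by exact_mod_cast card_degrees_le d e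
  refine mul_le_mul ?_ ?_ (sum_nonneg fun k _ => by positivity) (by positivity)
  · rw [show w / 2 - 1 = (w - 2) / 2 by ring]
    exact Real.rpow_le_rpow (Nat.cast_nonneg _) h3 (by linarith)
  · calc ∑ k ∈ s, ((d k : ℝ) ^ 2) ^ (w / 2) = ∑ k ∈ s, (d k : ℝ) ^ w := by
          refine sum_congr rfl fun k _ => ?_
          rw [← Real.rpow_natCast, ← Real.rpow_mul (Nat.cast_nonneg _)]
          congr 1; push_cast; ring
      _ ≤ _ := sum_le_sum_of_subset_of_nonneg (subset_univ _) fun k _ _ => by positivity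

end Pool.Agent.P.MP_e72dc0_lc.Sn
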