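import Pool.Agent.P.MP_e72dc0_lc.Sn.Basic

/-! Combinatorics of content sequences: swaps, rows, terminal (row reading) tableaux. -/

namespace Pool.Agent.P.MP_e72dc0_lc.Sn

open Finset
open scoped Classical

/-- Exchange the entries in positions `r` and `r+1`. -/
def sw (r : ℕ) (t : ℕ → ℤ) : ℕ → ℤ := fun j => if j = r then t (r + 1) else if j = r + 1 then t r else t j

@[simp] lemma sw_fst (r : ℕ) (t : ℕ → ℤ) : sw r t r = t (r + 1) := by simp [sw]
@[simp] lemma sw_snd (r : ℕ) (t : ℕ → ℤ) : sw r t (r + 1) = t r := by simp [sw]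
lemma sw_ne {r j : ℕ} (t : ℕ → ℤ) (h1 : j ≠ r) (h2 : j ≠ r + 1) : sw r t j = t j := by
  simp [sw, h1, h2]

@[simp] lemma sw_sw (r : ℕ) (t : ℕ → ℤ) : sw r (sw r t) = t := by
  funext j
  by_cases h1 : j = r
  · subst h1; simp
  by_cases h2 : j = r + 1
  · subst h2; simp
  rw [sw_ne _ h1 h2, sw_ne _ h1 h2]

lemma sw_inj {r : ℕ} {s t : ℕ → ℤ} (h : sw r s = sw r t) : s = t := by
  rw [← sw_sw r s, h, sw_sw]

lemma st_sw_le {r k : ℕ} (t : ℕ → ℤ) (h : k ≤ r) : st (sw r t) k = st t k :=
  st_congr fun j hj => sw_ne t (by omega) (by omega)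

lemma st_sw_ge {r k : ℕ} (t : ℕ → ℤ) (h : r + 2 ≤ k) : st (sw r t) k = st t k := by
  induction k, h using Nat.le_induction with
  | base =>
    rw [st_succ, st_succ, st_succ, st_succ, st_sw_le t le_rfl, sw_fst, sw_snd, Multiset.cons_swap]
  | succ k hk ih => rw [st_succ, st_succ, ih, sw_ne t (by omega) (by omega)]

lemma prod_sw {M : Type*} [CommMonoid M] (F : Multiset ℤ → ℤ → M) (t : ℕ → ℤ) {r n : ℕ}
    (h : r + 1 < n) : ∃ Z : M,
      ∏ k ∈ range n, F (st t k) (t k)
        = Z * (F (st t r) (t r) * F (t r ::ₘ st t r) (t (r + 1))) ∧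
      ∏ k ∈ range n, F (st (sw r t) k) (sw r t k)
        = Z * (F (st t r) (t (r + 1)) * F (t (r + 1) ::ₘ st t r) (t r)) := by
  have hr : r ∈ range n := mem_range.2 (by omega)
  have hr1 : r + 1 ∈ (range n).erase r := mem_erase.2 ⟨by omega, mem_range.2 h⟩
  refine ⟨∏ k ∈ ((range n).erase r).erase (r + 1), F (st t k) (t k), ?_, ?_⟩
  · rw [← mul_prod_erase _ _ hr, ← mul_prod_erase _ _ hr1, st_succ, ← mul_assoc, mul_comm]
  · rw [← mul_prod_erase _ _ hr, ← mul_prod_erase _ _ hr1, st_succ, ← mul_assoc, mul_comm,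
      st_sw_le t le_rfl, sw_fst, sw_snd]
    congr 1
    refine prod_congr rfl fun k hk => ?_
    have h1 := (mem_erase.1 hk).1
    have h2 := (mem_erase.1 (mem_erase.1 hk).2).1
    rw [sw_ne t h2 h1]
    rcases Nat.lt_or_ge k r with h3 | h3
    · rw [st_sw_le t h3.le]
    · rw [st_sw_ge t (by omega)]

lemma sum_sw (F : Multiset ℤ → ℤ → ℤ) (t : ℕ → ℤ) {r n : ℕ} (h : r + 1 < n) :
    ∑ k ∈ range n, F (st (sw r t) k) (sw r t k) - ∑ k ∈ range n, F (st t k) (t k)
      = (F (st t r) (t (r + 1)) + F (t (r + 1) ::ₘ st t r) (t r))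
        - (F (st t r) (t r) + F (t r ::ₘ st t r) (t (r + 1))) := by
  obtain ⟨Z, h1, h2⟩ := prod_sw (fun μ c => Multiplicative.ofAdd (F μ c)) t h
  rw [← ofAdd_sum] at h1 h2
  have e1 := congrArg Multiplicative.toAdd h1
  have e2 := congrArg Multiplicative.toAdd h2
  simp only [toAdd_ofAdd, toAdd_mul] at e1 e2
  rw [e1, e2]; ring

section std

variable {n : ℕ} {t : ℕ → ℤ} (ht : t ∈ Std n)
include ht

lemma hh_st {k : ℕ} (hk : k < n) : hh (st t k) (t k) = 1 := (mem_Std.1 ht).1 k hk

lemma hh_last {k : ℕ} (hk : k < n) : hh (st t (k + 1)) (t k) = -1 := by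
  rw [st_succ, hh_cons, hh_st ht hk]; split_ifs <;> omega

lemma ne_succ {r : ℕ} (h : r + 1 < n) : t r ≠ t (r + 1) := by
  intro e
  have h1 := hh_last ht (k := r) (by omega)
  have h2 := hh_st ht h
  rw [← e] at h2; omega

lemma ne_succ_succ {r : ℕ} (h : r + 2 < n) : t r ≠ t (r + 2) := by
  intro e
  have h1 := hh_last ht (k := r) (by omega)
  have h2 := hh_st ht h
  rw [← e, st_succ, hh_cons] at h2
  split_ifs at h2 <;> omega

lemma sw_mem {r : ℕ} (h : r + 1 < n) (h2 : 2 ≤ |t r - t (r + 1)|) : sw r t ∈ Std n := by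
  have a1 := hh_st ht (k := r) (by omega)
  have a2 := hh_st ht h
  rw [st_succ, hh_cons] at a2
  have h3 : t r - t (r + 1) ≤ -2 ∨ 2 ≤ t r - t (r + 1) := by
    rcases le_abs'.1 h2 with h | h <;> omega
  refine mem_Std.2 ⟨fun k hk => ?_, fun k hk => ?_⟩
  · by_cases e1 : k = r
    · subst e1
      rw [st_sw_le t le_rfl, sw_fst]
      split_ifs at a2 <;> omega
    by_cases e2 : k = r + 1
    · subst e2
      rw [st_succ, st_sw_le t le_rfl, sw_fst, sw_snd, hh_cons]
      split_ifs <;> omega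
    rw [sw_ne t e1 e2]
    rcases Nat.lt_or_ge k r with h4 | h4
    · rw [st_sw_le t h4.le]; exact hh_st ht hk
    · rw [st_sw_ge t (by omega)]; exact hh_st ht hk
  · rw [sw_ne t (by omega) (by omega)]; exact (mem_Std.1 ht).2 k hk

lemma abs_le_idx (k : ℕ) : |t k| ≤ k := by
  induction k using Nat.strong_induction_on with
  | _ k ih =>
    rcases Nat.lt_or_ge k n with hk | hk
    · have h1 : t k ∈ supp3 (st t k) := mem_supp3_of_ne (by rw [hh_st ht hk]; omega)
      simp only [supp3, mem_insert, mem_biUnion, Multiset.mem_toFinset, mem_singleton,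
        mem_st] at h1
      rcases h1 with h1 | ⟨b, ⟨j, hj, rfl⟩, h1⟩
      · rw [h1]; simp
      · have := abs_le.1 (ih j hj)
        rw [abs_le]; omega
    · rw [(mem_Std.1 ht).2 k hk]; simp

lemma abs_le_n (k : ℕ) : |t k| ≤ n := by
  rcases Nat.lt_or_ge k n with hk | hk
  · have := abs_le_idx ht k; omega
  · rw [(mem_Std.1 ht).2 k hk]; simp

lemma first_zero : t 0 = 0 := by simpa using abs_le_idx ht 0

lemma abs_le_of_mem_st {k : ℕ} {b : ℤ} (hb : b ∈ st t k) : |b| ≤ n := by
  obtain ⟨j, -, rfl⟩ := mem_st.1 hb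
  exact abs_le_n ht j

end std

/-- Number of ascending pairs. -/
def asc (n : ℕ) (t : ℕ → ℤ) : ℤ := ∑ k ∈ range n, ((st t k).countP (· < t k) : ℤ)

lemma asc_sw (t : ℕ → ℤ) {r n : ℕ} (h : r + 1 < n) :
    asc n (sw r t) - asc n t
      = (if t (r + 1) < t r then 1 else 0) - (if t r < t (r + 1) then 1 else 0) := by
  have := sum_sw (fun μ c => (μ.countP (· < c) : ℤ)) t h
  simp only [Multiset.countP_cons] at this
  unfold asc
  rw [this]
  push_cast
  ring

lemma asc_nonneg (n : ℕ) (t : ℕ → ℤ) : 0 ≤ asc n t := sum_nonneg fun _ _ => by positivity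

lemma asc_le (n : ℕ) (t : ℕ → ℤ) : asc n t ≤ n ^ 2 := by
  unfold asc
  calc _ ≤ ∑ _k ∈ range n, (n : ℤ) := by
        refine sum_le_sum fun k hk => ?_
        have h1 := Multiset.countP_le_card (· < t k) (st t k)
        rw [card_st] at h1
        have := mem_range.1 hk
        omega
    _ = n ^ 2 := by simp; ring

lemma dg_sw (t : ℕ → ℤ) {r n : ℕ} (h : r + 1 < n) (h2 : t (r + 1) + 2 ≤ t r) :
    dg (sw r t) n = dg t n + if t r % 2 = t (r + 1) % 2 then -2 else 2 := by
  have := sum_sw degStep t h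
  unfold dg
  simp only [degStep, Lam_cons] at this ⊢
  split_ifs at this ⊢ <;> omega

/-- Same residue sequence. -/
def Par (n : ℕ) (s t : ℕ → ℤ) : Prop := ∀ k < n, s k % 2 = t k % 2

lemma Par.refl (n : ℕ) (s : ℕ → ℤ) : Par n s s := fun _ _ => rfl
lemma Par.symm {n : ℕ} {s t : ℕ → ℤ} (h : Par n s t) : Par n t s := fun k hk => (h k hk).symm
lemma Par.trans {n : ℕ} {s t u : ℕ → ℤ} (h : Par n s t) (h' : Par n t u) : Par n s u :=
  fun k hk => (h k hk).trans (h' k hk)

lemma Par.sw {n r : ℕ} {s t : ℕ → ℤ} (h : Par n s t) (hr : r + 1 < n) :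
    Par n (sw r s) (sw r t) := by
  intro k hk
  by_cases e1 : k = r
  · subst e1; simpa using h _ hr
  by_cases e2 : k = r + 1
  · subst e2; simpa using h r (by omega)
  rw [sw_ne _ e1 e2, sw_ne _ e1 e2]; exact h k hk

lemma par_sw_self {n r : ℕ} {s : ℕ → ℤ} (h : s r % 2 = s (r + 1) % 2) : Par n (sw r s) s := by
  intro k _
  by_cases e1 : k = r
  · subst e1; simpa using h.symm
  by_cases e2 : k = r + 1
  · subst e2; simpa using h
  rw [sw_ne _ e1 e2]

lemma Par.dd_eq {n : ℕ} {s t : ℕ → ℤ} (h : Par n s t) {k : ℕ} (hk : k ≤ n) :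
    dd (st s k) = dd (st t k) := by
  induction k with
  | zero => simp
  | succ k ih => rw [st_succ, st_succ, dd_cons, dd_cons, ih (by omega), h k (by omega)]

lemma ww_eq_of_dd {n : ℕ} {s t : ℕ → ℤ} (hs : s ∈ Std n) (ht : t ∈ Std n)
    (h : dd (st s n) = dd (st t n)) : ww s n = ww t n := by
  have h1 := two_ww hs le_rfl
  have h2 := two_ww ht le_rfl
  rw [h] at h1; omega

/-- Number of particles at sites `≥ c`; the row index of an addable box of content `c`. -/
def rho (μ : Multiset ℤ) (c : ℤ) : ℤ := (μ.count c : ℤ) + max 0 (-c)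

lemma rho_succ (μ : Multiset ℤ) (a : ℤ) : rho μ (a + 1) = rho μ a - eta μ a := by
  unfold rho eta; split_ifs <;> omega

lemma Valid.rho_anti {μ : Multiset ℤ} (h : Valid μ) {a b : ℤ} (hab : a ≤ b) :
    rho μ b ≤ rho μ a := by
  induction b, hab using Int.le_induction with
  | base => exact le_rfl
  | succ b _ ih => rw [rho_succ]; rcases h b with h1 | h1 <;> omega

lemma Valid.rho_lt {μ : Multiset ℤ} (h : Valid μ) {a c : ℤ} (hc : hh μ c = 1) (hac : a < c) :
    rho μ c < rho μ a := by
  have h1 := (h.hh_eq_one.1 hc).1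
  have h2 := rho_succ μ (c - 1)
  rw [sub_add_cancel] at h2
  have h3 := h.rho_anti (a := a) (b := c - 1) (by omega)
  omega

lemma Valid.rho_inj {μ : Multiset ℤ} (h : Valid μ) {a c : ℤ} (ha : hh μ a = 1) (hc : hh μ c = 1)
    (e : rho μ a = rho μ c) : a = c := by
  rcases lt_trichotomy a c with h1 | h1 | h1
  · have := h.rho_lt hc h1; omega
  · exact h1
  · have := h.rho_lt ha h1; omega

lemma rho_const {μ : Multiset ℤ} {a b : ℤ} (hab : a ≤ b) (h : ∀ x, a ≤ x → x < b → eta μ x = 0) :
    rho μ b = rho μ a := by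
  induction b, hab using Int.le_induction with
  | base => rfl
  | succ b hb ih => rw [rho_succ, h b hb (by omega), ih fun x h1 h2 => h x h1 (by omega)]; ring

/-- The lowest addable content after `k` steps. -/
def low (t : ℕ → ℤ) : ℕ → ℤ
  | 0 => 0
  | k + 1 => if t k = low t k then low t k - 1 else low t k

lemma low_spec {n : ℕ} {t : ℕ → ℤ} (ht : t ∈ Std n) {k : ℕ} (hk : k ≤ n) :
    low t k ≤ 0 ∧ (∀ a ≤ low t k, (st t k).count a = 0) ∧ eta (st t k) (low t k) = 0 := by
  induction k with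
  | zero => simp [low, eta]
  | succ k ih =>
    obtain ⟨h1, h2, h3⟩ := ih (by omega)
    have hv := valid_st ht (k := k) (by omega)
    obtain ⟨e1, e2⟩ := hv.hh_eq_one.1 (hh_st ht (k := k) (by omega))
    have h4 : ∀ a < low t k, eta (st t k) a = 1 := by
      intro a ha
      unfold eta
      rw [h2 a ha.le, h2 (a + 1) (by omega), if_pos (by omega)]; simp
    have h5 : low t k ≤ t k := by
      by_contra hc
      have := h4 (t k) (by omega); omega
    rw [low, st_succ]
    split_ifs with hc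
    · refine ⟨by omega, fun a ha => ?_, ?_⟩
      · rw [Multiset.count_cons, h2 a (by omega), if_neg (by omega)]
      · rw [eta_cons, h4 _ (by omega)]; split_ifs <;> omega
    · have h6 : t k - 1 ≠ low t k := by intro e; rw [e] at e1; omega
      refine ⟨h1, fun a ha => ?_, ?_⟩
      · rw [Multiset.count_cons, h2 a ha, if_neg (by omega)]
      · rw [eta_cons, h3]; split_ifs <;> omega

section low

variable {n : ℕ} {t : ℕ → ℤ} (ht : t ∈ Std n)
include ht

lemma eta_below {k : ℕ} (hk : k ≤ n) {a : ℤ} (ha : a < low t k) : eta (st t k) a = 1 := by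
  obtain ⟨h1, h2, -⟩ := low_spec ht hk
  unfold eta
  rw [h2 a ha.le, h2 (a + 1) (by omega), if_pos (by omega)]; simp

lemma rho_low {k : ℕ} (hk : k ≤ n) : rho (st t k) (low t k) = -low t k := by
  obtain ⟨h1, h2, -⟩ := low_spec ht hk
  unfold rho
  rw [h2 _ le_rfl]; omega

lemma low_le {k : ℕ} (hk : k < n) : low t k ≤ t k := by
  by_contra hc
  have h1 := eta_below ht hk.le (a := t k) (by omega)
  have := ((valid_st ht hk.le).hh_eq_one.1 (hh_st ht hk)).2
  omega

lemma low_gap {k : ℕ} (hk : k < n) (h : t k ≠ low t k) : low t k + 2 ≤ t k := by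
  have h1 := low_le ht hk
  have h2 := ((valid_st ht hk.le).hh_eq_one.1 (hh_st ht hk)).1
  have h3 := (low_spec ht hk.le).2.2
  by_contra hc
  have : t k - 1 = low t k := by omega
  rw [this] at h2; omega

lemma rho_le_low {k : ℕ} (hk : k < n) : rho (st t k) (t k) ≤ -low t (k + 1) - 1 := by
  have h1 := rho_low ht hk.le
  rw [low]
  split_ifs with hc
  · rw [hc, h1]; omega
  · have := (valid_st ht hk.le).rho_lt (hh_st ht hk) (a := low t k)
      (lt_of_le_of_ne (low_le ht hk) (Ne.symm hc))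
    omega

lemma abs_low_le (k : ℕ) : -(k : ℤ) ≤ low t k := by
  induction k with
  | zero => simp [low]
  | succ k ih => rw [low]; split_ifs <;> omega

end low

/-- No big ascents: the row reading tableau. -/
def Term (n : ℕ) (t : ℕ → ℤ) : Prop := ∀ r, r + 1 < n → t (r + 1) ≤ t r + 1

section term

variable {n : ℕ} {t : ℕ → ℤ} (ht : t ∈ Std n) (hT : Term n t)
include ht hT

lemma term_gap {k : ℕ} (hk : k < n) :
    ∀ a, low t k ≤ a → a < t k - 1 → eta (st t k) a = 0 := by
  induction k with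
  | zero => intro a h1 h2; rw [first_zero ht] at h2; simp [low] at h1; omega
  | succ k ih =>
    intro a h1 h2
    have h3 := hT k hk
    have hk' : k < n := by omega
    obtain ⟨e1, e2⟩ := (valid_st ht hk'.le).hh_eq_one.1 (hh_st ht hk')
    rw [st_succ, eta_cons]
    rw [low] at h1
    by_cases h4 : a = t k - 1
    · rw [h4, e1]; split_ifs <;> omega
    · rw [if_neg (by omega), if_neg h4]
      split_ifs at h1 with hc
      · omega
      · have := ih hk' a h1 (by omega); omega

lemma term_rho {k : ℕ} (hk : k < n) : rho (st t k) (t k) = -low t (k + 1) - 1 := by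
  have h1 := rho_low ht hk.le
  rw [low]
  split_ifs with hc
  · rw [hc, h1]; omega
  · have h2 := low_gap ht hk hc
    have h3 := rho_const (μ := st t k) (a := low t k) (b := t k - 1) (by omega)
      (term_gap ht hT hk)
    have h4 := rho_succ (st t k) (t k - 1)
    rw [sub_add_cancel, ((valid_st ht hk.le).hh_eq_one.1 (hh_st ht hk)).1] at h4
    omega

lemma term_hh {k : ℕ} (hk : k < n) {x : ℤ} (hx : x < t k - 1) :
    hh (st t k) x = if x = low t k then 1 else 0 := by
  rw [hh_eq_eta]
  rcases lt_trichotomy x (low t k) with h | h | h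
  · rw [eta_below ht hk.le h, eta_below ht hk.le (by omega), if_neg h.ne]; ring
  · rw [if_pos h, h, eta_below ht hk.le (by omega), (low_spec ht hk.le).2.2]; ring
  · rw [if_neg h.ne', term_gap ht hT hk x h.le hx, term_gap ht hT hk (x - 1) (by omega) (by omega)]
    ring

end term

lemma count_st_mono (t : ℕ → ℤ) (c : ℤ) {k l : ℕ} (h : k ≤ l) :
    (st t k).count c ≤ (st t l).count c := by
  induction l, h using Nat.le_induction with
  | base => exact le_rfl
  | succ l _ ih => rw [st_succ, Multiset.count_cons]; omega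

lemma term_unique_aux {n : ℕ} {s t : ℕ → ℤ} (hs : s ∈ Std n) (ht : t ∈ Std n) (hT : Term n t)
    (e : st s n = st t n) {k : ℕ} (hk : k < n) (h : st s k = st t k) : s k ≤ t k := by
  by_contra hc
  push Not at hc
  have e1 := ((valid_st hs hk.le).hh_eq_one.1 (hh_st hs hk)).1
  rw [h] at e1
  have key : ∀ l, k ≤ l → l < n → t l < s k ∧ eta (st t l) (s k - 1) = 1
      ∧ (st t l).count (s k) = (st t k).count (s k) := by
    intro l hl
    induction l, hl using Nat.le_induction with
    | base => exact fun _ => ⟨hc, e1, rfl⟩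
    | succ l hl ih =>
      intro hn
      obtain ⟨i1, i2, i3⟩ := ih (by omega)
      have i4 := ((valid_st ht (k := l) (by omega)).hh_eq_one.1 (hh_st ht (by omega))).2
      have i5 : t l ≠ s k - 1 := by intro e; rw [e] at i4; omega
      have i6 := hT l hn
      refine ⟨by omega, ?_, ?_⟩
      · rw [st_succ, eta_cons, i2]; split_ifs <;> omega
      · rw [st_succ, Multiset.count_cons, i3, if_neg (by omega)]; rfl
  obtain ⟨m, rfl⟩ : ∃ m, n = m + 1 := ⟨n - 1, by omega⟩
  obtain ⟨i1, -, i3⟩ := key m (by omega) (by omega)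
  have a1 : (st t (m + 1)).count (s k) = (st t k).count (s k) := by
    rw [st_succ, Multiset.count_cons, i3, if_neg (by omega)]; rfl
  have a2 := count_st_mono s (s k) (k := k + 1) (l := m + 1) (by omega)
  rw [st_succ s k, Multiset.count_cons_self, e, a1, h] at a2
  omega

lemma eq_of_steps {n : ℕ} {s t : ℕ → ℤ} (hs : s ∈ Std n) (ht : t ∈ Std n)
    (h : ∀ k < n, st s k = st t k → s k = t k) : s = t := by
  have key : ∀ k ≤ n, ∀ j < k, s j = t j := by
    intro k
    induction k with
    | zero => intro _ j hj; omega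
    | succ k ih =>
      intro hk j hj
      rcases Nat.lt_or_ge j k with h1 | h1
      · exact ih (by omega) j h1
      · obtain rfl : j = k := by omega
        exact h j (by omega) (st_congr (ih (by omega)))
  funext j
  rcases Nat.lt_or_ge j n with h1 | h1
  · exact key n le_rfl j h1
  · rw [(mem_Std.1 hs).2 j h1, (mem_Std.1 ht).2 j h1]

lemma term_unique {n : ℕ} {s t : ℕ → ℤ} (hs : s ∈ Std n) (ht : t ∈ Std n) (hS : Term n s)
    (hT : Term n t) (e : st s n = st t n) : s = t :=
  eq_of_steps hs ht fun _ hk h =>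
    le_antisymm (term_unique_aux hs ht hT e hk h) (term_unique_aux ht hs hS e.symm hk h.symm)

/-- Twice the sum of the row indices of all boxes. -/
def ph (μ : Multiset ℤ) : ℤ := (μ.map fun b => (μ.count b : ℤ) - 1 + 2 * max 0 (-b)).sum

lemma sum_map_ite (μ : Multiset ℤ) (c : ℤ) :
    (μ.map fun b => if b = c then (1 : ℤ) else 0).sum = μ.count c := by
  induction μ using Multiset.induction_on with
  | empty => simp
  | cons a μ ih =>
    rw [Multiset.map_cons, Multiset.sum_cons, ih, Multiset.count_cons]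
    push_cast
    split_ifs <;> omega

lemma ph_cons (μ : Multiset ℤ) (c : ℤ) : ph (c ::ₘ μ) = ph μ + 2 * rho μ c := by
  unfold ph rho
  rw [Multiset.map_cons, Multiset.sum_cons, Multiset.count_cons_self]
  have : (μ.map fun b => (((c ::ₘ μ).count b : ℕ) : ℤ) - 1 + 2 * max 0 (-b))
      = μ.map fun b => ((μ.count b : ℤ) - 1 + 2 * max 0 (-b)) + if b = c then 1 else 0 := by
    refine Multiset.map_congr rfl fun b _ => ?_
    rw [Multiset.count_cons]; push_cast; ring
  rw [this, Multiset.sum_map_add, sum_map_ite]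
  push_cast; ring

lemma ph_st (t : ℕ → ℤ) (k : ℕ) : ph (st t k) = 2 * ∑ j ∈ range k, rho (st t j) (t j) := by
  induction k with
  | zero => simp [ph]
  | succ k ih => rw [st_succ, ph_cons, ih, sum_range_succ]; ring

/-- Dominance triangularity. -/
lemma term_triangular {n : ℕ} {u t : ℕ → ℤ} (hu : u ∈ Std n) (ht : t ∈ Std n) (hT : Term n t)
    (h : ∀ k < n, t k ≠ low t k → u k ≠ low t k) : ph (st u n) < ph (st t n) ∨ u = t := by
  have h1 : ∀ k ≤ n, low t k ≤ low u k := by
    intro k
    induction k with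
    | zero => simp [low]
    | succ k ih =>
      intro hk
      have i1 := ih (by omega)
      have i2 := h k (by omega)
      rw [low, low]
      split_ifs <;> omega
  have h2 : ∀ k ∈ range n, rho (st u k) (u k) ≤ rho (st t k) (t k) := by
    intro k hk
    have hk := mem_range.1 hk
    have := rho_le_low hu hk
    have := term_rho ht hT hk
    have := h1 (k + 1) hk
    omega
  rcases (sum_le_sum h2).lt_or_eq with h3 | h3
  · left; rw [ph_st, ph_st]; omega
  · right
    have h4 := (sum_eq_sum_iff_of_le h2).1 h3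
    refine eq_of_steps hu ht fun k hk e => ?_
    have h5 := h4 k (mem_range.2 hk)
    have h6 := hh_st hu hk
    rw [e] at h5 h6
    exact (valid_st ht hk.le).rho_inj h6 (hh_st ht hk) h5

lemma hh_neg (μ : Multiset ℤ) (c : ℤ) : hh (μ.map Neg.neg) (-c) = hh μ c := by
  induction μ using Multiset.induction_on with
  | empty => simp [hh_zero]
  | cons b μ ih => rw [Multiset.map_cons, hh_cons, hh_cons, ih]; split_ifs <;> omega

lemma st_neg (t : ℕ → ℤ) (k : ℕ) : st (-t) k = (st t k).map Neg.neg := by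
  simp [st]

lemma neg_mem {n : ℕ} {t : ℕ → ℤ} (ht : t ∈ Std n) : -t ∈ Std n := by
  refine mem_Std.2 ⟨fun k hk => ?_, fun k hk => ?_⟩
  · rw [st_neg, Pi.neg_apply, hh_neg]; exact hh_st ht hk
  · rw [Pi.neg_apply, (mem_Std.1 ht).2 k hk, neg_zero]

end Pool.Agent.P.MP_e72dc0_lc.Sn
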