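import Pool.Agent.P.MP_e72dc0_lc.Sn.FermiA

/-! Module D, anticommutation relations on finite sets. -/

namespace Pool.Agent.P.MP_e72dc0_lc.Sn.FermiB

open Finset

/-- Jordan-Wigner sign. -/
noncomputable def sg (R : Finset ℤ) (a : ℤ) : ℝ := ∏ y ∈ R, if a < y then (-1 : ℝ) else 1

lemma sg_sq (R : Finset ℤ) (a : ℤ) : sg R a * sg R a = 1 := by
  unfold sg
  rw [← prod_mul_distrib]
  exact prod_eq_one fun y _ => by split_ifs <;> norm_num

lemma sg_insert {R : Finset ℤ} {b : ℤ} (hb : b ∉ R) (a : ℤ) :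
    sg (insert b R) a = (if a < b then (-1 : ℝ) else 1) * sg R a := by
  unfold sg
  rw [prod_insert hb]

lemma sg_erase {R : Finset ℤ} {b : ℤ} (hb : b ∈ R) (a : ℤ) :
    sg R a = (if a < b then (-1 : ℝ) else 1) * sg (R.erase b) a := by
  rw [← sg_insert (notMem_erase b R), insert_erase hb]

lemma sg_succ {R : Finset ℤ} {a : ℤ} (h : a + 1 ∉ R) : sg R a = sg R (a + 1) := by
  unfold sg
  refine prod_congr rfl fun y hy => ?_
  have : y ≠ a + 1 := fun e => h (e ▸ hy)
  by_cases h1 : a < y
  · rw [if_pos h1, if_pos (by omega)]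
  · rw [if_neg h1, if_neg (by omega)]

lemma reidx {V : Finset ℤ} {a : ℤ} (ha : a ∈ V) (F : Finset ℤ → ℝ) :
    ∑ R ∈ V.powerset, (if a ∉ R then F R else 0)
      = ∑ S ∈ V.powerset, (if a ∈ S then F (S.erase a) else 0) := by
  rw [← sum_filter, ← sum_filter]
  refine sum_nbij' (fun R => insert a R) (fun S => S.erase a) ?_ ?_ ?_ ?_ ?_
  · intro R hR
    simp only [mem_filter, mem_powerset] at hR ⊢
    exact ⟨insert_subset ha hR.1, mem_insert_self _ _⟩
  · intro S hS
    simp only [mem_filter, mem_powerset] at hS ⊢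
    exact ⟨(erase_subset _ _).trans hS.1, notMem_erase _ _⟩
  · intro R hR
    simp only [mem_filter] at hR
    exact erase_insert hR.2
  · intro S hS
    simp only [mem_filter] at hS
    exact insert_erase hS.2
  · intro R hR
    simp only [mem_filter] at hR
    rw [erase_insert hR.2]

section
variable (V : Finset ℤ) (X : Finset ℤ → ℝ)

/-- Annihilation. -/
noncomputable def u (a : ℤ) (R : Finset ℤ) : ℝ :=
  if a ∈ V ∧ a ∉ R then sg R a * X (insert a R) else 0

/-- Creation. -/
noncomputable def v (a : ℤ) (R : Finset ℤ) : ℝ :=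
  if a ∈ R then sg R a * X (R.erase a) else 0

noncomputable def gam (a b : ℤ) : ℝ := ∑ R ∈ V.powerset, u V X a R * u V X b R
noncomputable def gam' (a b : ℤ) : ℝ := ∑ R ∈ V.powerset, v X a R * v X b R
noncomputable def Nn : ℝ := ∑ R ∈ V.powerset, X R * X R

lemma gam_symm (a b : ℤ) : gam V X a b = gam V X b a :=
  sum_congr rfl fun _ _ => mul_comm _ _

lemma gam_left {a : ℤ} (ha : a ∉ V) (b : ℤ) : gam V X a b = 0 :=
  sum_eq_zero fun R _ => by simp [u, ha]

lemma gam'_left {a : ℤ} (ha : a ∉ V) (b : ℤ) : gam' V X a b = 0 :=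
  sum_eq_zero fun R hR => by
    have : a ∉ R := fun h => ha (mem_powerset.1 hR h)
    simp [v, this]

lemma gam'_symm (a b : ℤ) : gam' V X a b = gam' V X b a :=
  sum_congr rfl fun _ _ => mul_comm _ _

variable {V}

lemma gam_eq {a : ℤ} (ha : a ∈ V) (b : ℤ) :
    gam V X a b = ∑ S ∈ V.powerset,
      (if a ∈ S then sg (S.erase a) a * X S * u V X b (S.erase a) else 0) := by
  have h := reidx ha (fun R => sg R a * X (insert a R) * u V X b R)
  refine Eq.trans ?_ (h.trans ?_)
  · refine sum_congr rfl fun R _ => ?_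
    by_cases h1 : a ∈ R
    · simp [u, h1]
    · rw [if_pos h1]
      congr 1
      simp [u, h1, ha]
  · refine sum_congr rfl fun S _ => ?_
    split_ifs with h1
    · rw [insert_erase h1]
    · rfl

lemma gam_diag {a : ℤ} (ha : a ∈ V) :
    gam V X a a = ∑ S ∈ V.powerset, (if a ∈ S then X S * X S else 0) := by
  rw [gam_eq X ha]
  refine sum_congr rfl fun S _ => ?_
  split_ifs with h1
  · simp only [u, ha, notMem_erase, not_false_eq_true, and_self, if_true, insert_erase h1]
    linear_combination (X S * X S) * sg_sq (S.erase a) a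
  · rfl

lemma gam_succ {a : ℤ} (ha : a ∈ V) (ha1 : a + 1 ∈ V) :
    gam V X a (a + 1) = ∑ S ∈ V.powerset,
      X S * (if a ∈ S ∧ a + 1 ∉ S then X (insert (a + 1) (S.erase a)) else 0) := by
  rw [gam_eq X ha]
  refine sum_congr rfl fun S _ => ?_
  by_cases h1 : a ∈ S
  · by_cases h2 : a + 1 ∈ S
    · have : a + 1 ∈ S.erase a := mem_erase.2 ⟨by omega, h2⟩
      simp [u, h1, h2, this]
    · have h3 : a + 1 ∉ S.erase a := fun h => h2 (mem_of_mem_erase h)
      simp only [u, h1, h2, h3, ha1, not_false_eq_true, and_self, if_true]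
      rw [← sg_succ h3]
      linear_combination (X S * X (insert (a + 1) (S.erase a))) * sg_sq (S.erase a) a
  · simp [h1]

lemma gam'_eq {b : ℤ} (hb : b ∈ V) (a : ℤ) :
    gam' V X a b = ∑ R ∈ V.powerset,
      (if b ∉ R then v X a (insert b R) * (sg (insert b R) b * X R) else 0) := by
  rw [reidx hb (fun R => v X a (insert b R) * (sg (insert b R) b * X R))]
  refine sum_congr rfl fun S _ => ?_
  split_ifs with h1
  · rw [insert_erase h1]
    simp [v, h1]
  · simp [v, h1]

/-- The canonical anticommutation relation. -/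
lemma car (a b : ℤ) :
    gam V X a b + gam' V X a b = if a = b ∧ a ∈ V then Nn V X else 0 := by
  by_cases ha : a ∈ V
  swap
  · simp [gam_left V X ha, gam'_left V X ha, ha]
  by_cases hb : b ∈ V
  swap
  · have : a ≠ b := fun e => hb (e ▸ ha)
    rw [gam_symm, gam'_symm]
    simp [gam_left V X hb, gam'_left V X hb, this]
  by_cases hab : a = b
  · subst hab
    rw [gam_diag X ha, gam'_eq X ha, if_pos ⟨rfl, ha⟩, Nn, ← sum_add_distrib]
    refine sum_congr rfl fun S _ => ?_
    by_cases h1 : a ∈ S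
    · simp [h1]
    · simp only [h1, if_false, not_false_eq_true, if_true, v, mem_insert_self, erase_insert h1]
      linear_combination (X S * X S) * sg_sq (insert a S) a
  · rw [gam_eq X ha, gam'_eq X hb, if_neg (fun h => hab h.1), ← sum_add_distrib]
    refine sum_eq_zero fun S _ => ?_
    by_cases h1 : a ∈ S
    · by_cases h2 : b ∈ S
      · have : b ∈ S.erase a := mem_erase.2 ⟨fun e => hab e.symm, h2⟩
        simp [u, h2, this]
      · have h3 : b ∉ S.erase a := fun h => h2 (mem_of_mem_erase h)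
        have h4 : a ∈ insert b S := mem_insert_of_mem h1
        have h5 : (insert b S).erase a = insert b (S.erase a) :=
          erase_insert_of_ne (fun e => hab e.symm)
        simp only [u, v, h1, h2, h3, h4, hb, h5, not_false_eq_true, and_self, if_true]
        rw [sg_insert h2, sg_insert h2, sg_erase h1 a, sg_erase h1 b]
        rcases lt_or_gt_of_ne hab with h | h
        · simp only [h, h.not_gt, lt_irrefl, if_true, if_false]
          ring
        · simp only [h, h.not_gt, lt_irrefl, if_true, if_false]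
          ring
    · by_cases h2 : b ∈ S
      · simp [h1, h2]
      · have h4 : a ∉ insert b S := by simp [hab, h1]
        simp [v, h1, h4]

/-- Trace of a product of two positive kernels. -/
lemma trace_pos (A : Finset ℤ) (s : ℤ) :
    0 ≤ ∑ a ∈ A, ∑ b ∈ A, gam V X a b * gam' V X (a - s) (b - s) := by
  have : ∑ a ∈ A, ∑ b ∈ A, gam V X a b * gam' V X (a - s) (b - s)
      = ∑ R ∈ V.powerset, ∑ R' ∈ V.powerset,
        (∑ a ∈ A, u V X a R * v X (a - s) R') ^ 2 := by
    simp only [gam, gam', sq, sum_mul_sum]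
    calc ∑ a ∈ A, ∑ b ∈ A, ∑ R ∈ V.powerset, ∑ R' ∈ V.powerset,
          u V X a R * u V X b R * (v X (a - s) R' * v X (b - s) R')
        = ∑ a ∈ A, ∑ R ∈ V.powerset, ∑ R' ∈ V.powerset, ∑ b ∈ A,
          u V X a R * u V X b R * (v X (a - s) R' * v X (b - s) R') := by
          refine sum_congr rfl fun a _ => ?_
          rw [sum_comm]
          exact sum_congr rfl fun R _ => sum_comm
      _ = ∑ R ∈ V.powerset, ∑ R' ∈ V.powerset, ∑ a ∈ A, ∑ b ∈ A,
          u V X a R * u V X b R * (v X (a - s) R' * v X (b - s) R') := by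
          rw [sum_comm]
          exact sum_congr rfl fun R _ => sum_comm
      _ = _ := by
          refine sum_congr rfl fun R _ => sum_congr rfl fun R' _ =>
            sum_congr rfl fun a _ => sum_congr rfl fun b _ => by ring
  rw [this]
  exact sum_nonneg fun _ _ => sum_nonneg fun _ _ => sq_nonneg _

end

open FermiA

/-- Density matrix minus the vacuum. -/
noncomputable def Del (M : ℕ) (X : Finset ℤ → ℝ) (a b : ℤ) : ℝ :=
  gam (W M) X a b - if a = b ∧ a ∈ W M ∧ a < 0 then Nn (W M) X else 0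

theorem quad (M : ℕ) (X : Finset ℤ → ℝ) :
    Y M (Del M X) 0 0 ^ 2 + Y M (Del M X) 1 0 ^ 2 + (∑ a ∈ W M, Del M X a (a + 1)) ^ 2 / 2
        + (∑ a ∈ W M, Del M X a (a - 1)) ^ 2 / 2
      ≤ Nn (W M) X * ∑ a ∈ W M, ((2 * (a / 2) + 1 : ℤ) : ℝ) * Del M X a a := by
  refine abstract (fun a b ha => ?_) (fun a b hb => ?_) fun s hs => ?_
  · simp [Del, gam_left _ X ha, ha]
  · have : ¬ (a = b ∧ a ∈ W M ∧ a < 0) := fun h => hb (h.1 ▸ h.2.1)
    rw [Del, gam_symm, gam_left _ X hb, if_neg this, sub_zero]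
  · refine (trace_pos (V := W M) X (W M) s).trans (le_of_eq ?_)
    refine sum_congr rfl fun a ha => sum_congr rfl fun b _ => ?_
    have h := car (V := W M) X (a - s) (b - s)
    have ha' := mem_W.1 ha
    congr 1
    · simp [Del, ha]
    · rw [Del]
      simp only [mem_W] at h ⊢
      split_ifs at h ⊢ <;> first | linarith | omega

end Pool.Agent.P.MP_e72dc0_lc.Sn.FermiB
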