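import Pool.Agent.P.MP_e72dc0_lc.Sn.Basic
import Pool.Agent.P.MP_e72dc0_lc.Sn.FermiB

/-! Module D: the free fermion inequality. -/

namespace Pool.Agent.P.MP_e72dc0_lc.Sn

open Finset
open scoped Classical

namespace FermiC

open FermiA FermiB

/-- Occupied sites in the window. -/
noncomputable def SS (M : ℕ) (μ : Multiset ℤ) : Finset ℤ := (W M).filter fun a => eta μ a = 1

lemma mem_SS {M : ℕ} {μ : Multiset ℤ} {a : ℤ} : a ∈ SS M μ ↔ a ∈ W M ∧ eta μ a = 1 := by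
  simp [SS]

lemma SS_inj {M : ℕ} {μ ν : Multiset ℤ} (hμ : Valid μ) (hν : Valid ν) (iμ : ∀ b ∈ μ, b ∈ W M)
    (iν : ∀ b ∈ ν, b ∈ W M) (h : SS M μ = SS M ν) : μ = ν := by
  have e1 : ∀ a ∈ W M, eta μ a = eta ν a := by
    intro a ha
    have h1 : a ∈ SS M μ ↔ a ∈ SS M ν := by rw [h]
    rw [mem_SS, mem_SS] at h1
    rcases hμ a with h2 | h2 <;> rcases hν a with h3 | h3 <;> simp_all
  have e2 : ∀ a, a ∉ W M → μ.count a = ν.count a := by
    intro a ha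
    rw [Multiset.count_eq_zero.2 fun h => ha (iμ a h),
      Multiset.count_eq_zero.2 fun h => ha (iν a h)]
  have e3 : ∀ j : ℕ, μ.count ((M : ℤ) - j) = ν.count ((M : ℤ) - j) := by
    intro j
    induction j with
    | zero => exact e2 _ (by simp [mem_W])
    | succ j ih =>
      by_cases hW : (M : ℤ) - (j + 1 : ℕ) ∈ W M
      · have h1 := e1 _ hW
        unfold eta at h1
        have h2 : (M : ℤ) - (j + 1 : ℕ) + 1 = M - j := by push_cast; ring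
        rw [h2] at h1
        omega
      · exact e2 _ hW
  ext a
  by_cases hW : a ∈ W M
  · have h1 := e3 ((M : ℤ) - a).toNat
    have h2 : (M : ℤ) - (((M : ℤ) - a).toNat : ℕ) = a := by
      rw [mem_W] at hW
      omega
    rwa [h2] at h1
  · exact e2 a hW

lemma SS_cons {M : ℕ} {μ : Multiset ℤ} (hμ : Valid μ) {a : ℤ} (ha1 : a + 1 ∈ W M)
    (h : hh μ (a + 1) = 1) : SS M ((a + 1) ::ₘ μ) = insert (a + 1) ((SS M μ).erase a) := by
  have h1 := hμ.hh_eq_one.1 h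
  rw [add_sub_cancel_right] at h1
  ext y
  simp only [mem_insert, mem_erase, mem_SS, eta_cons]
  by_cases hy : y = a + 1
  · subst hy
    simp only [ha1, true_and, true_or, iff_true]
    split_ifs <;> omega
  · by_cases hy2 : y = a
    · subst hy2
      have h3 : y = y + 1 - 1 := by omega
      rw [if_neg hy, if_pos h3, h1.1]
      simp [hy]
    · have h3 : ¬ y = a + 1 - 1 := by omega
      simp [hy, hy2]

lemma sum_eta {M : ℕ} (f : ℤ → ℝ) (μ : Multiset ℤ) (h : ∀ b ∈ μ, b ∈ W M ∧ b - 1 ∈ W M) :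
    ∑ a ∈ W M, f a * ((eta μ a : ℝ) - if a < 0 then 1 else 0)
      = (μ.map fun b => f b - f (b - 1)).sum := by
  induction μ using Multiset.induction_on with
  | empty =>
    refine (sum_eq_zero fun a _ => ?_).trans (by simp)
    unfold eta
    split_ifs <;> simp
  | cons b μ ih =>
    obtain ⟨h1, h2⟩ := h b (Multiset.mem_cons_self _ _)
    rw [Multiset.map_cons, Multiset.sum_cons, ← ih fun c hc => h c (Multiset.mem_cons_of_mem hc)]
    have e : ∀ a ∈ W M, f a * ((eta (b ::ₘ μ) a : ℝ) - if a < 0 then 1 else 0)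
        = (if a = b then f a else 0) - (if a = b - 1 then f a else 0)
          + f a * ((eta μ a : ℝ) - if a < 0 then 1 else 0) := by
      intro a _
      rw [eta_cons]
      push_cast
      split_ifs <;> ring
    rw [sum_congr rfl e, sum_add_distrib, sum_sub_distrib, sum_ite_eq', sum_ite_eq', if_pos h1,
      if_pos h2]

lemma map_even (μ : Multiset ℤ) :
    (μ.map fun b => (if b % 2 = 0 then (1 : ℝ) else 0)
      - (if (b - 1) % 2 = 0 then (1 : ℝ) else 0)).sum = dd μ := by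
  induction μ using Multiset.induction_on with
  | empty => simp
  | cons b μ ih =>
    rw [Multiset.map_cons, Multiset.sum_cons, ih, dd_cons]
    push_cast
    split_ifs <;> first | omega | ring

lemma map_odd (μ : Multiset ℤ) :
    (μ.map fun b => (if b % 2 = 1 then (1 : ℝ) else 0)
      - (if (b - 1) % 2 = 1 then (1 : ℝ) else 0)).sum = - dd μ := by
  induction μ using Multiset.induction_on with
  | empty => simp
  | cons b μ ih =>
    rw [Multiset.map_cons, Multiset.sum_cons, ih, dd_cons]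
    push_cast
    split_ifs <;> first | omega | ring

lemma map_w (μ : Multiset ℤ) :
    (μ.map fun b => ((2 * (b / 2) + 1 : ℤ) : ℝ) - ((2 * ((b - 1) / 2) + 1 : ℤ) : ℝ)).sum
      = Multiset.card μ + dd μ := by
  induction μ using Multiset.induction_on with
  | empty => simp
  | cons b μ ih =>
    rw [Multiset.map_cons, Multiset.sum_cons, ih, dd_cons, Multiset.card_cons]
    have : (2 * (b / 2) + 1 : ℤ) - (2 * ((b - 1) / 2) + 1) = 1 + if b % 2 = 0 then 1 else -1 := by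
      split_ifs <;> omega
    have h2 := congrArg (fun z : ℤ => (z : ℝ)) this
    simp only [Int.cast_sub] at h2
    rw [h2]
    push_cast
    ring

section
variable (M : ℕ) (Ω : Finset (Multiset ℤ)) (x : Multiset ℤ → ℝ)

/-- The fermionic vector attached to `x`. -/
noncomputable def XX (S : Finset ℤ) : ℝ := ∑ μ ∈ Ω, if SS M μ = S then x μ else 0

lemma sum_XX (F : Finset ℤ → ℝ) :
    ∑ S ∈ (W M).powerset, XX M Ω x S * F S = ∑ μ ∈ Ω, x μ * F (SS M μ) := by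
  simp only [XX, sum_mul]
  rw [sum_comm]
  refine sum_congr rfl fun μ _ => ?_
  simp only [ite_mul, zero_mul]
  have h : SS M μ ∈ (W M).powerset := mem_powerset.2 (filter_subset _ _)
  rw [sum_ite_eq, if_pos h]

variable {M Ω x}

lemma XX_SS (hΩ : ∀ μ ∈ Ω, Valid μ) (hx : ∀ μ, μ ∉ Ω → x μ = 0)
    (hin : ∀ μ ∈ Ω, ∀ b ∈ μ, b ∈ W M) {ν : Multiset ℤ} (hν : Valid ν) (iν : ∀ b ∈ ν, b ∈ W M) :
    XX M Ω x (SS M ν) = x ν := by
  have e : ∀ μ ∈ Ω, (if SS M μ = SS M ν then x μ else 0) = if μ = ν then x μ else 0 := by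
    intro μ hμ
    by_cases h : μ = ν
    · simp [h]
    · rw [if_neg h, if_neg fun h' => h (SS_inj (hΩ μ hμ) hν (hin μ hμ) iν h')]
  rw [XX, sum_congr rfl e, sum_ite_eq']
  split_ifs with h
  · rfl
  · exact (hx ν h).symm

theorem key (hΩ : ∀ μ ∈ Ω, Valid μ) (hx : ∀ μ, μ ∉ Ω → x μ = 0) :
    2 * (∑ μ ∈ Ω, (dd μ : ℝ) * x μ ^ 2) ^ 2 + (∑ μ ∈ Ω, ∑ c ∈ add μ, x μ * x (c ::ₘ μ)) ^ 2
      ≤ (∑ μ ∈ Ω, x μ ^ 2) * (∑ μ ∈ Ω, (Multiset.card μ : ℝ) * x μ ^ 2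
        + ∑ μ ∈ Ω, (dd μ : ℝ) * x μ ^ 2) := by
  obtain ⟨M, hM2, hM⟩ : ∃ M : ℕ, 2 ≤ M ∧ ∀ μ ∈ Ω, ∀ b ∈ μ, b.natAbs + 2 ≤ M := by
    refine ⟨(Ω.sup fun μ => μ.toFinset.sup Int.natAbs) + 2, by omega, fun μ hμ b hb => ?_⟩
    have h1 : b.natAbs ≤ μ.toFinset.sup Int.natAbs := le_sup (Multiset.mem_toFinset.2 hb)
    have h2 : μ.toFinset.sup Int.natAbs ≤ Ω.sup fun μ => μ.toFinset.sup Int.natAbs :=
      le_sup (f := fun μ : Multiset ℤ => μ.toFinset.sup Int.natAbs) hμ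
    omega
  have hin2 : ∀ μ ∈ Ω, ∀ b ∈ μ, b ∈ W M ∧ b - 1 ∈ W M := by
    intro μ hμ b hb
    have := hM μ hμ b hb
    simp only [mem_W]
    omega
  have hin : ∀ μ ∈ Ω, ∀ b ∈ μ, b ∈ W M := fun μ hμ b hb => (hin2 μ hμ b hb).1
  have hadd : ∀ μ ∈ Ω, ∀ c ∈ add μ, c ∈ W M ∧ c - 1 ∈ W M := by
    intro μ hμ c hc
    have h1 : c ∈ supp3 μ := (mem_filter.1 hc).1
    simp only [supp3, mem_insert, mem_biUnion, Multiset.mem_toFinset, mem_singleton] at h1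
    simp only [mem_W]
    rcases h1 with h1 | ⟨b, hb, h1⟩
    · omega
    · have := hM μ hμ b hb
      omega
  set X := XX M Ω x with hX
  have hXS : ∀ μ ∈ Ω, X (SS M μ) = x μ := fun μ hμ => XX_SS hΩ hx hin (hΩ μ hμ) (hin μ hμ)
  have hN : Nn (W M) X = ∑ μ ∈ Ω, x μ ^ 2 := by
    rw [Nn, hX, sum_XX, ← hX]
    exact sum_congr rfl fun μ hμ => by rw [hXS μ hμ, sq]
  have hdiag : ∀ a ∈ W M, Del M X a a
      = ∑ μ ∈ Ω, x μ ^ 2 * ((eta μ a : ℝ) - if a < 0 then 1 else 0) := by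
    intro a ha
    have e1 : gam (W M) X a a = ∑ μ ∈ Ω, x μ ^ 2 * (eta μ a : ℝ) := by
      rw [gam_diag X ha]
      have e2 : ∀ S ∈ (W M).powerset, (if a ∈ S then X S * X S else 0)
          = X S * (if a ∈ S then X S else 0) := by
        intro S _
        split_ifs <;> simp
      rw [sum_congr rfl e2, hX, sum_XX, ← hX]
      refine sum_congr rfl fun μ hμ => ?_
      rw [hXS μ hμ]
      rcases hΩ μ hμ a with h | h
      · simp [h, mem_SS]
      · simp [h, ha, sq, mem_SS]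
    rw [Del, e1, hN]
    simp only [mul_sub, sum_sub_distrib, ha, true_and]
    congr 1
    split_ifs <;> simp
  have hf : ∀ f : ℤ → ℝ, ∑ a ∈ W M, f a * Del M X a a
      = ∑ μ ∈ Ω, (μ.map fun b => f b - f (b - 1)).sum * x μ ^ 2 := by
    intro f
    rw [sum_congr rfl fun a ha => by rw [hdiag a ha, mul_sum], sum_comm]
    refine sum_congr rfl fun μ hμ => ?_
    rw [← sum_eta f μ (hin2 μ hμ), sum_mul]
    exact sum_congr rfl fun a _ => by ring
  have hY0 : Y M (Del M X) 0 0 = ∑ μ ∈ Ω, (dd μ : ℝ) * x μ ^ 2 := by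
    have := hf fun a => if a % 2 = 0 then 1 else 0
    simp only [map_even] at this
    rw [← this, Y]
    exact sum_congr rfl fun a _ => by split_ifs <;> simp
  have hY1 : Y M (Del M X) 1 0 = - ∑ μ ∈ Ω, (dd μ : ℝ) * x μ ^ 2 := by
    have := hf fun a => if a % 2 = 1 then 1 else 0
    simp only [map_odd, neg_mul, sum_neg_distrib] at this
    rw [← this, Y]
    exact sum_congr rfl fun a _ => by split_ifs <;> simp
  have hw : ∑ a ∈ W M, ((2 * (a / 2) + 1 : ℤ) : ℝ) * Del M X a a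
      = ∑ μ ∈ Ω, (Multiset.card μ : ℝ) * x μ ^ 2 + ∑ μ ∈ Ω, (dd μ : ℝ) * x μ ^ 2 := by
    have := hf fun a => ((2 * (a / 2) + 1 : ℤ) : ℝ)
    simp only [map_w, add_mul, sum_add_distrib] at this
    exact this
  have hoff : ∀ a, gam (W M) X a (a + 1)
      = ∑ μ ∈ Ω, if a + 1 ∈ add μ then x μ * x ((a + 1) ::ₘ μ) else 0 := by
    intro a
    by_cases ha : a ∈ W M ∧ a + 1 ∈ W M
    · rw [gam_succ X ha.1 ha.2, hX, sum_XX, ← hX]
      refine sum_congr rfl fun μ hμ => ?_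
      have h1 := (hΩ μ hμ).hh_eq_one (c := a + 1)
      rw [add_sub_cancel_right] at h1
      by_cases h2 : a + 1 ∈ add μ
      · have h3 := mem_add.1 h2
        have h4 := h1.1 h3
        rw [if_pos h2, if_pos, ← SS_cons (hΩ μ hμ) ha.2 h3, hX,
          XX_SS hΩ hx hin ((hΩ μ hμ).cons h3)]
        · intro b hb
          rcases Multiset.mem_cons.1 hb with h | h
          · exact h ▸ ha.2
          · exact hin μ hμ b h
        · simp only [mem_SS]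
          exact ⟨⟨ha.1, h4.1⟩, fun h => by omega⟩
      · rw [if_neg h2, if_neg, mul_zero]
        simp only [mem_SS]
        intro h
        apply h2
        rw [mem_add, h1]
        refine ⟨h.1.2, ?_⟩
        rcases hΩ μ hμ (a + 1) with h5 | h5
        · exact h5
        · exact absurd ⟨ha.2, h5⟩ h.2
    · have e1 : gam (W M) X a (a + 1) = 0 := by
        by_cases h1 : a ∈ W M
        · rw [gam_symm]
          exact gam_left _ X (fun h => ha ⟨h1, h⟩) _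
        · exact gam_left _ X h1 _
      rw [e1]
      symm
      refine sum_eq_zero fun μ hμ => if_neg fun h => ha ?_
      have := hadd μ hμ _ h
      rw [add_sub_cancel_right] at this
      exact ⟨this.2, this.1⟩
  have hP1 : ∑ a ∈ W M, Del M X a (a + 1) = ∑ μ ∈ Ω, ∑ c ∈ add μ, x μ * x (c ::ₘ μ) := by
    have e : ∀ a ∈ W M, Del M X a (a + 1)
        = ∑ μ ∈ Ω, if a + 1 ∈ add μ then x μ * x ((a + 1) ::ₘ μ) else 0 := by
      intro a _
      rw [Del, hoff, if_neg (fun h => by omega), sub_zero]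
    rw [sum_congr rfl e, sum_comm]
    refine sum_congr rfl fun μ hμ => ?_
    rw [← sum_filter]
    refine sum_nbij' (fun a => a + 1) (fun c => c - 1) ?_ ?_ ?_ ?_ ?_
    · intro a ha
      exact (mem_filter.1 ha).2
    · intro c hc
      exact mem_filter.2 ⟨(hadd μ hμ c hc).2, by rwa [sub_add_cancel]⟩
    · intro a _
      simp
    · intro c _
      simp
    · intro a _
      rfl
  have hP2 : ∑ a ∈ W M, Del M X a (a - 1) = ∑ μ ∈ Ω, ∑ c ∈ add μ, x μ * x (c ::ₘ μ) := by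
    have e : ∀ a ∈ W M, Del M X a (a - 1)
        = ∑ μ ∈ Ω, if a ∈ add μ then x μ * x (a ::ₘ μ) else 0 := by
      intro a _
      have h := hoff (a - 1)
      rw [sub_add_cancel] at h
      rw [Del, gam_symm, h, if_neg (fun h => by omega), sub_zero]
    rw [sum_congr rfl e, sum_comm]
    refine sum_congr rfl fun μ hμ => ?_
    rw [← sum_filter]
    congr 1
    ext c
    simp only [mem_filter]
    exact ⟨fun h => h.2, fun h => ⟨(hadd μ hμ c h).1, h⟩⟩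
  have h := quad M X
  rw [hY0, hY1, hw, hP1, hP2, hN] at h
  linarith

end

end FermiC

theorem fermi (Ω : Finset (Multiset ℤ)) (hΩ : ∀ μ ∈ Ω, Valid μ) (x : Multiset ℤ → ℝ)
    (hx : ∀ μ, μ ∉ Ω → x μ = 0) (t σ : ℝ) :
    2 * t * ∑ μ ∈ Ω, ∑ c ∈ add μ, x μ * x (c ::ₘ μ)
        + (4 * σ - 1) * ∑ μ ∈ Ω, (dd μ : ℝ) * x μ ^ 2
      ≤ (t ^ 2 + 2 * σ ^ 2) * ∑ μ ∈ Ω, x μ ^ 2
        + ∑ μ ∈ Ω, (Multiset.card μ : ℝ) * x μ ^ 2 := by
  have h := FermiC.key hΩ hx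
  have hN : 0 ≤ ∑ μ ∈ Ω, x μ ^ 2 := sum_nonneg fun _ _ => sq_nonneg _
  rcases hN.eq_or_lt with h0 | h0
  · have hz : ∀ μ ∈ Ω, x μ = 0 := fun μ hμ =>
      pow_eq_zero_iff (two_ne_zero) |>.1
        ((sum_eq_zero_iff_of_nonneg fun _ _ => sq_nonneg _).1 h0.symm μ hμ)
    rw [← h0, sum_eq_zero fun μ hμ => sum_eq_zero fun c _ => by rw [hz μ hμ, zero_mul],
      sum_eq_zero fun μ hμ => by rw [hz μ hμ]; ring,
      sum_eq_zero fun μ hμ => by rw [hz μ hμ]; ring]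
    simp
  · generalize ∑ μ ∈ Ω, ∑ c ∈ add μ, x μ * x (c ::ₘ μ) = P at *
    generalize ∑ μ ∈ Ω, (dd μ : ℝ) * x μ ^ 2 = D at *
    generalize ∑ μ ∈ Ω, (Multiset.card μ : ℝ) * x μ ^ 2 = l at *
    generalize ∑ μ ∈ Ω, x μ ^ 2 = N at *
    refine le_of_mul_le_mul_left ?_ h0
    nlinarith [sq_nonneg (t * N - P), sq_nonneg (σ * N - D)]

/-- One state: `t = 0`, `σ = dd μ` gives `2 d ^ 2 - d ≤ |μ|`. -/
theorem dd_sq_le {μ : Multiset ℤ} (h : Valid μ) : dd μ ^ 2 ≤ (Multiset.card μ : ℤ) := by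
  have h1 := fermi {μ} (fun ν hν => mem_singleton.1 hν ▸ h) (fun ν => if ν = μ then 1 else 0)
    (fun ν hν => if_neg fun e => hν (mem_singleton.2 e)) 0 (dd μ)
  simp only [sum_singleton, if_true] at h1
  have h2 : ((2 * dd μ ^ 2 - dd μ : ℤ) : ℝ) ≤ ((Multiset.card μ : ℤ) : ℝ) := by
    push_cast
    linarith
  have h3 : 2 * dd μ ^ 2 - dd μ ≤ (Multiset.card μ : ℤ) := by exact_mod_cast h2
  nlinarith [Int.le_self_sq (dd μ)]

namespace FermiC

/-- Tent profile. -/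
noncomputable def chi (L : ℕ) (j : ℤ) : ℝ := ((max ((L : ℤ) - |j|) 0 : ℤ) : ℝ)

lemma chi_eq_zero {L : ℕ} {j : ℤ} (h : (L : ℤ) ≤ |j|) : chi L j = 0 := by
  rw [chi, max_eq_right (by omega), Int.cast_zero]

/-- Squared norm of the profile. -/
noncomputable def A0 (L : ℕ) : ℝ := ∑ j ∈ Icc (-(L : ℤ)) L, chi L j ^ 2

lemma sum_window {L K : ℕ} (f : ℤ → ℝ) (hf : ∀ j, j ∉ Icc (-(L : ℤ)) L → f j = 0) {d : ℤ}
    (hd : |d| + L ≤ K) : ∑ s ∈ Icc (-(K : ℤ)) K, f (d - s) = ∑ j ∈ Icc (-(L : ℤ)) L, f j := by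
  symm
  have hd2 := abs_le.1 (show |d| ≤ (K : ℤ) - L by omega)
  refine sum_of_injOn (fun j => d - j) ?_ ?_ ?_ ?_
  · intro a _ b _ h
    simp only at h
    omega
  · intro a ha
    simp only [coe_Icc, Set.mem_Icc] at ha ⊢
    omega
  · intro s _ hn
    apply hf
    intro h
    exact hn ⟨d - s, mem_coe.2 h, by simp⟩
  · intro j _
    simp

lemma sum_chi_sq {L K : ℕ} {d : ℤ} (hd : |d| + L ≤ K) :
    ∑ s ∈ Icc (-(K : ℤ)) K, chi L (d - s) ^ 2 = A0 L := by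
  refine sum_window (fun j => chi L j ^ 2) (fun j hj => ?_) hd
  rw [chi_eq_zero, sq, mul_zero]
  rw [mem_Icc] at hj
  rcases abs_cases j with h | h <;> omega

lemma A0_ge (L : ℕ) : (L : ℝ) ^ 3 / 3 + (L : ℝ) ^ 2 / 2 ≤ A0 L := by
  have h1 : ∀ (y : ℝ) (n : ℕ), ∑ j ∈ range n, (y - j) ^ 2
      = n * y ^ 2 - y * n * (n - 1) + (n - 1) * n * (2 * n - 1) / 6 := by
    intro y n
    induction n with
    | zero => simp
    | succ n ih => rw [sum_range_succ, ih]; push_cast; ring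
  have h2 : ∑ j ∈ range L, ((L : ℝ) - j) ^ 2
      = ∑ j ∈ (range L).image (fun j : ℕ => (j : ℤ)), chi L j ^ 2 := by
    rw [sum_image fun a _ b _ h => by exact_mod_cast h]
    refine sum_congr rfl fun j hj => ?_
    rw [mem_range] at hj
    rw [chi, abs_of_nonneg (by omega), max_eq_left (by omega)]
    push_cast
    rfl
  have h3 : ∑ j ∈ (range L).image (fun j : ℕ => (j : ℤ)), chi L j ^ 2 ≤ A0 L := by
    refine sum_le_sum_of_subset_of_nonneg (fun j hj => ?_) fun _ _ _ => sq_nonneg _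
    obtain ⟨i, hi, rfl⟩ := mem_image.1 hj
    rw [mem_range] at hi
    rw [mem_Icc]
    omega
  have h4 : (0 : ℝ) ≤ L := Nat.cast_nonneg L
  rw [← h2, h1] at h3
  nlinarith

lemma sum_chi_mul {L K : ℕ} (hL : 1 ≤ L) {d d' : ℤ} (hd : |d| + L ≤ K) (hd' : |d'| + L ≤ K)
    (he : d' = d + 1 ∨ d' = d - 1) :
    A0 L * (1 - 4 / (L : ℝ) ^ 2) ≤ ∑ s ∈ Icc (-(K : ℤ)) K, chi L (d - s) * chi L (d' - s) := by
  have h1 : ∀ s ∈ Icc (-(K : ℤ)) K, (chi L (d - s) - chi L (d' - s)) ^ 2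
      ≤ if d - s ∈ Icc (-(L : ℤ)) L then 1 else 0 := by
    intro s _
    unfold chi
    rw [← Int.cast_sub, ← Int.cast_pow]
    split_ifs with h
    · have h2 : |max ((L : ℤ) - |d - s|) 0 - max ((L : ℤ) - |d' - s|) 0| ≤ 1 := by
        rw [abs_le]
        rcases abs_cases (d - s) with h3 | h3 <;> rcases abs_cases (d' - s) with h4 | h4 <;> omega
      have h3 := (sq_le_one_iff_abs_le_one _).2 h2
      exact_mod_cast h3
    · rw [mem_Icc] at h
      have h2 : max ((L : ℤ) - |d - s|) 0 - max ((L : ℤ) - |d' - s|) 0 = 0 := by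
        rcases abs_cases (d - s) with h3 | h3 <;> rcases abs_cases (d' - s) with h4 | h4 <;> omega
      rw [h2]
      simp
  have h2 := sum_le_sum h1
  rw [sum_window (fun j => if j ∈ Icc (-(L : ℤ)) L then (1 : ℝ) else 0)
    (fun j hj => if_neg hj) hd, sum_congr rfl fun j hj => if_pos hj, sum_const, Int.card_Icc,
    nsmul_eq_mul, mul_one] at h2
  have h3 : ((((L : ℤ) + 1 - -(L : ℤ)).toNat : ℕ) : ℝ) = 2 * L + 1 := by
    have : ((L : ℤ) + 1 - -(L : ℤ)).toNat = 2 * L + 1 := by omega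
    rw [this]
    push_cast
    ring
  rw [h3] at h2
  have h4 : ∑ s ∈ Icc (-(K : ℤ)) K, (chi L (d - s) - chi L (d' - s)) ^ 2
      = 2 * A0 L - 2 * ∑ s ∈ Icc (-(K : ℤ)) K, chi L (d - s) * chi L (d' - s) := by
    rw [two_mul (A0 L)]
    nth_rewrite 1 [← sum_chi_sq hd]
    rw [← sum_chi_sq hd', mul_sum, ← sum_add_distrib, ← sum_sub_distrib]
    exact sum_congr rfl fun s _ => by ring
  have h5 := A0_ge L
  have h6 : (1 : ℝ) ≤ L := by exact_mod_cast hL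
  have h7 : (L : ℝ) + 1 / 2 ≤ A0 L * (4 / (L : ℝ) ^ 2) := by
    rw [← mul_div_assoc, le_div_iff₀ (by positivity)]
    nlinarith [mul_nonneg (sq_nonneg (L : ℝ)) (show (0 : ℝ) ≤ L by linarith)]
  linarith

end FermiC

open FermiC in
/-- Localisation in the charge (IMS formula with a tent profile of width `L`). -/
theorem fermi_loc (Ω : Finset (Multiset ℤ)) (hΩ : ∀ μ ∈ Ω, Valid μ) (x : Multiset ℤ → ℝ)
    (hx : ∀ μ, μ ∉ Ω → x μ = 0) (hx0 : ∀ μ, 0 ≤ x μ) (t : ℝ) (ht : 0 ≤ t) (L : ℕ) (hL : 1 ≤ L) :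
    2 * t * (1 - 4 / (L : ℝ) ^ 2) * ∑ μ ∈ Ω, ∑ c ∈ add μ, x μ * x (c ::ₘ μ)
        + ∑ μ ∈ Ω, (dd μ : ℝ) ^ 2 * x μ ^ 2
      ≤ (t ^ 2 + 2 * (L : ℝ) ^ 2) * ∑ μ ∈ Ω, x μ ^ 2
        + ∑ μ ∈ Ω, (Multiset.card μ : ℝ) * x μ ^ 2 := by
  obtain ⟨K, hK⟩ : ∃ K : ℕ, ∀ μ ∈ Ω, |dd μ| + 1 + L ≤ K := by
    refine ⟨(Ω.sup fun μ => (dd μ).natAbs) + 1 + L, fun μ hμ => ?_⟩
    have h2 : (dd μ).natAbs ≤ Ω.sup fun μ => (dd μ).natAbs :=
      le_sup (f := fun μ : Multiset ℤ => (dd μ).natAbs) hμ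
    rw [Int.abs_eq_natAbs]
    omega
  have h1 : ∀ s ∈ Icc (-(K : ℤ)) K,
      2 * t * ∑ μ ∈ Ω, ∑ c ∈ add μ,
          chi L (dd μ - s) * chi L (dd (c ::ₘ μ) - s) * (x μ * x (c ::ₘ μ))
        ≤ ∑ μ ∈ Ω, chi L (dd μ - s) ^ 2
          * ((t ^ 2 + 2 * (L : ℝ) ^ 2 + Multiset.card μ - (dd μ : ℝ) ^ 2) * x μ ^ 2) := by
    intro s _
    have h := fermi Ω hΩ (fun μ => chi L (dd μ - s) * x μ)
      (fun μ hμ => by simp only [hx μ hμ, mul_zero]) t s
    have h2 : ∑ μ ∈ Ω, ((t ^ 2 + 2 * (s : ℝ) ^ 2) * (chi L (dd μ - s) * x μ) ^ 2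
          + (Multiset.card μ : ℝ) * (chi L (dd μ - s) * x μ) ^ 2
          - (4 * (s : ℝ) - 1) * ((dd μ : ℝ) * (chi L (dd μ - s) * x μ) ^ 2))
        ≤ ∑ μ ∈ Ω, chi L (dd μ - s) ^ 2
          * ((t ^ 2 + 2 * (L : ℝ) ^ 2 + Multiset.card μ - (dd μ : ℝ) ^ 2) * x μ ^ 2) := by
      refine sum_le_sum fun μ _ => ?_
      by_cases h3 : (L : ℤ) ≤ |dd μ - s|
      · rw [chi_eq_zero h3]
        simp
      · have h4 : (dd μ - s) ^ 2 ≤ (L : ℤ) ^ 2 := by
          rw [← sq_abs]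
          exact pow_le_pow_left₀ (abs_nonneg _) (by omega) 2
        have h5 : ((dd μ : ℝ) - s) ^ 2 ≤ (L : ℝ) ^ 2 := by exact_mod_cast h4
        have h6 : (dd μ : ℝ) ≤ (dd μ : ℝ) ^ 2 := by exact_mod_cast Int.le_self_sq (dd μ)
        have h7 : 0 ≤ (2 * (L : ℝ) ^ 2 - (dd μ : ℝ) ^ 2 - 2 * (s : ℝ) ^ 2
            + (4 * (s : ℝ) - 1) * dd μ) * (chi L (dd μ - s) * x μ) ^ 2 :=
          mul_nonneg (by nlinarith) (sq_nonneg _)
        nlinarith
    rw [sum_sub_distrib, sum_add_distrib, ← mul_sum, ← mul_sum] at h2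
    have h3 : ∑ μ ∈ Ω, ∑ c ∈ add μ,
          chi L (dd μ - s) * chi L (dd (c ::ₘ μ) - s) * (x μ * x (c ::ₘ μ))
        = ∑ μ ∈ Ω, ∑ c ∈ add μ,
          chi L (dd μ - s) * x μ * (chi L (dd (c ::ₘ μ) - s) * x (c ::ₘ μ)) :=
      sum_congr rfl fun _ _ => sum_congr rfl fun _ _ => by ring
    rw [h3]
    linarith
  have h2 := sum_le_sum h1
  rw [← mul_sum, sum_comm, sum_comm (s := Icc (-(K : ℤ)) K)] at h2
  have h3 : ∑ μ ∈ Ω, ∑ s ∈ Icc (-(K : ℤ)) K, chi L (dd μ - s) ^ 2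
          * ((t ^ 2 + 2 * (L : ℝ) ^ 2 + Multiset.card μ - (dd μ : ℝ) ^ 2) * x μ ^ 2)
      = A0 L * ((t ^ 2 + 2 * (L : ℝ) ^ 2) * ∑ μ ∈ Ω, x μ ^ 2
        + ∑ μ ∈ Ω, (Multiset.card μ : ℝ) * x μ ^ 2 - ∑ μ ∈ Ω, (dd μ : ℝ) ^ 2 * x μ ^ 2) := by
    rw [mul_sum, ← sum_add_distrib, ← sum_sub_distrib, mul_sum]
    refine sum_congr rfl fun μ hμ => ?_
    have := hK μ hμ
    rw [← sum_mul, sum_chi_sq (by omega)]
    ring
  have h4 : A0 L * (1 - 4 / (L : ℝ) ^ 2) * ∑ μ ∈ Ω, ∑ c ∈ add μ, x μ * x (c ::ₘ μ)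
      ≤ ∑ μ ∈ Ω, ∑ s ∈ Icc (-(K : ℤ)) K, ∑ c ∈ add μ,
          chi L (dd μ - s) * chi L (dd (c ::ₘ μ) - s) * (x μ * x (c ::ₘ μ)) := by
    rw [mul_sum]
    refine sum_le_sum fun μ hμ => ?_
    rw [mul_sum, sum_comm]
    refine sum_le_sum fun c _ => ?_
    rw [← sum_mul]
    refine mul_le_mul_of_nonneg_right ?_ (mul_nonneg (hx0 _) (hx0 _))
    have h5 := hK μ hμ
    have h6 : dd (c ::ₘ μ) = dd μ + 1 ∨ dd (c ::ₘ μ) = dd μ - 1 := by
      rw [dd_cons]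
      split_ifs <;> omega
    refine sum_chi_mul hL (by omega) ?_ h6
    rcases abs_cases (dd μ) with h7 | h7 <;> rcases abs_cases (dd (c ::ₘ μ)) with h8 | h8 <;> omega
  rw [h3] at h2
  have h5 : 0 < A0 L := by
    have h6 := A0_ge L
    have h7 : (1 : ℝ) ≤ L := by exact_mod_cast hL
    have h8 : (0 : ℝ) < (L : ℝ) ^ 3 / 3 + (L : ℝ) ^ 2 / 2 := by positivity
    linarith
  have h6 := mul_le_mul_of_nonneg_left h4 (show 0 ≤ 2 * t by linarith)
  refine le_of_mul_le_mul_left ?_ h5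
  nlinarith

end Pool.Agent.P.MP_e72dc0_lc.Sn
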