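import Pool.Agent.P.MP_e72dc0_lc.Sn.Fock
import Pool.Agent.P.MP_e72dc0_lc.Sn.Fermi

/-! Module E1: exponential moments of the squared charge along Plancherel growth. -/

namespace Pool.Agent.P.MP_e72dc0_lc.Sn

open Finset
open scoped Classical

namespace Ex

/-- Weighted number of tableaux of a given shape. -/
noncomputable def yy (u : ℕ → ℝ) (k : ℕ) (μ : Multiset ℤ) : ℝ :=
  ∑ t ∈ (Std k).filter (fun t => st t k = μ),
    Real.exp (∑ j ∈ range (k + 1), u j * (dd (st t j) : ℝ) ^ 2)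

/-- Squared norm of `yy u k`. -/
noncomputable def NN (u : ℕ → ℝ) (k : ℕ) : ℝ := ∑ μ ∈ shapes k, yy u k μ ^ 2

/-- Ratio of consecutive norms. -/
noncomputable def wr (u : ℕ → ℝ) (k : ℕ) : ℝ := Real.sqrt (NN u (k + 1)) / Real.sqrt (NN u k)

/-- Normalised ratio of consecutive norms. -/
noncomputable def zz (u : ℕ → ℝ) (k : ℕ) : ℝ := wr u k / Real.sqrt ((k : ℝ) + 1)

/-- Normalised vector. -/
noncomputable def yh (u : ℕ → ℝ) (k : ℕ) (μ : Multiset ℤ) : ℝ := yy u k μ / Real.sqrt (NN u k)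

/-- Second moment of the charge. -/
noncomputable def AA (u : ℕ → ℝ) (k : ℕ) : ℝ := ∑ μ ∈ shapes k, (dd μ : ℝ) ^ 2 * yh u k μ ^ 2

/-- Overlap of consecutive normalised vectors. -/
noncomputable def ov (u : ℕ → ℝ) (k : ℕ) : ℝ :=
  ∑ μ ∈ shapes k, ∑ c ∈ add μ, yh u k μ * yh u (k + 1) (c ::ₘ μ)

lemma yy_nonneg (u : ℕ → ℝ) (k : ℕ) (μ : Multiset ℤ) : 0 ≤ yy u k μ :=
  sum_nonneg fun _ _ => (Real.exp_pos _).le

lemma yy_pos (u : ℕ → ℝ) {k : ℕ} {μ : Multiset ℤ} (h : μ ∈ shapes k) : 0 < yy u k μ := by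
  obtain ⟨t, ht, rfl⟩ := mem_image.1 h
  exact sum_pos (fun _ _ => Real.exp_pos _) ⟨t, mem_filter.2 ⟨ht, rfl⟩⟩

lemma yy_succ (u : ℕ → ℝ) (k : ℕ) {ν : Multiset ℤ} (hν : Valid ν) :
    yy u (k + 1) ν = Real.exp (u (k + 1) * (dd ν : ℝ) ^ 2) * upOp (yy u k) ν := by
  unfold yy upOp
  rw [sum_filter_succ k ν hν, mul_sum]
  refine sum_congr rfl fun b hb => ?_
  rw [mul_sum]
  refine sum_congr rfl fun t ht => ?_
  have hb' : b ∈ ν := mem_of_hh_neg (by rw [mem_rem.1 hb]; norm_num)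
  have h1 : st (Function.update t k b) (k + 1) = ν := by
    rw [st_succ, st_update _ _ le_rfl, (mem_filter.1 ht).2, Function.update_self,
      Multiset.cons_erase hb']
  rw [sum_range_succ, h1, ← Real.exp_add, add_comm]
  congr 2
  refine sum_congr rfl fun j hj => ?_
  rw [st_update _ _ (by have := mem_range.1 hj; omega)]

lemma shapes_nonempty (k : ℕ) : (shapes k).Nonempty := by
  have h : (pairs k).Nonempty := by
    rw [← card_pos, card_pairs]; exact Nat.factorial_pos k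
  obtain ⟨p, hp⟩ := h
  exact ⟨_, mem_image_of_mem _ (mem_pairs.1 hp).1⟩

lemma NN_pos (u : ℕ → ℝ) (k : ℕ) : 0 < NN u k :=
  sum_pos (fun _ h => pow_pos (yy_pos u h) 2) (shapes_nonempty k)

lemma NN_zero (u : ℕ → ℝ) : NN u 0 = 1 := by
  simp [NN, shapes, yy, Std]

lemma sq_pos (u : ℕ → ℝ) (k : ℕ) : 0 < Real.sqrt (NN u k) := Real.sqrt_pos.2 (NN_pos u k)

lemma wr_pos (u : ℕ → ℝ) (k : ℕ) : 0 < wr u k := div_pos (sq_pos u _) (sq_pos u _)

lemma sqk_pos (k : ℕ) : 0 < Real.sqrt ((k : ℝ) + 1) := Real.sqrt_pos.2 (by positivity)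

lemma zz_pos (u : ℕ → ℝ) (k : ℕ) : 0 < zz u k := div_pos (wr_pos u k) (sqk_pos k)

lemma sqrt_NN (u : ℕ → ℝ) (n : ℕ) :
    Real.sqrt (NN u n) = Real.sqrt (n.factorial) * ∏ k ∈ range n, zz u k := by
  induction n with
  | zero => simp [NN_zero]
  | succ n ih =>
    rw [prod_range_succ, Nat.factorial_succ, Nat.cast_mul, Real.sqrt_mul (by positivity)]
    have h1 := sq_pos u n
    have h2 := sqk_pos n
    have h3 : Real.sqrt (NN u (n + 1)) = Real.sqrt ((n : ℝ) + 1) * Real.sqrt (NN u n) * zz u n := by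
      unfold zz wr; field_simp
    rw [h3, ih]
    push_cast
    ring

lemma lhs_le (u : ℕ → ℝ) (n : ℕ) :
    ∑ p ∈ pairs n, Real.exp (∑ j ∈ range (n + 1), u j * (dd (st p.2 j) : ℝ) ^ 2)
      ≤ n.factorial * ∏ k ∈ range n, zz u k := by
  have h1 := sum_pairs n (fun t => Real.exp (0 * ee t n))
    (fun t => Real.exp (∑ j ∈ range (n + 1), u j * (dd (st t j) : ℝ) ^ 2))
  have h2 : ∑ p ∈ pairs n, Real.exp (∑ j ∈ range (n + 1), u j * (dd (st p.2 j) : ℝ) ^ 2)
      = ∑ μ ∈ shapes n, U 0 n μ * yy u n μ := by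
    unfold U yy
    rw [← h1]
    simp
  rw [h2]
  refine (Real.sum_mul_le_sqrt_mul_sqrt _ _ _).trans (le_of_eq ?_)
  rw [sum_U_sq]
  have h3 := sqrt_NN u n
  unfold NN at h3
  rw [h3, ← mul_assoc, Real.mul_self_sqrt (by positivity)]

lemma dd_sq_shape {k : ℕ} {μ : Multiset ℤ} (h : μ ∈ shapes k) : (dd μ : ℝ) ^ 2 ≤ k := by
  obtain ⟨h1, h2⟩ := mem_shapes.1 h
  have := dd_sq_le h1
  rw [h2] at this
  exact_mod_cast this

lemma zz_le (u : ℕ → ℝ) (k : ℕ) (hu : 0 ≤ u (k + 1)) :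
    zz u k ≤ Real.exp (u (k + 1) * ((k : ℝ) + 1)) := by
  set E := Real.exp (u (k + 1) * ((k : ℝ) + 1)) with hE
  have hE0 : 0 < E := Real.exp_pos _
  have h1 : NN u (k + 1) ≤ E ^ 2 * (((k : ℝ) + 1) * NN u k) := by
    refine le_trans ?_ (mul_le_mul_of_nonneg_left (upOp_norm k (yy u k)) (by positivity))
    rw [mul_sum]
    refine sum_le_sum fun ν hν => ?_
    rw [yy_succ u k (mem_shapes.1 hν).1, mul_pow]
    refine mul_le_mul_of_nonneg_right ?_ (by positivity)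
    refine pow_le_pow_left₀ (Real.exp_pos _).le (Real.exp_le_exp.2 ?_) 2
    refine mul_le_mul_of_nonneg_left ?_ hu
    have := dd_sq_shape hν
    push_cast at this
    exact this
  have h2 : Real.sqrt (NN u (k + 1)) ≤ E * (Real.sqrt ((k : ℝ) + 1) * Real.sqrt (NN u k)) := by
    refine (Real.sqrt_le_sqrt h1).trans (le_of_eq ?_)
    rw [Real.sqrt_mul (by positivity), Real.sqrt_sq hE0.le, Real.sqrt_mul (by positivity)]
  have h3 := sq_pos u k
  have h4 := sqk_pos k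
  unfold zz wr
  rw [div_div, div_le_iff₀ (by positivity)]
  linarith

lemma yh_nonneg (u : ℕ → ℝ) (k : ℕ) (μ : Multiset ℤ) : 0 ≤ yh u k μ :=
  div_nonneg (yy_nonneg u k μ) (sq_pos u k).le

lemma sum_yh_sq (u : ℕ → ℝ) (k : ℕ) : ∑ μ ∈ shapes k, yh u k μ ^ 2 = 1 := by
  have h := NN_pos u k
  simp only [yh, div_pow, Real.sq_sqrt h.le]
  rw [← sum_div]
  exact div_self h.ne'

lemma AA_nonneg (u : ℕ → ℝ) (k : ℕ) : 0 ≤ AA u k := sum_nonneg fun _ _ => by positivity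

lemma ov_ge (u : ℕ → ℝ) (k : ℕ) : wr u k * (1 - u (k + 1) * AA u (k + 1)) ≤ ov u k := by
  unfold ov
  rw [← sum_edges k (fun μ ν => yh u k μ * yh u (k + 1) ν)]
  have h0 : wr u k * (1 - u (k + 1) * AA u (k + 1))
      = ∑ ν ∈ shapes (k + 1), wr u k * ((1 - u (k + 1) * (dd ν : ℝ) ^ 2) * yh u (k + 1) ν ^ 2) := by
    rw [← mul_sum]
    congr 1
    simp only [sub_mul, one_mul, sum_sub_distrib, sum_yh_sq, AA, mul_sum, mul_assoc]
  rw [h0]
  refine sum_le_sum fun ν hν => ?_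
  rw [← sum_mul]
  have h1 : ∑ b ∈ rem ν, yh u k (ν.erase b) = upOp (yy u k) ν / Real.sqrt (NN u k) := by
    simp only [yh, upOp, sum_div]
  have h2 : upOp (yy u k) ν = Real.exp (-(u (k + 1) * (dd ν : ℝ) ^ 2)) * yy u (k + 1) ν := by
    rw [yy_succ u k (mem_shapes.1 hν).1, ← mul_assoc, ← Real.exp_add]; simp
  have h3 : 1 - u (k + 1) * (dd ν : ℝ) ^ 2 ≤ Real.exp (-(u (k + 1) * (dd ν : ℝ) ^ 2)) := by
    have := Real.add_one_le_exp (-(u (k + 1) * (dd ν : ℝ) ^ 2))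
    linarith
  have h4 := sq_pos u k
  have h5 := sq_pos u (k + 1)
  have h6 : upOp (yy u k) ν / Real.sqrt (NN u k) * yh u (k + 1) ν
      = wr u k * (Real.exp (-(u (k + 1) * (dd ν : ℝ) ^ 2)) * yh u (k + 1) ν ^ 2) := by
    rw [h2]; unfold wr yh; field_simp
  rw [h1, h6]
  exact mul_le_mul_of_nonneg_left (mul_le_mul_of_nonneg_right h3 (by positivity)) (wr_pos u k).le

lemma sum_window (k0 W : ℕ) (F : Multiset ℤ → ℝ) :
    ∑ μ ∈ (range (W + 1)).biUnion (fun i => shapes (k0 + i)), F μ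
      = ∑ i ∈ range (W + 1), ∑ μ ∈ shapes (k0 + i), F μ := by
  refine sum_biUnion ?_
  intro i _ j _ hij
  rw [Function.onFun, disjoint_left]
  intro μ h1 h2
  have := (mem_shapes.1 h1).2
  have := (mem_shapes.1 h2).2
  omega

/-- The fermion inequality applied to a window of consecutive levels. -/
lemma window0 (u : ℕ → ℝ) (k0 W : ℕ) (t : ℝ) (ht : 0 ≤ t) (L : ℕ) (hL : 1 ≤ L) :
    2 * t * (1 - 4 / (L : ℝ) ^ 2) * ∑ i ∈ range W, ov u (k0 + i)
        + ∑ i ∈ range W, AA u (k0 + i + 1)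
      ≤ (t ^ 2 + 2 * (L : ℝ) ^ 2 + ((k0 : ℝ) + W)) * ((W : ℝ) + 1) := by
  set Ω := (range (W + 1)).biUnion (fun i => shapes (k0 + i)) with hΩ
  set x : Multiset ℤ → ℝ := fun μ => if μ ∈ Ω then yh u (Multiset.card μ) μ else 0 with hx
  have hmem : ∀ μ, μ ∈ Ω ↔ ∃ i ≤ W, μ ∈ shapes (k0 + i) := by
    intro μ
    simp only [hΩ, mem_biUnion, mem_range, Nat.lt_succ_iff]
  have hxs : ∀ i ≤ W, ∀ μ ∈ shapes (k0 + i), x μ = yh u (k0 + i) μ := by
    intro i hi μ hμ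
    simp only [hx]
    rw [if_pos ((hmem μ).2 ⟨i, hi, hμ⟩), (mem_shapes.1 hμ).2]
  have h := fermi_loc Ω (fun μ hμ => by
      obtain ⟨i, -, hi⟩ := (hmem μ).1 hμ
      exact (mem_shapes.1 hi).1) x (fun μ hμ => by simp only [hx]; rw [if_neg hμ])
    (fun μ => by
      simp only [hx]
      split_ifs
      · exact yh_nonneg _ _ _
      · exact le_rfl) t ht L hL
  have e1 : ∑ μ ∈ Ω, ∑ c ∈ add μ, x μ * x (c ::ₘ μ) = ∑ i ∈ range W, ov u (k0 + i) := by
    rw [hΩ, sum_window, sum_range_succ]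
    have z1 : ∑ μ ∈ shapes (k0 + W), ∑ c ∈ add μ, x μ * x (c ::ₘ μ) = 0 := by
      refine sum_eq_zero fun μ hμ => sum_eq_zero fun c _ => ?_
      have : c ::ₘ μ ∉ Ω := by
        intro hc
        obtain ⟨i, hi, hi2⟩ := (hmem _).1 hc
        have a1 := (mem_shapes.1 hi2).2
        have a2 := (mem_shapes.1 hμ).2
        rw [Multiset.card_cons] at a1
        omega
      simp only [hx]
      rw [if_neg this, mul_zero]
    rw [z1, add_zero]
    refine sum_congr rfl fun i hi => ?_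
    have hi' := mem_range.1 hi
    unfold ov
    refine sum_congr rfl fun μ hμ => sum_congr rfl fun c hc => ?_
    have a1 : c ::ₘ μ ∈ shapes (k0 + (i + 1)) := by
      obtain ⟨b1, b2⟩ := mem_shapes.1 hμ
      exact mem_shapes.2 ⟨b1.cons (mem_add.1 hc), by rw [Multiset.card_cons, b2]; ring⟩
    rw [hxs i hi'.le μ hμ, hxs (i + 1) hi' _ a1]
    rfl
  have e2 : ∑ i ∈ range W, AA u (k0 + i + 1) ≤ ∑ μ ∈ Ω, (dd μ : ℝ) ^ 2 * x μ ^ 2 := by
    rw [hΩ, sum_window, sum_range_succ']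
    have z1 : 0 ≤ ∑ μ ∈ shapes (k0 + 0), (dd μ : ℝ) ^ 2 * x μ ^ 2 :=
      sum_nonneg fun _ _ => by positivity
    have z2 : ∑ i ∈ range W, AA u (k0 + i + 1)
        = ∑ i ∈ range W, ∑ μ ∈ shapes (k0 + (i + 1)), (dd μ : ℝ) ^ 2 * x μ ^ 2 := by
      refine sum_congr rfl fun i hi => ?_
      unfold AA
      refine sum_congr rfl fun μ hμ => ?_
      rw [hxs (i + 1) (mem_range.1 hi) μ hμ]
      rfl
    linarith
  have e0 : ∀ i ∈ range (W + 1), ∑ μ ∈ shapes (k0 + i), x μ ^ 2 = 1 := by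
    intro i hi
    rw [← sum_yh_sq u (k0 + i)]
    refine sum_congr rfl fun μ hμ => ?_
    rw [hxs i (Nat.lt_succ_iff.1 (mem_range.1 hi)) μ hμ]
  have e3 : ∑ μ ∈ Ω, x μ ^ 2 = (W : ℝ) + 1 := by
    rw [hΩ, sum_window, sum_congr rfl e0]
    simp
  have e4 : ∑ μ ∈ Ω, (Multiset.card μ : ℝ) * x μ ^ 2 ≤ ((k0 : ℝ) + W) * ((W : ℝ) + 1) := by
    rw [← e3, mul_sum]
    refine sum_le_sum fun μ hμ => mul_le_mul_of_nonneg_right ?_ (by positivity)
    obtain ⟨i, hi, hi2⟩ := (hmem _).1 hμ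
    rw [(mem_shapes.1 hi2).2]
    exact_mod_cast Nat.add_le_add_left hi k0
  rw [e1, e3] at h
  linarith

lemma exp_quarter : Real.exp (1 / 4) ≤ 2 := by
  have h := Real.abs_exp_sub_one_le (x := 1 / 4) (by rw [abs_of_pos] <;> norm_num)
  have h2 := (abs_le.1 h).2
  rw [abs_of_pos (by norm_num : (0 : ℝ) < 1 / 4)] at h2
  linarith

section
variable {u : ℕ → ℝ} {n : ℕ} (hu0 : ∀ j, 0 ≤ u j) (hu1 : ∀ j, u j * ((n : ℝ) + 1) ≤ 1 / 4)
include hu0 hu1

lemma zz_le_two {k : ℕ} (hk : k ≤ n) : zz u k ≤ 2 := by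
  refine (zz_le u k (hu0 _)).trans (le_trans (Real.exp_le_exp.2 ?_) exp_quarter)
  refine le_trans (mul_le_mul_of_nonneg_left ?_ (hu0 _)) (hu1 (k + 1))
  have : (k : ℝ) ≤ n := by exact_mod_cast hk
  linarith

/-- The window lemma. -/
lemma window (r k0 W : ℕ) (hr : 8 ≤ r) (h1 : r * r ≤ k0) (h2 : k0 + W ≤ r * r + 4 * r)
    (h3 : k0 + W ≤ n) : ∑ i ∈ range W, (zz u (k0 + i) - 1) ≤ 101 := by
  set L := Nat.sqrt r + 1 with hL
  have hL1 : r ≤ L * L := (Nat.lt_succ_sqrt r).le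
  have hL2 : L * L ≤ 4 * r := by
    have a1 := Nat.sqrt_le r
    have a2 : 1 ≤ Nat.sqrt r := Nat.le_sqrt.2 (by omega)
    rw [hL]; nlinarith
  have hr' : (8 : ℝ) ≤ r := by exact_mod_cast hr
  have hL1' : (r : ℝ) ≤ (L : ℝ) ^ 2 := by rw [sq]; exact_mod_cast hL1
  have hL2' : (L : ℝ) ^ 2 ≤ 4 * r := by rw [sq]; exact_mod_cast hL2
  have h2' : (k0 : ℝ) + W ≤ r * r + 4 * r := by exact_mod_cast h2
  have hW : (W : ℝ) ≤ 4 * r := by
    have : W ≤ 4 * r := by omega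
    exact_mod_cast this
  have hW0 : (0 : ℝ) ≤ W := by positivity
  have h0 := window0 u k0 W r (by positivity) L (by omega)
  set κ : ℝ := 1 - 4 / (L : ℝ) ^ 2 with hκ
  have hκ1 : κ ≤ 1 := by
    have : (0 : ℝ) ≤ 4 / (L : ℝ) ^ 2 := by positivity
    linarith
  have hκ2 : 1 - 4 / (r : ℝ) ≤ κ := by
    have : 4 / (L : ℝ) ^ 2 ≤ 4 / (r : ℝ) :=
      div_le_div_of_nonneg_left (by norm_num) (by linarith) hL1'
    linarith
  have hκ3 : (r : ℝ) - 4 ≤ κ * r := by
    have := mul_le_mul_of_nonneg_right hκ2 (by linarith : (0 : ℝ) ≤ r)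
    have e : (1 - 4 / (r : ℝ)) * r = r - 4 := by field_simp
    linarith
  have hκ0 : 0 ≤ κ := by
    by_contra hneg
    have : κ * r < 0 := mul_neg_of_neg_of_pos (not_le.1 hneg) (by linarith)
    linarith
  have key : ∀ i ∈ range W, 2 * r * (r - 4) * zz u (k0 + i)
      ≤ 2 * r * κ * ov u (k0 + i) + AA u (k0 + i + 1) := by
    intro i hi
    have hi' := mem_range.1 hi
    set k := k0 + i with hk
    have a1 := ov_ge u k
    have a2 := AA_nonneg u (k + 1)
    have a3 := zz_pos u k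
    have a4 : zz u k ≤ 2 := zz_le_two hu0 hu1 (by omega)
    have a5 := sqk_pos k
    set s := Real.sqrt ((k : ℝ) + 1) with hs
    have a6 : wr u k = zz u k * s := by unfold zz; rw [← hs]; field_simp
    have a7 : s * s = (k : ℝ) + 1 := Real.mul_self_sqrt (by positivity)
    have a8 : (r : ℝ) ≤ s := by
      apply Real.le_sqrt_of_sq_le
      have : r * r ≤ k + 1 := by omega
      have : (r : ℝ) * r ≤ k + 1 := by exact_mod_cast this
      rw [sq]; exact this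
    have a9 : (k : ℝ) + 1 ≤ n + 1 := by
      have : k ≤ n := by omega
      have : (k : ℝ) ≤ n := by exact_mod_cast this
      linarith
    have b1 : u (k + 1) * (r * s) ≤ 1 / 4 := by
      refine le_trans (mul_le_mul_of_nonneg_left ?_ (hu0 _)) (hu1 (k + 1))
      nlinarith
    have b0 : 0 ≤ u (k + 1) * (r * s) := mul_nonneg (hu0 _) (by positivity)
    have b2 : 2 * r * κ * (wr u k * u (k + 1)) ≤ 1 := by
      have e : 2 * r * κ * (wr u k * u (k + 1)) = 2 * (κ * zz u k) * (u (k + 1) * (r * s)) := by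
        rw [a6]; ring
      have c1 : κ * zz u k ≤ 2 := by nlinarith
      rw [e]
      nlinarith
    have b3 : 2 * r * κ * (wr u k * (1 - u (k + 1) * AA u (k + 1))) ≤ 2 * r * κ * ov u k :=
      mul_le_mul_of_nonneg_left a1 (by positivity)
    have b4 : 2 * r * κ * (wr u k * u (k + 1)) * AA u (k + 1) ≤ AA u (k + 1) := by
      simpa using mul_le_mul_of_nonneg_right b2 a2
    have b5 : 2 * r * (r - 4) * zz u k ≤ 2 * r * κ * wr u k := by
      rw [a6]
      have c1 : (r : ℝ) - 4 ≤ κ * s := hκ3.trans (mul_le_mul_of_nonneg_left a8 hκ0)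
      have c2 : 0 ≤ 2 * r * zz u k := by positivity
      nlinarith [mul_le_mul_of_nonneg_left c1 c2]
    nlinarith
  have h4 := sum_le_sum key
  rw [sum_add_distrib, ← mul_sum, ← mul_sum] at h4
  rw [sum_sub_distrib]
  simp only [sum_const, card_range, nsmul_eq_mul, mul_one]
  set S := ∑ i ∈ range W, zz u (k0 + i) with hS
  have h5 : 2 * r * (r - 4) * S ≤ (2 * r * r + 12 * r) * (W + 1) := by
    refine h4.trans (h0.trans (mul_le_mul_of_nonneg_right ?_ (by linarith)))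
    nlinarith
  have h6 : ((r : ℝ) - 4) * S ≤ (r + 6) * (W + 1) := by
    have : (2 * r : ℝ) * (((r : ℝ) - 4) * S) ≤ (2 * r) * ((r + 6) * (W + 1)) := by nlinarith
    exact le_of_mul_le_mul_left this (by linarith)
  by_contra hcon
  have h7 : (W : ℝ) + 101 < S := by linarith [not_le.1 hcon]
  have h8 := mul_lt_mul_of_pos_left h7 (by linarith : (0 : ℝ) < r - 4)
  nlinarith

lemma sum_le_len {a W : ℕ} (h : a + W ≤ n) : ∑ i ∈ range W, (zz u (a + i) - 1) ≤ W := by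
  have : ∀ i ∈ range W, zz u (a + i) - 1 ≤ 1 := by
    intro i hi
    have := zz_le_two hu0 hu1 (k := a + i) (by have := mem_range.1 hi; omega)
    linarith
  simpa using sum_le_sum this

lemma sum_all (r : ℕ) : ∀ K ≤ n, K ≤ r * r → ∑ k ∈ range K, (zz u k - 1) ≤ 101 * r := by
  induction r with
  | zero =>
    intro K _ hK
    obtain rfl : K = 0 := by omega
    simp
  | succ r ih =>
    intro K hK hK2
    by_cases h1 : K ≤ r * r
    · have := ih K hK h1
      push_cast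
      linarith
    · obtain ⟨W, rfl⟩ : ∃ W, K = r * r + W := ⟨K - r * r, by omega⟩
      rw [sum_range_add]
      have a1 := ih (r * r) (by omega) le_rfl
      have hW : W ≤ 2 * r + 1 := by nlinarith
      have a2 : ∑ i ∈ range W, (zz u (r * r + i) - 1) ≤ 101 := by
        by_cases hr : 8 ≤ r
        · exact window hu0 hu1 r (r * r) W hr le_rfl (by omega) hK
        · refine (sum_le_len hu0 hu1 hK).trans ?_
          have : W ≤ 101 := by omega
          exact_mod_cast this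
      push_cast
      linarith

end

lemma prod_le_exp (u : ℕ → ℝ) (s : Finset ℕ) (g : ℕ → ℕ) :
    ∏ k ∈ s, zz u (g k) ≤ Real.exp (∑ k ∈ s, (zz u (g k) - 1)) := by
  rw [Real.exp_sum]
  refine prod_le_prod (fun k _ => (zz_pos u _).le) fun k _ => ?_
  have := Real.add_one_le_exp (zz u (g k) - 1)
  linarith

end Ex

theorem expo_all : ∃ C : ℝ, 0 ≤ C ∧ ∀ n : ℕ,
    ∑ p ∈ pairs n, Real.exp (1 / (4 * ((n : ℝ) + 1))
        * ∑ j ∈ range (n + 1), (dd (st p.2 j) : ℝ) ^ 2)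
      ≤ n.factorial * Real.exp (C * Real.sqrt (n + 1)) := by
  refine ⟨202, by norm_num, fun n => ?_⟩
  have h := Ex.lhs_le (fun _ => 1 / (4 * ((n : ℝ) + 1))) n
  simp only [← mul_sum] at h
  refine h.trans (mul_le_mul_of_nonneg_left ?_ (by positivity))
  refine (Ex.prod_le_exp _ _ id).trans (Real.exp_le_exp.2 ?_)
  have h1 := Ex.sum_all (u := fun _ => 1 / (4 * ((n : ℝ) + 1))) (n := n)
    (fun _ => by positivity) (fun _ => le_of_eq (by field_simp)) (Nat.sqrt n + 1) n le_rfl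
    (Nat.lt_succ_sqrt n).le
  refine h1.trans ?_
  have h2 : (Nat.sqrt n : ℝ) ≤ Real.sqrt (n + 1) := by
    apply Real.le_sqrt_of_sq_le
    have : (Nat.sqrt n : ℝ) * Nat.sqrt n ≤ n := by exact_mod_cast Nat.sqrt_le n
    nlinarith
  have h3 : (1 : ℝ) ≤ Real.sqrt (n + 1) := by
    apply Real.le_sqrt_of_sq_le
    have : (0 : ℝ) ≤ n := by positivity
    linarith
  push_cast
  linarith

theorem expo_last : ∃ C : ℝ, 0 ≤ C ∧ ∀ n m : ℕ, m * m ≤ n →
    ∑ p ∈ pairs n, Real.exp (1 / (4 * ((n : ℝ) + 1))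
        * ∑ j ∈ range m, (dd (st p.2 (n - j)) : ℝ) ^ 2)
      ≤ n.factorial * Real.exp C := by
  refine ⟨101, by norm_num, fun n m hm => ?_⟩
  have hmn : m ≤ n := by nlinarith
  obtain ⟨k0, rfl⟩ : ∃ k0, n = k0 + m := ⟨n - m, by omega⟩
  set a : ℝ := 1 / (4 * (((k0 + m : ℕ) : ℝ) + 1)) with ha
  have ha0 : 0 ≤ a := by positivity
  set u : ℕ → ℝ := fun j => if k0 < j then a else 0 with hu
  have hu0 : ∀ j, 0 ≤ u j := fun j => by simp only [hu]; split_ifs; exacts [ha0, le_rfl]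
  have hu1 : ∀ j, u j * (((k0 + m : ℕ) : ℝ) + 1) ≤ 1 / 4 := fun j => by
    simp only [hu]
    split_ifs
    · exact le_of_eq (by rw [ha]; field_simp)
    · norm_num
  have h := Ex.lhs_le u (k0 + m)
  have e1 : ∀ t : ℕ → ℤ, ∑ j ∈ range (k0 + m + 1), u j * (dd (st t j) : ℝ) ^ 2
      = a * ∑ j ∈ range m, (dd (st t (k0 + m - j)) : ℝ) ^ 2 := by
    intro t
    rw [show k0 + m + 1 = (k0 + 1) + m by ring, sum_range_add, mul_sum]
    rw [sum_eq_zero, zero_add, ← sum_range_reflect]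
    · refine sum_congr rfl fun j hj => ?_
      have := mem_range.1 hj
      simp only [hu]
      rw [if_pos (by omega), show k0 + 1 + (m - 1 - j) = k0 + m - j by omega]
    · intro j hj
      have := mem_range.1 hj
      simp only [hu]
      rw [if_neg (by omega), zero_mul]
  simp only [e1] at h
  refine h.trans (mul_le_mul_of_nonneg_left ?_ (by positivity))
  rw [prod_range_add]
  have p1 : ∏ k ∈ range k0, Ex.zz u k ≤ 1 := by
    refine prod_le_one (fun k _ => (Ex.zz_pos u k).le) fun k hk => ?_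
    have := mem_range.1 hk
    have h1 := Ex.zz_le u k (hu0 _)
    have h2 : u (k + 1) = 0 := by simp only [hu]; rw [if_neg (by omega)]
    simpa [h2] using h1
  have p2 : ∏ k ∈ range m, Ex.zz u (k0 + k) ≤ Real.exp 101 := by
    refine (Ex.prod_le_exp u _ (fun k => k0 + k)).trans (Real.exp_le_exp.2 ?_)
    by_cases hm' : m ≤ 101
    · refine (Ex.sum_le_len hu0 hu1 le_rfl).trans ?_
      exact_mod_cast hm'
    · have a1 := Nat.sqrt_le k0
      have a2 := Nat.lt_succ_sqrt k0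
      set r := Nat.sqrt k0 with hr
      have a3 : m ≤ 2 * r := by
        by_contra hc
        have b1 : 2 * r + 1 ≤ m := by omega
        have b2 : k0 + 1 ≤ (r + 1) * (r + 1) := a2
        nlinarith
      refine Ex.window hu0 hu1 r k0 m (by omega) a1 ?_ le_rfl
      have b2 : k0 + 1 ≤ (r + 1) * (r + 1) := a2
      nlinarith
  calc _ ≤ 1 * Real.exp 101 :=
        mul_le_mul p1 p2 (prod_nonneg fun k _ => (Ex.zz_pos u _).le) (by norm_num)
    _ = _ := one_mul _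

end Pool.Agent.P.MP_e72dc0_lc.Sn
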