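import Pool.Agent.P.MP_e72dc0_lc.Sn.FamA

/-! The family of matrices attached to pairs of tableaux. -/

namespace Pool.Agent.P.MP_e72dc0_lc.Sn

open Finset Matrix
open scoped Classical

/-- Eigenvalues of the diagonal element attached to a terminal tableau. -/
noncomputable def yv (q : ℚ_[2]) (n : ℕ) (t0 u : ℕ → ℤ) : ℚ_[2] :=
  ∏ k ∈ range n,
    ((∏ c ∈ (Icc (-n : ℤ) n).filter (fun c => c % 2 ≠ t0 k % 2), (br q (u k) - br q c)) *
      if t0 k ≠ low t0 k ∧ low t0 k % 2 = t0 k % 2 then br q (u k) - br q (low t0 k) else 1)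

lemma yv_par {q : ℚ_[2]} {n : ℕ} {t0 u : ℕ → ℤ} (hu : u ∈ Std n) (h : yv q n t0 u ≠ 0) :
    Par n u t0 := by
  intro k hk
  by_contra hn
  have h1 := left_ne_zero_of_mul (prod_ne_zero_iff.1 h k (mem_range.2 hk))
  have h2 := abs_le.1 (abs_le_n hu k)
  exact prod_ne_zero_iff.1 h1 (u k) (mem_filter.2 ⟨mem_Icc.2 h2, hn⟩) (sub_self _)

lemma yv_tri {q : ℚ_[2]} {n : ℕ} {t0 u : ℕ → ℤ} (hu : u ∈ Std n) (ht : t0 ∈ Std n)
    (hT : Term n t0) (h : yv q n t0 u ≠ 0) : ph (st u n) < ph (st t0 n) ∨ u = t0 := by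
  refine term_triangular hu ht hT fun k hk h1 h2 => ?_
  have h3 := right_ne_zero_of_mul (prod_ne_zero_iff.1 h k (mem_range.2 hk))
  have h4 := yv_par hu h k hk
  rw [if_pos ⟨h1, by rw [← h2, h4]⟩, h2] at h3
  exact h3 (sub_self _)

lemma term_degStep {n : ℕ} {t : ℕ → ℤ} (ht : t ∈ Std n) (hT : Term n t) {k : ℕ} (hk : k < n) :
    degStep (st t k) (t k) = if t k ≠ low t k ∧ low t k % 2 = t k % 2 then 1 else 0 := by
  have h1 := low_le ht hk
  rw [degStep, Lam_eq_sum _ _ (insert (low t k) (supp3 (st t k))) (subset_insert _ _),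
    sum_eq_single_of_mem (low t k) (mem_insert_self _ _)]
  · by_cases h2 : t k ≠ low t k ∧ low t k % 2 = t k % 2
    · rw [if_pos h2, if_pos ⟨h2.2, by omega⟩, term_hh ht hT hk (by omega), if_pos rfl]; rfl
    · rw [if_neg h2, if_neg (by omega), mul_zero]
  · intro c _ hc
    split_ifs with h2
    · rw [term_hh ht hT hk (by omega), if_neg hc, zero_mul]
    · rw [mul_zero]

lemma zpow_sum_real {θ : ℝ} (hθ : θ ≠ 0) (s : Finset ℕ) (f : ℕ → ℤ) :
    θ ^ (∑ k ∈ s, f k) = ∏ k ∈ s, θ ^ f k := by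
  induction s using Finset.induction_on with
  | empty => simp
  | insert a s ha ih => rw [prod_insert ha, sum_insert ha, ← ih, zpow_add₀ hθ]

namespace Good

variable {n : ℕ} {q : ℚ_[2]} {θ B : ℝ} (G : Good n q θ B)
include G

lemma dh_yv (t0 : ℕ → ℤ) : DH q n (yv q n t0) := by
  refine DH.prod (range n) (fun k u => _) fun k hk => ?_
  have h1 := G.dh_br (mem_range.1 hk)
  refine DH.mul (DH.prod _ (fun c u => br q (u k) - br q c) fun c _ =>
    h1.sub (DH.const (G.norm_br_le c))) ?_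
  split_ifs
  · exact h1.sub (DH.const (G.norm_br_le _))
  · exact DH.const (by simp)

lemma norm_yv {t0 u : ℕ → ℤ} (h : Par n u t0) : ‖yv q n t0 u‖ = ∏ k ∈ range n,
    if t0 k ≠ low t0 k ∧ low t0 k % 2 = t0 k % 2 then ‖br q (u k - low t0 k)‖ else 1 := by
  rw [yv, norm_prod]
  refine prod_congr rfl fun k hk => ?_
  have h1 := h k (mem_range.1 hk)
  rw [norm_mul, norm_prod, prod_eq_one, one_mul]
  · split_ifs
    · exact G.norm_br_sub _ _
    · exact norm_one
  · intro c hc
    have h2 := (mem_filter.1 hc).2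
    rw [G.norm_br_sub, G.odd _ (by omega)]

lemma norm_yv_le {t0 u : ℕ → ℤ} (ht : t0 ∈ Std n) (hT : Term n t0) (h : Par n u t0) :
    ‖yv q n t0 u‖ ≤ θ ^ dg t0 n := by
  rw [G.norm_yv h, dg, zpow_sum_real G.θpos.ne']
  refine prod_le_prod (fun k _ => by split_ifs <;> positivity) fun k hk => ?_
  have h1 := h k (mem_range.1 hk)
  rw [term_degStep ht hT (mem_range.1 hk)]
  split_ifs with h2
  · rw [zpow_one]; exact G.even_le _ (by omega)
  · simp

lemma norm_yv_self {t : ℕ → ℤ} (ht : t ∈ Std n) (hT : Term n t) :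
    ‖yv q n t t‖ = gw q n t := by
  rw [G.norm_yv (Par.refl n t), gw]
  refine prod_congr rfl fun k hk => ?_
  have hk := mem_range.1 hk
  have h1 := low_le ht hk
  rw [LamM_eq_prod _ _ _ (insert (low t k) (supp3 (st t k))) (subset_insert _ _),
    prod_eq_single_of_mem (low t k) (mem_insert_self _ _)]
  · by_cases h2 : t k = low t k
    · rw [if_neg (by omega), if_neg (by omega), _root_.one_zpow]
    · have h3 := low_gap ht hk h2
      rw [if_pos (show low t k < t k by omega), term_hh ht hT hk (by omega), if_pos rfl, zpow_one]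
      split_ifs with h4
      · rfl
      · rw [G.odd _ (by omega)]
  · intro c _ hc
    split_ifs with h2
    · by_cases h3 : c = t k - 1
      · rw [G.odd _ (by omega), _root_.one_zpow]
      · rw [term_hh ht hT hk (by omega), if_neg hc, zpow_zero]
    · exact _root_.one_zpow _
  · intro x
    split_ifs with h2
    · exact (G.norm_br_pos (by omega)).ne'
    · exact one_ne_zero

theorem exists_psi :
    ∃ (ψ : Std n → Std n → Mat n) (rk : Std n → Std n → ℤ),
      ∀ s t : Std n, st s.1 n = st t.1 n →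
        (∃ x, Lift q n (ψ s t) x) ∧
        (∀ u v, ψ s t u v ≠ 0 → st u.1 n = st v.1 n ∧ ww u.1 n = ww s.1 n ∧
          ((u = s ∧ v = t) ∨ rk u v < rk s t)) ∧
        (∀ u v, ‖ψ s t u v‖ ^ 2 ≤ θ ^ (dg s.1 n + dg t.1 n) * B ^ (4 * n ^ 2)) ∧
        ‖ψ s t s t‖ * ‖ψ t s t s‖ = gw q n s.1 * gw q n t.1 := by
  have hθ := G.θpos
  have hB := G.Bpos
  choose o ho1 ho2 R L hR hL cR cL hg using G.exists_chain
  have hoo : ∀ s t : Std n, st s.1 n = st t.1 n → o s = o t := fun s t h =>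
    Subtype.ext (term_unique (o s).2 (o t).2 (ho1 s) (ho1 t) (by rw [ho2, ho2, h]))
  have hap : ∀ s t u v : Std n,
      (L s * (diagonal fun a : Std n => yv q n (o s).1 a.1) * R t) u v
        = ∑ a, L s u a * yv q n (o s).1 a.1 * R t a v := by
    intro s t u v
    rw [Matrix.mul_apply]
    simp only [mul_diagonal]
  have hdiag : ∀ s t : Std n, st s.1 n = st t.1 n →
      ‖(L s * (diagonal fun a : Std n => yv q n (o s).1 a.1) * R t) s t‖
        = ‖L s s (o s)‖ * gw q n (o s).1 * ‖R t (o t) t‖ := by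
    intro s t h
    rw [hap, sum_eq_single (o s), norm_mul, norm_mul, G.norm_yv_self (o s).2 (ho1 s), hoo s t h]
    · intro a _ ha
      by_contra h0
      have h1 := left_ne_zero_of_mul h0
      have h2 := (cL s).shape a s (left_ne_zero_of_mul h1)
      rcases yv_tri a.2 (o s).2 (ho1 s) (right_ne_zero_of_mul h1) with h3 | h3
      · rw [h2, ho2] at h3; exact lt_irrefl _ h3
      · exact ha (Subtype.ext h3)
    · simp
  refine ⟨fun s t => L s * (diagonal fun a : Std n => yv q n (o s).1 a.1) * R t,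
    fun u v => ph (st u.1 n) * (2 * n ^ 2 + 1) + asc n u.1 + asc n v.1, fun s t h =>
      ⟨((hL s).mul (G.dh_yv _)).mul (hR t), fun u v h0 => ?_, fun u v => ?_, ?_⟩⟩
  · beta_reduce at h0
    rw [hap] at h0
    obtain ⟨a, -, ha⟩ := exists_ne_zero_of_sum_ne_zero h0
    have h1 : (L s)ᵀ a u ≠ 0 := left_ne_zero_of_mul (left_ne_zero_of_mul ha)
    have h2 := right_ne_zero_of_mul (left_ne_zero_of_mul ha)
    have h3 := right_ne_zero_of_mul ha
    have h4 := (cL s).shape a u h1
    have h5 := (cL s).par a u (yv_par a.2 h2) h1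
    refine ⟨h4.symm.trans ((cR t).shape a v h3), ww_eq_of_dd u.2 s.2 (h5.dd_eq le_rfl), ?_⟩
    rcases yv_tri a.2 (o s).2 (ho1 s) h2 with h6 | h6
    · right
      rw [h4, ho2] at h6
      have a1 := asc_le n u.1
      have a2 := asc_le n v.1
      have a3 := asc_nonneg n s.1
      have a4 := asc_nonneg n t.1
      have a5 : (ph (st u.1 n) + 1) * (2 * n ^ 2 + 1) ≤ ph (st s.1 n) * (2 * (n : ℤ) ^ 2 + 1) :=
        mul_le_mul_of_nonneg_right h6 (by positivity)
      beta_reduce
      linarith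
    · have h7 : a = o s := Subtype.ext h6
      have h8 : st u.1 n = st s.1 n := by rw [← h4, h7, ho2]
      have h9 := (cL s).tri u (h7 ▸ h1)
      have h10 := (cR t).tri v (hoo s t h ▸ h7 ▸ h3)
      beta_reduce
      rw [h8]
      rcases h9 with h9 | h9 <;> rcases h10 with h10 | h10
      · exact Or.inl ⟨h9, h10⟩
      · right; rw [h9]; omega
      · right; rw [h10]; omega
      · right; omega
  · beta_reduce
    rw [hap]
    refine norm_sum_sq_le _ _ (by positivity) fun a _ => ?_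
    by_cases h2 : yv q n (o s).1 a.1 = 0
    · rw [h2, mul_zero, zero_mul, norm_zero, zero_pow two_ne_zero]; positivity
    have h3 := yv_par a.2 h2
    have h4 := (cL s).norm a u h3
    have h5 := (cR t).norm a v (hoo s t h ▸ h3)
    have h6 := pow_le_pow_left₀ (norm_nonneg _) (G.norm_yv_le (o s).2 (ho1 s) h3) 2
    rw [transpose_apply] at h4
    rw [← hoo s t h] at h5
    have h7 : B ^ (2 * asc n s.1) * B ^ (2 * asc n t.1) ≤ B ^ (4 * n ^ 2) := by
      rw [← zpow_add₀ hB.ne', ← zpow_natCast]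
      refine zpow_le_zpow_right₀ G.B1 ?_
      have a1 := asc_le n s.1
      have a2 := asc_le n t.1
      push_cast; omega
    rw [norm_mul, norm_mul, mul_pow, mul_pow]
    calc _ ≤ (θ ^ (dg s.1 n - dg (o s).1 n) * B ^ (2 * asc n s.1)) * (θ ^ dg (o s).1 n) ^ 2
          * (θ ^ (dg t.1 n - dg (o s).1 n) * B ^ (2 * asc n t.1)) := by gcongr
      _ = θ ^ (dg s.1 n + dg t.1 n) * (B ^ (2 * asc n s.1) * B ^ (2 * asc n t.1)) := by
          rw [zpow_sub₀ hθ.ne', zpow_sub₀ hθ.ne', zpow_add₀ hθ.ne']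
          field_simp
      _ ≤ _ := by gcongr
  · beta_reduce
    rw [hdiag s t h, hdiag t s h.symm]
    have h1 := hg s
    have h2 := hg t
    rw [← hoo s t h] at h2 ⊢
    rw [← h1, ← h2]
    ring

end Good

end Pool.Agent.P.MP_e72dc0_lc.Sn
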