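import Pool.Agent.P.MP_e72dc0_lc.Sn.Lift

/-! The integral Hecke algebra, intertwiners and chains of intertwiners. -/

namespace Pool.Agent.P.MP_e72dc0_lc.Sn

open Finset Matrix
open scoped Classical

/-- Membership in the integral Hecke algebra. -/
def HH (q : ℚ_[2]) (n : ℕ) (M : Mat n) : Prop := ∃ x, Lift q n M x

section hh

variable {q : ℚ_[2]} {n : ℕ}

lemma HH.one : HH q n 1 := ⟨_, Lift.one⟩
lemma HH.gen {r : ℕ} (h : r + 1 < n) : HH q n (Tm q n r) := ⟨_, Lift.gen r h⟩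
lemma HH.mul {M M' : Mat n} (h : HH q n M) (h' : HH q n M') : HH q n (M * M') := by
  obtain ⟨x, hx⟩ := h; obtain ⟨y, hy⟩ := h'; exact ⟨_, hx.mul hy⟩
lemma HH.add {M M' : Mat n} (h : HH q n M) (h' : HH q n M') : HH q n (M + M') := by
  obtain ⟨x, hx⟩ := h; obtain ⟨y, hy⟩ := h'; exact ⟨_, hx.add hy⟩
lemma HH.smul {M : Mat n} (h : HH q n M) {a : ℚ_[2]} (ha : ‖a‖ ≤ 1) : HH q n (a • M) := by
  obtain ⟨x, hx⟩ := h; exact ⟨_, hx.smul ⟨a, ha⟩⟩
lemma HH.sub {M M' : Mat n} (h : HH q n M) (h' : HH q n M') : HH q n (M - M') := by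
  have := h.add (h'.smul (a := -1) (by simp))
  rwa [neg_one_smul, ← sub_eq_add_neg] at this

/-- Diagonal elements of the integral Hecke algebra. -/
def DH (q : ℚ_[2]) (n : ℕ) (f : Fn) : Prop := HH q n (diagonal fun s : Std n => f s.1)

lemma DH.const {a : ℚ_[2]} (ha : ‖a‖ ≤ 1) : DH q n fun _ => a := by
  have := (HH.one (q := q) (n := n)).smul ha
  rwa [smul_one_eq_diagonal] at this

lemma DH.mul {f g : Fn} (hf : DH q n f) (hg : DH q n g) : DH q n fun t => f t * g t := by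
  have := HH.mul hf hg
  rwa [diagonal_mul_diagonal] at this

lemma DH.add {f g : Fn} (hf : DH q n f) (hg : DH q n g) : DH q n fun t => f t + g t := by
  have := HH.add hf hg
  rwa [diagonal_add] at this

lemma DH.sub {f g : Fn} (hf : DH q n f) (hg : DH q n g) : DH q n fun t => f t - g t := by
  have := HH.sub hf hg
  rwa [diagonal_sub] at this

lemma DH.prod {ι : Type*} (s : Finset ι) (f : ι → Fn) (h : ∀ i ∈ s, DH q n (f i)) :
    DH q n fun t => ∏ i ∈ s, f i t := by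
  induction s using Finset.induction_on with
  | empty => simpa using DH.const (a := 1) (by simp)
  | insert a s ha ih =>
    simp only [prod_insert ha]
    exact (h a (mem_insert_self _ _)).mul (ih fun i hi => h i (mem_insert_of_mem hi))

end hh

/-- The step matrix: a generator, or an intertwiner. -/
noncomputable def Gm (q : ℚ_[2]) (n r : ℕ) (p : Prop) : Mat n :=
  if p then Tm q n r else
    (diagonal fun s : Std n => br q (s.1 (r + 1)) - br q (s.1 r)) * Tm q n r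
      - diagonal fun s : Std n => q ^ s.1 (r + 1)

/-- Shape and size of a step matrix. -/
def StepP (θ B : ℝ) {n : ℕ} (r : ℕ) (p : Prop) (X : Mat n) : Prop :=
  (∀ a b, X a b ≠ 0 → (p ∧ b = a) ∨ b.1 = sw r a.1) ∧
  ∀ a b : Std n, (p ↔ a.1 r % 2 = a.1 (r + 1) % 2) → ‖X a b‖ ≤ (if p then θ⁻¹ else θ) * B

lemma StepP.transpose {θ B : ℝ} (hθ : 0 < θ) (hB : 0 < B) {n r : ℕ} {p : Prop} {X : Mat n}
    (h : StepP θ B r p X) : StepP θ B r p Xᵀ := by
  refine ⟨fun a b hab => ?_, fun a b hp => ?_⟩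
  · rcases h.1 b a hab with ⟨h1, h2⟩ | h1
    · exact Or.inl ⟨h1, h2.symm⟩
    · exact Or.inr (by rw [h1, sw_sw])
  · rw [transpose_apply]
    by_cases h0 : X b a = 0
    · rw [h0, norm_zero]; split_ifs <;> positivity
    refine h.2 b a ?_
    rcases h.1 b a h0 with ⟨-, h2⟩ | h1
    · rw [← h2]; exact hp
    · rw [h1, sw_fst, sw_snd] at hp; rw [hp]; exact eq_comm

/-- Properties of a product of step matrices leading from `t0` to `t`. -/
structure Chain (θ B : ℝ) {n : ℕ} (t0 t : Std n) (M : Mat n) : Prop where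
  shape : ∀ a b, M a b ≠ 0 → st a.1 n = st b.1 n
  par : ∀ u b, Par n u.1 t0.1 → M u b ≠ 0 → Par n b.1 t.1
  norm : ∀ u b : Std n, Par n u.1 t0.1 →
    ‖M u b‖ ^ 2 ≤ θ ^ (dg t.1 n - dg t0.1 n) * B ^ (2 * asc n t.1)
  tri : ∀ b, M t0 b ≠ 0 → b = t ∨ asc n b.1 < asc n t.1

lemma chain_one {θ B : ℝ} (hB : 1 ≤ B) {n : ℕ} (t : Std n) : Chain θ B t t 1 := by
  have key : ∀ a b : Std n, (1 : Mat n) a b ≠ 0 → a = b := fun a b h => by
    by_contra hn; exact h (one_apply_ne hn)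
  refine ⟨fun a b h => by rw [key a b h], fun u b hu h => by rw [← key u b h]; exact hu,
    fun u b _ => ?_, fun b h => Or.inl (key _ _ h).symm⟩
  rw [sub_self, zpow_zero, one_mul]
  have h1 : (1 : ℝ) ≤ B ^ (2 * asc n t.1) :=
    one_le_zpow₀ hB (by have := asc_nonneg n t.1; omega)
  refine le_trans ?_ h1
  rw [one_apply]; split_ifs <;> simp

lemma norm_sum_sq_le {ι : Type*} (s : Finset ι) (f : ι → ℚ_[2]) {C : ℝ} (hC : 0 ≤ C)
    (h : ∀ i ∈ s, ‖f i‖ ^ 2 ≤ C) : ‖∑ i ∈ s, f i‖ ^ 2 ≤ C := by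
  rw [← Real.le_sqrt (norm_nonneg _) hC]
  exact IsUltrametricDist.norm_sum_le_of_forall_le_of_nonneg (Real.sqrt_nonneg _)
    fun i hi => (Real.le_sqrt (norm_nonneg _) hC).2 (h i hi)

lemma Chain.step {θ B : ℝ} (hθ : 0 < θ) (hB : 0 < B) {n r : ℕ} (hr : r + 1 < n) {t0 t' t : Std n}
    {M X : Mat n} (hM : Chain θ B t0 t' M) (ht : t.1 = sw r t'.1) (hd : t'.1 (r + 1) + 2 ≤ t'.1 r)
    (hX : StepP θ B r (t'.1 r % 2 = t'.1 (r + 1) % 2) X) :
    Chain θ B t0 t (M * X) ∧ (M * X) t0 t = M t0 t' * X t' t := by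
  have hasc : asc n t.1 = asc n t'.1 + 1 := by
    have := asc_sw t'.1 hr
    rw [if_pos (by omega), if_neg (by omega), ← ht] at this
    omega
  have hex : ∀ u b, (M * X) u b ≠ 0 → ∃ a, M u a ≠ 0 ∧ X a b ≠ 0 := by
    intro u b h
    rw [mul_apply] at h
    obtain ⟨a, -, ha⟩ := exists_ne_zero_of_sum_ne_zero h
    exact ⟨a, left_ne_zero_of_mul ha, right_ne_zero_of_mul ha⟩
  have hle : ∀ a b, X a b ≠ 0 → asc n b.1 ≤ asc n a.1 + 1 := by
    intro a b h
    rcases hX.1 a b h with ⟨-, h1⟩ | h1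
    · rw [h1]; omega
    · have := asc_sw a.1 hr
      rw [← h1] at this
      split_ifs at this <;> omega
  refine ⟨⟨fun u b h => ?_, fun u b hu h => ?_, fun u b hu => ?_, fun b h => ?_⟩, ?_⟩
  · obtain ⟨a, h1, h2⟩ := hex u b h
    rw [hM.shape u a h1]
    rcases hX.1 a b h2 with ⟨-, h3⟩ | h3
    · rw [h3]
    · rw [h3, st_sw_ge _ (by omega)]
  · obtain ⟨a, h1, h2⟩ := hex u b h
    have h4 := hM.par u a hu h1
    rw [ht]
    rcases hX.1 a b h2 with ⟨hp, h3⟩ | h3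
    · rw [h3]; exact h4.trans (par_sw_self hp).symm
    · rw [h3]; exact h4.sw hr
  · rw [mul_apply]
    refine norm_sum_sq_le _ _ (by positivity) fun a _ => ?_
    by_cases h1 : M u a = 0
    · rw [h1, zero_mul, norm_zero, zero_pow two_ne_zero]; positivity
    have h4 := hM.par u a hu h1
    have h5 := hX.2 a b (by rw [h4 r (by omega), h4 (r + 1) hr])
    have h6 := hM.norm u a hu
    have h7 : ‖X a b‖ ^ 2 ≤ θ ^ (if t'.1 r % 2 = t'.1 (r + 1) % 2 then -2 else 2 : ℤ) * B ^ (2 : ℤ) := by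
      refine (pow_le_pow_left₀ (norm_nonneg _) h5 2).trans (le_of_eq ?_)
      split_ifs <;> simp [mul_pow, zpow_ofNat]
    rw [norm_mul, mul_pow]
    refine (mul_le_mul h6 h7 (by positivity) (by positivity)).trans (le_of_eq ?_)
    rw [hasc, ht, dg_sw t'.1 hr hd, mul_mul_mul_comm, ← zpow_add₀ hθ.ne', ← zpow_add₀ hB.ne']
    congr 2 <;> ring
  · obtain ⟨a, h1, h2⟩ := hex t0 b h
    rcases hM.tri a h1 with h3 | h3
    · rcases hX.1 a b h2 with ⟨-, h4⟩ | h4
      · right; rw [h4, h3]; omega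
      · left; apply Subtype.ext; rw [h4, h3, ht]
    · have := hle a b h2; right; omega
  · rw [mul_apply, sum_eq_single t']
    · intro a _ ha
      by_contra h
      have h1 := hle a t (right_ne_zero_of_mul h)
      rcases hM.tri a (left_ne_zero_of_mul h) with h3 | h3
      · exact ha h3
      · omega
    · simp

namespace Good

variable {n : ℕ} {q : ℚ_[2]} {θ B : ℝ} (G : Good n q θ B)
include G

lemma dh_br {k : ℕ} (hk : k < n) : DH q n fun t => br q (t k) := by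
  induction k with
  | zero =>
    have := DH.const (q := q) (n := n) (a := 0) (by simp)
    unfold DH at this ⊢
    convert this using 3 with s
    simp [first_zero s.2, br]
  | succ k ih =>
    have h1 := (((HH.gen hk).mul (ih (by omega))).mul (HH.gen hk)).add (HH.gen hk)
    rw [G.T_jm hk] at h1
    have h2 := h1.smul (a := q⁻¹) (by rw [norm_inv, G.qn, inv_one])
    rwa [smul_smul, inv_mul_cancel₀ G.q0, one_smul] at h2

lemma dh_qz {k : ℕ} (hk : k < n) : DH q n fun t => q ^ t k := by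
  have h1 := ((DH.const G.q1.le).mul (G.dh_br hk)).add (DH.const (a := 1) (by simp))
  convert h1 using 2 with t
  have := G.q_ne_one
  unfold br; field_simp; ring

lemma hh_Gm {r : ℕ} (h : r + 1 < n) (p : Prop) : HH q n (Gm q n r p) := by
  unfold Gm
  split_ifs
  · exact HH.gen h
  · exact (HH.mul ((G.dh_br h).sub (G.dh_br (by omega))) (HH.gen h)).sub (G.dh_qz h)

lemma norm_aa {c d : ℤ} (h : c ≠ d) : ‖aa q c d‖ = ‖br q (c - d)‖⁻¹ := by
  have h1 : ‖q - 1‖ ≠ 0 := norm_ne_zero_iff.2 G.q_ne_one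
  have h2 := (G.norm_br_pos (c := c - d) (by omega)).ne'
  rw [aa, norm_div, norm_mul, G.norm_qz, norm_sub_rev (q ^ d), G.norm_zpow_sub]
  field_simp

lemma norm_bb {c d : ℤ} (h : 2 ≤ |c - d|) :
    ‖bb q c d‖ = ‖br q (c - d + 1)‖ / ‖br q (c - d)‖ := by
  have h1 : ‖q - 1‖ ≠ 0 := norm_ne_zero_iff.2 G.q_ne_one
  rw [bb, if_pos h, norm_div, mul_comm q, ← zpow_add_one₀ G.q0, G.norm_zpow_sub, G.norm_zpow_sub,
    mul_div_mul_left _ _ h1, show c + 1 - d = c - d + 1 by ring]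

lemma Gm_neg {r : ℕ} (h : r + 1 < n) {p : Prop} (hp : ¬ p) (a b : Std n) :
    Gm q n r p a b = if b.1 = sw r a.1 then
      (br q (a.1 (r + 1)) - br q (a.1 r)) * bb q (a.1 r) (a.1 (r + 1)) else 0 := by
  rw [Gm, if_neg hp, Matrix.sub_apply, diagonal_mul, Tm, diagonal_apply]
  by_cases hab : a = b
  · subst hab
    have h1 := G.zpow_sub_ne (ne_succ a.2 h).symm
    have h2 := G.q_ne_one
    rw [if_pos rfl, if_pos rfl, if_neg (sw_ne_self a.2 h), if_neg (sw_ne_self a.2 h)]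
    unfold aa br; field_simp; ring
  · rw [if_neg (Ne.symm hab), if_neg hab]
    split_ifs <;> ring

lemma norm_Gm_neg {c d : ℤ} (h : 2 ≤ |c - d|) :
    ‖(br q d - br q c) * bb q c d‖ = ‖br q (c - d + 1)‖ := by
  have h1 : c - d ≠ 0 := by intro e; rw [e] at h; simp at h
  have h2 := (G.norm_br_pos h1).ne'
  rw [norm_mul, G.norm_bb h, norm_sub_rev, G.norm_br_sub]
  field_simp

lemma step_Gm {r : ℕ} (h : r + 1 < n) (p : Prop) : StepP θ B r p (Gm q n r p) := by
  have hθ := G.θpos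
  have hB := G.Bpos
  refine ⟨fun a b hab => ?_, fun a b hp => ?_⟩
  · by_cases hp : p
    · rw [Gm, if_pos hp] at hab
      rcases Tm_ne hab with h1 | h1
      · exact Or.inl ⟨hp, h1⟩
      · exact Or.inr h1.1
    · rw [G.Gm_neg h hp] at hab
      right; by_contra hn; exact hab (if_neg hn)
  · have hne := ne_succ a.2 h
    by_cases hp' : p
    · rw [Gm, if_pos hp', if_pos hp']
      have h1 := G.norm_br_pos (c := a.1 r - a.1 (r + 1)) (by omega)
      have h2 : ‖br q (a.1 r - a.1 (r + 1))‖⁻¹ ≤ θ⁻¹ * B := by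
        have a1 := abs_le.1 (abs_le_n a.2 r)
        have a2 := abs_le.1 (abs_le_n a.2 (r + 1))
        have h5 := G.br_ge (c := a.1 r - a.1 (r + 1)) (by omega) (by rw [abs_le]; omega)
        rw [mul_comm, ← div_eq_mul_inv, ← inv_div]
        exact inv_anti₀ (by positivity) h5
      by_cases h0 : Tm q n r a b = 0
      · rw [h0, norm_zero]; positivity
      rcases Tm_ne h0 with h3 | ⟨h3, h4⟩
      · rw [h3, Tm_diag q h, G.norm_aa hne]; exact h2
      · rw [Tm_off q h h3, G.norm_bb h4, div_eq_mul_inv]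
        exact (mul_le_of_le_one_left (by positivity) (G.norm_br_le _)).trans h2
    · rw [G.Gm_neg h hp', if_neg hp']
      have h2 : ¬ a.1 r % 2 = a.1 (r + 1) % 2 := fun e => hp' (hp.2 e)
      split_ifs with h3
      · by_cases h4 : 2 ≤ |a.1 r - a.1 (r + 1)|
        · rw [G.norm_Gm_neg h4]
          exact (G.even_le _ (by omega)).trans (le_mul_of_one_le_right hθ.le G.B1)
        · rw [bb, if_neg h4, mul_zero, norm_zero]; positivity
      · rw [norm_zero]; positivity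

lemma Gm_prod {r : ℕ} (h : r + 1 < n) {t' t : Std n} (ht : t.1 = sw r t'.1)
    (hd : t'.1 (r + 1) + 2 ≤ t'.1 r) :
    ‖Gm q n r (t'.1 r % 2 = t'.1 (r + 1) % 2) t' t‖ * ‖Gm q n r (t'.1 r % 2 = t'.1 (r + 1) % 2) t t'‖
      = ‖br q (t'.1 r - t'.1 (r + 1) - 1)‖ * ‖br q (t'.1 r - t'.1 (r + 1) + 1)‖
        / ‖br q (t'.1 r - t'.1 (r + 1))‖ ^ 2 := by
  have ht' : t'.1 = sw r t.1 := by rw [ht, sw_sw]
  have e1 : t.1 r = t'.1 (r + 1) := by rw [ht, sw_fst]
  have e2 : t.1 (r + 1) = t'.1 r := by rw [ht, sw_snd]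
  have h1 : 2 ≤ |t'.1 r - t'.1 (r + 1)| := le_abs.2 (Or.inl (by omega))
  have h2 : 2 ≤ |t'.1 (r + 1) - t'.1 r| := by rwa [abs_sub_comm]
  have e3 : ‖br q (t'.1 (r + 1) - t'.1 r + 1)‖ = ‖br q (t'.1 r - t'.1 (r + 1) - 1)‖ := by
    rw [← G.norm_br_neg]; congr 2; ring
  by_cases hp : t'.1 r % 2 = t'.1 (r + 1) % 2
  · have e4 : ‖br q (t'.1 (r + 1) - t'.1 r)‖ = ‖br q (t'.1 r - t'.1 (r + 1))‖ := by
      rw [← G.norm_br_neg]; congr 2; ring
    rw [Gm, if_pos hp, Tm_off q h ht, Tm_off q h ht', e1, e2, G.norm_bb h1, G.norm_bb h2, e3, e4]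
    ring
  · rw [G.Gm_neg h hp, G.Gm_neg h hp, if_pos ht, if_pos ht', e1, e2, G.norm_Gm_neg h1,
      G.norm_Gm_neg h2, e3, G.odd (t'.1 r - t'.1 (r + 1)) (by omega)]
    ring

lemma exists_chain (t : Std n) : ∃ t0 : Std n, Term n t0.1 ∧ st t0.1 n = st t.1 n ∧
    ∃ R L : Mat n, HH q n R ∧ HH q n L ∧ Chain θ B t0 t R ∧ Chain θ B t0 t Lᵀ ∧
      ‖R t0 t‖ * ‖L t t0‖ * gw q n t0.1 = gw q n t.1 := by
  induction hm : (asc n t.1).toNat using Nat.strong_induction_on generalizing t with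
  | _ m ih =>
    by_cases hT : Term n t.1
    · refine ⟨t, hT, rfl, 1, 1, HH.one, HH.one, chain_one G.B1 t, ?_, by simp⟩
      rw [transpose_one]; exact chain_one G.B1 t
    unfold Term at hT
    push Not at hT
    obtain ⟨r, hr, hlt⟩ := hT
    let t' : Std n := ⟨sw r t.1, sw_mem t.2 hr (le_abs.2 (Or.inr (by omega)))⟩
    have ht : t.1 = sw r t'.1 := (sw_sw r t.1).symm
    have hd : t'.1 (r + 1) + 2 ≤ t'.1 r := by simp only [t', sw_fst, sw_snd]; omega
    have hasc : asc n t.1 = asc n t'.1 + 1 := by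
      have := asc_sw t'.1 hr
      rw [if_pos (by omega), if_neg (by omega), ← ht] at this
      omega
    obtain ⟨t0, h1, h2, R, L, h3, h4, h5, h6, h7⟩ :=
      ih _ (by have := asc_nonneg n t'.1; omega) t' rfl
    have hs := G.step_Gm hr (t'.1 r % 2 = t'.1 (r + 1) % 2)
    obtain ⟨c1, c2⟩ := h5.step G.θpos G.Bpos hr ht hd hs
    obtain ⟨c3, c4⟩ := h6.step G.θpos G.Bpos hr ht hd (hs.transpose G.θpos G.Bpos)
    rw [← transpose_mul] at c3 c4
    refine ⟨t0, h1, h2.trans (st_sw_ge _ (by omega)), _, _, h3.mul (G.hh_Gm hr _),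
      (G.hh_Gm hr _).mul h4, c1, c3, ?_⟩
    rw [transpose_apply, transpose_apply, transpose_apply] at c4
    rw [c2, c4, ht, gw_sw t'.1 hr hd, ← h7, ← G.Gm_prod hr ht hd, norm_mul, norm_mul]
    ring

end Good

end Pool.Agent.P.MP_e72dc0_lc.Sn
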