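import Mathlib

/-! Module D, abstract part: from the positivity of shifted traces to a quadratic inequality. -/

namespace Pool.Agent.P.MP_e72dc0_lc.Sn.FermiA

open Finset

/-- The window. -/
noncomputable def W (M : ℕ) : Finset ℤ := Ico (-(M : ℤ)) M

lemma mem_W {M : ℕ} {a : ℤ} : a ∈ W M ↔ -(M : ℤ) ≤ a ∧ a < M := by simp [W]

/-- Reindex a sum over even shifts as a sum over the window. -/
lemma sum_shift_even (M : ℕ) (f : ℤ → ℝ) (hf : ∀ a, a ∉ W M → f a = 0) (a e : ℤ) (ha : a ∈ W M)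
    (he0 : 0 ≤ e) (he : e % 2 = 0) :
    ∑ m ∈ range (M + 1), f (a - (2 * m + e))
      = ∑ b ∈ W M, if b % 2 = a % 2 ∧ b ≤ a - e then f b else 0 := by
  rw [← sum_filter]
  symm
  rw [mem_W] at ha
  refine sum_of_injOn (fun b => ((a - e - b) / 2).toNat) ?_ ?_ ?_ ?_
  · intro b hb c hc h
    simp only [coe_filter, mem_W, Set.mem_ofPred_eq] at hb hc
    simp only at h
    omega
  · intro b hb
    simp only [coe_filter, mem_W, Set.mem_ofPred_eq] at hb
    simp only [coe_range, Set.mem_Iio]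
    omega
  · intro m hm hn
    apply hf
    intro hW
    apply hn
    refine ⟨a - (2 * m + e), ?_, ?_⟩
    · simp only [coe_filter, Set.mem_ofPred_eq]
      refine ⟨hW, ?_, ?_⟩ <;> omega
    · simp only
      omega
  · intro b hb
    simp only [mem_filter, mem_W] at hb
    congr 1
    omega

/-- Reindex a sum over the window as a sum over differences. -/
lemma sum_shift_diff (M : ℕ) (f : ℤ → ℝ) (hf : ∀ a, a ∉ W M → f a = 0) (a : ℤ) (ha : a ∈ W M) :
    ∑ b ∈ W M, f b = ∑ k ∈ W (2 * M + 2), f (a + k) := by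
  rw [mem_W] at ha
  refine sum_of_injOn (fun b => b - a) ?_ ?_ ?_ ?_
  · intro b _ c _ h
    simp only at h
    omega
  · intro b hb
    simp only [mem_coe, mem_W] at hb ⊢
    push_cast
    omega
  · intro k _ hn
    apply hf
    intro hW
    exact hn ⟨a + k, hW, by simp⟩
  · intro b _
    simp

/-- Count of the admissible shifts. -/
lemma count_ge (M : ℕ) (a e : ℤ) (ha : a ∈ W M) (he0 : 0 ≤ e) (he : e % 2 = 0) :
    ∑ m ∈ range (M + 1), (if 2 * (m : ℤ) + e ≤ a then (1 : ℝ) else 0)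
      = ((max ((a - e) / 2 + 1) 0 : ℤ) : ℝ) := by
  rw [mem_W] at ha
  rw [← sum_filter, sum_const, nsmul_eq_mul, mul_one]
  have : (range (M + 1)).filter (fun m : ℕ => 2 * (m : ℤ) + e ≤ a)
      = range (max ((a - e) / 2 + 1) 0).toNat := by
    ext m
    simp only [mem_filter, mem_range]
    omega
  rw [this, card_range]
  have h2 : (((max ((a - e) / 2 + 1) 0).toNat : ℕ) : ℤ) = max ((a - e) / 2 + 1) 0 := by omega
  exact_mod_cast congrArg (fun z : ℤ => (z : ℝ)) h2

lemma count_lt (M : ℕ) (a e : ℤ) (ha : a ∈ W M) (he0 : 0 ≤ e) (he : e % 2 = 0) :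
    ∑ m ∈ range (M + 1), (if a + (2 * (m : ℤ) + e) < 0 then (1 : ℝ) else 0)
      = ((max (-((a + e) / 2)) 0 : ℤ) : ℝ) := by
  rw [mem_W] at ha
  rw [← sum_filter, sum_const, nsmul_eq_mul, mul_one]
  have : (range (M + 1)).filter (fun m : ℕ => a + (2 * (m : ℤ) + e) < 0)
      = range (max (-((a + e) / 2)) 0).toNat := by
    ext m
    simp only [mem_filter, mem_range]
    omega
  rw [this, card_range]
  have h2 : (((max (-((a + e) / 2)) 0).toNat : ℕ) : ℤ) = max (-((a + e) / 2)) 0 := by omega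
  exact_mod_cast congrArg (fun z : ℤ => (z : ℝ)) h2

section
variable (M : ℕ) (N : ℝ) (D : ℤ → ℤ → ℝ)

/-- Correlation of two rows of the kernel. -/
noncomputable def G (a b : ℤ) : ℝ := ∑ k ∈ W (2 * M + 2), D a (a + k) * D b (b + k)

lemma G_symm (a b : ℤ) : G M D a b = G M D b a :=
  sum_congr rfl fun _ _ => mul_comm _ _

variable {M N D}

/-- One shifted trace inequality, expanded. -/
lemma one_shift (h1 : ∀ a b, a ∉ W M → D a b = 0) (h2 : ∀ a b, b ∉ W M → D a b = 0) (s : ℤ)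
    (hs : 0 ≤ s)
    (hpos : 0 ≤ ∑ a ∈ W M, ∑ b ∈ W M, (D a b + if a = b ∧ a < 0 then N else 0)
      * ((if a = b ∧ s ≤ a then N else 0) - D (a - s) (b - s))) :
    ∑ a ∈ W M, G M D a (a - s)
      ≤ N * ∑ a ∈ W M, ((if s ≤ a then 1 else 0) - (if a + s < 0 then 1 else 0)) * D a a := by
  have e1 : ∀ a ∈ W M, ∑ b ∈ W M, (D a b + if a = b ∧ a < 0 then N else 0)
      * ((if a = b ∧ s ≤ a then N else 0) - D (a - s) (b - s))
      = N * ((if s ≤ a then 1 else 0) * D a a)
        - N * (if a < 0 then D (a - s) (a - s) else 0) - G M D a (a - s) := by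
    intro a ha
    have e2 : G M D a (a - s) = ∑ b ∈ W M, D a b * D (a - s) (b - s) := by
      rw [sum_shift_diff M (fun b => D a b * D (a - s) (b - s))
        (fun b hb => by simp [h2 a b hb]) a ha]
      refine sum_congr rfl fun k _ => ?_
      congr 2
      ring
    have e3 : ∀ b ∈ W M, (D a b + if a = b ∧ a < 0 then N else 0)
        * ((if a = b ∧ s ≤ a then N else 0) - D (a - s) (b - s))
        = (if a = b then N * ((if s ≤ a then 1 else 0) * D a a)
            - N * (if a < 0 then D (a - s) (a - s) else 0) else 0) - D a b * D (a - s) (b - s) := by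
      intro b _
      by_cases hab : a = b
      · subst hab
        by_cases h3 : a < 0
        · have h4 : ¬ s ≤ a := by omega
          simp only [h3, h4, and_true, and_false, if_true, if_false]
          ring
        · by_cases h4 : s ≤ a
          · simp only [h3, h4, and_true, and_false, if_true, if_false]
            ring
          · simp only [h3, h4, and_false, if_true, if_false]
            ring
      · simp only [hab, false_and, if_false]
        ring
    rw [sum_congr rfl e3, sum_sub_distrib, sum_ite_eq, if_pos ha, e2]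
  rw [sum_congr rfl e1, sum_sub_distrib, sum_sub_distrib, ← mul_sum, ← mul_sum] at hpos
  have e4 : ∑ a ∈ W M, (if a < 0 then D (a - s) (a - s) else 0)
      = ∑ a ∈ W M, (if a + s < 0 then 1 else 0) * D a a := by
    simp only [ite_mul, one_mul, zero_mul]
    rw [← sum_filter, ← sum_filter]
    symm
    refine sum_of_injOn (fun a => a + s) ?_ ?_ ?_ ?_
    · intro a _ b _ h
      simp only at h
      omega
    · intro a ha
      simp only [coe_filter, mem_W, Set.mem_ofPred_eq] at ha ⊢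
      omega
    · intro a ha hn
      apply h1
      intro hW
      apply hn
      refine ⟨a - s, ?_, by simp⟩
      simp only [mem_filter] at ha
      simp only [coe_filter, Set.mem_ofPred_eq]
      exact ⟨hW, by omega⟩
    · intro a _
      simp
  rw [e4] at hpos
  simp only [sub_mul, sum_sub_distrib]
  linarith

/-- All the even shifts starting from `e`. -/
lemma sum_shifts (h1 : ∀ a b, a ∉ W M → D a b = 0) (h2 : ∀ a b, b ∉ W M → D a b = 0)
    (hpos : ∀ s : ℤ, 0 ≤ s → 0 ≤ ∑ a ∈ W M, ∑ b ∈ W M, (D a b + if a = b ∧ a < 0 then N else 0)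
      * ((if a = b ∧ s ≤ a then N else 0) - D (a - s) (b - s)))
    (e : ℤ) (he0 : 0 ≤ e) (he : e % 2 = 0) :
    ∑ a ∈ W M, ∑ b ∈ W M, (if b % 2 = a % 2 ∧ b ≤ a - e then G M D a b else 0)
      ≤ N * ∑ a ∈ W M,
        (((max ((a - e) / 2 + 1) 0 : ℤ) : ℝ) - ((max (-((a + e) / 2)) 0 : ℤ) : ℝ)) * D a a := by
  have h3 : ∀ m ∈ range (M + 1), ∑ a ∈ W M, G M D a (a - (2 * (m : ℤ) + e))
      ≤ N * ∑ a ∈ W M, ((if 2 * (m : ℤ) + e ≤ a then 1 else 0)
        - (if a + (2 * (m : ℤ) + e) < 0 then 1 else 0)) * D a a :=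
    fun m _ => one_shift h1 h2 _ (by omega) (hpos _ (by omega))
  have h4 := sum_le_sum h3
  rw [sum_comm, ← mul_sum, sum_comm (s := range (M + 1))] at h4
  refine le_trans (le_of_eq ?_) (h4.trans (le_of_eq ?_))
  · refine sum_congr rfl fun a ha => ?_
    rw [sum_shift_even M (G M D a) (fun b hb => ?_) a e ha he0 he]
    exact sum_eq_zero fun k _ => by rw [h1 b _ hb, mul_zero]
  · congr 1
    refine sum_congr rfl fun a ha => ?_
    rw [← sum_mul, sum_sub_distrib, count_ge M a e ha he0 he, count_lt M a e ha he0 he]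

/-- Parity-restricted diagonal sums. -/
noncomputable def Y (M : ℕ) (D : ℤ → ℤ → ℝ) (r k : ℤ) : ℝ := ∑ a ∈ W M, if a % 2 = r then D a (a + k) else 0

lemma sum_G_eq : ∑ a ∈ W M, ∑ b ∈ W M, (if b % 2 = a % 2 then G M D a b else 0)
    = ∑ k ∈ W (2 * M + 2), (Y M D 0 k ^ 2 + Y M D 1 k ^ 2) := by
  have e1 : ∀ a ∈ W M, ∑ b ∈ W M, (if b % 2 = a % 2 then G M D a b else 0)
      = ∑ k ∈ W (2 * M + 2), ∑ b ∈ W M,
        (if b % 2 = a % 2 then D a (a + k) * D b (b + k) else 0) := by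
    intro a _
    rw [sum_comm]
    refine sum_congr rfl fun b _ => ?_
    split_ifs
    · rfl
    · simp
  rw [sum_congr rfl e1, sum_comm]
  refine sum_congr rfl fun k _ => ?_
  simp only [Y, sq, sum_mul_sum, ← sum_add_distrib]
  refine sum_congr rfl fun a _ => sum_congr rfl fun b _ => ?_
  rcases Int.emod_two_eq_zero_or_one a with ha | ha <;>
    rcases Int.emod_two_eq_zero_or_one b with hb | hb <;> simp [ha, hb]

theorem abstract (h1 : ∀ a b, a ∉ W M → D a b = 0) (h2 : ∀ a b, b ∉ W M → D a b = 0)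
    (hpos : ∀ s : ℤ, 0 ≤ s → 0 ≤ ∑ a ∈ W M, ∑ b ∈ W M, (D a b + if a = b ∧ a < 0 then N else 0)
      * ((if a = b ∧ s ≤ a then N else 0) - D (a - s) (b - s))) :
    Y M D 0 0 ^ 2 + Y M D 1 0 ^ 2 + (∑ a ∈ W M, D a (a + 1)) ^ 2 / 2
        + (∑ a ∈ W M, D a (a - 1)) ^ 2 / 2
      ≤ N * ∑ a ∈ W M, ((2 * (a / 2) + 1 : ℤ) : ℝ) * D a a := by
  have a0 := sum_shifts h1 h2 hpos 0 le_rfl (by norm_num)
  have a2 := sum_shifts h1 h2 hpos 2 (by norm_num) (by norm_num)
  have b2 : ∑ a ∈ W M, ∑ b ∈ W M, (if b % 2 = a % 2 ∧ b ≤ a - 2 then G M D a b else 0)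
      = ∑ a ∈ W M, ∑ b ∈ W M, (if b % 2 = a % 2 ∧ a ≤ b - 2 then G M D a b else 0) := by
    rw [sum_comm]
    refine sum_congr rfl fun a _ => sum_congr rfl fun b _ => ?_
    rw [G_symm]
    simp only [eq_comm]
  have c : ∑ a ∈ W M, ∑ b ∈ W M, (if b % 2 = a % 2 ∧ b ≤ a - 0 then G M D a b else 0)
      + ∑ a ∈ W M, ∑ b ∈ W M, (if b % 2 = a % 2 ∧ a ≤ b - 2 then G M D a b else 0)
      = ∑ a ∈ W M, ∑ b ∈ W M, (if b % 2 = a % 2 then G M D a b else 0) := by
    rw [← sum_add_distrib]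
    refine sum_congr rfl fun a _ => ?_
    rw [← sum_add_distrib]
    refine sum_congr rfl fun b _ => ?_
    by_cases h : b % 2 = a % 2
    · by_cases h' : b ≤ a - 0
      · have h'' : ¬ a ≤ b - 2 := by omega
        simp only [h, h', h'', and_true, and_false, if_true, if_false, add_zero]
      · have h'' : a ≤ b - 2 := by omega
        simp only [h, h', h'', and_true, and_false, if_true, if_false, zero_add]
    · simp only [h, false_and, if_false, add_zero]
  have d : N * ∑ a ∈ W M,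
        (((max ((a - 0) / 2 + 1) 0 : ℤ) : ℝ) - ((max (-((a + 0) / 2)) 0 : ℤ) : ℝ)) * D a a
      + N * ∑ a ∈ W M,
        (((max ((a - 2) / 2 + 1) 0 : ℤ) : ℝ) - ((max (-((a + 2) / 2)) 0 : ℤ) : ℝ)) * D a a
      = N * ∑ a ∈ W M, ((2 * (a / 2) + 1 : ℤ) : ℝ) * D a a := by
    rw [← mul_add, ← sum_add_distrib]
    congr 1
    refine sum_congr rfl fun a _ => ?_
    rw [← add_mul]
    congr 1
    have : max ((a - 0) / 2 + 1) 0 - max (-((a + 0) / 2)) 0
        + (max ((a - 2) / 2 + 1) 0 - max (-((a + 2) / 2)) 0) = 2 * (a / 2) + 1 := by omega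
    exact_mod_cast congrArg (fun z : ℤ => (z : ℝ)) this
  have e : ∑ k ∈ ({0, 1, -1} : Finset ℤ), (Y M D 0 k ^ 2 + Y M D 1 k ^ 2)
      ≤ ∑ k ∈ W (2 * M + 2), (Y M D 0 k ^ 2 + Y M D 1 k ^ 2) := by
    refine sum_le_sum_of_subset_of_nonneg (fun k hk => ?_) fun _ _ _ => by positivity
    simp only [mem_insert, mem_singleton] at hk
    rw [mem_W]
    push_cast
    omega
  rw [sum_insert (by simp), sum_insert (by simp), sum_singleton] at e
  have f : ∀ k, ∑ a ∈ W M, D a (a + k) = Y M D 0 k + Y M D 1 k := by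
    intro k
    simp only [Y, ← sum_add_distrib]
    refine sum_congr rfl fun a _ => ?_
    rcases Int.emod_two_eq_zero_or_one a with ha | ha <;> simp [ha]
  have f2 : ∑ a ∈ W M, D a (a - 1) = Y M D 0 (-1) + Y M D 1 (-1) := f (-1)
  rw [f 1, f2, ← d]
  rw [b2] at a2
  have g := sum_G_eq (M := M) (D := D)
  nlinarith [sq_nonneg (Y M D 0 1 - Y M D 1 1), sq_nonneg (Y M D 0 (-1) - Y M D 1 (-1))]

end

end Pool.Agent.P.MP_e72dc0_lc.Sn.FermiA
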