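import Mathlib

/-! Module A: filtered bases of the group algebra bound simultaneous triple products. -/

namespace Pool.Agent.P.MP_e72dc0_lc.Sn

open Finset
open scoped Classical

/-- Coefficient of the identity in the convolution of three functions. -/
def Tri {G F : Type*} [Group G] [Fintype G] [CommRing F] (f g h : G → F) : F :=
  ∑ x, ∑ y, f x * g y * h (x * y)⁻¹

/-- The group algebra over `ZMod 2` has a basis with real degrees, such that `Tri` vanishes in
positive total degree, with partition function at most `Z`. -/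
def Filt (G : Type) [Group G] [Fintype G] (Z : ℝ) : Prop :=
  ∃ (ι : Type) (_ : Fintype ι) (b : ι → G → ZMod 2) (D : ι → ℝ),
    Fintype.card ι = Fintype.card G ∧ LinearIndependent (ZMod 2) b ∧
    (∀ i j k, 0 < D i + D j + D k → Tri (b i) (b j) (b k) = 0) ∧
    ∑ i, Real.exp (-D i) ≤ Z

lemma coeff_mul_fintype {G F : Type*} [Group G] [Fintype G] [CommRing F]
    (a b : MonoidAlgebra F G) (g : G) :
    (a * b).coeff g = ∑ x, a.coeff x * b.coeff (x⁻¹ * g) := by
  rw [MonoidAlgebra.coeff_mul_apply_left, Finsupp.sum_fintype]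
  intro x
  simp

theorem tri_monoidAlgebra {G F : Type*} [Group G] [Fintype G] [CommRing F]
    (a b c : MonoidAlgebra F G) :
    (a * b * c).coeff 1
      = Tri (fun x => a.coeff x) (fun x => b.coeff x) (fun x => c.coeff x) := by
  rw [mul_assoc, coeff_mul_fintype]
  unfold Tri
  refine Finset.sum_congr rfl fun x _ => ?_
  rw [coeff_mul_fintype, Finset.mul_sum]
  refine Finset.sum_congr rfl fun y _ => ?_
  rw [mul_one, mul_inv_rev, mul_assoc]

theorem Filt.pi {m : ℕ} (G : Fin m → Type) [∀ i, Group (G i)] [∀ i, Fintype (G i)]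
    (Z : Fin m → ℝ) (h : ∀ i, Filt (G i) (Z i)) : Filt (∀ i, G i) (∏ i, Z i) := by
  choose ι hι b D hcard hli htri hZ using h
  refine ⟨∀ r, ι r, inferInstance, fun i g => ∏ r, b r (i r) (g r), fun i => ∑ r, D r (i r),
    ?_, ?_, ?_, ?_⟩
  · rw [Fintype.card_pi, Fintype.card_pi]
    exact Finset.prod_congr rfl fun r _ => hcard r
  · apply linearIndependent_of_top_le_span_of_card_eq_finrank
    · have hsp : ∀ r, ∀ g : G r, ∃ c : ι r → ZMod 2,
          ∑ i, c i • b r i = (Pi.single g 1 : G r → ZMod 2) := by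
        intro r g
        have h1 := (hli r).span_eq_top_of_card_eq_finrank' (by simp [hcard r])
        have h2 : (Pi.single g 1 : G r → ZMod 2) ∈ Submodule.span (ZMod 2) (Set.range (b r)) := by
          rw [h1]; trivial
        exact (Submodule.mem_span_range_iff_exists_fun _).1 h2
      choose c hc using hsp
      intro f _
      have hf : f = ∑ g, f g • (Pi.single g 1 : (∀ r, G r) → ZMod 2) := by
        ext x
        simp [Finset.sum_apply, Pi.single_apply]
      rw [hf]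
      refine Submodule.sum_mem _ fun g _ => Submodule.smul_mem _ _ ?_
      refine (Submodule.mem_span_range_iff_exists_fun _).2 ⟨fun i => ∏ r, c r (g r) (i r), ?_⟩
      ext x
      have h3 : ∀ r, ∑ i, c r (g r) i * b r i (x r) = if x r = g r then 1 else 0 := by
        intro r
        have := congrFun (hc r (g r)) (x r)
        simpa [Finset.sum_apply, Pi.single_apply] using this
      simp only [Finset.sum_apply, Pi.smul_apply, smul_eq_mul, ← Finset.prod_mul_distrib]
      rw [← Fintype.prod_sum (fun r i => c r (g r) i * b r i (x r))]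
      simp only [h3, Pi.single_apply]
      by_cases hx : x = g
      · simp [hx]
      · rw [if_neg hx]
        obtain ⟨r, hr⟩ := Function.ne_iff.1 hx
        exact Finset.prod_eq_zero (Finset.mem_univ r) (if_neg hr)
    · simp [Fintype.card_pi, hcard]
  · intro i j k hpos
    have hex : ∃ r, 0 < D r (i r) + D r (j r) + D r (k r) := by
      by_contra hcon
      push Not at hcon
      have : ∑ r, (D r (i r) + D r (j r) + D r (k r)) ≤ 0 :=
        Finset.sum_nonpos fun r _ => hcon r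
      simp only [Finset.sum_add_distrib] at this
      linarith
    obtain ⟨r, hr⟩ := hex
    have hmul : Tri (fun g : ∀ r, G r => ∏ r, b r (i r) (g r)) (fun g => ∏ r, b r (j r) (g r))
        (fun g => ∏ r, b r (k r) (g r)) = ∏ r, Tri (b r (i r)) (b r (j r)) (b r (k r)) := by
      unfold Tri
      rw [Fintype.prod_sum (fun r x => ∑ y, b r (i r) x * b r (j r) y * b r (k r) (x * y)⁻¹)]
      refine Finset.sum_congr rfl fun x _ => ?_
      rw [Fintype.prod_sum (fun r y => b r (i r) (x r) * b r (j r) y * b r (k r) (x r * y)⁻¹)]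
      refine Finset.sum_congr rfl fun y _ => ?_
      simp only [Finset.prod_mul_distrib, Pi.inv_apply, Pi.mul_apply]
    rw [hmul]
    exact Finset.prod_eq_zero (Finset.mem_univ r) (htri r _ _ _ hr)
  · have : ∑ i : ∀ r, ι r, Real.exp (-∑ r, D r (i r)) = ∏ r, ∑ i, Real.exp (-D r i) := by
      rw [Fintype.prod_sum (fun r i => Real.exp (-D r i))]
      refine Finset.sum_congr rfl fun i _ => ?_
      rw [← Real.exp_sum, Finset.sum_neg_distrib]
    rw [this]
    exact Finset.prod_le_prod (fun r _ => Finset.sum_nonneg fun i _ => (Real.exp_pos _).le)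
      fun r _ => hZ r

/-- A rank function refining a real degree. -/
lemma exists_rank {κ : Type*} [Fintype κ] (D : κ → ℝ) :
    ∃ ρ : κ → ℝ ×ₗ ℕ, Function.Injective ρ ∧ ∀ i j, ρ i ≤ ρ j → D i ≤ D j := by
  refine ⟨fun i => toLex (D i, (Fintype.equivFin κ i : ℕ)), ?_, ?_⟩
  · intro i j hij
    have h1 := congrArg (fun p => (ofLex p).2) hij
    simp only [ofLex_toLex] at h1
    exact (Fintype.equivFin κ).injective (Fin.ext h1)
  · intro i j hij
    rcases Prod.Lex.toLex_le_toLex.1 hij with h | h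
    · exact le_of_lt h
    · exact le_of_eq h.1

/-- Leading term lemma. -/
lemma bruhat {G F κ A : Type*} [Field F] [Fintype κ] [Nonempty κ]
    (B : Module.Basis κ F (G → F)) (D : κ → ℝ)
    (X : Finset A) (g : A → G) (α : A → ℤ) (hg : Set.InjOn g X) (hα : Set.InjOn α X) :
    ∃ (π : A → κ) (f : A → G → F), Set.InjOn π X ∧ ∀ x ∈ X, f x (g x) = 1 ∧
      (∀ h, f x h ≠ 0 → ∃ x' ∈ X, h = g x' ∧ α x' ≤ α x) ∧
      ∀ i, B.repr (f x) i ≠ 0 → D (π x) ≤ D i := by
  obtain ⟨ρ, hρ, hρD⟩ := exists_rank D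
  let form : A → (G → F) → Prop := fun x f => f (g x) = 1 ∧
    ∀ h, f h ≠ 0 → ∃ x' ∈ X, h = g x' ∧ α x' ≤ α x
  let lead : (G → F) → κ → Prop := fun f i => B.repr f i ≠ 0 ∧ ∀ j, B.repr f j ≠ 0 → ρ i ≤ ρ j
  have hlead : ∀ f : G → F, f ≠ 0 → ∃ i, lead f i := by
    intro f hf
    have hne : (Finset.univ.filter fun j => B.repr f j ≠ 0).Nonempty := by
      by_contra hcon
      apply hf
      apply B.repr.injective
      ext j
      by_contra hj
      apply hcon
      exact ⟨j, by simpa using hj⟩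
    obtain ⟨i, hi, hmin⟩ := Finset.exists_min_image _ ρ hne
    exact ⟨i, by simpa using hi, fun j hj => hmin j (by simpa using hj)⟩
  have hform_ne : ∀ x f, form x f → f ≠ 0 := by
    intro x f hf h0
    have := hf.1
    rw [h0] at this
    simp at this
  have hex : ∀ x, ∃ (i : κ) (f : G → F), x ∈ X → form x f ∧ lead f i ∧
      ∀ f' i', form x f' → lead f' i' → ρ i' ≤ ρ i := by
    intro x
    by_cases hx : x ∈ X
    swap
    · exact ⟨Classical.arbitrary κ, 0, fun h => absurd h hx⟩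
    have h0 : form x (Pi.single (g x) 1) := by
      refine ⟨by simp, fun h hh => ⟨x, hx, ?_, le_rfl⟩⟩
      by_contra hne
      exact hh (by simp [hne])
    have hne : (Finset.univ.filter fun i => ∃ f, form x f ∧ lead f i).Nonempty := by
      obtain ⟨i, hi⟩ := hlead _ (hform_ne _ _ h0)
      exact ⟨i, by simpa using ⟨_, h0, hi⟩⟩
    obtain ⟨i, hi, hmax⟩ := Finset.exists_max_image _ ρ hne
    obtain ⟨f, hf1, hf2⟩ : ∃ f, form x f ∧ lead f i := by simpa using hi
    exact ⟨i, f, fun _ => ⟨hf1, hf2, fun f' i' h1 h2 =>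
      hmax i' (by simpa using ⟨f', h1, h2⟩)⟩⟩
  choose π f hπ using hex
  have key : ∀ x ∈ X, ∀ x' ∈ X, α x' < α x → π x ≠ π x' := by
    intro x hx x' hx' hlt heq
    obtain ⟨h1, h2, h3⟩ := hπ x hx
    obtain ⟨h1', h2', -⟩ := hπ x' hx'
    let c : F := B.repr (f x) (π x) / B.repr (f x') (π x')
    have hz : f x' (g x) = 0 := by
      by_contra hne
      obtain ⟨y, hy, hgy, hαy⟩ := h1'.2 _ hne
      have : x = y := hg hx hy hgy
      subst this
      omega
    have hform : form x (f x - c • f x') := by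
      refine ⟨by simp [h1.1, hz], fun h hh => ?_⟩
      by_cases ha : f x h = 0
      · have hb : f x' h ≠ 0 := by
          intro hb
          apply hh
          simp [ha, hb]
        obtain ⟨y, hy, hgy, hαy⟩ := h1'.2 _ hb
        exact ⟨y, hy, hgy, by omega⟩
      · exact h1.2 _ ha
    obtain ⟨i', hi'⟩ := hlead _ (hform_ne _ _ hform)
    have hle : ρ i' ≤ ρ (π x) := h3 _ _ hform hi'
    have hrepr : ∀ j, B.repr (f x - c • f x') j = B.repr (f x) j - c * B.repr (f x') j := by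
      intro j
      simp
    have hge : ρ (π x) ≤ ρ i' := by
      have hi1 := hi'.1
      rw [hrepr] at hi1
      by_cases ha : B.repr (f x) i' = 0
      · have hb : B.repr (f x') i' ≠ 0 := by
          intro hb
          apply hi1
          simp [ha, hb]
        rw [heq]
        exact h2'.2 _ hb
      · exact h2.2 _ ha
    have heq' : i' = π x := hρ (le_antisymm hle hge)
    have hi1 := hi'.1
    rw [hrepr, heq'] at hi1
    apply hi1
    have hne' := h2'.1
    rw [← heq] at hne'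
    simp only [c]
    rw [← heq]
    field_simp
    ring
  refine ⟨π, f, ?_, fun x hx => ⟨(hπ x hx).1.1, (hπ x hx).1.2, fun i hi =>
    hρD _ _ ((hπ x hx).2.1.2 i hi)⟩⟩
  intro x hx x' hx' heq
  rcases lt_trichotomy (α x) (α x') with h | h | h
  · exact absurd heq.symm (key x' hx' x hx h)
  · exact hα hx hx' h
  · exact absurd heq (key x hx x' hx' h)

/-- Trilinear expansion. -/
lemma tri_eq_zero {G F κ : Type*} [Group G] [Fintype G] [Field F] [Fintype κ]
    (B : Module.Basis κ F (G → F)) (f₁ f₂ f₃ : G → F)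
    (h : ∀ i j k, B.repr f₁ i ≠ 0 → B.repr f₂ j ≠ 0 → B.repr f₃ k ≠ 0 →
      Tri (B i) (B j) (B k) = 0) : Tri f₁ f₂ f₃ = 0 := by
  have e : ∀ f : G → F, ∀ x, f x = ∑ i, B.repr f i * B i x := by
    intro f x
    conv_lhs => rw [← B.sum_repr f]
    simp [Finset.sum_apply]
  have : Tri f₁ f₂ f₃ = ∑ i, ∑ j, ∑ k,
      B.repr f₁ i * B.repr f₂ j * B.repr f₃ k * Tri (B i) (B j) (B k) := by
    unfold Tri
    have e2 : ∀ x y : G, f₁ x * f₂ y * f₃ (x * y)⁻¹ = ∑ i, ∑ j, ∑ k,
        B.repr f₁ i * B.repr f₂ j * B.repr f₃ k * (B i x * B j y * B k (x * y)⁻¹) := by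
      intro x y
      rw [e f₁ x, e f₂ y, e f₃ (x * y)⁻¹, Finset.sum_mul_sum, Finset.sum_mul]
      refine Finset.sum_congr rfl fun i _ => ?_
      rw [Finset.sum_mul]
      refine Finset.sum_congr rfl fun j _ => ?_
      rw [Finset.mul_sum]
      refine Finset.sum_congr rfl fun k _ => ?_
      ring
    simp only [e2, Finset.mul_sum]
    calc ∑ x : G, ∑ y : G, ∑ i, ∑ j, ∑ k,
          B.repr f₁ i * B.repr f₂ j * B.repr f₃ k * (B i x * B j y * B k (x * y)⁻¹)
        = ∑ p : G × G, ∑ q : κ × κ × κ, B.repr f₁ q.1 * B.repr f₂ q.2.1 * B.repr f₃ q.2.2 *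
            (B q.1 p.1 * B q.2.1 p.2 * B q.2.2 (p.1 * p.2)⁻¹) := by
          simp only [Fintype.sum_prod_type]
      _ = ∑ q : κ × κ × κ, ∑ p : G × G, B.repr f₁ q.1 * B.repr f₂ q.2.1 * B.repr f₃ q.2.2 *
            (B q.1 p.1 * B q.2.1 p.2 * B q.2.2 (p.1 * p.2)⁻¹) := Finset.sum_comm
      _ = _ := by simp only [Fintype.sum_prod_type]
  rw [this]
  refine Finset.sum_eq_zero fun i _ => Finset.sum_eq_zero fun j _ =>
    Finset.sum_eq_zero fun k _ => ?_
  by_cases h1 : B.repr f₁ i = 0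
  · simp [h1]
  by_cases h2 : B.repr f₂ j = 0
  · simp [h2]
  by_cases h3 : B.repr f₃ k = 0
  · simp [h3]
  rw [h i j k h1 h2 h3, mul_zero]

/-- Index set of one side. -/
noncomputable def side {G ι : Type} [Fintype G] [Fintype ι] (S T U : ι → Finset G) :
    Finset (ι × G × G) :=
  Finset.univ.filter fun p => p.2.1 ∈ S p.1 ∧ p.2.2 ∈ T p.1 ∧ (U p.1).Nonempty

lemma mem_side {G ι : Type} [Fintype G] [Fintype ι] {S T U : ι → Finset G} {p : ι × G × G} :
    p ∈ side S T U ↔ p.2.1 ∈ S p.1 ∧ p.2.2 ∈ T p.1 ∧ (U p.1).Nonempty := by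
  simp [side]

/-- Triangle form of the simultaneous triple product property. -/
def TP {G ι : Type} [Group G] (S T U : ι → Finset G) : Prop :=
  ∀ i j k, ∀ s ∈ S i, ∀ s' ∈ S j, ∀ t ∈ T j, ∀ t' ∈ T k, ∀ u ∈ U k, ∀ u' ∈ U i,
    s' * t⁻¹ * (t' * u⁻¹) * (u' * s⁻¹) = 1 → i = j ∧ j = k ∧ s = s' ∧ t = t' ∧ u = u'

lemma TP.cyc {G ι : Type} [Group G] {S T U : ι → Finset G} (h : TP S T U) : TP T U S := by
  intro i j k t ht t' ht' u hu u' hu' s hs s' hs' e
  have e' : s' * t⁻¹ * (t' * u⁻¹) * (u' * s⁻¹) = 1 := by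
    have : s' * t⁻¹ * (t' * u⁻¹) * (u' * s⁻¹)
        = (s' * t⁻¹) * (t' * u⁻¹ * (u' * s⁻¹) * (s' * t⁻¹)) * (s' * t⁻¹)⁻¹ := by group
    rw [this, e]; group
  obtain ⟨h1, h2, h3, h4, h5⟩ := h k i j s hs s' hs' t ht t' ht' u hu u' hu' e'
  exact ⟨h2, by rw [← h2, h1], h4, h5, h3⟩

lemma TP.injOn {G ι : Type} [Group G] [Fintype G] [Fintype ι] {S T U : ι → Finset G}
    (h : TP S T U) : Set.InjOn (fun p : ι × G × G => p.2.1 * p.2.2⁻¹) (side S T U) := by
  rintro ⟨j, s', t⟩ hp ⟨i, s, t'⟩ hq e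
  obtain ⟨hs', ht, -⟩ := mem_side.1 hp
  obtain ⟨hs, ht', u, hu⟩ := mem_side.1 hq
  simp only at hs' ht hs ht' hu e
  have e' : s' * t⁻¹ * (t' * u⁻¹) * (u * s⁻¹) = 1 := by
    rw [e]; group
  obtain ⟨h1, -, h3, h4, -⟩ := h i j i s hs s' hs' t ht t' ht' u hu u hu e'
  rw [h1, h3, h4]

lemma label_inj {a a' b b' M : ℤ} (h : |a - a'| < M) (e : a - M * b = a' - M * b') :
    a = a' ∧ b = b' := by
  have h1 : a - a' = M * (b - b') := by linarith
  have hM : 0 < M := lt_of_le_of_lt (abs_nonneg _) h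
  have h2 : a - a' = 0 := Int.eq_zero_of_abs_lt_dvd ⟨_, h1⟩ h
  refine ⟨by linarith, ?_⟩
  rw [h2] at h1
  rcases mul_eq_zero.1 h1.symm with h3 | h3
  · omega
  · linarith

lemma exp_sum_lower {A : Type*} (s : Finset A) (hs : s.Nonempty) (d : A → ℝ) (M : ℝ)
    (hM : 0 < M) :
    M * (1 - (∑ a ∈ s, d a) / s.card - Real.log M + Real.log s.card)
      ≤ ∑ a ∈ s, Real.exp (-d a) := by
  have hc : (0 : ℝ) < s.card := by exact_mod_cast hs.card_pos
  have h1 : ∀ a ∈ s, M / s.card * (1 - d a - Real.log M + Real.log s.card)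
      ≤ Real.exp (-d a) := by
    intro a _
    have e : Real.exp (-d a)
        = M / s.card * Real.exp (-d a - Real.log M + Real.log s.card) := by
      rw [Real.exp_add, Real.exp_sub, Real.exp_log hM, Real.exp_log hc]
      field_simp
    rw [e]
    refine mul_le_mul_of_nonneg_left ?_ (by positivity)
    have := Real.add_one_le_exp (-d a - Real.log M + Real.log s.card)
    linarith
  refine le_trans (le_of_eq ?_) (Finset.sum_le_sum h1)
  rw [← Finset.mul_sum]
  simp only [Finset.sum_add_distrib, Finset.sum_sub_distrib, Finset.sum_const, nsmul_eq_mul,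
    mul_one]
  field_simp

/-- The averaging step for one block. -/
lemma block_bound {A : Type*} (S T U : Finset A) (d₁ d₂ d₃ : A → A → ℝ)
    (hS : S.Nonempty) (hT : T.Nonempty) (hU : U.Nonempty)
    (h : ∀ s ∈ S, ∀ t ∈ T, ∀ u ∈ U, d₁ s t + d₂ t u + d₃ u s ≤ 0) :
    3 * ((S.card * T.card * U.card : ℕ) : ℝ) ^ ((2 : ℝ) / 3)
      ≤ ∑ p ∈ S ×ˢ T, Real.exp (-d₁ p.1 p.2) + ∑ p ∈ T ×ˢ U, Real.exp (-d₂ p.1 p.2)
        + ∑ p ∈ U ×ˢ S, Real.exp (-d₃ p.1 p.2) := by
  have ha : (0 : ℝ) < S.card := by exact_mod_cast hS.card_pos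
  have hb : (0 : ℝ) < T.card := by exact_mod_cast hT.card_pos
  have hc : (0 : ℝ) < U.card := by exact_mod_cast hU.card_pos
  set M : ℝ := ((S.card * T.card * U.card : ℕ) : ℝ) ^ ((2 : ℝ) / 3) with hMdef
  have habc : (0 : ℝ) < ((S.card * T.card * U.card : ℕ) : ℝ) := by push_cast; positivity
  have hM : 0 < M := Real.rpow_pos_of_pos habc _
  have hlog : 3 * Real.log M
      = 2 * (Real.log S.card + Real.log T.card + Real.log U.card) := by
    rw [hMdef, Real.log_rpow habc]
    push_cast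
    rw [Real.log_mul (by positivity) hc.ne', Real.log_mul ha.ne' hb.ne']
    ring
  have h1 := exp_sum_lower (S ×ˢ T) (hS.product hT) (fun p => d₁ p.1 p.2) M hM
  have h2 := exp_sum_lower (T ×ˢ U) (hT.product hU) (fun p => d₂ p.1 p.2) M hM
  have h3 := exp_sum_lower (U ×ˢ S) (hU.product hS) (fun p => d₃ p.1 p.2) M hM
  rw [Finset.card_product] at h1 h2 h3
  push_cast at h1 h2 h3
  rw [Real.log_mul ha.ne' hb.ne'] at h1
  rw [Real.log_mul hb.ne' hc.ne'] at h2
  rw [Real.log_mul hc.ne' ha.ne'] at h3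
  have hsum : ∑ s ∈ S, ∑ t ∈ T, ∑ u ∈ U, (d₁ s t + d₂ t u + d₃ u s) ≤ 0 :=
    Finset.sum_nonpos fun s hs => Finset.sum_nonpos fun t ht =>
      Finset.sum_nonpos fun u hu => h s hs t ht u hu
  have e : ∑ s ∈ S, ∑ t ∈ T, ∑ u ∈ U, (d₁ s t + d₂ t u + d₃ u s)
      = U.card * ∑ p ∈ S ×ˢ T, d₁ p.1 p.2 + S.card * ∑ p ∈ T ×ˢ U, d₂ p.1 p.2
        + T.card * ∑ p ∈ U ×ˢ S, d₃ p.1 p.2 := by
    simp only [Finset.sum_add_distrib, Finset.sum_const, nsmul_eq_mul, Finset.sum_product,
      Finset.mul_sum]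
    congr 1
    rw [Finset.sum_comm (s := U) (t := S)]
  rw [e] at hsum
  set A₁ := ∑ p ∈ S ×ˢ T, d₁ p.1 p.2
  set A₂ := ∑ p ∈ T ×ˢ U, d₂ p.1 p.2
  set A₃ := ∑ p ∈ U ×ˢ S, d₃ p.1 p.2
  have havg : A₁ / (S.card * T.card) + A₂ / (T.card * U.card) + A₃ / (U.card * S.card) ≤ 0 := by
    have : A₁ / (S.card * T.card) + A₂ / (T.card * U.card) + A₃ / (U.card * S.card)
        = (U.card * A₁ + S.card * A₂ + T.card * A₃) / (S.card * T.card * U.card) := by
      field_simp
    rw [this]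
    exact div_nonpos_of_nonpos_of_nonneg hsum (by positivity)
  have hfin : 3 * M ≤ M * (1 - A₁ / (S.card * T.card) - Real.log M
        + (Real.log S.card + Real.log T.card))
      + M * (1 - A₂ / (T.card * U.card) - Real.log M + (Real.log T.card + Real.log U.card))
      + M * (1 - A₃ / (U.card * S.card) - Real.log M
        + (Real.log U.card + Real.log S.card)) := by
    rw [← mul_add, ← mul_add, mul_comm 3 M]
    refine mul_le_mul_of_nonneg_left ?_ hM.le
    linarith
  linarith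

lemma side_sum_le {G ι κ : Type} [Fintype G] [Fintype ι] [Fintype κ] (S T U : ι → Finset G)
    (π : ι × G × G → κ) (hπ : Set.InjOn π (side S T U)) (D : κ → ℝ) :
    ∑ l, (if (U l).Nonempty then ∑ p ∈ S l ×ˢ T l, Real.exp (-D (π (l, p.1, p.2))) else 0)
      ≤ ∑ i, Real.exp (-D i) := by
  have e : ∑ l, (if (U l).Nonempty then ∑ p ∈ S l ×ˢ T l, Real.exp (-D (π (l, p.1, p.2))) else 0)
      = ∑ p ∈ side S T U, Real.exp (-D (π p)) := by
    unfold side
    rw [Finset.sum_filter, Fintype.sum_prod_type]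
    refine Finset.sum_congr rfl fun l _ => ?_
    by_cases hU : (U l).Nonempty
    · simp only [hU, if_true, and_true]
      rw [← Finset.sum_filter]
      refine Finset.sum_congr ?_ fun p _ => rfl
      ext p
      simp
    · simp [hU]
  rw [e, ← Finset.sum_image (f := fun i => Real.exp (-D i)) hπ]
  exact Finset.sum_le_sum_of_subset_of_nonneg (Finset.subset_univ _)
    fun i _ _ => (Real.exp_pos _).le

theorem Filt.stpp {G : Type} [Group G] [Fintype G] {Z : ℝ} (h : Filt G Z)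
    {ι : Type} [Fintype ι] (S T U : ι → Finset G)
    (hstpp : ∀ i j k, ∀ s ∈ S i, ∀ s' ∈ S j, ∀ t ∈ T j, ∀ t' ∈ T k, ∀ u ∈ U k, ∀ u' ∈ U i,
      s⁻¹ * s' * t⁻¹ * t' * u⁻¹ * u' = 1 → i = j ∧ j = k ∧ s = s' ∧ t = t' ∧ u = u') :
    ∑ i, (((S i).card * (T i).card * (U i).card : ℕ) : ℝ) ^ ((2 : ℝ) / 3) ≤ Z := by
  obtain ⟨κ, hκ, b, D, hcard, hli, htri, hZ⟩ := h
  have hne : Nonempty κ := Fintype.card_pos_iff.1 (by rw [hcard]; exact Fintype.card_pos)
  let B : Module.Basis κ (ZMod 2) (G → ZMod 2) :=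
    basisOfLinearIndependentOfCardEqFinrank hli (by simp [hcard])
  have hB : ∀ i, B i = b i := fun i => by simp [B]
  have hTP : TP S T U := by
    intro i j k s hs s' hs' t ht t' ht' u hu u' hu' e
    refine hstpp i j k s hs s' hs' t ht t' ht' u hu u' hu' ?_
    have : s⁻¹ * s' * t⁻¹ * t' * u⁻¹ * u'
        = s⁻¹ * (s' * t⁻¹ * (t' * u⁻¹) * (u' * s⁻¹)) * s := by group
    rw [this, e]; group
  -- integer labels
  let K : ℤ := Fintype.card (ι × G)
  let e : ι × G → ℤ := fun p => ((Fintype.equivFin (ι × G) p : ℕ) : ℤ)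
  have he0 : ∀ p, 0 ≤ e p := fun p => Int.natCast_nonneg _
  have heK : ∀ p, e p < K := fun p => by
    simp only [e, K]
    exact_mod_cast (Fintype.equivFin (ι × G) p).2
  have heinj : ∀ p q, e p = e q → p = q := fun p q hpq => by
    simp only [e] at hpq
    exact (Fintype.equivFin (ι × G)).injective (Fin.ext (by exact_mod_cast hpq))
  have heabs : ∀ p q, |e p - e q| < K := fun p q => by
    rw [abs_lt]
    constructor <;> linarith [he0 p, he0 q, heK p, heK q]
  let α : ι × G × G → ℤ := fun p => e (p.1, p.2.1) - K * e (p.1, p.2.2)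
  let β : ι × G × G → ℤ := fun p => K * (e (p.1, p.2.1) - K * e (p.1, p.2.2))
  let γ : ι × G × G → ℤ := fun p => -(e (p.1, p.2.2) - K * (K * e (p.1, p.2.1)))
  have hαinj : Function.Injective α := by
    rintro ⟨i, s, t⟩ ⟨j, s', t'⟩ hpq
    obtain ⟨h1, h2⟩ := label_inj (heabs _ _) hpq
    have h3 := heinj _ _ h1
    have h4 := heinj _ _ h2
    simp only [Prod.mk.injEq] at h3 h4 ⊢
    exact ⟨h3.1, h3.2, h4.2⟩
  have hβinj : Function.Injective β := by
    intro p q hpq
    have hK : 0 < K := lt_of_le_of_lt (he0 (p.1, p.2.1)) (heK _)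
    exact hαinj (mul_left_cancel₀ hK.ne' hpq)
  have hγinj : Function.Injective γ := by
    rintro ⟨i, s, t⟩ ⟨j, s', t'⟩ hpq
    have hK : 0 < K := lt_of_le_of_lt (he0 (i, s)) (heK _)
    obtain ⟨h1, h2⟩ := label_inj (heabs _ _) (neg_injective hpq)
    have h3 := heinj _ _ h1
    have h4 := heinj _ _ (mul_left_cancel₀ hK.ne' h2)
    simp only [Prod.mk.injEq] at h3 h4 ⊢
    exact ⟨h3.1, h4.2, h3.2⟩
  let g : ι × G × G → G := fun p => p.2.1 * p.2.2⁻¹
  obtain ⟨π₁, f₁, hπ₁, hf₁⟩ := bruhat B D (side S T U) g α hTP.injOn hαinj.injOn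
  obtain ⟨π₂, f₂, hπ₂, hf₂⟩ := bruhat B D (side T U S) g β hTP.cyc.injOn hβinj.injOn
  obtain ⟨π₃, f₃, hπ₃, hf₃⟩ := bruhat B D (side U S T) g γ hTP.cyc.cyc.injOn hγinj.injOn
  have hlab : ∀ x ∈ side S T U, ∀ y ∈ side T U S, ∀ z ∈ side U S T,
      g x * g y * g z = 1 → α x + β y + γ z = 0 := by
    rintro ⟨j, s', t⟩ hx ⟨k, t', u⟩ hy ⟨i, u', s⟩ hz hxyz
    obtain ⟨hs', ht, -⟩ := mem_side.1 hx
    obtain ⟨ht', hu, -⟩ := mem_side.1 hy
    obtain ⟨hu', hs, -⟩ := mem_side.1 hz
    obtain ⟨h1, h2, h3, h4, h5⟩ := hTP i j k s hs s' hs' t ht t' ht' u hu u' hu' hxyz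
    subst h1 h2 h3 h4 h5
    simp only [α, β, γ]
    ring
  have htriangle : ∀ x ∈ side S T U, ∀ y ∈ side T U S, ∀ z ∈ side U S T,
      g x * g y * g z = 1 → D (π₁ x) + D (π₂ y) + D (π₃ z) ≤ 0 := by
    intro x hx y hy z hz hxyz
    by_contra hcon
    push Not at hcon
    obtain ⟨a1, a2, a3⟩ := hf₁ x hx
    obtain ⟨b1, b2, b3⟩ := hf₂ y hy
    obtain ⟨c1, c2, c3⟩ := hf₃ z hz
    have h0 : Tri (f₁ x) (f₂ y) (f₃ z) = 0 := by
      refine tri_eq_zero B _ _ _ fun i j k hi hj hk => ?_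
      rw [hB, hB, hB]
      exact htri i j k (by linarith [a3 i hi, b3 j hj, c3 k hk])
    have hterm : ∀ p q : G, f₁ x p * f₂ y q * f₃ z (p * q)⁻¹ ≠ 0 → p = g x ∧ q = g y := by
      intro p q hpq
      have hp : f₁ x p ≠ 0 := fun h => hpq (by simp [h])
      have hq : f₂ y q ≠ 0 := fun h => hpq (by simp [h])
      have hr : f₃ z (p * q)⁻¹ ≠ 0 := fun h => hpq (by rw [h, mul_zero])
      obtain ⟨x', hx', ex, lx⟩ := a2 _ hp
      obtain ⟨y', hy', ey, ly⟩ := b2 _ hq
      obtain ⟨z', hz', ez, lz⟩ := c2 _ hr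
      have h1 := hlab x hx y hy z hz hxyz
      have h2 := hlab x' hx' y' hy' z' hz' (by rw [← ex, ← ey, ← ez]; group)
      have h3 : x' = x := hαinj (by omega)
      have h4 : y' = y := hβinj (by omega)
      rw [ex, ey, h3, h4]
      exact ⟨rfl, rfl⟩
    have h1 : Tri (f₁ x) (f₂ y) (f₃ z) = 1 := by
      unfold Tri
      rw [Finset.sum_eq_single (g x), Finset.sum_eq_single (g y)]
      · have : (g x * g y)⁻¹ = g z := inv_eq_of_mul_eq_one_right hxyz
        rw [this, a1, b1, c1]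
        simp
      · intro q _ hq
        by_contra hc
        exact hq (hterm _ _ hc).2
      · simp
      · intro p _ hp
        refine Finset.sum_eq_zero fun q _ => ?_
        by_contra hc
        exact hp (hterm _ _ hc).1
      · simp
    rw [h0] at h1
    exact zero_ne_one h1
  have s1 := side_sum_le S T U π₁ hπ₁ D
  have s2 := side_sum_le T U S π₂ hπ₂ D
  have s3 := side_sum_le U S T π₃ hπ₃ D
  have hblock : ∀ l, 3 * (((S l).card * (T l).card * (U l).card : ℕ) : ℝ) ^ ((2 : ℝ) / 3)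
      ≤ (if (U l).Nonempty then ∑ p ∈ S l ×ˢ T l, Real.exp (-D (π₁ (l, p.1, p.2))) else 0)
        + (if (S l).Nonempty then ∑ p ∈ T l ×ˢ U l, Real.exp (-D (π₂ (l, p.1, p.2))) else 0)
        + (if (T l).Nonempty then ∑ p ∈ U l ×ˢ S l, Real.exp (-D (π₃ (l, p.1, p.2))) else 0) := by
    intro l
    by_cases hall : (S l).Nonempty ∧ (T l).Nonempty ∧ (U l).Nonempty
    · obtain ⟨hS, hT, hU⟩ := hall
      rw [if_pos hS, if_pos hT, if_pos hU]
      refine block_bound (S l) (T l) (U l) (fun s t => D (π₁ (l, s, t)))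
        (fun t u => D (π₂ (l, t, u))) (fun u s => D (π₃ (l, u, s))) hS hT hU ?_
      intro s hs t ht u hu
      refine htriangle _ (mem_side.2 ⟨hs, ht, hU⟩) _ (mem_side.2 ⟨ht, hu, hS⟩) _
        (mem_side.2 ⟨hu, hs, hT⟩) ?_
      simp only [g]
      group
    · have h0 : (S l).card * (T l).card * (U l).card = 0 := by
        by_contra hc
        apply hall
        have h1 : (S l).card ≠ 0 := fun h => hc (by simp [h])
        have h2 : (T l).card ≠ 0 := fun h => hc (by simp [h])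
        have h3 : (U l).card ≠ 0 := fun h => hc (by simp [h])
        exact ⟨Finset.card_ne_zero.1 h1, Finset.card_ne_zero.1 h2, Finset.card_ne_zero.1 h3⟩
      rw [h0, Nat.cast_zero, Real.zero_rpow (by norm_num), mul_zero]
      have hnn : ∀ (c : Prop) [Decidable c] (s : Finset (G × G)) (F : G × G → ℝ),
          0 ≤ (if c then ∑ p ∈ s, Real.exp (F p) else 0) := by
        intro c _ s F
        split_ifs
        · exact Finset.sum_nonneg fun p _ => (Real.exp_pos _).le
        · exact le_rfl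
      exact add_nonneg (add_nonneg (hnn _ _ _) (hnn _ _ _)) (hnn _ _ _)
  have hsum := Finset.sum_le_sum fun l (_ : l ∈ Finset.univ) => hblock l
  rw [← Finset.mul_sum, Finset.sum_add_distrib, Finset.sum_add_distrib] at hsum
  linarith

end Pool.Agent.P.MP_e72dc0_lc.Sn
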