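import Pool.Agent.P.MP_e72dc0_lc.Sn.HeckeMain
import Pool.Agent.P.MP_e72dc0_lc.Sn.Boot
import Pool.Agent.P.MP_e72dc0_lc.Sn.Stpp
import Pool.Agent.P.MP_e72dc0_lc.Sn.Classes

/-! Assembly. -/

namespace Pool.Agent.P.MP_e72dc0_lc.Sn

open Finset
open scoped Classical

theorem filt_perm : ∃ c : ℝ, 0 < c ∧ ∃ n₀ : ℕ, ∀ n : ℕ, n₀ ≤ n →
    Filt (Equiv.Perm (Fin n)) (n.factorial * Real.exp (-(c * Real.sqrt n))) := by
  obtain ⟨c, hc, n₀, h⟩ := analytic
  refine ⟨c, hc, n₀, fun n hn => ?_⟩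
  obtain ⟨θ, hθ, hsum⟩ := h n hn
  obtain ⟨b, hb, hz⟩ := basisB n
  refine ⟨pairs n, inferInstance, fun i x => (b i).coeff x, fun i => θ * D6 n i, ?_, ?_, ?_, ?_⟩
  · rw [Fintype.card_coe, card_pairs, Fintype.card_perm, Fintype.card_fin]
  · let L : MonoidAlgebra (ZMod 2) (Equiv.Perm (Fin n)) ≃ₗ[ZMod 2]
        (Equiv.Perm (Fin n) → ZMod 2) :=
      (MonoidAlgebra.coeffLinearEquiv (ZMod 2)).trans
        (Finsupp.linearEquivFunOnFinite (ZMod 2) (ZMod 2) _)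
    exact hb.map' L.toLinearMap L.ker
  · intro i j k hpos
    rw [← tri_monoidAlgebra]
    apply hz
    rw [← mul_add, ← mul_add] at hpos
    have := (mul_pos_iff_of_pos_left hθ).1 hpos
    exact_mod_cast this
  · rw [sum_coe_sort (pairs n) (fun p => Real.exp (-(θ * D6 n p)))]
    exact hsum

lemma sum_rpow_le_rpow_sum {ι : Type} [Fintype ι] (x : ι → ℝ) (hx : ∀ i, 0 ≤ x i) {p : ℝ}
    (hp : 1 ≤ p) : ∑ i, x i ^ p ≤ (∑ i, x i) ^ p := by
  have hS : 0 ≤ ∑ i, x i := sum_nonneg fun i _ => hx i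
  have h1 : ∀ y : ℝ, 0 ≤ y → y ^ p = y * y ^ (p - 1) := by
    intro y hy
    have := Real.rpow_one_add' hy (y := p - 1) (by linarith)
    rwa [add_sub_cancel] at this
  rw [h1 _ hS, sum_mul]
  refine sum_le_sum fun i _ => ?_
  rw [h1 _ (hx i)]
  refine mul_le_mul_of_nonneg_left ?_ (hx i)
  exact Real.rpow_le_rpow (hx i) (single_le_sum (fun j _ => hx j) (mem_univ i)) (by linarith)

theorem barrier : ∃ c : ℝ, 0 < c ∧ ∃ ε : ℝ, 0 < ε ∧ ∃ n₀ : ℕ,
    ∀ (m : ℕ) (n : Fin m → ℕ), (∀ i, n₀ ≤ n i) →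
    ∀ H : Subgroup (∀ i, Equiv.Perm (Fin (n i))),
      (H.index : ℝ) ≤ Real.exp (c * ∑ i, Real.sqrt (n i)) →
    ∀ (ι : Type) [Fintype ι] (S T U : ι → Finset H),
      (∀ i j k, ∀ s ∈ S i, ∀ s' ∈ S j, ∀ t ∈ T j, ∀ t' ∈ T k, ∀ u ∈ U k, ∀ u' ∈ U i,
        s⁻¹ * s' * t⁻¹ * t' * u⁻¹ * u' = 1 → i = j ∧ j = k ∧ s = s' ∧ t = t' ∧ u = u') →
    ∀ (κ : Type) [Fintype κ] (d : κ → ℕ),
      Nonempty (MonoidAlgebra ℂ H ≃ₐ[ℂ] ∀ k, Matrix (Fin (d k)) (Fin (d k)) ℂ) →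
    ∀ w : ℝ, 2 ≤ w → w ≤ 2 + ε →
      ∑ i, (((S i).card * (T i).card * (U i).card : ℕ) : ℝ) ^ (w / 3)
        ≤ Real.exp (-(c * ∑ i, Real.sqrt (n i))) * ∑ k, (d k : ℝ) ^ w := by
  obtain ⟨c₀, hc₀, n₀, hfilt⟩ := filt_perm
  refine ⟨c₀ / 3, by positivity, 2 * (c₀ / 3) / (c₀ / 3 + 10), by positivity, n₀, ?_⟩
  intro m n hn H hH ι _ S T U hstpp κ _ d ⟨e⟩ w hw hw'
  set c := c₀ / 3 with hcdef
  have hc : 0 < c := by positivity
  set N := ∑ i, Real.sqrt (n i) with hN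
  have hN0 : 0 ≤ N := sum_nonneg fun i _ => Real.sqrt_nonneg _
  have hF := Filt.pi (fun i => Equiv.Perm (Fin (n i))) _ (fun i => hfilt (n i) (hn i))
  let emb : H ↪ (∀ i, Equiv.Perm (Fin (n i))) := ⟨Subtype.val, Subtype.val_injective⟩
  have h1 := hF.stpp (fun i => (S i).map emb) (fun i => (T i).map emb) (fun i => (U i).map emb) (by
    intro i j k s hs s' hs' t ht t' ht' u hu u' hu' h
    obtain ⟨s1, hs1, rfl⟩ := mem_map.1 hs
    obtain ⟨s2, hs2, rfl⟩ := mem_map.1 hs'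
    obtain ⟨t1, ht1, rfl⟩ := mem_map.1 ht
    obtain ⟨t2, ht2, rfl⟩ := mem_map.1 ht'
    obtain ⟨u1, hu1, rfl⟩ := mem_map.1 hu
    obtain ⟨u2, hu2, rfl⟩ := mem_map.1 hu'
    obtain ⟨a1, a2, a3, a4, a5⟩ := hstpp i j k s1 hs1 s2 hs2 t1 ht1 t2 ht2 u1 hu1 u2 hu2
      (Subtype.ext h)
    exact ⟨a1, a2, by rw [a3], by rw [a4], by rw [a5]⟩)
  simp only [card_map] at h1
  have hG : (Nat.card (∀ i, Equiv.Perm (Fin (n i))) : ℝ) = ∏ i, ((n i).factorial : ℝ) := by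
    rw [Nat.card_pi]
    push_cast
    refine prod_congr rfl fun i _ => ?_
    rw [Nat.card_eq_fintype_card, Fintype.card_perm, Fintype.card_fin]
  have hHpos : (0 : ℝ) < Nat.card H := by exact_mod_cast Nat.card_pos
  have hZ : ∏ i, ((n i).factorial * Real.exp (-(c₀ * Real.sqrt (n i))) : ℝ)
      ≤ Nat.card H * Real.exp (-(2 * c * N)) := by
    rw [prod_mul_distrib, ← hG, ← Real.exp_sum, sum_neg_distrib, ← mul_sum, ← hN,
      ← H.card_mul_index]
    push_cast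
    rw [mul_assoc]
    refine mul_le_mul_of_nonneg_left ?_ hHpos.le
    calc (H.index : ℝ) * Real.exp (-(c₀ * N))
        ≤ Real.exp (c * N) * Real.exp (-(c₀ * N)) :=
          mul_le_mul_of_nonneg_right hH (Real.exp_pos _).le
      _ = _ := by
          rw [← Real.exp_add]; congr 1; rw [hcdef]; ring
  have hK : (Nat.card (ConjClasses H) : ℝ) ≤ Real.exp ((c + 10) * N) := by
    have k1 : (Nat.card (ConjClasses H) : ℝ)
        ≤ H.index * Nat.card (ConjClasses (∀ i, Equiv.Perm (Fin (n i)))) := by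
      exact_mod_cast card_conjClasses_subgroup H
    have k2 : (Nat.card (ConjClasses (∀ i, Equiv.Perm (Fin (n i)))) : ℝ)
        ≤ ∏ i, (Nat.card (ConjClasses (Equiv.Perm (Fin (n i)))) : ℝ) := by
      exact_mod_cast card_conjClasses_pi (fun i => Equiv.Perm (Fin (n i)))
    have k3 : ∏ i, (Nat.card (ConjClasses (Equiv.Perm (Fin (n i)))) : ℝ) ≤ Real.exp (10 * N) := by
      rw [hN, mul_sum, Real.exp_sum]
      exact prod_le_prod (fun i _ => Nat.cast_nonneg _) fun i _ => card_conjClasses_perm (n i)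
    calc _ ≤ _ := k1
      _ ≤ Real.exp (c * N) * Real.exp (10 * N) :=
          mul_le_mul hH (k2.trans k3) (Nat.cast_nonneg _) (Real.exp_pos _).le
      _ = _ := by rw [← Real.exp_add]; congr 1; ring
  have hK' : (Nat.card (ConjClasses H) : ℝ) ^ ((w - 2) / 2) ≤ Real.exp (c * N) := by
    refine (Real.rpow_le_rpow (Nat.cast_nonneg _) hK (by linarith)).trans ?_
    rw [← Real.exp_mul, Real.exp_le_exp]
    have h2 : (w - 2) / 2 * (c + 10) ≤ c := by
      have h3 : w - 2 ≤ 2 * c / (c + 10) := by linarith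
      rw [le_div_iff₀ (by positivity)] at h3
      linarith
    nlinarith
  have hD : 0 ≤ ∑ k, (d k : ℝ) ^ w := sum_nonneg fun k _ => by positivity
  calc ∑ i, (((S i).card * (T i).card * (U i).card : ℕ) : ℝ) ^ (w / 3)
      = ∑ i, ((((S i).card * (T i).card * (U i).card : ℕ) : ℝ) ^ ((2 : ℝ) / 3)) ^ (w / 2) := by
        refine sum_congr rfl fun i _ => ?_
        rw [← Real.rpow_mul (Nat.cast_nonneg _)]
        congr 1; ring
    _ ≤ (∑ i, (((S i).card * (T i).card * (U i).card : ℕ) : ℝ) ^ ((2 : ℝ) / 3)) ^ (w / 2) :=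
        sum_rpow_le_rpow_sum _ (fun i => by positivity) (by linarith)
    _ ≤ (Nat.card H * Real.exp (-(2 * c * N))) ^ (w / 2) :=
        Real.rpow_le_rpow (sum_nonneg fun i _ => by positivity) (h1.trans hZ) (by linarith)
    _ = (Nat.card H : ℝ) ^ (w / 2) * Real.exp (-(2 * c * N) * (w / 2)) := by
        rw [Real.mul_rpow hHpos.le (Real.exp_pos _).le, ← Real.exp_mul]
    _ ≤ (Real.exp (c * N) * ∑ k, (d k : ℝ) ^ w) * Real.exp (-(2 * c * N)) := by
        refine mul_le_mul ((degrees_lower d e w hw).trans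
          (mul_le_mul_of_nonneg_right hK' hD)) ?_ (Real.exp_pos _).le (by positivity)
        rw [Real.exp_le_exp]
        have : 0 ≤ c * N := by positivity
        nlinarith
    _ = _ := by
        rw [mul_right_comm, ← Real.exp_add]
        congr 2; ring

end Pool.Agent.P.MP_e72dc0_lc.Sn
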