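import Pool.Agent.P.MP_e72dc0_lc.Sn.Basic

/-! Module C: the deformed up/down commutation relation on Young's lattice. -/

namespace Pool.Agent.P.MP_e72dc0_lc.Sn

open Finset
open scoped Classical

/-- Shapes with `k` boxes. -/
noncomputable def shapes (k : ℕ) : Finset (Multiset ℤ) := (Std k).image fun t => st t k

/-- Weighted number of standard tableaux of shape `μ`. -/
noncomputable def U (φ : ℝ) (k : ℕ) (μ : Multiset ℤ) : ℝ :=
  ∑ t ∈ (Std k).filter (fun t => st t k = μ), Real.exp (φ * ee t k)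

noncomputable def Hq (φ : ℝ) (d : ℤ) : ℝ := Real.cosh ((4 * d - 1) * φ) / Real.cosh φ

/-- The undeformed up operator. -/
noncomputable def upOp (y : Multiset ℤ → ℝ) (ν : Multiset ℤ) : ℝ := ∑ b ∈ rem ν, y (ν.erase b)

namespace Fock

lemma hh_cons_self (μ : Multiset ℤ) (c : ℤ) : hh (c ::ₘ μ) c = hh μ c - 2 := by
  rw [hh_cons]; split_ifs <;> omega

lemma edge_iff (μ ν : Multiset ℤ) (c : ℤ) :
    (hh μ c = 1 ∧ c ::ₘ μ = ν) ↔ (hh ν c = -1 ∧ μ = ν.erase c) := by
  constructor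
  · rintro ⟨h, rfl⟩
    exact ⟨by rw [hh_cons_self]; omega, (Multiset.erase_cons_head _ _).symm⟩
  · rintro ⟨h, rfl⟩
    have e : c ::ₘ ν.erase c = ν := Multiset.cons_erase (mem_of_hh_neg (by omega))
    refine ⟨?_, e⟩
    rw [← e, hh_cons_self] at h
    omega

lemma cons_erase_of_rem {ν : Multiset ℤ} {b : ℤ} (h : b ∈ rem ν) : b ::ₘ ν.erase b = ν :=
  Multiset.cons_erase (mem_of_hh_neg (by rw [mem_rem.1 h]; omega))

lemma valid_erase {ν : Multiset ℤ} (hν : Valid ν) {b : ℤ} (h : b ∈ rem ν) :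
    Valid (ν.erase b) ∧ hh (ν.erase b) b = 1 := by
  have e := cons_erase_of_rem h
  refine Valid.of_cons (by rwa [e]) ?_
  rw [e]; exact mem_rem.1 h

lemma exists_rem {μ : Multiset ℤ} (hμ : Valid μ) (h0 : μ ≠ 0) : ∃ b, hh μ b = -1 := by
  have hne : μ.toFinset.Nonempty := Multiset.toFinset_nonempty.2 h0
  obtain ⟨M, hM, hM'⟩ := μ.toFinset.exists_max_image id hne
  obtain ⟨m, hm, hm'⟩ := μ.toFinset.exists_min_image id hne
  rw [Multiset.mem_toFinset] at hM hm
  have c1 : μ.count (M + 1) = 0 := Multiset.count_eq_zero.2 fun h => by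
    have := hM' _ (Multiset.mem_toFinset.2 h)
    simp at this
  have c2 : μ.count (m - 1) = 0 := Multiset.count_eq_zero.2 fun h => by
    have := hm' _ (Multiset.mem_toFinset.2 h)
    simp at this
  have c3 : 0 < μ.count M := Multiset.count_pos.2 hM
  have c4 : 0 < μ.count m := Multiset.count_pos.2 hm
  have e1 : eta μ M = 1 := by
    have := hμ M
    unfold eta at this ⊢
    split_ifs at this ⊢ <;> omega
  have e2 : eta μ (m - 1) = 0 := by
    have := hμ (m - 1)
    unfold eta at this ⊢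
    rw [sub_add_cancel] at this ⊢
    split_ifs at this ⊢ <;> omega
  have hle : m ≤ M := hM' _ (Multiset.mem_toFinset.2 hm)
  by_contra hn
  push Not at hn
  have key : ∀ j : ℕ, eta μ (m - 1 + j) = 0 := by
    intro j
    induction j with
    | zero => simpa using e2
    | succ j ih =>
      have h1 := hn (m - 1 + (j + 1 : ℕ))
      rw [Ne, hμ.hh_eq_neg_one] at h1
      have e : m - 1 + ((j + 1 : ℕ) : ℤ) - 1 = m - 1 + j := by push_cast; ring
      rw [e] at h1
      rcases hμ (m - 1 + (j + 1 : ℕ)) with h | h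
      · exact h
      · exact absurd ⟨ih, h⟩ h1
  have := key (M - m + 1).toNat
  rw [show m - 1 + ((M - m + 1).toNat : ℤ) = M by omega] at this
  omega

lemma st_update_succ (t : ℕ → ℤ) (k : ℕ) (c : ℤ) :
    st (Function.update t k c) (k + 1) = c ::ₘ st t k := by
  rw [st_succ, st_update _ _ le_rfl, Function.update_self]

lemma update_mem_Std {t : ℕ → ℤ} {k : ℕ} (ht : t ∈ Std k) {c : ℤ} (hc : hh (st t k) c = 1) :
    Function.update t k c ∈ Std (k + 1) := by
  rw [Std, mem_biUnion]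
  exact ⟨t, ht, mem_image.2 ⟨c, mem_add.2 hc, rfl⟩⟩

lemma ee_update (t : ℕ → ℤ) (k : ℕ) (c : ℤ) :
    ee (Function.update t k c) (k + 1) = ee t k + eps (st t k) c := by
  unfold ee
  rw [sum_range_succ, st_update _ _ le_rfl, Function.update_self]
  congr 1
  refine sum_congr rfl fun j hj => ?_
  have hj' := mem_range.1 hj
  rw [st_update _ _ hj'.le, Function.update_of_ne hj'.ne]

end Fock

open Fock

theorem mem_shapes {k : ℕ} {μ : Multiset ℤ} :
    μ ∈ shapes k ↔ Valid μ ∧ Multiset.card μ = k := by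
  constructor
  · intro h
    obtain ⟨t, ht, rfl⟩ := mem_image.1 h
    exact ⟨valid_st ht le_rfl, card_st t k⟩
  · rintro ⟨h1, h2⟩
    induction k generalizing μ with
    | zero =>
      rw [Multiset.card_eq_zero] at h2
      subst h2
      exact mem_image.2 ⟨0, by simp [Std], by simp⟩
    | succ k ih =>
      obtain ⟨b, hb⟩ := exists_rem h1 (by rintro rfl; simp at h2)
      have hb' := mem_rem.2 hb
      obtain ⟨v1, v2⟩ := valid_erase h1 hb'
      have e := cons_erase_of_rem hb'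
      have hc : Multiset.card (μ.erase b) = k := by
        have := congrArg Multiset.card e
        rw [Multiset.card_cons] at this
        omega
      obtain ⟨t, ht, hst⟩ := mem_image.1 (ih v1 hc)
      refine mem_image.2 ⟨Function.update t k b, update_mem_Std ht (by rwa [hst]), ?_⟩
      rw [st_update_succ, hst, e]

/-- Sums over tableaux of size `k+1` and shape `ν`, by the last content. -/
theorem sum_filter_succ (k : ℕ) (ν : Multiset ℤ) (hν : Valid ν) (f : (ℕ → ℤ) → ℝ) :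
    ∑ t ∈ (Std (k + 1)).filter (fun t => st t (k + 1) = ν), f t
      = ∑ b ∈ rem ν, ∑ t ∈ (Std k).filter (fun t => st t k = ν.erase b),
          f (Function.update t k b) := by
  have _ := hν
  simp only [sum_filter]
  rw [sum_Std_succ, sum_comm]
  refine sum_congr rfl fun t _ => ?_
  simp only [st_update_succ]
  rw [← sum_filter, ← sum_filter]
  refine sum_congr ?_ fun _ _ => rfl
  ext c
  simp only [mem_filter, mem_add, mem_rem]
  exact edge_iff _ _ _

namespace Fock

lemma sum_edges' (k : ℕ) (G : Multiset ℤ → ℤ → ℝ) :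
    ∑ ν ∈ shapes (k + 1), ∑ b ∈ rem ν, G (ν.erase b) b
      = ∑ μ ∈ shapes k, ∑ c ∈ add μ, G μ c := by
  rw [sum_sigma', sum_sigma']
  refine sum_nbij' (fun p => ⟨p.1.erase p.2, p.2⟩) (fun p => ⟨p.2 ::ₘ p.1, p.2⟩) ?_ ?_ ?_ ?_ ?_
  · rintro ⟨ν, b⟩ h
    simp only [mem_sigma, mem_shapes, mem_add] at h ⊢
    obtain ⟨⟨h1, h2⟩, h3⟩ := h
    obtain ⟨v1, v2⟩ := valid_erase h1 h3
    have := congrArg Multiset.card (cons_erase_of_rem h3)
    rw [Multiset.card_cons] at this
    exact ⟨⟨v1, by omega⟩, v2⟩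
  · rintro ⟨μ, c⟩ h
    simp only [mem_sigma, mem_shapes, mem_add, mem_rem] at h ⊢
    obtain ⟨⟨h1, h2⟩, h3⟩ := h
    exact ⟨⟨h1.cons h3, by rw [Multiset.card_cons, h2]⟩, by rw [hh_cons_self]; omega⟩
  · rintro ⟨ν, b⟩ h
    simp only [mem_sigma] at h
    simp only [cons_erase_of_rem h.2]
  · rintro ⟨μ, c⟩ _
    simp only [Multiset.erase_cons_head]
  · rintro ⟨ν, b⟩ _
    rfl

end Fock

/-- Edges of Young's lattice counted from below and from above. -/
theorem sum_edges (k : ℕ) (g : Multiset ℤ → Multiset ℤ → ℝ) :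
    ∑ ν ∈ shapes (k + 1), ∑ b ∈ rem ν, g (ν.erase b) ν
      = ∑ μ ∈ shapes k, ∑ c ∈ add μ, g μ (c ::ₘ μ) := by
  rw [← sum_edges' k fun μ c => g μ (c ::ₘ μ)]
  exact sum_congr rfl fun ν _ => sum_congr rfl fun b hb => by rw [cons_erase_of_rem hb]

theorem sum_pairs (n : ℕ) (f g : (ℕ → ℤ) → ℝ) :
    ∑ p ∈ pairs n, f p.1 * g p.2
      = ∑ μ ∈ shapes n, (∑ s ∈ (Std n).filter (fun t => st t n = μ), f s)
          * ∑ t ∈ (Std n).filter (fun t => st t n = μ), g t := by
  rw [← sum_fiberwise_of_maps_to (s := pairs n) (t := shapes n) (g := fun p => st p.1 n)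
    fun p hp => mem_image.2 ⟨p.1, (mem_pairs.1 hp).1, rfl⟩]
  refine sum_congr rfl fun μ _ => ?_
  rw [sum_mul_sum, ← sum_product']
  refine sum_congr ?_ fun _ _ => rfl
  ext p
  simp only [mem_filter, mem_pairs, mem_product]
  constructor
  · rintro ⟨⟨h1, h2, h3⟩, h4⟩
    exact ⟨⟨h1, h4⟩, h2, h3 ▸ h4⟩
  · rintro ⟨⟨h1, h4⟩, h2, h3⟩
    exact ⟨⟨h1, h2, h4.trans h3.symm⟩, h4⟩

namespace Fock

/-- The deformed edge weight. -/
noncomputable def om (φ : ℝ) (μ : Multiset ℤ) (c : ℤ) : ℝ := Real.exp (φ * eps μ c)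

noncomputable def up (φ : ℝ) (y : Multiset ℤ → ℝ) (ν : Multiset ℤ) : ℝ :=
  ∑ b ∈ rem ν, om φ (ν.erase b) b * y (ν.erase b)

noncomputable def down (φ : ℝ) (y : Multiset ℤ → ℝ) (ν : Multiset ℤ) : ℝ :=
  ∑ c ∈ add ν, om φ ν c * y (c ::ₘ ν)

lemma eps_cons_self (κ : Multiset ℤ) (b : ℤ) : eps (b ::ₘ κ) b = eps κ b := by
  unfold eps
  rw [Lam_cons, if_neg (by omega), if_neg (by omega), if_pos rfl]
  simp

lemma eps_cons_symm (κ : Multiset ℤ) {b c : ℤ} (h0 : b ≠ c) (h1 : b ≠ c + 1) (h2 : b ≠ c - 1) :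
    eps (b ::ₘ κ) c + eps (c ::ₘ κ) b = eps κ b + eps κ c := by
  unfold eps
  rw [Lam_cons, Lam_cons]
  rcases lt_or_gt_of_ne h0 with h | h
  · rw [Int.sign_eq_one_of_pos (a := c - (b - 1)) (by omega),
      Int.sign_eq_one_of_pos (a := c - (b + 1)) (by omega),
      Int.sign_eq_one_of_pos (a := c - b) (by omega),
      Int.sign_eq_neg_one_of_neg (a := b - (c - 1)) (by omega),
      Int.sign_eq_neg_one_of_neg (a := b - (c + 1)) (by omega),
      Int.sign_eq_neg_one_of_neg (a := b - c) (by omega)]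
    split_ifs <;> omega
  · rw [Int.sign_eq_neg_one_of_neg (a := c - (b - 1)) (by omega),
      Int.sign_eq_neg_one_of_neg (a := c - (b + 1)) (by omega),
      Int.sign_eq_neg_one_of_neg (a := c - b) (by omega),
      Int.sign_eq_one_of_pos (a := b - (c - 1)) (by omega),
      Int.sign_eq_one_of_pos (a := b - (c + 1)) (by omega),
      Int.sign_eq_one_of_pos (a := b - c) (by omega)]
    split_ifs <;> omega

/-- Telescoping over a linearly ordered finite set. -/
lemma telescope (ψ : ℝ) (h : ℤ → ℤ) (hh3 : ∀ c, h c = 1 ∨ h c = 0 ∨ h c = -1) (W : Finset ℤ) :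
    (Real.exp ψ - Real.exp (-ψ)) *
        ∑ c ∈ W, (h c : ℝ) * Real.exp (ψ * (∑ x ∈ W, h x * Int.sign (c - x) : ℤ))
      = Real.exp (ψ * (∑ x ∈ W, h x : ℤ)) - Real.exp (-(ψ * (∑ x ∈ W, h x : ℤ))) := by
  induction W using Finset.induction_on_max with
  | empty => simp
  | insert a W ha ih =>
    have hn : a ∉ W := fun hm => lt_irrefl _ (ha a hm)
    have e1 : ∑ x ∈ insert a W, h x * Int.sign (a - x) = ∑ x ∈ W, h x := by
      rw [sum_insert hn, sub_self, Int.sign_zero, mul_zero, zero_add]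
      refine sum_congr rfl fun x hx => ?_
      rw [Int.sign_eq_one_of_pos (by have := ha x hx; omega), mul_one]
    have e2 : ∀ c ∈ W, Real.exp (ψ * (∑ x ∈ insert a W, h x * Int.sign (c - x) : ℤ)) =
        Real.exp (-(ψ * h a)) * Real.exp (ψ * (∑ x ∈ W, h x * Int.sign (c - x) : ℤ)) := by
      intro c hc
      rw [sum_insert hn, Int.sign_eq_neg_one_of_neg (by have := ha c hc; omega), ← Real.exp_add]
      congr 1
      push_cast
      ring
    have e3 : ∑ c ∈ W, (h c : ℝ) *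
        Real.exp (ψ * (∑ x ∈ insert a W, h x * Int.sign (c - x) : ℤ)) = Real.exp (-(ψ * h a)) *
        ∑ c ∈ W, (h c : ℝ) * Real.exp (ψ * (∑ x ∈ W, h x * Int.sign (c - x) : ℤ)) := by
      rw [mul_sum]
      exact sum_congr rfl fun c hc => by rw [e2 c hc]; ring
    rw [sum_insert hn, e1, e3, sum_insert hn]
    generalize (∑ c ∈ W, (h c : ℝ) *
      Real.exp (ψ * (∑ x ∈ W, h x * Int.sign (c - x) : ℤ))) = S at ih ⊢
    generalize (∑ x ∈ W, h x) = H at ih ⊢
    have x1 : ∀ s : ℝ, Real.exp (ψ * (s + H)) = Real.exp (ψ * s) * Real.exp (ψ * H) := by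
      intro s; rw [← Real.exp_add]; congr 1; ring
    have x2 : ∀ s : ℝ, Real.exp (-(ψ * (s + H))) = Real.exp (-(ψ * s)) * Real.exp (-(ψ * H)) := by
      intro s; rw [← Real.exp_add]; congr 1; ring
    push_cast
    rw [x1, x2]
    rcases hh3 a with h1 | h1 | h1 <;> rw [h1] <;> push_cast
    · simp only [mul_one]
      linear_combination Real.exp (-ψ) * ih
    · simp only [mul_zero, neg_zero, Real.exp_zero]
      linear_combination ih
    · simp only [mul_neg, mul_one, neg_neg]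
      linear_combination Real.exp ψ * ih

lemma sum_hh_class (μ : Multiset ℤ) (r : ℤ) :
    ∑ x ∈ (supp3 μ).filter (fun x => x % 2 = r % 2), hh μ x
      = if r % 2 = 0 then 1 - 2 * dd μ else 2 * dd μ := by
  rw [← Lam_parity, Lam_eq_sum μ _ _ subset_rfl, sum_filter]
  exact sum_congr rfl fun x _ => by split_ifs <;> simp

lemma eps_eq_class (μ : Multiset ℤ) (r c : ℤ) (hc : c % 2 = r % 2) :
    eps μ c = ∑ x ∈ (supp3 μ).filter (fun x => x % 2 = r % 2), hh μ x * Int.sign (c - x) := by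
  unfold eps
  rw [Lam_eq_sum μ _ _ subset_rfl, sum_filter, hc]
  exact sum_congr rfl fun x _ => by split_ifs <;> simp

lemma sum_hh_exp {μ : Multiset ℤ} (hμ : Valid μ) (φ : ℝ) :
    ∑ c ∈ supp3 μ, (hh μ c : ℝ) * Real.exp (2 * φ * eps μ c) = Hq φ (dd μ) := by
  have split : ∀ F : ℤ → ℝ, ∑ c ∈ supp3 μ, F c =
      ∑ c ∈ (supp3 μ).filter (fun x => x % 2 = 0 % 2), F c +
        ∑ c ∈ (supp3 μ).filter (fun x => x % 2 = 1 % 2), F c := by
    intro F
    rw [← sum_filter_add_sum_filter_not (supp3 μ) (fun x => x % 2 = 0 % 2)]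
    congr 1
    refine sum_congr (filter_congr fun x _ => ?_) fun _ _ => rfl
    omega
  have s0 := sum_hh_class μ 0
  have s1 := sum_hh_class μ 1
  rw [if_pos (by norm_num)] at s0
  rw [if_neg (by norm_num)] at s1
  by_cases h0 : φ = 0
  · subst h0
    simp only [mul_zero, zero_mul, Real.exp_zero, mul_one, Hq, Real.cosh_zero, div_one]
    rw [split, ← Int.cast_sum, ← Int.cast_sum, s0, s1]
    push_cast
    ring
  have t0 := telescope (2 * φ) (hh μ) hμ.hh_cases ((supp3 μ).filter fun x => x % 2 = 0 % 2)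
  have t1 := telescope (2 * φ) (hh μ) hμ.hh_cases ((supp3 μ).filter fun x => x % 2 = 1 % 2)
  rw [sum_congr rfl fun c hc => by rw [← eps_eq_class μ 0 c (mem_filter.1 hc).2], s0] at t0
  rw [sum_congr rfl fun c hc => by rw [← eps_eq_class μ 1 c (mem_filter.1 hc).2], s1] at t1
  rw [split]
  generalize (∑ c ∈ (supp3 μ).filter (fun x => x % 2 = 0 % 2),
    (hh μ c : ℝ) * Real.exp (2 * φ * eps μ c)) = S0 at t0 ⊢
  generalize (∑ c ∈ (supp3 μ).filter (fun x => x % 2 = 1 % 2),
    (hh μ c : ℝ) * Real.exp (2 * φ * eps μ c)) = S1 at t1 ⊢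
  have hs : Real.sinh φ ≠ 0 := by rwa [Ne, Real.sinh_eq_zero]
  rw [Hq, eq_div_iff (Real.cosh_pos φ).ne']
  apply mul_left_cancel₀ hs
  have a1 : Real.exp (2 * φ) - Real.exp (-(2 * φ)) = 4 * Real.sinh φ * Real.cosh φ := by
    have := Real.sinh_two_mul φ
    rw [Real.sinh_eq (2 * φ)] at this
    linarith
  have a2 : ∀ x y : ℝ, Real.exp (x + y) - Real.exp (-(x + y)) +
      (Real.exp (x - y) - Real.exp (-(x - y))) = 4 * Real.sinh x * Real.cosh y := by
    intro x y
    have e1 := Real.sinh_add x y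
    have e2 := Real.sinh_sub x y
    rw [Real.sinh_eq (x + y)] at e1
    rw [Real.sinh_eq (x - y)] at e2
    linarith
  have a3 := a2 φ ((4 * dd μ - 1) * φ)
  rw [a1] at t0 t1
  push_cast at t0 t1
  rw [show φ + (4 * dd μ - 1) * φ = 2 * φ * (2 * dd μ) by ring,
    show φ - (4 * dd μ - 1) * φ = 2 * φ * (1 - 2 * dd μ) by ring] at a3
  linarith

lemma sum_om_sq {μ : Multiset ℤ} (hμ : Valid μ) (φ : ℝ) :
    ∑ c ∈ add μ, om φ μ c ^ 2 = Hq φ (dd μ) + ∑ b ∈ rem μ, om φ μ b ^ 2 := by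
  have e1 : rem μ = (supp3 μ).filter fun c => hh μ c = -1 := by
    ext c
    rw [mem_rem, mem_filter]
    exact ⟨fun h => ⟨mem_supp3_of_ne (by omega), h⟩, fun h => h.2⟩
  rw [← sum_hh_exp hμ, e1, add, sum_filter, sum_filter, ← sum_add_distrib]
  refine sum_congr rfl fun c _ => ?_
  have e2 : om φ μ c ^ 2 = Real.exp (2 * φ * eps μ c) := by
    rw [om, sq, ← Real.exp_add]; congr 1; ring
  rw [e2]
  rcases hμ.hh_cases c with h | h | h <;> simp [h]

/-- The deformed commutation relation. -/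
lemma down_up (φ : ℝ) (y : Multiset ℤ → ℝ) {ν : Multiset ℤ} (hν : Valid ν) :
    down φ (up φ y) ν = Hq φ (dd ν) * y ν + up φ (down φ y) ν := by
  have l1 : down φ (up φ y) ν = (∑ c ∈ add ν, om φ ν c ^ 2) * y ν +
      ∑ c ∈ add ν, ∑ b ∈ (rem (c ::ₘ ν)).erase c,
        om φ ν c * (om φ (c ::ₘ ν.erase b) b * y (c ::ₘ ν.erase b)) := by
    rw [down, sum_mul, ← sum_add_distrib]
    refine sum_congr rfl fun c hc => ?_
    have hc' : c ∈ rem (c ::ₘ ν) := by rw [mem_rem, hh_cons_self, mem_add.1 hc]; norm_num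
    rw [up, ← add_sum_erase _ _ hc', Multiset.erase_cons_head, mul_add, mul_sum]
    congr 1
    · ring
    · refine sum_congr rfl fun b hb => ?_
      rw [Multiset.erase_cons_tail _ (mem_erase.1 hb).1.symm]
  have l2 : up φ (down φ y) ν = (∑ b ∈ rem ν, om φ ν b ^ 2) * y ν +
      ∑ b ∈ rem ν, ∑ c ∈ (add (ν.erase b)).erase b,
        om φ (ν.erase b) b * (om φ (ν.erase b) c * y (c ::ₘ ν.erase b)) := by
    rw [up, sum_mul, ← sum_add_distrib]
    refine sum_congr rfl fun b hb => ?_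
    have hb' : b ∈ add (ν.erase b) := mem_add.2 (valid_erase hν hb).2
    have e := cons_erase_of_rem hb
    have e2 : om φ ν b = om φ (ν.erase b) b := by
      conv_lhs => rw [← e]
      rw [om, om, eps_cons_self]
    rw [down, ← add_sum_erase _ _ hb', e, mul_add, mul_sum, e2]
    congr 1
    ring
  have cond : ∀ c b, c ∈ add ν ∧ b ∈ (rem (c ::ₘ ν)).erase c ↔
      c ∈ (add (ν.erase b)).erase b ∧ b ∈ rem ν := by
    intro c b
    simp only [mem_erase, mem_add, mem_rem]
    constructor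
    · rintro ⟨h1, h2, h3⟩
      rw [hh_cons] at h3
      have h4 := hν.hh_cases b
      have h5 : hh ν b = -1 := by split_ifs at h3 <;> omega
      have e := cons_erase_of_rem (mem_rem.2 h5)
      rw [← e, hh_cons] at h1
      refine ⟨⟨Ne.symm h2, ?_⟩, h5⟩
      split_ifs at h1 h3 <;> omega
    · rintro ⟨⟨h1, h2⟩, h3⟩
      have e := cons_erase_of_rem (mem_rem.2 h3)
      have h4 := hν.hh_cases c
      have h5 := hh_cons (ν.erase b) b c
      rw [e] at h5
      rw [hh_cons]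
      refine ⟨?_, Ne.symm h1, ?_⟩
      · split_ifs at h5 <;> omega
      · split_ifs at h5 ⊢ <;> omega
  rw [l1, l2, sum_om_sq hν, sum_comm' cond, add_mul, add_assoc]
  congr 2
  refine sum_congr rfl fun b hb => sum_congr rfl fun c hc => ?_
  obtain ⟨h1, h2⟩ := (cond c b).2 ⟨hc, hb⟩
  have e := cons_erase_of_rem hb
  obtain ⟨h3, h4⟩ := mem_erase.1 h2
  rw [mem_rem, hh_cons] at h4
  have h5 := mem_rem.1 hb
  have key := eps_cons_symm (ν.erase b) h3 (by split_ifs at h4 <;> omega)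
    (by split_ifs at h4 <;> omega)
  rw [e] at key
  rw [← mul_assoc, ← mul_assoc, om, om, om, om, ← Real.exp_add, ← Real.exp_add, ← mul_add,
    ← mul_add, ← Int.cast_add, ← Int.cast_add, key]

lemma U_succ (φ : ℝ) (k : ℕ) {ν : Multiset ℤ} (hν : Valid ν) :
    U φ (k + 1) ν = up φ (U φ k) ν := by
  rw [U, sum_filter_succ k ν hν, up]
  refine sum_congr rfl fun b _ => ?_
  rw [U, mul_sum]
  refine sum_congr rfl fun t ht => ?_
  rw [ee_update, (mem_filter.1 ht).2, om, ← Real.exp_add]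
  congr 1
  push_cast
  ring

noncomputable def Wt (φ : ℝ) (n : ℕ) (ν : Multiset ℤ) : ℝ :=
  ∑ t ∈ (Std n).filter (fun t => st t n = ν),
    Real.exp (φ * ee t n) * ∑ k ∈ range (n + 1), Hq φ (dd (st t k))

lemma Wt_succ (φ : ℝ) (n : ℕ) {ν : Multiset ℤ} (hν : Valid ν) :
    Wt φ (n + 1) ν = Hq φ (dd ν) * U φ (n + 1) ν + up φ (Wt φ n) ν := by
  have e1 : Wt φ (n + 1) ν = Hq φ (dd ν) * U φ (n + 1) ν +
      ∑ t ∈ (Std (n + 1)).filter (fun t => st t (n + 1) = ν),
        Real.exp (φ * ee t (n + 1)) * ∑ k ∈ range (n + 1), Hq φ (dd (st t k)) := by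
    rw [Wt, U, mul_sum, ← sum_add_distrib]
    refine sum_congr rfl fun t ht => ?_
    rw [sum_range_succ _ (n + 1), (mem_filter.1 ht).2]
    ring
  rw [e1, sum_filter_succ n ν hν, up]
  congr 1
  refine sum_congr rfl fun b _ => ?_
  rw [Wt, mul_sum]
  refine sum_congr rfl fun t ht => ?_
  rw [ee_update, (mem_filter.1 ht).2, om, ← mul_assoc, ← Real.exp_add]
  congr 1
  · congr 1
    push_cast
    ring
  · exact sum_congr rfl fun k hk => by
      rw [st_update _ _ (Nat.lt_succ_iff.1 (mem_range.1 hk))]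

lemma down_U (φ : ℝ) (n : ℕ) {ν : Multiset ℤ} (hν : Valid ν) :
    down φ (U φ (n + 1)) ν = Wt φ n ν := by
  have e0 : ∀ (n : ℕ) {ν : Multiset ℤ}, Valid ν →
      down φ (U φ (n + 1)) ν = Hq φ (dd ν) * U φ n ν + up φ (down φ (U φ n)) ν := by
    intro n ν hν
    rw [← down_up φ _ hν]
    exact sum_congr rfl fun c hc => by rw [U_succ φ n (hν.cons (mem_add.1 hc))]
  induction n generalizing ν with
  | zero =>
    rw [e0 0 hν]
    have z : ∀ κ, down φ (U φ 0) κ = 0 := by
      intro κ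
      refine sum_eq_zero fun c _ => ?_
      rw [U, filter_false_of_mem, sum_empty, mul_zero]
      intro t _
      rw [st_zero]
      exact (Multiset.cons_ne_zero).symm
    have z2 : up φ (down φ (U φ 0)) ν = 0 := sum_eq_zero fun b _ => by rw [z, mul_zero]
    rw [z2, add_zero, Wt, U, mul_sum]
    refine sum_congr rfl fun t ht => ?_
    rw [zero_add, sum_range_one, (mem_filter.1 ht).2, mul_comm]
  | succ n ih =>
    rw [e0 (n + 1) hν, Wt_succ φ n hν]
    congr 1
    exact sum_congr rfl fun b hb => by rw [ih (valid_erase hν hb).1]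

lemma Hq_zero (d : ℤ) : Hq 0 d = 1 := by simp [Hq]

lemma U_pos (φ : ℝ) {k : ℕ} {μ : Multiset ℤ} (h : μ ∈ shapes k) : 0 < U φ k μ := by
  obtain ⟨t, ht, e⟩ := mem_image.1 h
  exact sum_pos (fun _ _ => Real.exp_pos _) ⟨t, mem_filter.2 ⟨ht, e⟩⟩

end Fock

theorem fock_rec (φ : ℝ) (n : ℕ) :
    ∑ p ∈ pairs (n + 1), Real.exp (φ * (ee p.1 (n + 1) + ee p.2 (n + 1)))
      = ∑ p ∈ pairs n, Real.exp (φ * (ee p.1 n + ee p.2 n))
          * ∑ k ∈ range (n + 1), Hq φ (dd (st p.2 k)) := by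
  simp only [mul_add, Real.exp_add, mul_assoc]
  rw [sum_pairs (n + 1) (fun t => Real.exp (φ * ee t (n + 1))) fun t => Real.exp (φ * ee t (n + 1)),
    sum_pairs n (fun t => Real.exp (φ * ee t n))
      fun t => Real.exp (φ * ee t n) * ∑ k ∈ range (n + 1), Hq φ (dd (st t k))]
  change ∑ ν ∈ shapes (n + 1), U φ (n + 1) ν * U φ (n + 1) ν =
    ∑ μ ∈ shapes n, U φ n μ * Wt φ n μ
  calc ∑ ν ∈ shapes (n + 1), U φ (n + 1) ν * U φ (n + 1) ν
      = ∑ ν ∈ shapes (n + 1), ∑ b ∈ rem ν, U φ n (ν.erase b) *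
          (om φ (ν.erase b) b * U φ (n + 1) (b ::ₘ ν.erase b)) := by
        refine sum_congr rfl fun ν hν => ?_
        conv_lhs => rw [U_succ φ n (mem_shapes.1 hν).1, up, sum_mul]
        refine sum_congr rfl fun b hb => ?_
        rw [cons_erase_of_rem hb, U_succ φ n (mem_shapes.1 hν).1, up]
        ring
    _ = ∑ μ ∈ shapes n, ∑ c ∈ add μ, U φ n μ * (om φ μ c * U φ (n + 1) (c ::ₘ μ)) :=
        sum_edges' n fun μ c => U φ n μ * (om φ μ c * U φ (n + 1) (c ::ₘ μ))
    _ = _ := by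
        refine sum_congr rfl fun μ hμ => ?_
        rw [← mul_sum, ← down_U φ n (mem_shapes.1 hμ).1, down]

theorem card_pairs (n : ℕ) : (pairs n).card = n.factorial := by
  induction n with
  | zero => simp [pairs, Std]
  | succ n ih =>
    have := fock_rec 0 n
    simp only [zero_mul, Real.exp_zero, Hq_zero, sum_const, card_range, nsmul_eq_mul, mul_one,
      one_mul, ih] at this
    rw [Nat.factorial_succ, mul_comm]
    exact_mod_cast this

theorem sum_U_sq (n : ℕ) : ∑ μ ∈ shapes n, U 0 n μ ^ 2 = n.factorial := by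
  have := sum_pairs n (fun t => Real.exp (0 * ee t n)) fun t => Real.exp (0 * ee t n)
  simp only [sq, U]
  rw [← this]
  simp [card_pairs]

theorem upOp_norm (k : ℕ) (y : Multiset ℤ → ℝ) :
    ∑ ν ∈ shapes (k + 1), upOp y ν ^ 2 ≤ (k + 1) * ∑ μ ∈ shapes k, y μ ^ 2 := by
  have om0 : ∀ μ c, om 0 μ c = 1 := fun μ c => by simp [om]
  calc ∑ ν ∈ shapes (k + 1), upOp y ν ^ 2
      ≤ ∑ ν ∈ shapes (k + 1), ∑ b ∈ rem ν, y (ν.erase b) ^ 2 / U 0 k (ν.erase b) *
          U 0 (k + 1) ν := by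
        refine sum_le_sum fun ν hν => ?_
        obtain ⟨h1, h2⟩ := mem_shapes.1 hν
        have hpos : ∀ b ∈ rem ν, 0 < U 0 k (ν.erase b) := by
          intro b hb
          have := congrArg Multiset.card (cons_erase_of_rem hb)
          rw [Multiset.card_cons] at this
          exact U_pos 0 (mem_shapes.2 ⟨(valid_erase h1 hb).1, by omega⟩)
        have e : U 0 (k + 1) ν = ∑ b ∈ rem ν, U 0 k (ν.erase b) := by
          rw [U_succ 0 k h1, up]
          simp only [om0, one_mul]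
        have := sq_sum_div_le_sum_sq_div (rem ν) (fun b => y (ν.erase b)) hpos
        rw [← e, div_le_iff₀ (U_pos 0 hν)] at this
        rw [← sum_mul]
        exact this
    _ = ∑ μ ∈ shapes k, ∑ c ∈ add μ, y μ ^ 2 / U 0 k μ * U 0 (k + 1) (c ::ₘ μ) :=
        sum_edges k fun μ ν => y μ ^ 2 / U 0 k μ * U 0 (k + 1) ν
    _ = _ := by
        rw [mul_sum]
        refine sum_congr rfl fun μ hμ => ?_
        have e := down_U 0 k (mem_shapes.1 hμ).1
        simp only [down, om0, one_mul, Wt, Hq_zero, sum_const, card_range, nsmul_eq_mul,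
          mul_one] at e
        rw [← sum_mul] at e
        change _ = U 0 k μ * _ at e
        rw [← mul_sum, e]
        have := (U_pos 0 hμ).ne'
        push_cast
        field_simp

end Pool.Agent.P.MP_e72dc0_lc.Sn
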