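import Pool.Agent.P.MP_e72dc0_lc.Sn.Pair
import Pool.Agent.P.MP_e72dc0_lc.Sn.Fam

/-! Module B (statement): the filtered basis of the group algebra of the symmetric group. -/

namespace Pool.Agent.P.MP_e72dc0_lc.Sn

open Finset
open scoped Classical

namespace HM

lemma norm_sum_lt_one {ι : Type*} (s : Finset ι) (f : ι → ℚ_[2]) (h : ∀ i ∈ s, ‖f i‖ < 1) :
    ‖∑ i ∈ s, f i‖ < 1 := by
  induction s using Finset.induction_on with
  | empty => simp
  | insert a s ha ih =>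
    rw [sum_insert ha]
    exact (Padic.nonarchimedean _ _).trans_lt
      (max_lt (h a (mem_insert_self _ _)) (ih fun i hi => h i (mem_insert_of_mem hi)))

lemma toZMod_eq_zero {o : ℤ_[2]} (h : ‖(o : ℚ_[2])‖ < 1) : PadicInt.toZMod o = 0 := by
  have h1 : o ∈ RingHom.ker (PadicInt.toZMod (p := 2)) := by
    rw [PadicInt.ker_toZMod, IsLocalRing.mem_maximalIdeal, PadicInt.mem_nonunits]
    exact h
  exact h1

lemma det_tri {ι K : Type*} [Fintype ι] [DecidableEq ι] [CommRing K] (C : Matrix ι ι K) (r : ι → ℤ)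
    (h : ∀ i p, C i p ≠ 0 → p = i ∨ r p < r i) : C.det = ∏ i, C i i := by
  rw [Matrix.det_apply, sum_eq_single 1]
  · simp
  · intro σ _ hσ
    by_contra hne
    have h1 : ∀ i, C (σ i) i ≠ 0 := by
      intro i h0
      apply hne
      rw [prod_eq_zero (f := fun i => C (σ i) i) (mem_univ i) h0, smul_zero]
    have h2 : ∀ i ∈ (univ : Finset ι), r i ≤ r (σ i) := by
      intro i _
      rcases h _ _ (h1 i) with e | e
      · exact (congrArg r e).le
      · exact e.le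
    have h3 : ∃ i ∈ (univ : Finset ι), r i < r (σ i) := by
      by_contra hc
      apply hσ
      ext i
      rcases h _ _ (h1 i) with e | e
      · exact e.symm
      · exact absurd ⟨i, mem_univ i, e⟩ hc
    have h4 := sum_lt_sum h2 h3
    rw [Equiv.sum_comp σ r] at h4
    exact lt_irrefl _ h4
  · simp

/-- First tableau of a pair. -/
def fs {n : ℕ} (i : pairs n) : Std n := ⟨i.1.1, (mem_pairs.1 i.2).1⟩
/-- Second tableau of a pair. -/
def sn {n : ℕ} (i : pairs n) : Std n := ⟨i.1.2, (mem_pairs.1 i.2).2.1⟩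

lemma st_fs {n : ℕ} (i : pairs n) : st (fs i).1 n = st (sn i).1 n := (mem_pairs.1 i.2).2.2

lemma ext' {n : ℕ} {i j : pairs n} (h1 : fs i = fs j) (h2 : sn i = sn j) : i = j :=
  Subtype.ext (Prod.ext (congrArg Subtype.val h1) (congrArg Subtype.val h2))

/-- Exchange the two tableaux. -/
def swp (n : ℕ) : Equiv.Perm (pairs n) :=
  Function.Involutive.toPerm
    (fun i => ⟨(i.1.2, i.1.1), mem_pairs.2
      ⟨(mem_pairs.1 i.2).2.1, (mem_pairs.1 i.2).1, (mem_pairs.1 i.2).2.2.symm⟩⟩)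
    (fun _ => rfl)

lemma fs_swp {n : ℕ} (i : pairs n) : fs (swp n i) = sn i := rfl
lemma sn_swp {n : ℕ} (i : pairs n) : sn (swp n i) = fs i := rfl

/-- Transpose both tableaux. -/
def ngp (n : ℕ) : Equiv.Perm (pairs n) :=
  Function.Involutive.toPerm
    (fun i => ⟨(-i.1.1, -i.1.2), mem_pairs.2
      ⟨neg_mem (mem_pairs.1 i.2).1, neg_mem (mem_pairs.1 i.2).2.1, by
        show st (-i.1.1) n = st (-i.1.2) n
        rw [st_neg, st_neg, (mem_pairs.1 i.2).2.2]⟩⟩)
    (fun i => Subtype.ext (Prod.ext (neg_neg _) (neg_neg _)))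

lemma fs_ngp {n : ℕ} (i : pairs n) : (fs (ngp n i)).1 = -(fs i).1 := rfl

lemma sum_pairs {n : ℕ} (F : Std n → Std n → ℚ_[2])
    (hF : ∀ u v, F u v ≠ 0 → st u.1 n = st v.1 n) :
    ∑ u, ∑ v, F u v = ∑ p : pairs n, F (fs p) (sn p) := by
  rw [← Fintype.sum_prod_type' F]
  symm
  refine sum_bij_ne_zero (fun p _ _ => (fs p, sn p)) (fun _ _ _ => mem_univ _) ?_ ?_
    (fun _ _ _ => rfl)
  · intro a _ _ b _ _ e
    exact ext' (congrArg Prod.fst e) (congrArg Prod.snd e)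
  · intro b _ hb
    exact ⟨⟨(b.1.1, b.2.1), mem_pairs.2 ⟨b.1.2, b.2.2, hF _ _ hb⟩⟩, mem_univ _, hb, rfl⟩

lemma term_small {n : ℕ} {q : ℚ_[2]} {θ B : ℝ} (G : Good n q θ B) (u : Std n)
    {a b c : ℚ_[2]} {d1 d2 d3 : ℤ}
    (ha : ‖a‖ ^ 2 ≤ θ ^ d1 * B ^ (4 * n ^ 2)) (hb : ‖b‖ ^ 2 ≤ θ ^ d2 * B ^ (4 * n ^ 2))
    (hc : ‖c‖ ^ 2 ≤ θ ^ d3 * B ^ (4 * n ^ 2)) (he : 1 ≤ d1 + d2 + d3 - 2 * ww u.1 n) :
    ‖mw q n u.1 * (a * b * c)‖ < 1 := by
  have hθ := G.θpos
  have hB := G.Bpos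
  have hm := G.norm_mw_le u.2
  have h1 : ‖mw q n u.1 * (a * b * c)‖ ^ 2 ≤ (θ ^ (-ww u.1 n) * B ^ (n * (2 * n + 1))) ^ 2
      * ((θ ^ d1 * B ^ (4 * n ^ 2)) * (θ ^ d2 * B ^ (4 * n ^ 2))
        * (θ ^ d3 * B ^ (4 * n ^ 2))) := by
    rw [norm_mul, norm_mul, norm_mul, mul_pow, mul_pow, mul_pow]
    gcongr
  have h2 : (θ ^ (-ww u.1 n) * B ^ (n * (2 * n + 1))) ^ 2
      * ((θ ^ d1 * B ^ (4 * n ^ 2)) * (θ ^ d2 * B ^ (4 * n ^ 2))
        * (θ ^ d3 * B ^ (4 * n ^ 2)))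
      = θ ^ (d1 + d2 + d3 - 2 * ww u.1 n) * B ^ (16 * n ^ 2 + 2 * n) := by
    rw [show d1 + d2 + d3 - 2 * ww u.1 n = d1 + d2 + d3 + -ww u.1 n + -ww u.1 n by ring,
      zpow_add₀ hθ.ne', zpow_add₀ hθ.ne', zpow_add₀ hθ.ne', zpow_add₀ hθ.ne']
    ring
  have h3 : θ ^ (d1 + d2 + d3 - 2 * ww u.1 n) ≤ θ := by
    have := zpow_le_zpow_right_of_le_one₀ hθ G.θle he
    rwa [zpow_one] at this
  have h4 : B ^ (16 * n ^ 2 + 2 * n) ≤ B ^ (20 * n ^ 2 + 20) :=
    pow_le_pow_right₀ G.B1 (by nlinarith [Nat.zero_le n])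
  have h5 : ‖mw q n u.1 * (a * b * c)‖ ^ 2 < 1 := by
    refine (h1.trans h2.le).trans_lt (lt_of_le_of_lt ?_ G.small)
    gcongr
  exact (sq_lt_one_iff₀ (norm_nonneg _)).1 h5

end HM

open HM in
theorem basisB (n : ℕ) :
    ∃ b : pairs n → MonoidAlgebra (ZMod 2) (Equiv.Perm (Fin n)),
      LinearIndependent (ZMod 2) b ∧
      ∀ i j k : pairs n, 0 < D6 n i + D6 n j + D6 n k → (b i * b j * b k).coeff 1 = 0 := by
  obtain ⟨q, θ, B, G⟩ := exists_good n
  obtain ⟨ψ, rk, hψ⟩ := G.exists_psi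
  set P : pairs n → Mat n := fun i => ψ (fs i) (sn i) with hP
  have hl : ∀ i, ∃ x, Lift q n (P i) x := fun i => (hψ _ _ (st_fs i)).1
  choose b hb using hl
  have hsupp : ∀ i u v, P i u v ≠ 0 → st u.1 n = st v.1 n ∧ ww u.1 n = ww (fs i).1 n ∧
      ((u = fs i ∧ v = sn i) ∨ rk u v < rk (fs i) (sn i)) := fun i => (hψ _ _ (st_fs i)).2.1
  have hnorm : ∀ i u v, ‖P i u v‖ ^ 2 ≤ θ ^ (dg (fs i).1 n + dg (sn i).1 n) * B ^ (4 * n ^ 2) :=
    fun i => (hψ _ _ (st_fs i)).2.2.1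
  have hdiag : ∀ i, ‖P i (fs i) (sn i)‖ * ‖P (swp n i) (sn i) (fs i)‖
      = gw q n (fs i).1 * gw q n (sn i).1 := fun i => (hψ _ _ (st_fs i)).2.2.2
  refine ⟨b, ?_, fun i j k hD => ?_⟩
  · have hO : ∀ i j, ∃ o : ℤ_[2], tau q (P i * P j) = o
        ∧ PadicInt.toZMod o = (b i * b j).coeff 1 := fun i j => G.lift_tau ((hb i).mul (hb j))
    choose O hO1 hO2 using hO
    set C : Matrix (pairs n) (pairs n) ℚ_[2] := Matrix.of fun i p => P i (fs p) (sn p) with hC
    have hgram : (Matrix.of O).map (PadicInt.Coe.ringHom (p := 2))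
        = C * Matrix.diagonal (fun p => mw q n (fs p).1) * (C.submatrix id (swp n)).transpose := by
      ext i j
      have e1 : (Matrix.of O).map (PadicInt.Coe.ringHom (p := 2)) i j = (O i j : ℚ_[2]) := rfl
      rw [e1, ← hO1, Matrix.mul_apply]
      simp only [tau, Matrix.mul_apply (M := P i), mul_sum]
      rw [sum_pairs (fun u v => mw q n u.1 * (P i u v * P j v u))
        fun u v h => (hsupp i u v (left_ne_zero_of_mul (right_ne_zero_of_mul h))).1]
      refine sum_congr rfl fun p _ => ?_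
      rw [Matrix.mul_diagonal, Matrix.transpose_apply, Matrix.submatrix_apply]
      simp only [hC, Matrix.of_apply, id, fs_swp, sn_swp]
      ring
    have hdetC : C.det = ∏ i, C i i := by
      refine det_tri C (fun p => rk (fs p) (sn p)) fun i p h => ?_
      rcases (hsupp i _ _ h).2.2 with ⟨e1, e2⟩ | e
      · exact Or.inl (ext' e1 e2)
      · exact Or.inr e
    have hn2 : ‖C.det‖ * ‖C.det‖ = ∏ i : pairs n, (gw q n (fs i).1 * gw q n (-(fs i).1)) := by
      rw [hdetC, norm_prod]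
      conv_lhs => rw [← Equiv.prod_comp (swp n) fun i => ‖C i i‖]; enter [1]; rw [Equiv.prod_comp (swp n) fun i => ‖C i i‖]
      rw [← prod_mul_distrib]
      have e1 : ∀ i, ‖C i i‖ * ‖C (swp n i) (swp n i)‖ = gw q n (fs i).1 * gw q n (sn i).1 :=
        fun i => hdiag i
      simp only [e1]
      rw [prod_mul_distrib, prod_mul_distrib]
      congr 1
      calc ∏ i : pairs n, gw q n (sn i).1 = ∏ i : pairs n, gw q n (fs (swp n i)).1 := rfl
        _ = ∏ i : pairs n, gw q n (fs i).1 :=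
            Equiv.prod_comp (swp n) fun i => gw q n (fs i).1
        _ = ∏ i : pairs n, gw q n (fs (ngp n i)).1 :=
            (Equiv.prod_comp (ngp n) fun i => gw q n (fs i).1).symm
        _ = _ := rfl
    have hdet : ‖(Matrix.of O).det‖ = 1 := by
      have e1 : (((Matrix.of O).det : ℤ_[2]) : ℚ_[2])
          = ((Matrix.of O).map (PadicInt.Coe.ringHom (p := 2))).det :=
        RingHom.map_det (PadicInt.Coe.ringHom (p := 2)) (Matrix.of O)
      rw [PadicInt.norm_def, e1, hgram, Matrix.det_mul, Matrix.det_mul, Matrix.det_transpose,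
        Matrix.det_permute', Matrix.det_diagonal, norm_mul, norm_mul, norm_mul, norm_prod]
      have e2 : ‖((Equiv.Perm.sign (swp n) : ℤ) : ℚ_[2])‖ = 1 := by
        rcases Int.units_eq_one_or (Equiv.Perm.sign (swp n)) with h | h <;> simp [h]
      rw [e2, one_mul, mul_right_comm, hn2, ← prod_mul_distrib]
      exact prod_eq_one fun i _ => G.gw_mul_neg (fs i).2
    have hu : IsUnit ((Matrix.of O).map (PadicInt.toZMod (p := 2))).det := by
      have e1 := RingHom.map_det (PadicInt.toZMod (p := 2)) (Matrix.of O)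
      rw [RingHom.mapMatrix_apply] at e1
      rw [← e1]
      exact (PadicInt.isUnit_iff.2 hdet).map _
    have hli := Matrix.linearIndependent_rows_iff_isUnit.2
      ((Matrix.isUnit_iff_isUnit_det _).2 hu)
    rw [Fintype.linearIndependent_iff] at hli ⊢
    intro g hg
    refine hli g ?_
    funext j
    have e1 := congrArg (fun x => (x * b j).coeff 1) hg
    simp only [sum_mul, smul_mul_assoc, MonoidAlgebra.coeff_sum, Finsupp.finsetSum_apply,
      MonoidAlgebra.coeff_smul_apply, zero_mul, MonoidAlgebra.coeff_zero, Finsupp.coe_zero,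
      Pi.zero_apply] at e1
    rw [Finset.sum_apply, Pi.zero_apply, ← e1]
    refine sum_congr rfl fun i _ => ?_
    rw [Pi.smul_apply, ← hO2]
    rfl
  · obtain ⟨o, ho1, ho2⟩ := G.lift_tau (((hb i).mul (hb j)).mul (hb k))
    rw [← ho2]
    refine toZMod_eq_zero ?_
    rw [← ho1]
    simp only [tau, Matrix.mul_apply, sum_mul, mul_sum]
    refine norm_sum_lt_one _ _ fun u _ => norm_sum_lt_one _ _ fun w _ =>
      norm_sum_lt_one _ _ fun v _ => ?_
    by_cases h0 : P i u v * P j v w * P k w u = 0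
    · rw [h0]; simp
    obtain ⟨a1, a2, -⟩ := hsupp i u v (left_ne_zero_of_mul (left_ne_zero_of_mul h0))
    obtain ⟨b1, b2, -⟩ := hsupp j v w (right_ne_zero_of_mul (left_ne_zero_of_mul h0))
    obtain ⟨c1, c2, -⟩ := hsupp k w u (right_ne_zero_of_mul h0)
    have e1 : ww u.1 n = ww v.1 n := ww_eq_of_dd u.2 v.2 (by rw [a1])
    have e2 : ww w.1 n = ww u.1 n := ww_eq_of_dd w.2 u.2 (by rw [c1])
    refine term_small G u (hnorm i u v) (hnorm j v w) (hnorm k w u) ?_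
    have d1 : D6 n i = 3 * (dg (fs i).1 n + dg (sn i).1 n) - 2 * ww (fs i).1 n := rfl
    have d2 : D6 n j = 3 * (dg (fs j).1 n + dg (sn j).1 n) - 2 * ww (fs j).1 n := rfl
    have d3 : D6 n k = 3 * (dg (fs k).1 n + dg (sn k).1 n) - 2 * ww (fs k).1 n := rfl
    omega

end Pool.Agent.P.MP_e72dc0_lc.Sn
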