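import Pool.Agent.P.MP_e72dc0_lc.Sn.Rep

/-! Pairs (matrix in the integral Hecke algebra, its reduction in the group algebra). -/

namespace Pool.Agent.P.MP_e72dc0_lc.Sn

open Finset
open scoped Classical

abbrev GA (n : ℕ) := MonoidAlgebra (ZMod 2) (Equiv.Perm (Fin n))

/-- `Lift q n M x`: the matrix `M` and the group algebra element `x` are given by the same
integral expression in the generators. -/
inductive Lift (q : ℚ_[2]) (n : ℕ) : Mat n → GA n → Prop
  | one : Lift q n 1 1
  | gen (r : ℕ) (h : r + 1 < n) : Lift q n (Tm q n r)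
      (MonoidAlgebra.single (Equiv.swap ⟨r, Nat.lt_of_succ_lt h⟩ ⟨r + 1, h⟩) 1)
  | mul {M M' : Mat n} {x x' : GA n} : Lift q n M x → Lift q n M' x' → Lift q n (M * M') (x * x')
  | add {M M' : Mat n} {x x' : GA n} : Lift q n M x → Lift q n M' x' → Lift q n (M + M') (x + x')
  | smul (a : ℤ_[2]) {M : Mat n} {x : GA n} : Lift q n M x →
      Lift q n ((a : ℚ_[2]) • M) (PadicInt.toZMod a • x)

end Pool.Agent.P.MP_e72dc0_lc.Sn
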