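import Pool.Agent.P.MP_e72dc0_lc.Sn.Lift

/-! The trace form is integral and reduces to the coefficient of the identity. -/

namespace Pool.Agent.P.MP_e72dc0_lc.Sn

open Finset
open scoped Classical

namespace PairAux

section Span

variable {A R : Type*} [CommRing A] [Ring R] (φ : A →+* R) (g : ℕ → R)

/-- The subring generated by the scalars and the first generators. -/
inductive Q (j : ℕ) : R → Prop
  | scal (a : A) : Q j (φ a)
  | gen (r : ℕ) (h : r + 1 < j) : Q j (g r)
  | mul {x y : R} : Q j x → Q j y → Q j (x * y)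
  | add {x y : R} : Q j x → Q j y → Q j (x + y)

/-- The double coset span. -/
inductive W (j : ℕ) : R → Prop
  | base {x : R} : Q φ g (j + 1) x → W j x
  | term {a b : R} : Q φ g (j + 1) a → Q φ g (j + 1) b → W j (a * g j * b)
  | add {x y : R} : W j x → W j y → W j (x + y)

variable {φ g}

lemma Q.one (j : ℕ) : Q φ g j 1 := by simpa using Q.scal (φ := φ) (g := g) (j := j) 1

lemma Q.mono {j k : ℕ} (h : j ≤ k) {x : R} (hx : Q φ g j x) : Q φ g k x := by
  induction hx with
  | scal a => exact .scal a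
  | gen r hr => exact .gen r (by omega)
  | mul _ _ a b => exact .mul a b
  | add _ _ a b => exact .add a b

lemma Q.zero_of_one {x : R} (hx : Q φ g 1 x) : Q φ g 0 x := by
  induction hx with
  | scal a => exact .scal a
  | gen r hr => omega
  | mul _ _ a b => exact .mul a b
  | add _ _ a b => exact .add a b

lemma W.mul_right {j : ℕ} {z c : R} (hz : W φ g j z) (hc : Q φ g (j + 1) c) :
    W φ g j (z * c) := by
  induction hz with
  | base h => exact .base (h.mul hc)
  | term a b => rw [mul_assoc]; exact .term a (b.mul hc)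
  | add _ _ a b => rw [add_mul]; exact .add a b

lemma W.mul_left {j : ℕ} {z c : R} (hz : W φ g j z) (hc : Q φ g (j + 1) c) :
    W φ g j (c * z) := by
  induction hz with
  | base h => exact .base (hc.mul h)
  | term a b => rw [← mul_assoc, ← mul_assoc]; exact .term (hc.mul a) b
  | add _ _ a b => rw [mul_add]; exact .add a b

variable {n : ℕ} (hφ : ∀ a z, φ a * z = z * φ a)
  (hq : ∀ r, r + 1 < n → ∃ a b, g r * g r = φ a * g r + φ b)
  (hc : ∀ r s, r + 2 ≤ s → s + 1 < n → g r * g s = g s * g r)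
  (hb : ∀ r, r + 2 < n → g r * g (r + 1) * g r = g (r + 1) * g r * g (r + 1))

include hφ hc in
lemma Q.comm {j : ℕ} (hj : j + 1 < n) {b : R} (h : Q φ g j b) : b * g j = g j * b := by
  induction h with
  | scal a => exact hφ a _
  | gen r hr => exact hc r j (by omega) hj
  | mul _ _ a b => rw [mul_assoc, b, ← mul_assoc, a, mul_assoc]
  | add _ _ a b => rw [add_mul, mul_add, a, b]

include hφ hq hc in
lemma W.conj_of_Q {j : ℕ} (hj : j + 1 < n) {b : R} (h : Q φ g j b) :
    W φ g j (g j * b * g j) := by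
  obtain ⟨a, c, e⟩ := hq j hj
  rw [← h.comm hφ hc hj, mul_assoc, e, mul_add, ← mul_assoc]
  have h' := h.mono (Nat.le_succ j)
  refine .add ?_ (.base (h'.mul (.scal c)))
  simpa using W.term (h'.mul (.scal a)) (Q.one (j + 1))

lemma span_of_conj {j : ℕ} (K : ∀ b, Q φ g (j + 1) b → W φ g j (g j * b * g j)) {z : R}
    (hz : Q φ g (j + 2) z) : W φ g j z := by
  have h1 : ∀ w, W φ g j w → W φ g j (w * g j) := by
    intro w hw
    induction hw with
    | base h => simpa using W.term h (Q.one (j + 1))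
    | term a b => simpa only [mul_assoc] using (K _ b).mul_left a
    | add _ _ a b => rw [add_mul]; exact .add a b
  have h2 : ∀ w, W φ g j w → W φ g j (w * z) := by
    induction hz with
    | scal a => exact fun w hw => hw.mul_right (.scal a)
    | gen r hr =>
      intro w hw
      rcases Nat.lt_or_ge (r + 1) (j + 1) with h | h
      · exact hw.mul_right (.gen r h)
      · obtain rfl : r = j := by omega
        exact h1 w hw
    | mul _ _ a b => exact fun w hw => by rw [← mul_assoc]; exact b _ (a w hw)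
    | add _ _ a b => exact fun w hw => by rw [mul_add]; exact .add (a w hw) (b w hw)
  simpa using h2 1 (.base (Q.one _))

include hφ hq hc hb in
lemma conj : ∀ j, j + 1 < n → ∀ b, Q φ g (j + 1) b → W φ g j (g j * b * g j)
  | 0, hj, b, h => W.conj_of_Q hφ hq hc hj h.zero_of_one
  | j + 1, hj, b, h => by
    have hw := span_of_conj (conj j (by omega)) h
    clear h
    induction hw with
    | base h => exact W.conj_of_Q hφ hq hc hj h
    | @term c d h1 h2 =>
      have e : g (j + 1) * (c * g j * d) * g (j + 1) = (c * g j) * g (j + 1) * (g j * d) := by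
        calc g (j + 1) * (c * g j * d) * g (j + 1)
            = (g (j + 1) * c) * g j * (d * g (j + 1)) := by simp only [mul_assoc]
          _ = c * (g (j + 1) * g j * g (j + 1)) * d := by
              rw [← h1.comm hφ hc hj, h2.comm hφ hc hj]; simp only [mul_assoc]
          _ = _ := by rw [← hb j hj]; simp only [mul_assoc]
      rw [e]
      exact .term ((h1.mono (Nat.le_succ _)).mul (.gen j (by omega)))
        ((Q.gen j (by omega)).mul (h2.mono (Nat.le_succ _)))
    | add _ _ a b => rw [mul_add, add_mul]; exact .add a b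

end Span

/-- The scalars. -/
noncomputable def ph (n : ℕ) : ℤ_[2] →+* Mat n × GA n :=
  RingHom.prod ((algebraMap ℚ_[2] (Mat n)).comp PadicInt.Coe.ringHom)
    ((algebraMap (ZMod 2) (GA n)).comp PadicInt.toZMod)

/-- The adjacent transpositions. -/
noncomputable def sr (n r : ℕ) : Equiv.Perm (Fin n) :=
  if h : r + 1 < n then Equiv.swap ⟨r, Nat.lt_of_succ_lt h⟩ ⟨r + 1, h⟩ else 1

/-- The generators. -/
noncomputable def gn (q : ℚ_[2]) (n r : ℕ) : Mat n × GA n :=
  (Tm q n r, MonoidAlgebra.single (sr n r) 1)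

variable {n : ℕ} {q : ℚ_[2]} {θ B : ℝ}

lemma ph_fst (a : ℤ_[2]) : (ph n a).1 = (a : ℚ_[2]) • (1 : Mat n) := by
  simp [ph, Algebra.algebraMap_eq_smul_one]

lemma ph_snd (a : ℤ_[2]) : (ph n a).2 = PadicInt.toZMod a • (1 : GA n) := by
  simp only [ph, RingHom.prod_apply, RingHom.comp_apply, Algebra.algebraMap_eq_smul_one]

lemma ph_comm (a : ℤ_[2]) (z : Mat n × GA n) : ph n a * z = z * ph n a := by
  ext1
  · simp only [Prod.fst_mul, ph_fst, smul_mul_assoc, mul_smul_comm, one_mul, mul_one]
  · simp only [Prod.snd_mul, ph_snd, smul_mul_assoc, mul_smul_comm, one_mul, mul_one]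

lemma sr_val {r : ℕ} (h : r + 1 < n) (i : Fin n) :
    (sr n r i : ℕ) = if (i : ℕ) = r then r + 1 else if (i : ℕ) = r + 1 then r else i := by
  simp only [sr, dif_pos h, Equiv.swap_apply_def, Fin.ext_iff]
  split_ifs <;> rfl

lemma gn_quad (G : Good n q θ B) (r : ℕ) (h : r + 1 < n) :
    ∃ a b, gn q n r * gn q n r = ph n a * gn q n r + ph n b := by
  have h0 : PadicInt.toZMod (⟨q - 1, G.q1.le⟩ : ℤ_[2]) = 0 := by
    rw [← RingHom.mem_ker, PadicInt.ker_toZMod, IsLocalRing.mem_maximalIdeal, PadicInt.mem_nonunits]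
    exact G.q1
  refine ⟨⟨q - 1, G.q1.le⟩, ⟨q - 1, G.q1.le⟩ + 1, ?_⟩
  ext1
  · simp only [Prod.fst_mul, Prod.fst_add, ph_fst, gn, G.T_quad h, smul_mul_assoc, one_mul]
    congr 2
    push_cast
    ring
  · simp only [Prod.snd_mul, Prod.snd_add, ph_snd, gn, map_add, h0, map_one, zero_smul, zero_mul,
      zero_add, one_smul, MonoidAlgebra.single_mul_single, sr, dif_pos h, Equiv.swap_mul_self,
      mul_one]
    rfl

lemma gn_comm (r s : ℕ) (h : r + 2 ≤ s) (hs : s + 1 < n) :
    gn q n r * gn q n s = gn q n s * gn q n r := by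
  ext1
  · exact Good.T_comm h hs
  · simp only [Prod.snd_mul, gn, MonoidAlgebra.single_mul_single]
    congr 1
    ext i
    simp only [Equiv.Perm.coe_mul, Function.comp, sr_val hs, sr_val (show r + 1 < n by omega)]
    split_ifs <;> omega

lemma gn_braid (G : Good n q θ B) (r : ℕ) (h : r + 2 < n) :
    gn q n r * gn q n (r + 1) * gn q n r = gn q n (r + 1) * gn q n r * gn q n (r + 1) := by
  ext1
  · exact G.T_braid h
  · simp only [Prod.snd_mul, gn, MonoidAlgebra.single_mul_single]
    congr 1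
    ext i
    simp only [Equiv.Perm.coe_mul, Function.comp, sr_val (show r + 1 + 1 < n from h),
      sr_val (show r + 1 < n by omega)]
    split_ifs <;> omega

lemma tau_comm (G : Good n q θ B) {j : ℕ} (hj : j ≤ n) {b : Mat n × GA n}
    (h : Q (ph n) (gn q n) j b) (M : Mat n) : tau q (M * b.1) = tau q (b.1 * M) := by
  induction h generalizing M with
  | scal a => simp only [ph_fst, smul_mul_assoc, mul_smul_comm, one_mul, mul_one]
  | gen r hr => exact G.tau_T_comm (by omega) M
  | mul _ _ a b => rw [Prod.fst_mul, ← mul_assoc, b, ← mul_assoc, a, ← mul_assoc]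
  | add _ _ a b => rw [Prod.fst_add, mul_add, add_mul, tau_add, tau_add, a, b]

lemma loc_of_Q {j : ℕ} (hj : j ≤ n) {b : Mat n × GA n} (h : Q (ph n) (gn q n) j b) :
    Loc j b.1 := by
  induction h with
  | scal a => rw [ph_fst]; exact loc_scalar _
  | gen r hr => exact loc_T q (by omega) hr
  | mul _ _ a b => exact a.mul b
  | add _ _ a b => exact a.add b

lemma exists_of_coeff_mul {x y : GA n} {m : Equiv.Perm (Fin n)} (h : (x * y).coeff m ≠ 0) :
    ∃ a b, x.coeff a ≠ 0 ∧ y.coeff b ≠ 0 ∧ a * b = m := by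
  rw [MonoidAlgebra.coeff_mul_apply_left] at h
  obtain ⟨a, -, ha⟩ := exists_ne_zero_of_sum_ne_zero h
  exact ⟨a, a⁻¹ * m, left_ne_zero_of_mul ha, right_ne_zero_of_mul ha, by simp⟩

lemma eq_of_coeff_single {s m : Equiv.Perm (Fin n)}
    (h : (MonoidAlgebra.single s (1 : ZMod 2) : GA n).coeff m ≠ 0) : m = s := by
  rw [MonoidAlgebra.coeff_single] at h
  exact (Finsupp.single_apply_ne_zero.1 h).1

lemma fix_of_Q {j : ℕ} (hj : j ≤ n) {b : Mat n × GA n} (h : Q (ph n) (gn q n) j b) :
    ∀ m, b.2.coeff m ≠ 0 → ∀ i : Fin n, j ≤ (i : ℕ) → m i = i := by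
  induction h with
  | scal a =>
    intro m hm i _
    rw [ph_snd, MonoidAlgebra.coeff_smul_apply] at hm
    rw [eq_of_coeff_single (s := 1) (right_ne_zero_of_smul hm)]
    rfl
  | gen r hr =>
    intro m hm i hi
    rw [eq_of_coeff_single hm]
    ext
    rw [sr_val (by omega)]
    split_ifs <;> omega
  | mul _ _ a b =>
    intro m hm i hi
    obtain ⟨u, v, hu, hv, rfl⟩ := exists_of_coeff_mul hm
    rw [Equiv.Perm.mul_apply, b v hv i hi, a u hu i hi]
  | @add x y _ _ a b =>
    intro m hm i hi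
    by_cases hx : x.2.coeff m = 0
    · refine b m (fun hy => hm ?_) i hi
      rw [Prod.snd_add, MonoidAlgebra.coeff_add, Finsupp.add_apply, hx, hy, add_zero]
    · exact a m hx i hi

/-- The trace is integral with the right residue. -/
def Tr (q : ℚ_[2]) (z : Mat n × GA n) : Prop :=
  ∃ o : ℤ_[2], tau q z.1 = o ∧ PadicInt.toZMod o = z.2.coeff 1

lemma Tr.add {x y : Mat n × GA n} (a : Tr q x) (b : Tr q y) : Tr q (x + y) := by
  obtain ⟨o, h1, h2⟩ := a
  obtain ⟨o', h3, h4⟩ := b
  refine ⟨o + o', ?_, ?_⟩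
  · rw [Prod.fst_add, tau_add, h1, h3]; push_cast; rfl
  · rw [map_add, h2, h4]; rfl

lemma scal_of_Q0 {z : Mat n × GA n} (h : Q (ph n) (gn q n) 0 z) : ∃ a, z = ph n a := by
  induction h with
  | scal a => exact ⟨a, rfl⟩
  | gen r hr => omega
  | mul _ _ a b =>
    obtain ⟨u, rfl⟩ := a
    obtain ⟨v, rfl⟩ := b
    exact ⟨u * v, (map_mul _ _ _).symm⟩
  | add _ _ a b =>
    obtain ⟨u, rfl⟩ := a
    obtain ⟨v, rfl⟩ := b
    exact ⟨u + v, (map_add _ _ _).symm⟩

lemma tr_zero (G : Good n q θ B) {z : Mat n × GA n} (h : Q (ph n) (gn q n) 0 z) : Tr q z := by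
  obtain ⟨a, rfl⟩ := scal_of_Q0 h
  refine ⟨a, by rw [ph_fst, tau_smul, G.tau_one, mul_one], ?_⟩
  rw [ph_snd, MonoidAlgebra.coeff_smul_apply, MonoidAlgebra.one_def, MonoidAlgebra.coeff_single]
  simp

lemma tr_succ (G : Good n q θ B) : ∀ j, j + 1 ≤ n → ∀ z, Q (ph n) (gn q n) (j + 1) z → Tr q z
  | 0, _, z, h => tr_zero G h.zero_of_one
  | j + 1, hj, z, h => by
    have hw := span_of_conj (conj ph_comm (gn_quad G) gn_comm (gn_braid G) j hj) h
    clear h
    induction hw with
    | base h => exact tr_succ G j (by omega) _ h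
    | @term a b h1 h2 =>
      refine ⟨0, ?_, ?_⟩
      · rw [Prod.fst_mul, tau_comm G (by omega) h2, Prod.fst_mul, ← mul_assoc]
        exact G.tau_loc_T hj (loc_of_Q (by omega) (h2.mul h1))
      · rw [map_zero]
        by_contra h0
        obtain ⟨u, v, hu, hv, e⟩ := exists_of_coeff_mul (Ne.symm h0)
        obtain ⟨u', s, hu', hs, rfl⟩ := exists_of_coeff_mul hu
        rw [eq_of_coeff_single hs] at e
        have e1 := congrArg (fun m : Equiv.Perm (Fin n) => m ⟨j + 1, hj⟩) e
        simp only [Equiv.Perm.mul_apply, Equiv.Perm.one_apply] at e1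
        rw [fix_of_Q (by omega) h2 v hv _ le_rfl] at e1
        have e2 := u'.injective (e1.trans (fix_of_Q (by omega) h1 u' hu' ⟨j + 1, hj⟩ le_rfl).symm)
        have e3 := congrArg Fin.val e2
        rw [sr_val hj] at e3
        simp at e3
    | add _ _ a b => exact a.add b

lemma Q_of_lift {M : Mat n} {x : GA n} (h : Lift q n M x) : Q (ph n) (gn q n) n (M, x) := by
  induction h with
  | one => exact Q.one n
  | gen r h =>
    have := Q.gen (φ := ph n) (g := gn q n) r h
    simpa only [gn, sr, dif_pos h] using this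
  | mul _ _ a b => exact a.mul b
  | add _ _ a b => exact a.add b
  | @smul a M x _ b =>
    have := (Q.scal a).mul b
    convert this using 1
    ext1
    · simp only [Prod.fst_mul, ph_fst, smul_mul_assoc, one_mul]
    · simp only [Prod.snd_mul, ph_snd, smul_mul_assoc, one_mul]

end PairAux

theorem Good.lift_tau {n : ℕ} {q : ℚ_[2]} {θ B : ℝ} (G : Good n q θ B) {M : Mat n} {x : GA n}
    (h : Lift q n M x) : ∃ o : ℤ_[2], tau q M = o ∧ PadicInt.toZMod o = x.coeff 1 := by
  have hQ := PairAux.Q_of_lift h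
  rcases n with _ | m
  · exact PairAux.tr_zero G hQ
  · exact PairAux.tr_succ G m le_rfl _ hQ

end Pool.Agent.P.MP_e72dc0_lc.Sn
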