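import Mathlib

/-! Quantum integers at a 2-adic parameter very close to `-1`. -/

namespace Pool.Agent.P.MP_e72dc0_lc.Sn

open Finset

/-- The quantum integer. -/
noncomputable def br (q : ℚ_[2]) (c : ℤ) : ℚ_[2] := (q ^ c - 1) / (q - 1)

structure Good (n : ℕ) (q : ℚ_[2]) (θ B : ℝ) : Prop where
  q1 : ‖q - 1‖ < 1
  qn : ‖q‖ = 1
  ne : ∀ c : ℤ, c ≠ 0 → q ^ c ≠ 1
  odd : ∀ c : ℤ, c % 2 = 1 → ‖br q c‖ = 1
  even_le : ∀ c : ℤ, c % 2 = 0 → ‖br q c‖ ≤ θ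
  even_ge : ∀ c : ℤ, c % 2 = 0 → c ≠ 0 → |c| ≤ 2 * n + 2 → θ / B ≤ ‖br q c‖
  θpos : 0 < θ
  θle : θ ≤ 1
  B1 : 1 ≤ B
  small : θ * B ^ (20 * n ^ 2 + 20) < 1

lemma norm_nat_ge {m : ℕ} (hm : m ≠ 0) : (1 : ℝ) / m ≤ ‖(m : ℚ_[2])‖ := by
  have h0 : (m : ℚ_[2]) ≠ 0 := by exact_mod_cast hm
  rw [Padic.norm_eq_zpow_neg_valuation h0, Padic.valuation_natCast, zpow_neg, zpow_natCast,
    one_div]
  have h1 : 2 ^ padicValNat 2 m ≤ m := Nat.le_of_dvd (Nat.pos_of_ne_zero hm) pow_padicValNat_dvd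
  have h2 : ((2 : ℕ) : ℝ) ^ padicValNat 2 m ≤ m := by exact_mod_cast h1
  exact inv_anti₀ (by positivity) h2

lemma one_add_pow_expand (w : ℚ_[2]) (hw : ‖w‖ ≤ 1) (m : ℕ) :
    ∃ z : ℚ_[2], ‖z‖ ≤ 1 ∧ (1 + w) ^ m = 1 + m * w + w ^ 2 * z := by
  induction m with
  | zero => exact ⟨0, by simp, by simp⟩
  | succ m ih =>
    obtain ⟨z, hz, h⟩ := ih
    refine ⟨m + z + w * z, ?_, ?_⟩
    · have h1 : ‖(m : ℚ_[2])‖ ≤ 1 := by exact_mod_cast Padic.norm_int_le_one (p := 2) (m : ℤ)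
      have h2 : ‖w * z‖ ≤ 1 := by rw [norm_mul]; exact mul_le_one₀ hw (norm_nonneg _) hz
      exact (Padic.nonarchimedean _ _).trans
        (max_le ((Padic.nonarchimedean _ _).trans (max_le h1 hz)) h2)
    · rw [pow_succ, h]; push_cast; ring

lemma norm_add_eq_left {a b : ℚ_[2]} (h : ‖b‖ < ‖a‖) : ‖a + b‖ = ‖a‖ := by
  rw [Padic.add_eq_max_of_ne h.ne', max_eq_left h.le]

lemma norm_zpow_neg_sub {q : ℚ_[2]} (hq : ‖q‖ = 1) (c : ℤ) :
    ‖q ^ (-c) - 1‖ = ‖q ^ c - 1‖ := by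
  have h0 : q ≠ 0 := by intro h; rw [h] at hq; simp at hq
  have : q ^ (-c) - 1 = -(q ^ (-c)) * (q ^ c - 1) := by
    rw [zpow_neg]; field_simp; ring
  rw [this, norm_mul, norm_neg, norm_zpow, hq, one_zpow, one_mul]

theorem exists_good (n : ℕ) : ∃ q θ B, Good n q θ B := by
  set B : ℝ := n + 1 with hB
  have hB1 : 1 ≤ B := by rw [hB]; linarith [Nat.cast_nonneg (α := ℝ) n]
  obtain ⟨N0, hN0⟩ := pow_unbounded_of_one_lt (B ^ (20 * n ^ 2 + 20)) (one_lt_two (α := ℝ))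
  set N := N0 + 2 with hN
  set e : ℚ_[2] := (2 : ℚ_[2]) ^ N with he
  set θ : ℝ := ((2 : ℝ) ^ N)⁻¹ with hθ
  have hθ0 : 0 < θ := by positivity
  have h2 : ‖(2 : ℚ_[2])‖ = 2⁻¹ := by exact_mod_cast Padic.norm_p (p := 2)
  have hen : ‖e‖ = θ := by rw [he, norm_pow, h2, inv_pow]
  have hθ4 : θ ≤ 4⁻¹ := by
    rw [hθ, hN, pow_add]
    have : (1 : ℝ) ≤ 2 ^ N0 := one_le_pow₀ one_le_two
    exact inv_anti₀ (by norm_num) (by nlinarith)
  have hsmall : θ * B ^ (20 * n ^ 2 + 20) < 1 := by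
    rw [hθ, inv_mul_lt_iff₀ (by positivity), mul_one, hN, pow_add (2 : ℝ)]
    have : (0 : ℝ) < 2 ^ N0 := by positivity
    nlinarith
  have hθB : θ * B < 1 := by
    refine lt_of_le_of_lt (mul_le_mul_of_nonneg_left ?_ hθ0.le) hsmall
    exact le_self_pow₀ hB1 (by omega)
  set q : ℚ_[2] := -1 + e with hq
  have hq1 : ‖q - 1‖ = 2⁻¹ := by
    have : q - 1 = -2 + e := by rw [hq]; ring
    rw [this, norm_add_eq_left, norm_neg, h2]
    rw [norm_neg, h2, hen]; linarith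
  have hqn : ‖q‖ = 1 := by
    rw [hq, norm_add_eq_left, norm_neg, norm_one]
    rw [norm_neg, norm_one, hen]; linarith
  set w : ℚ_[2] := e * (q - 1) with hw
  have hwn : ‖w‖ = θ * 2⁻¹ := by rw [hw, norm_mul, hen, hq1]
  have hqq : q ^ 2 = 1 + w := by rw [hw, hq]; ring
  have hw1 : ‖w‖ ≤ 1 := by rw [hwn]; linarith
  have hw0 : 0 < ‖w‖ := by rw [hwn]; positivity
  have heven_le : ∀ m : ℕ, ‖q ^ (2 * m) - 1‖ ≤ ‖w‖ := by
    intro m
    obtain ⟨z, hz, h⟩ := one_add_pow_expand w hw1 m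
    have : q ^ (2 * m) - 1 = w * (m + w * z) := by rw [pow_mul, hqq, h]; ring
    rw [this, norm_mul]
    have h1 : ‖(m : ℚ_[2])‖ ≤ 1 := by exact_mod_cast Padic.norm_int_le_one (p := 2) (m : ℤ)
    have h3 : ‖w * z‖ ≤ 1 := by rw [norm_mul]; exact mul_le_one₀ hw1 (norm_nonneg _) hz
    exact mul_le_of_le_one_right hw0.le ((Padic.nonarchimedean _ _).trans (max_le h1 h3))
  have heven_ge : ∀ m : ℕ, m ≠ 0 → m ≤ n + 1 → ‖w‖ / B ≤ ‖q ^ (2 * m) - 1‖ := by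
    intro m hm hmn
    obtain ⟨z, hz, h⟩ := one_add_pow_expand w hw1 m
    have : q ^ (2 * m) - 1 = w * (m + w * z) := by rw [pow_mul, hqq, h]; ring
    have h1 : 1 / B ≤ ‖(m : ℚ_[2])‖ := by
      refine le_trans ?_ (norm_nat_ge hm)
      have : (m : ℝ) ≤ B := by rw [hB]; exact_mod_cast hmn
      exact one_div_le_one_div_of_le (by positivity) this
    have h3 : ‖w * z‖ < 1 / B := by
      rw [norm_mul, lt_div_iff₀ (by positivity)]
      have : ‖w‖ * ‖z‖ ≤ θ := by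
        rw [hwn]; nlinarith [norm_nonneg z]
      nlinarith
    rw [this, norm_mul w, norm_add_eq_left (h3.trans_le h1), div_eq_mul_one_div]
    exact mul_le_mul_of_nonneg_left h1 hw0.le
  have hodd : ∀ m : ℕ, ‖q ^ (2 * m + 1) - 1‖ = 2⁻¹ := by
    intro m
    have : q ^ (2 * m + 1) - 1 = (q - 1) + q * (q ^ (2 * m) - 1) := by ring
    rw [this, norm_add_eq_left, hq1]
    rw [norm_mul, hqn, one_mul, hq1]
    refine (heven_le m).trans_lt ?_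
    rw [hwn]; linarith
  have habs : ∀ c : ℤ, ‖q ^ c - 1‖ = ‖q ^ c.natAbs - 1‖ := by
    intro c
    rcases Int.natAbs_eq c with h | h
    · conv_lhs => rw [h, zpow_natCast]
    · conv_lhs => rw [h, norm_zpow_neg_sub hqn, zpow_natCast]
  have hbr : ∀ c : ℤ, ‖br q c‖ = ‖q ^ c.natAbs - 1‖ * 2 := by
    intro c
    rw [br, norm_div, habs, hq1]; ring
  refine ⟨q, θ, B, ⟨by rw [hq1]; norm_num, hqn, ?_, ?_, ?_, ?_, hθ0, by linarith, hB1, hsmall⟩⟩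
  · intro c hc h1
    have hqz : q = ((2 ^ N - 1 : ℚ) : ℚ_[2]) := by rw [hq, he]; push_cast; ring
    rw [hqz, ← Rat.cast_zpow] at h1
    replace h1 : (2 ^ N - 1 : ℚ) ^ c = 1 := by exact_mod_cast h1
    have h3 : (1 : ℚ) < 2 ^ N - 1 := by
      rw [hN, pow_add]
      have : (1 : ℚ) ≤ 2 ^ N0 := one_le_pow₀ one_le_two
      nlinarith
    exact hc ((zpow_eq_one_iff_right₀ (by linarith) h3.ne').1 h1)
  · intro c hc
    obtain ⟨m, hm⟩ : ∃ m, c.natAbs = 2 * m + 1 := ⟨c.natAbs / 2, by omega⟩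
    rw [hbr, hm, hodd]; norm_num
  · intro c hc
    obtain ⟨m, hm⟩ : ∃ m, c.natAbs = 2 * m := ⟨c.natAbs / 2, by omega⟩
    rw [hbr, hm]
    have := heven_le m
    rw [hwn] at this; linarith
  · intro c hc hc0 hcn
    obtain ⟨m, hm⟩ : ∃ m, c.natAbs = 2 * m := ⟨c.natAbs / 2, by omega⟩
    rw [hbr, hm]
    have h5 : m ≤ n + 1 := by
      have : (c.natAbs : ℤ) = |c| := Int.natCast_natAbs c
      omega
    have := heven_ge m (by omega) h5
    rw [hwn] at this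
    have h6 : θ * 2⁻¹ / B * 2 = θ / B := by ring
    linarith

namespace Good

variable {n : ℕ} {q : ℚ_[2]} {θ B : ℝ} (G : Good n q θ B)
include G

lemma q0 : q ≠ 0 := by intro h; have := G.qn; rw [h] at this; simp at this

lemma q_ne_one : q - 1 ≠ 0 := by
  have := G.ne 1 one_ne_zero
  rw [zpow_one] at this
  exact sub_ne_zero.2 this

lemma zpow_ne {a b : ℤ} (h : a ≠ b) : q ^ a ≠ q ^ b := by
  intro e
  apply G.ne (a - b) (sub_ne_zero.2 h)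
  rw [zpow_sub₀ G.q0, e, div_self (zpow_ne_zero _ G.q0)]

lemma zpow_sub_ne {a b : ℤ} (h : a ≠ b) : q ^ a - q ^ b ≠ 0 := sub_ne_zero.2 (G.zpow_ne h)

lemma br_ne {c : ℤ} (h : c ≠ 0) : br q c ≠ 0 :=
  div_ne_zero (sub_ne_zero.2 (G.ne c h)) G.q_ne_one

lemma norm_br_pos {c : ℤ} (h : c ≠ 0) : 0 < ‖br q c‖ := norm_pos_iff.2 (G.br_ne h)

lemma norm_br_le (c : ℤ) : ‖br q c‖ ≤ 1 := by
  rcases Int.emod_two_eq_zero_or_one c with h | h
  · exact (G.even_le c h).trans G.θle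
  · exact (G.odd c h).le

lemma norm_qz (c : ℤ) : ‖q ^ c‖ = 1 := by rw [norm_zpow, G.qn, one_zpow]

lemma zpow_sub_zpow (a b : ℤ) : q ^ a - q ^ b = q ^ b * (q - 1) * br q (a - b) := by
  have h0 := G.q0
  have h1 := G.q_ne_one
  rw [br, zpow_sub₀ h0]
  have := zpow_ne_zero b h0
  field_simp

lemma br_sub (a b : ℤ) : br q a - br q b = q ^ b * br q (a - b) := by
  have h1 := G.q_ne_one
  have h2 := G.zpow_sub_zpow a b
  have : br q a - br q b = (q ^ a - q ^ b) / (q - 1) := by unfold br; field_simp; ring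
  rw [this, h2]; field_simp

lemma norm_br_sub (a b : ℤ) : ‖br q a - br q b‖ = ‖br q (a - b)‖ := by
  rw [G.br_sub, norm_mul, G.norm_qz, one_mul]

lemma norm_br_neg (c : ℤ) : ‖br q (-c)‖ = ‖br q c‖ := by
  rw [br, br, norm_div, norm_div, norm_zpow_neg_sub G.qn]

lemma norm_zpow_sub (a b : ℤ) : ‖q ^ a - q ^ b‖ = ‖q - 1‖ * ‖br q (a - b)‖ := by
  rw [G.zpow_sub_zpow, norm_mul, norm_mul, G.norm_qz, one_mul]

lemma Bpos : 0 < B := lt_of_lt_of_le one_pos G.B1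

lemma br_ge {c : ℤ} (h0 : c ≠ 0) (h : |c| ≤ 2 * n + 2) : θ / B ≤ ‖br q c‖ := by
  rcases Int.emod_two_eq_zero_or_one c with h1 | h1
  · exact G.even_ge c h1 h0 h
  · rw [G.odd c h1, div_le_one G.Bpos]; exact G.θle.trans G.B1

end Good

end Pool.Agent.P.MP_e72dc0_lc.Sn
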