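import Pool.Agent.P.MP_e72dc0_lc.Sn.Weights

/-! The seminormal representation of the Hecke algebra and its Markov trace. -/

namespace Pool.Agent.P.MP_e72dc0_lc.Sn

open Finset
open scoped Classical

abbrev Fn := (ℕ → ℤ) → ℚ_[2]
abbrev Mat (n : ℕ) := Matrix (Std n) (Std n) ℚ_[2]

/-- The formal operator on functions of all sequences. -/
noncomputable def Tf (q : ℚ_[2]) (r : ℕ) (f : Fn) : Fn :=
  fun t => aa q (t r) (t (r + 1)) * f t + bb q (t r) (t (r + 1)) * f (sw r t)

/-- The seminormal matrix. -/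
noncomputable def Tm (q : ℚ_[2]) (n r : ℕ) : Mat n := fun s t =>
  (if t = s then aa q (s.1 r) (s.1 (r + 1)) else 0)
    + (if t.1 = sw r s.1 then bb q (s.1 r) (s.1 (r + 1)) else 0)

def Compat {n : ℕ} (S : Fn → Fn) (M : Mat n) : Prop :=
  ∀ (f : Fn) (s : Std n), S f s.1 = ∑ t, M s t * f t.1

lemma bb_ne {q : ℚ_[2]} {c d : ℤ} (h : bb q c d ≠ 0) : 2 ≤ |c - d| := by
  by_contra hn
  exact h (if_neg hn)

lemma compat_T (q : ℚ_[2]) {n r : ℕ} (h : r + 1 < n) : Compat (Tf q r) (Tm q n r) := by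
  intro f s
  simp only [Tm, Tf, add_mul, sum_add_distrib, ite_mul, zero_mul, sum_ite_eq', mem_univ, if_true]
  congr 1
  by_cases hb : bb q (s.1 r) (s.1 (r + 1)) = 0
  · simp [hb]
  · rw [sum_eq_single ⟨sw r s.1, sw_mem s.2 h (bb_ne hb)⟩]
    · simp
    · intro t _ ht
      exact if_neg fun e => ht (Subtype.ext e)
    · simp

lemma Compat.mul {n : ℕ} {S S' : Fn → Fn} {M M' : Mat n} (h : Compat S M) (h' : Compat S' M') :
    Compat (fun f => S (S' f)) (M * M') := by
  intro f s
  beta_reduce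
  rw [h]
  simp only [Matrix.mul_apply, sum_mul, h' f, mul_sum, mul_assoc]
  exact sum_comm

lemma Compat.add {n : ℕ} {S S' : Fn → Fn} {M M' : Mat n} (h : Compat S M) (h' : Compat S' M') :
    Compat (fun f t => S f t + S' f t) (M + M') := by
  intro f s
  simp only [h f, h' f, Matrix.add_apply, add_mul, sum_add_distrib]

lemma Compat.smul {n : ℕ} {S : Fn → Fn} {M : Mat n} (h : Compat S M) (a : ℚ_[2]) :
    Compat (fun f t => a * S f t) (a • M) := by
  intro f s
  simp only [h f, Matrix.smul_apply, smul_eq_mul, mul_sum, mul_assoc]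

lemma compat_diag {n : ℕ} (g : Fn) :
    Compat (fun f t => g t * f t) (Matrix.diagonal fun s : Std n => g s.1) := by
  intro f s
  simp [Matrix.diagonal_apply]

lemma compat_one {n : ℕ} : Compat (fun f => f) (1 : Mat n) := by
  intro f s
  simp [Matrix.one_apply]

lemma Compat.entry {n : ℕ} {S : Fn → Fn} {M : Mat n} (h : Compat S M) (s t : Std n) :
    M s t = S (fun u => if u = t.1 then 1 else 0) s.1 := by
  rw [h]
  simp [Subtype.val_inj]

lemma Compat.ext {n : ℕ} {S S' : Fn → Fn} {M M' : Mat n} (h : Compat S M) (h' : Compat S' M')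
    (e : ∀ f t, t ∈ Std n → S f t = S' f t) : M = M' := by
  funext s t
  rw [h.entry, h'.entry, e _ _ s.2]

lemma sw_comm {r s : ℕ} (h : r + 2 ≤ s) (t : ℕ → ℤ) : sw r (sw s t) = sw s (sw r t) := by
  funext j
  simp only [sw]
  split_ifs <;> first | rfl | omega

lemma sw_braid (r : ℕ) (t : ℕ → ℤ) :
    sw r (sw (r + 1) (sw r t)) = sw (r + 1) (sw r (sw (r + 1) t)) := by
  funext j
  simp only [sw]
  split_ifs <;> first | rfl | omega

/-- Head of `c`, tail of `e`. -/
def glue (k : ℕ) (c e : ℕ → ℤ) : ℕ → ℤ := fun j => if j < k then c j else e j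

lemma glue_self (k : ℕ) (c : ℕ → ℤ) : glue k c c = c := by funext j; simp [glue]

lemma sw_glue {r k : ℕ} (h : r + 1 < k) (c e : ℕ → ℤ) :
    sw r (glue k c e) = glue k (sw r c) e := by
  funext j
  simp only [sw, glue]
  split_ifs <;> first | rfl | omega

/-- The matrix only acts on the first `k` positions. -/
def Loc {n : ℕ} (k : ℕ) (M : Mat n) : Prop :=
  ∃ S : Fn → Fn, Compat S M ∧ ∀ e f c, S f (glue k c e) = S (fun u => f (glue k u e)) c

lemma loc_T (q : ℚ_[2]) {n r k : ℕ} (h : r + 1 < n) (hk : r + 1 < k) : Loc k (Tm q n r) := by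
  refine ⟨Tf q r, compat_T q h, fun e f c => ?_⟩
  have e1 : glue k c e r = c r := if_pos (by omega)
  have e2 : glue k c e (r + 1) = c (r + 1) := if_pos hk
  simp only [Tf, e1, e2, sw_glue hk]

lemma Loc.mul {n k : ℕ} {M M' : Mat n} (h : Loc k M) (h' : Loc k M') : Loc k (M * M') := by
  obtain ⟨S, h1, h2⟩ := h
  obtain ⟨S', h3, h4⟩ := h'
  refine ⟨_, h1.mul h3, fun e f c => ?_⟩
  simp only [h2, h4]

lemma Loc.add {n k : ℕ} {M M' : Mat n} (h : Loc k M) (h' : Loc k M') : Loc k (M + M') := by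
  obtain ⟨S, h1, h2⟩ := h
  obtain ⟨S', h3, h4⟩ := h'
  refine ⟨_, h1.add h3, fun e f c => ?_⟩
  simp only [h2, h4]

lemma loc_scalar {n k : ℕ} (a : ℚ_[2]) : Loc k (a • (1 : Mat n)) :=
  ⟨_, compat_one.smul a, fun _ _ _ => rfl⟩

lemma Loc.offdiag {n k : ℕ} {M : Mat n} (h : Loc k M) {s t : Std n} (hk : s.1 k ≠ t.1 k) :
    M s t = 0 := by
  obtain ⟨S, h1, h2⟩ := h
  rw [h1.entry, ← glue_self k s.1, h2, h1]
  refine sum_eq_zero fun u _ => ?_
  rw [if_neg, mul_zero]
  intro e
  apply hk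
  rw [← e]; simp [glue]

lemma Loc.diag {n k : ℕ} {M : Mat n} (h : Loc k M) : ∃ g : Fn,
    (∀ s t : ℕ → ℤ, (∀ j < k, s j = t j) → g s = g t) ∧ ∀ s, M s s = g s.1 := by
  obtain ⟨S, h1, h2⟩ := h
  refine ⟨fun t => S (fun u => if glue k u 0 = glue k t 0 then 1 else 0) (glue k t 0),
    fun s t hst => ?_, fun s => ?_⟩
  · have : glue k s 0 = glue k t 0 := by
      funext j; simp only [glue]; split_ifs with hj
      · exact hst j hj
      · rfl
    simp only [this]
  · rw [h1.entry]
    conv_lhs => rw [← glue_self k s.1, h2]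
    beta_reduce
    rw [h2]
    congr 1
    funext u
    have e1 : glue k (glue k u 0) 0 = glue k u 0 := by
      funext j; simp only [glue]; split_ifs <;> rfl
    rw [e1]
    congr 1
    apply propext
    constructor
    · intro e
      funext j
      have := congrFun e j
      simp only [glue] at this ⊢
      split_ifs at this ⊢
      · exact this
      · rfl
    · intro e
      funext j
      have := congrFun e j
      simp only [glue] at this ⊢
      split_ifs at this ⊢
      · exact this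
      · rfl

/-- The trace form. -/
noncomputable def tau (q : ℚ_[2]) {n : ℕ} (M : Mat n) : ℚ_[2] := ∑ s, mw q n s.1 * M s s

lemma tau_add (q : ℚ_[2]) {n : ℕ} (M M' : Mat n) : tau q (M + M') = tau q M + tau q M' := by
  simp only [tau, Matrix.add_apply, mul_add, sum_add_distrib]

lemma tau_smul (q a : ℚ_[2]) {n : ℕ} (M : Mat n) : tau q (a • M) = a * tau q M := by
  simp only [tau, Matrix.smul_apply, smul_eq_mul, mul_sum, mul_left_comm]

lemma mw_update (q : ℚ_[2]) (m : ℕ) (t : ℕ → ℤ) (c : ℤ) :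
    mw q (m + 1) (Function.update t m c) = mw q m t * pw q (st t m) c := by
  unfold mw
  rw [prod_range_succ, st_update _ _ le_rfl, Function.update_self]
  congr 1
  refine prod_congr rfl fun k hk => ?_
  have := mem_range.1 hk
  rw [st_update _ _ this.le, Function.update_of_ne this.ne]

lemma Tm_ne {q : ℚ_[2]} {n r : ℕ} {s t : Std n} (h : Tm q n r s t ≠ 0) :
    t = s ∨ (t.1 = sw r s.1 ∧ 2 ≤ |s.1 r - s.1 (r + 1)|) := by
  by_contra hn
  push Not at hn
  apply h
  unfold Tm
  rw [if_neg hn.1, zero_add]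
  split_ifs with h1
  · exact if_neg (not_le.2 (hn.2 h1))
  · rfl

lemma sw_ne_self {n r : ℕ} {t : ℕ → ℤ} (ht : t ∈ Std n) (h : r + 1 < n) : t ≠ sw r t := by
  intro e
  have := congrFun e r
  rw [sw_fst] at this
  exact ne_succ ht h this

lemma Tm_diag (q : ℚ_[2]) {n r : ℕ} (h : r + 1 < n) (s : Std n) :
    Tm q n r s s = aa q (s.1 r) (s.1 (r + 1)) := by
  unfold Tm
  rw [if_pos rfl, if_neg (sw_ne_self s.2 h), add_zero]

lemma Tm_off (q : ℚ_[2]) {n r : ℕ} (h : r + 1 < n) {s t : Std n} (e : t.1 = sw r s.1) :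
    Tm q n r s t = bb q (s.1 r) (s.1 (r + 1)) := by
  unfold Tm
  rw [if_pos e, if_neg, zero_add]
  rintro rfl
  exact sw_ne_self t.2 h e

namespace Good

variable {n : ℕ} {q : ℚ_[2]} {θ B : ℝ} (G : Good n q θ B)
include G

lemma aa_add {c d : ℤ} (h : c ≠ d) : aa q c d + aa q d c = q - 1 := by
  have a1 := G.zpow_sub_ne h
  have a2 := G.zpow_sub_ne h.symm
  unfold aa; field_simp; ring

lemma bb_mul {c d : ℤ} (h : c ≠ d) : bb q c d * bb q d c = q + aa q c d * aa q d c := by
  have a1 := G.zpow_sub_ne h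
  have a2 := G.zpow_sub_ne h.symm
  have h0 := G.q0
  unfold bb aa
  rw [abs_sub_comm d c]
  split_ifs with h1
  · field_simp; ring
  · have : d = c + 1 ∨ c = d + 1 := by
      have := abs_lt.1 (not_le.1 h1); omega
    have h2 := G.q_ne_one
    have key : ∀ c : ℤ, (0 : ℚ_[2]) * 0 = q + (q - 1) * q ^ (c + 1) / (q ^ (c + 1) - q ^ c)
        * ((q - 1) * q ^ c / (q ^ c - q ^ (c + 1))) := by
      intro c
      have h3 := zpow_ne_zero c h0
      have e1 : q ^ (c + 1) - q ^ c = q ^ c * (q - 1) := by rw [zpow_add_one₀ h0]; ring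
      have e2 : q ^ c - q ^ (c + 1) = -(q ^ c * (q - 1)) := by rw [zpow_add_one₀ h0]; ring
      rw [e1, e2, zpow_add_one₀ h0]; field_simp; ring
    rcases this with rfl | rfl
    · exact key c
    · rw [mul_comm (_ / _)]; exact key d

lemma aa_tri {c d e : ℤ} (h1 : c ≠ d) (h2 : d ≠ e) (h3 : c ≠ e) :
    aa q c d * aa q d e + aa q c e * aa q d c = aa q d e * aa q c e ∧
    aa q d e * aa q c d + aa q c e * aa q e d = aa q c d * aa q c e := by
  have a1 := G.zpow_sub_ne h1
  have a2 := G.zpow_sub_ne h1.symm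
  have a3 := G.zpow_sub_ne h2
  have a4 := G.zpow_sub_ne h2.symm
  have a5 := G.zpow_sub_ne h3
  have a6 := G.zpow_sub_ne h3.symm
  unfold aa
  constructor <;> (field_simp; ring)

lemma aa_br {c d : ℤ} (h : c ≠ d) : aa q c d * br q c + aa q d c * br q d + 1 = 0 := by
  have a1 := G.zpow_sub_ne h
  have a2 := G.zpow_sub_ne h.symm
  have a3 := G.q_ne_one
  unfold aa br; field_simp; ring

lemma T_quad {r : ℕ} (h : r + 1 < n) :
    Tm q n r * Tm q n r = (q - 1) • Tm q n r + q • (1 : Mat n) := by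
  refine ((compat_T q h).mul (compat_T q h)).ext
    (((compat_T q h).smul _).add (compat_one.smul _)) fun f t ht => ?_
  have h1 := G.aa_add (ne_succ ht h)
  have h2 := G.bb_mul (ne_succ ht h)
  simp only [Tf, sw_fst, sw_snd, sw_sw]
  linear_combination (f t) * h2 + (aa q (t r) (t (r + 1)) * f t
    + bb q (t r) (t (r + 1)) * f (sw r t)) * h1

omit G in
lemma T_comm {r s : ℕ} (h : r + 2 ≤ s) (hs : s + 1 < n) :
    Tm q n r * Tm q n s = Tm q n s * Tm q n r := by
  have hr : r + 1 < n := by omega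
  refine ((compat_T q hr).mul (compat_T q hs)).ext
    ((compat_T q hs).mul (compat_T q hr)) fun f t _ => ?_
  simp only [Tf, sw_comm h, sw_ne t (show s ≠ r by omega) (show s ≠ r + 1 by omega),
    sw_ne t (show s + 1 ≠ r by omega) (show s + 1 ≠ r + 1 by omega),
    sw_ne t (show r ≠ s by omega) (show r ≠ s + 1 by omega),
    sw_ne t (show r + 1 ≠ s by omega) (show r + 1 ≠ s + 1 by omega)]
  ring

lemma T_braid {r : ℕ} (h : r + 2 < n) :
    Tm q n r * Tm q n (r + 1) * Tm q n r = Tm q n (r + 1) * Tm q n r * Tm q n (r + 1) := by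
  have hr : r + 1 < n := by omega
  refine (((compat_T q hr).mul (compat_T q h)).mul (compat_T q hr)).ext
    (((compat_T q h).mul (compat_T q hr)).mul (compat_T q h)) fun f t ht => ?_
  have n1 := ne_succ ht hr
  have n2 := ne_succ ht h
  have n3 := ne_succ_succ ht h
  have h1 := G.bb_mul n1
  have h2 := G.bb_mul n2
  obtain ⟨h3, h4⟩ := G.aa_tri n1 n2 n3
  have s1 : ∀ u : ℕ → ℤ, sw r u (r + 1 + 1) = u (r + 1 + 1) :=
    fun u => sw_ne u (by omega) (by omega)
  have s2 : ∀ u : ℕ → ℤ, sw (r + 1) u r = u r := fun u => sw_ne u (by omega) (by omega)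
  simp only [Tf, sw_fst, sw_snd, sw_sw, s1, s2, sw_braid]
  linear_combination (f t * aa q (t r) (t (r + 2))) * h1 - (f t * aa q (t r) (t (r + 2))) * h2
    + (f t * aa q (t r) (t (r + 1)) + f (sw r t) * bb q (t r) (t (r + 1))) * h3
    - (f t * aa q (t (r + 1)) (t (r + 2)) + f (sw (r + 1) t) * bb q (t (r + 1)) (t (r + 2))) * h4

lemma T_jm {r : ℕ} (h : r + 1 < n) :
    Tm q n r * (Matrix.diagonal fun s : Std n => br q (s.1 r)) * Tm q n r + Tm q n r
      = q • Matrix.diagonal fun s : Std n => br q (s.1 (r + 1)) := by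
  refine ((((compat_T q h).mul (compat_diag fun t => br q (t r))).mul (compat_T q h)).add
    (compat_T q h)).ext ((compat_diag fun t => br q (t (r + 1))).smul q) fun f t ht => ?_
  have h1 := G.aa_br (ne_succ ht h)
  have h2 := G.bb_mul (ne_succ ht h)
  simp only [Tf, sw_fst, sw_snd, sw_sw]
  linear_combination (f t * br q (t (r + 1))) * h2 + (aa q (t r) (t (r + 1)) * f t
    + bb q (t r) (t (r + 1)) * f (sw r t)) * h1

lemma tau_T_comm {r : ℕ} (h : r + 1 < n) (M : Mat n) :
    tau q (M * Tm q n r) = tau q (Tm q n r * M) := by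
  simp only [tau, Matrix.mul_apply, mul_sum]
  rw [sum_comm]
  refine sum_congr rfl fun s _ => sum_congr rfl fun t _ => ?_
  by_cases h0 : Tm q n r s t = 0
  · simp [h0]
  rcases Tm_ne h0 with rfl | ⟨e, h2⟩
  · ring
  · rw [e, G.mw_sw _ h h2]; ring

lemma sum_reduce {j m : ℕ} (hjm : j ≤ m) (g : Fn)
    (hg : ∀ s t : ℕ → ℤ, (∀ i < j, s i = t i) → g s = g t) :
    ∑ t ∈ Std m, mw q m t * g t = ∑ t ∈ Std j, mw q j t * g t := by
  induction m, hjm using Nat.le_induction with
  | base => rfl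
  | succ m hm ih =>
    rw [sum_Std_succ, ← ih]
    refine sum_congr rfl fun t ht => ?_
    have : ∀ c, g (Function.update t m c) = g t :=
      fun c => hg _ _ fun i hi => Function.update_of_ne (by omega) _ _
    simp only [mw_update, this]
    rw [← sum_mul, ← mul_sum, G.sum_pw (valid_st ht le_rfl), mul_one]

lemma tau_one : tau q (1 : Mat n) = 1 := by
  have := G.sum_reduce (Nat.zero_le n) (fun _ => 1) fun _ _ _ => rfl
  simp only [tau, Matrix.one_apply_eq]
  rw [sum_coe_sort (Std n) fun t => mw q n t * 1, this]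
  simp [Std, mw]

lemma tau_loc_T {j : ℕ} (h : j + 1 < n) {M : Mat n} (hM : Loc (j + 1) M) :
    tau q (M * Tm q n j) = 0 := by
  obtain ⟨g, hg, hd⟩ := hM.diag
  have e1 : ∀ s : Std n, (M * Tm q n j) s s = g s.1 * aa q (s.1 j) (s.1 (j + 1)) := by
    intro s
    rw [Matrix.mul_apply, sum_eq_single s, hd, Tm_diag q h]
    · intro t _ hts
      by_cases h0 : Tm q n j t s = 0
      · rw [h0, mul_zero]
      rcases Tm_ne h0 with e | ⟨e, -⟩
      · exact absurd e.symm hts
      · rw [hM.offdiag, zero_mul]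
        rw [e, sw_snd]
        exact ne_succ t.2 h
    · simp
  simp only [tau, e1]
  rw [sum_coe_sort (Std n) fun t => mw q n t * (g t * aa q (t j) (t (j + 1))),
    G.sum_reduce (j := j + 1 + 1) h (fun t => g t * aa q (t j) (t (j + 1))), sum_Std_succ]
  · refine sum_eq_zero fun t ht => ?_
    have e2 : ∀ c, g (Function.update t (j + 1) c) = g t :=
      fun c => hg _ _ fun i hi => Function.update_of_ne (by omega) _ _
    simp only [mw_update, e2, Function.update_self,
      Function.update_of_ne (show j ≠ j + 1 by omega)]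
    have e3 := G.sum_pw_aa (valid_st ht le_rfl) (hh_last ht (k := j) (by omega))
    calc _ = mw q (j + 1) t * g t * ∑ c ∈ add (st t (j + 1)), pw q (st t (j + 1)) c * aa q (t j) c := by
          rw [mul_sum]; exact sum_congr rfl fun c _ => by ring
      _ = 0 := by rw [e3, mul_zero]
  · intro s t hst
    rw [hg s t fun i hi => hst i (by omega), hst j (by omega), hst (j + 1) (by omega)]

end Good

end Pool.Agent.P.MP_e72dc0_lc.Sn
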