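import Pool.Agent.P.MP_e72dc0_lc.Sn.Comb
import Pool.Agent.P.MP_e72dc0_lc.Sn.QNum

/-! Multiplicative pairing with `hh`, transition weights and the Markov trace identities. -/

namespace Pool.Agent.P.MP_e72dc0_lc.Sn

open Finset
open scoped Classical

section lamM

variable {K : Type*} [Field K]

/-- The multiplicative version of `Lam`. -/
def LamM (μ : Multiset ℤ) (f : ℤ → K) : K :=
  f 0 * (μ.map fun b => f (b - 1) * f (b + 1) / f b ^ 2).prod

@[simp] lemma LamM_zero (f : ℤ → K) : LamM 0 f = f 0 := by simp [LamM]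

lemma LamM_cons (μ : Multiset ℤ) (b : ℤ) (f : ℤ → K) :
    LamM (b ::ₘ μ) f = LamM μ f * (f (b - 1) * f (b + 1) / f b ^ 2) := by
  simp only [LamM, Multiset.map_cons, Multiset.prod_cons]; ring

lemma LamM_mul (μ : Multiset ℤ) (f g : ℤ → K) :
    LamM μ (fun x => f x * g x) = LamM μ f * LamM μ g := by
  induction μ using Multiset.induction_on with
  | empty => simp
  | cons b μ ih => simp only [LamM_cons, ih]; ring

lemma LamM_one (μ : Multiset ℤ) : LamM μ (fun _ => (1 : K)) = 1 := by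
  induction μ using Multiset.induction_on with
  | empty => simp
  | cons b μ ih => simp only [LamM_cons, ih]; simp

lemma LamM_zpow (μ : Multiset ℤ) {a : K} (ha : a ≠ 0) (e : ℤ → ℤ) :
    LamM μ (fun x => a ^ e x) = a ^ Lam μ e := by
  induction μ using Multiset.induction_on with
  | empty => simp
  | cons b μ ih =>
    rw [LamM_cons, ih, Lam_cons, zpow_add₀ ha, zpow_sub₀ ha, zpow_add₀ ha, mul_comm 2 (e b),
      zpow_mul]
    norm_cast

lemma LamM_neg (μ : Multiset ℤ) (f : ℤ → K) :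
    LamM (μ.map Neg.neg) f = LamM μ fun x => f (-x) := by
  induction μ using Multiset.induction_on with
  | empty => simp
  | cons b μ ih =>
    rw [Multiset.map_cons, LamM_cons, LamM_cons, ih, mul_comm (f (-b - 1))]
    congr 4 <;> ring

lemma LamM_eq_prod (μ : Multiset ℤ) (f : ℤ → K) (hf : ∀ x, f x ≠ 0) (W : Finset ℤ)
    (hW : supp3 μ ⊆ W) : LamM μ f = ∏ c ∈ W, f c ^ hh μ c := by
  induction μ using Multiset.induction_on with
  | empty =>
    rw [LamM_zero, prod_eq_single_of_mem 0 (hW (zero_mem_supp3 _))]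
    · simp [hh_zero]
    · intro b _ hb; simp [hh_zero, hb]
  | cons b μ ih =>
    obtain ⟨h1, h2, h3⟩ := mem_supp3_cons μ b
    rw [LamM_cons, ih ((supp3_cons_subset μ b).trans hW)]
    have e : ∀ c, f c ^ hh (b ::ₘ μ) c = f c ^ hh μ c * (if c = b + 1 then f c else 1)
        * (if c = b - 1 then f c else 1) * (if c = b then (f c ^ 2)⁻¹ else 1) := by
      intro c
      rw [hh_cons, zpow_sub₀ (hf c), zpow_add₀ (hf c), zpow_add₀ (hf c)]
      split_ifs <;> simp [div_eq_mul_inv, zpow_ofNat]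
    simp only [e, prod_mul_distrib, prod_ite_eq', if_pos (hW h1), if_pos (hW h2), if_pos (hW h3)]
    ring

lemma LamM_valid {μ : Multiset ℤ} (h : Valid μ) (f : ℤ → K) (hf : ∀ x, f x ≠ 0) :
    LamM μ f = (∏ c ∈ add μ, f c) * (∏ c ∈ rem μ, f c)⁻¹ := by
  rw [LamM_eq_prod μ f hf _ subset_rfl]
  have e : ∀ c, f c ^ hh μ c
      = (if hh μ c = 1 then f c else 1) * (if hh μ c = -1 then (f c)⁻¹ else 1) := by
    intro c
    rcases h.hh_cases c with h1 | h1 | h1 <;> simp [h1]
  simp only [e, prod_mul_distrib]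
  rw [← prod_filter, ← prod_filter, prod_inv_distrib]
  congr 3
  ext c
  rw [mem_rem, mem_filter]
  exact ⟨fun h => h.2, fun h => ⟨mem_supp3_of_ne (by omega), h⟩⟩

lemma Lam_const (μ : Multiset ℤ) (a : ℤ) : Lam μ (fun _ => a) = a := by
  induction μ using Multiset.induction_on with
  | empty => simp
  | cons b μ ih => rw [Lam_cons, ih]; ring

lemma Lam_id (μ : Multiset ℤ) : Lam μ (fun x => x) = 0 := by
  induction μ using Multiset.induction_on with
  | empty => simp
  | cons b μ ih => rw [Lam_cons, ih]; ring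

lemma Lam_neg' (μ : Multiset ℤ) (e : ℤ → ℤ) : Lam μ (fun x => -e x) = -Lam μ e := by
  induction μ using Multiset.induction_on with
  | empty => simp
  | cons b μ ih => rw [Lam_cons, Lam_cons, ih]; ring

lemma card_add {μ : Multiset ℤ} (h : Valid μ) : (add μ).card = (rem μ).card + 1 := by
  have h1 := LamM_valid h (fun _ => (2 : ℚ)) (fun _ => two_ne_zero)
  have h2 := LamM_zpow μ (two_ne_zero (α := ℚ)) (fun _ => 1)
  simp only [zpow_one, Lam_const] at h2
  rw [h2, prod_const, prod_const] at h1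
  have h3 : (2 : ℚ) ^ (add μ).card = 2 ^ ((rem μ).card + 1) := by
    rw [pow_succ]; field_simp at h1; linarith
  exact pow_right_injective₀ two_pos (by norm_num) h3

end lamM

lemma norm_LamM {K : Type*} [NormedField K] (μ : Multiset ℤ) (f : ℤ → K) :
    ‖LamM μ f‖ = LamM μ fun x => ‖f x‖ := by
  induction μ using Multiset.induction_on with
  | empty => simp
  | cons b μ ih => simp only [LamM_cons, norm_mul, norm_div, norm_pow, ih]

lemma LamM_pos (μ : Multiset ℤ) (f : ℤ → ℝ) (hf : ∀ x, 0 < f x) : 0 < LamM μ f := by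
  induction μ using Multiset.induction_on with
  | empty => simpa using hf 0
  | cons b μ ih =>
    rw [LamM_cons]
    have := hf (b - 1); have := hf (b + 1); have := hf b
    positivity

lemma LamM_le (μ : Multiset ℤ) (f g : ℤ → ℝ) {B : ℝ} (hB : 1 ≤ B) (hg : ∀ x, 0 < g x)
    (h1 : ∀ x, g x ≤ f x) (h2 : ∀ x ∈ supp3 μ, f x ≤ B * g x) :
    LamM μ f ≤ LamM μ g * B ^ (2 * Multiset.card μ + 1) := by
  have hf : ∀ x, 0 < f x := fun x => (hg x).trans_le (h1 x)
  induction μ using Multiset.induction_on with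
  | empty => simpa [mul_comm] using h2 0 (zero_mem_supp3 _)
  | cons b μ ih =>
    obtain ⟨m1, -, m3⟩ := mem_supp3_cons μ b
    have i1 := ih fun x hx => h2 x (supp3_cons_subset μ b hx)
    have i2 : f (b - 1) * f (b + 1) / f b ^ 2 ≤ g (b - 1) * g (b + 1) / g b ^ 2 * B ^ 2 := by
      have a1 := hg (b - 1); have a2 := hg (b + 1); have a3 := hg b
      calc _ ≤ (B * g (b - 1)) * (B * g (b + 1)) / g b ^ 2 := by
            gcongr
            · exact (hf _).le
            · exact h2 _ m1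
            · exact h2 _ m3
            · exact h1 b
        _ = _ := by ring
    rw [LamM_cons, LamM_cons, Multiset.card_cons]
    have a1 := hf (b - 1); have a2 := hf (b + 1); have a3 := hf b
    have a4 := LamM_pos μ g hg
    calc _ ≤ (LamM μ g * B ^ (2 * Multiset.card μ + 1))
          * (g (b - 1) * g (b + 1) / g b ^ 2 * B ^ 2) := by gcongr
      _ = _ := by ring

/-- Transition weight for adding the content `c` to `μ`. -/
noncomputable def pw (q : ℚ_[2]) (μ : Multiset ℤ) (c : ℤ) : ℚ_[2] :=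
  q ^ (-c) * LamM μ fun x => if x = c then 1 else (q ^ c - q ^ x)⁻¹

/-- Weight of a tableau (inverse Schur element). -/
noncomputable def mw (q : ℚ_[2]) (n : ℕ) (t : ℕ → ℤ) : ℚ_[2] := ∏ k ∈ range n, pw q (st t k) (t k)

/-- Diagonal seminormal coefficient. -/
noncomputable def aa (q : ℚ_[2]) (c d : ℤ) : ℚ_[2] := (q - 1) * q ^ d / (q ^ d - q ^ c)

/-- Off-diagonal seminormal coefficient. -/
noncomputable def bb (q : ℚ_[2]) (c d : ℤ) : ℚ_[2] :=
  if 2 ≤ |c - d| then (q * q ^ c - q ^ d) / (q ^ c - q ^ d) else 0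

/-- Norm of the leading coefficient (Gram determinant factor). -/
noncomputable def gw (q : ℚ_[2]) (n : ℕ) (t : ℕ → ℤ) : ℝ :=
  ∏ k ∈ range n, LamM (st t k) fun x => if x < t k then ‖br q (t k - x)‖ else 1

namespace Good

variable {n : ℕ} {q : ℚ_[2]} {θ B : ℝ} (G : Good n q θ B)
include G

lemma pw_eq {μ : Multiset ℤ} (h : Valid μ) {c : ℤ} (hc : c ∈ add μ) :
    pw q μ c = q ^ (-c) * (Lagrange.nodalWeight (add μ) (fun x => q ^ x) c
      * ∏ b ∈ rem μ, (q ^ c - q ^ b)) := by
  unfold pw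
  rw [LamM_valid h _ fun x => by
    split_ifs with hx
    · exact one_ne_zero
    · exact inv_ne_zero (G.zpow_sub_ne (Ne.symm hx))]
  congr 2
  · rw [← mul_prod_erase _ _ hc, if_pos rfl, one_mul, Lagrange.nodalWeight]
    exact prod_congr rfl fun x hx => if_neg (mem_erase.1 hx).1
  · rw [← prod_inv_distrib]
    refine prod_congr rfl fun x hx => ?_
    have : x ≠ c := by
      intro e
      have h1 := mem_rem.1 hx
      have h2 := mem_add.1 hc
      rw [e] at h1; omega
    rw [if_neg this, inv_inv]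

lemma lagrange {μ : Multiset ℤ} (h : Valid μ) (u : ℚ_[2]) (hu : ∀ c ∈ add μ, u ≠ q ^ c) :
    ∏ b ∈ rem μ, (u - q ^ b) = (∏ c ∈ add μ, (u - q ^ c))
      * ∑ c ∈ add μ, (u - q ^ c)⁻¹ * q ^ c * pw q μ c := by
  have hinj : Set.InjOn (fun x : ℤ => q ^ x) (add μ) := by
    intro a _ b _ e
    by_contra hn
    exact G.zpow_ne hn e
  have hdeg : (Lagrange.nodal (rem μ) fun x : ℤ => q ^ x).degree < (add μ).card := by
    rw [Lagrange.degree_nodal, card_add h]; exact_mod_cast Nat.lt_succ_self _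
  have h1 := congrArg (Polynomial.eval u) (Lagrange.eq_interpolate hinj hdeg)
  rw [Lagrange.eval_interpolate_not_at_node _ hu, Lagrange.eval_nodal, Lagrange.eval_nodal] at h1
  rw [h1]
  congr 1
  refine sum_congr rfl fun c hc => ?_
  rw [G.pw_eq h hc, Lagrange.eval_nodal, zpow_neg]
  have := zpow_ne_zero c G.q0
  field_simp

lemma sum_pw {μ : Multiset ℤ} (h : Valid μ) : ∑ c ∈ add μ, pw q μ c = 1 := by
  have h0 := G.q0
  have h1 := G.lagrange h 0 fun c _ => (zpow_ne_zero c h0).symm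
  have h2 := LamM_valid h (fun x => q ^ x) fun x => zpow_ne_zero x h0
  rw [LamM_zpow μ h0 (fun x => x), Lam_id, zpow_zero] at h2
  have h3 : ∏ c ∈ rem μ, q ^ c ≠ 0 := prod_ne_zero_iff.2 fun x _ => zpow_ne_zero x h0
  have h4 : ∏ c ∈ add μ, q ^ c = ∏ c ∈ rem μ, q ^ c := by field_simp at h2; exact h2.symm
  have h5 : ∑ c ∈ add μ, (0 - q ^ c)⁻¹ * q ^ c * pw q μ c = -∑ c ∈ add μ, pw q μ c := by
    rw [← sum_neg_distrib]
    refine sum_congr rfl fun c _ => ?_
    have := zpow_ne_zero c h0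
    rw [zero_sub]; field_simp
  simp only [zero_sub] at h1 h5
  rw [h5, prod_neg, prod_neg, h4, card_add h, pow_succ] at h1
  have h6 : ((-1 : ℚ_[2]) ^ (rem μ).card * ∏ c ∈ rem μ, q ^ c) ≠ 0 :=
    mul_ne_zero (pow_ne_zero _ (by norm_num)) h3
  apply mul_left_cancel₀ h6
  rw [mul_one]
  conv_rhs => rw [h1]
  ring

lemma sum_pw_aa {μ : Multiset ℤ} (h : Valid μ) {b : ℤ} (hb : hh μ b = -1) :
    ∑ c ∈ add μ, pw q μ c * aa q b c = 0 := by
  have hne : ∀ c ∈ add μ, b ≠ c := by
    intro c hc e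
    have h2 := mem_add.1 hc
    rw [← e] at h2; omega
  have h1 := G.lagrange h (q ^ b) fun c hc => G.zpow_ne (hne c hc)
  rw [prod_eq_zero (f := fun x => q ^ b - q ^ x) (mem_rem.2 hb) (sub_self _)] at h1
  have h2 := (mul_eq_zero.1 h1.symm).resolve_left
    (prod_ne_zero_iff.2 fun c hc => G.zpow_sub_ne (hne c hc))
  have h3 : ∑ c ∈ add μ, pw q μ c * aa q b c
      = -(q - 1) * ∑ c ∈ add μ, (q ^ b - q ^ c)⁻¹ * q ^ c * pw q μ c := by
    rw [mul_sum]
    refine sum_congr rfl fun c hc => ?_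
    have a1 := G.zpow_sub_ne (hne c hc)
    have a2 := G.zpow_sub_ne (hne c hc).symm
    unfold aa
    field_simp
    ring
  rw [h3, h2, mul_zero]

lemma pw_swap (μ : Multiset ℤ) {c d : ℤ} (h : 2 ≤ |c - d|) :
    pw q μ c * pw q (c ::ₘ μ) d = pw q μ d * pw q (d ::ₘ μ) c := by
  have h3 : c - d ≤ -2 ∨ 2 ≤ c - d := by rcases le_abs'.1 h with h | h <;> omega
  have h0 := G.q0
  have a1 := G.zpow_sub_ne (a := d) (b := c - 1) (by omega)
  have a2 := G.zpow_sub_ne (a := d) (b := c + 1) (by omega)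
  have a3 := G.zpow_sub_ne (a := d) (b := c) (by omega)
  have a4 := G.zpow_sub_ne (a := c) (b := d - 1) (by omega)
  have a5 := G.zpow_sub_ne (a := c) (b := d + 1) (by omega)
  have a6 := G.zpow_sub_ne (a := c) (b := d) (by omega)
  have key : (q ^ d - q ^ (c - 1))⁻¹ * (q ^ d - q ^ (c + 1))⁻¹ / (q ^ d - q ^ c)⁻¹ ^ 2
      = (q ^ c - q ^ (d - 1))⁻¹ * (q ^ c - q ^ (d + 1))⁻¹ / (q ^ c - q ^ d)⁻¹ ^ 2 := by
    have e : (q ^ d - q ^ (c - 1)) * (q ^ d - q ^ (c + 1))
        = (q ^ c - q ^ (d - 1)) * (q ^ c - q ^ (d + 1)) := by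
      rw [zpow_sub_one₀ h0, zpow_add_one₀ h0, zpow_sub_one₀ h0, zpow_add_one₀ h0]
      field_simp; ring
    rw [← mul_inv, ← mul_inv, e, inv_pow, inv_pow]
    congr 2; ring
  unfold pw
  rw [LamM_cons, LamM_cons, if_neg (by omega), if_neg (by omega), if_neg (by omega),
    if_neg (by omega), if_neg (by omega), if_neg (by omega), key]
  ring

lemma mw_sw (t : ℕ → ℤ) {r m : ℕ} (hr : r + 1 < m) (h : 2 ≤ |t r - t (r + 1)|) :
    mw q m (sw r t) = mw q m t := by
  obtain ⟨Z, h1, h2⟩ := prod_sw (pw q) t hr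
  unfold mw
  rw [h1, h2, G.pw_swap _ h]

lemma norm_pw {μ : Multiset ℤ} {c : ℤ} (hc : hh μ c = 1) :
    ‖pw q μ c‖ = LamM μ fun x => if x = c then 1 else ‖br q (c - x)‖⁻¹ := by
  have h1 : ‖q - 1‖ ≠ 0 := norm_ne_zero_iff.2 G.q_ne_one
  unfold pw
  rw [norm_mul, G.norm_qz, one_mul, norm_LamM]
  have e : (fun x => ‖if x = c then (1 : ℚ_[2]) else (q ^ c - q ^ x)⁻¹‖)
      = fun x => (if x = c then 1 else ‖br q (c - x)‖⁻¹)
        * ‖q - 1‖ ^ ((if x = c then 1 else 0) - 1 : ℤ) := by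
    funext x
    split_ifs
    · simp
    · rw [norm_inv, G.norm_zpow_sub, mul_inv]; simp [mul_comm]
  rw [e, LamM_mul, LamM_zpow _ h1, Lam_sub, Lam_single, Lam_const, hc]
  simp

lemma gw_pos (m : ℕ) (t : ℕ → ℤ) : 0 < gw q m t :=
  prod_pos fun k _ => LamM_pos _ _ fun x => by
    split_ifs with h
    · exact G.norm_br_pos (by omega)
    · exact one_pos

lemma gw_mul_neg {m : ℕ} {t : ℕ → ℤ} (ht : t ∈ Std m) :
    gw q m t * gw q m (-t) * ‖mw q m t‖ = 1 := by
  unfold gw mw
  rw [norm_prod, ← prod_mul_distrib, ← prod_mul_distrib]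
  refine prod_eq_one fun k hk => ?_
  rw [G.norm_pw (hh_st ht (mem_range.1 hk)), st_neg, LamM_neg, ← LamM_mul, ← LamM_mul]
  refine Eq.trans ?_ (LamM_one (st t k))
  congr 1
  funext x
  rw [Pi.neg_apply]
  rcases lt_trichotomy x (t k) with h | h | h
  · rw [if_pos h, if_neg (by omega), if_neg h.ne, mul_one,
      mul_inv_cancel₀ (G.norm_br_pos (by omega)).ne']
  · rw [if_neg (by omega), if_neg (by omega), if_pos h]; simp
  · rw [if_neg (by omega), if_pos (by omega), if_neg h.ne', one_mul,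
      show -t k - -x = -(t k - x) by ring, G.norm_br_neg,
      mul_inv_cancel₀ (G.norm_br_pos (by omega)).ne']

omit G in
lemma gw_sw (t : ℕ → ℤ) {r m : ℕ} (hr : r + 1 < m) (h : t (r + 1) + 2 ≤ t r) :
    gw q m (sw r t) = gw q m t * (‖br q (t r - t (r + 1) - 1)‖ * ‖br q (t r - t (r + 1) + 1)‖
      / ‖br q (t r - t (r + 1))‖ ^ 2) := by
  obtain ⟨Z, h1, h2⟩ :=
    prod_sw (fun μ c => LamM μ fun x => if x < c then ‖br q (c - x)‖ else 1) t hr
  unfold gw
  rw [h1, h2, LamM_cons, LamM_cons, if_pos (by omega), if_pos (by omega), if_pos (by omega),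
    if_neg (by omega), if_neg (by omega), if_neg (by omega),
    show t r - (t (r + 1) - 1) = t r - t (r + 1) + 1 by ring,
    show t r - (t (r + 1) + 1) = t r - t (r + 1) - 1 by ring]
  ring

lemma norm_mw_le {t : ℕ → ℤ} (ht : t ∈ Std n) :
    ‖mw q n t‖ ≤ θ ^ (-ww t n) * B ^ (n * (2 * n + 1)) := by
  have hθ := G.θpos
  have hB := G.Bpos
  have key : ∀ k ∈ range n, ‖pw q (st t k) (t k)‖
      ≤ θ ^ (-wStep (st t k) (t k)) * B ^ (2 * n + 1) := by
    intro k hk
    have hk := mem_range.1 hk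
    rw [G.norm_pw (hh_st ht hk), wStep, ← Lam_neg', ← LamM_zpow _ hθ.ne']
    refine (LamM_le _ _
      (fun x => θ ^ (-(if x % 2 = t k % 2 ∧ x ≠ t k then 1 else 0) : ℤ)) G.B1 (fun x => by positivity) (fun x => ?_) (fun x hx => ?_)).trans ?_
    · by_cases h1 : x = t k
      · simp [h1]
      rw [if_neg h1]
      have h2 := G.norm_br_pos (c := t k - x) (by omega)
      split_ifs with h3
      · rw [zpow_neg, zpow_one]
        exact inv_anti₀ h2 (G.even_le _ (by omega))
      · rw [neg_zero, zpow_zero]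
        exact (one_le_inv₀ h2).2 (G.norm_br_le _)
    · by_cases h1 : x = t k
      · simpa [h1] using G.B1
      rw [if_neg h1]
      have h2 := G.norm_br_pos (c := t k - x) (by omega)
      split_ifs with h3
      · have h4 : |t k - x| ≤ 2 * n + 2 := by
          have a1 := abs_le.1 (abs_le_n ht k)
          simp only [supp3, mem_insert, mem_biUnion, Multiset.mem_toFinset, mem_singleton] at hx
          rcases hx with hx | ⟨b, hb, hx⟩
          · rw [abs_le]; omega
          · have a2 := abs_le.1 (abs_le_of_mem_st ht hb)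
            rw [abs_le]; omega
        have h5 := G.br_ge (c := t k - x) (by omega) h4
        rw [zpow_neg, zpow_one, ← div_eq_mul_inv, ← inv_div]
        exact inv_anti₀ (by positivity) h5
      · rw [G.odd _ (by omega)]; simpa using G.B1
    · rw [card_st]
      have := LamM_pos (st t k) (fun x => θ ^ (-(if x % 2 = t k % 2 ∧ x ≠ t k then 1 else 0) : ℤ))
        fun x => by positivity
      gcongr
      exact G.B1
  unfold mw ww
  rw [norm_prod]
  refine (prod_le_prod (fun _ _ => norm_nonneg _) key).trans (le_of_eq ?_)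
  rw [prod_mul_distrib, prod_const, card_range, ← pow_mul, mul_comm (2 * n + 1), ← sum_neg_distrib]
  congr 1
  induction (range n) using Finset.induction_on with
  | empty => simp
  | insert a s ha ih => rw [prod_insert ha, sum_insert ha, ih, zpow_add₀ hθ.ne']

end Good

end Pool.Agent.P.MP_e72dc0_lc.Sn
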